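import Mathlib
import Pool.Agent.Helper168.NottDefs
import Pool.Agent.Helper168.NottTheory

set_option autoImplicit false

/-! The Nottingham group over `F_2`: the decomposition `f = X A² + B²` and the filtration `E n`. -/

namespace Pool.Agent.H72R2.N2

open PowerSeries Pool.Agent.Helper168.NottDefs Topology
open scoped commutatorElement

abbrev J := Nott 2
abbrev R := PowerSeries (ZMod 2)

instance : Fact (Nat.Prime 2) := ⟨Nat.prime_two⟩

theorem two_eq_zero : (2 : R) = 0 := by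
  have : (2 : R) = PowerSeries.C (2 : ZMod 2) := (map_ofNat (PowerSeries.C (R := ZMod 2)) 2).symm
  rw [this, show (2 : ZMod 2) = 0 by decide, map_zero]

theorem add_self (P : R) : P + P = 0 := by
  rw [← two_mul, two_eq_zero, zero_mul]

theorem neg_eq (P : R) : -P = P := by
  rw [neg_eq_iff_add_eq_zero, add_self]

theorem sub_eq_add' (P Q : R) : P - Q = P + Q := by
  rw [sub_eq_add_neg, neg_eq]

theorem add_sq' (P Q : R) : (P + Q) ^ 2 = P ^ 2 + Q ^ 2 := by
  have : (P + Q) ^ 2 = P ^ 2 + Q ^ 2 + 2 * (P * Q) := by ring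
  rw [this, two_eq_zero, zero_mul, add_zero]

theorem zmod_sq (a : ZMod 2) : a * a = a := by
  revert a; decide

theorem zmod_add_self (a : ZMod 2) : a + a = 0 := by
  revert a; decide

theorem coeff_sq_even (P : R) (k : ℕ) : coeff (2 * k) (P ^ 2) = coeff k P := by
  rw [pow_two, coeff_mul]
  rw [← Finset.sum_erase_add _ _ (Finset.HasAntidiagonal.mem_antidiagonal.2 (show (k, k).1 + (k, k).2 = 2 * k by
    simp; ring))]
  rw [Finset.sum_involution (s := (Finset.HasAntidiagonal.antidiagonal (2 * k)).erase (k, k))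
    (g := fun x _ => (x.2, x.1)), zero_add, zmod_sq]
  · intro x _
    rw [mul_comm (coeff x.2 P)]
    exact zmod_add_self _
  · intro x hx _ h
    rw [Finset.mem_erase, Finset.HasAntidiagonal.mem_antidiagonal] at hx
    apply hx.1
    have h1 : x.2 = x.1 := congrArg Prod.fst h
    ext
    · simp; omega
    · simp; omega
  · intro x hx
    rw [Finset.mem_erase, Finset.HasAntidiagonal.mem_antidiagonal] at *
    refine ⟨?_, by simp; omega⟩
    intro h
    apply hx.1
    have h1 : x.2 = k := congrArg Prod.fst h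
    have h2 : x.1 = k := congrArg Prod.snd h
    ext
    · simpa using h2
    · simpa using h1
  · intro x _
    rfl

theorem coeff_sq_odd (P : R) (k : ℕ) : coeff (2 * k + 1) (P ^ 2) = 0 := by
  rw [pow_two, coeff_mul]
  apply Finset.sum_involution (g := fun x _ => (x.2, x.1))
  · intro x _
    rw [mul_comm (coeff x.2 P)]
    exact zmod_add_self _
  · intro x hx _ h
    rw [Finset.HasAntidiagonal.mem_antidiagonal] at hx
    have h1 : x.2 = x.1 := congrArg Prod.fst h
    omega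
  · intro x hx
    rw [Finset.HasAntidiagonal.mem_antidiagonal] at *
    simp; omega
  · intro x _
    rfl

theorem coeff_comb_odd (A B : R) (k : ℕ) : coeff (2 * k + 1) (X * A ^ 2 + B ^ 2) = coeff k A := by
  rw [map_add, coeff_sq_odd, add_zero, coeff_succ_X_mul, coeff_sq_even]

theorem coeff_comb_even (A B : R) (k : ℕ) : coeff (2 * k) (X * A ^ 2 + B ^ 2) = coeff k B := by
  rw [map_add, coeff_sq_even]
  cases k with
  | zero => simp
  | succ k =>
    rw [show 2 * (k + 1) = (2 * k + 1) + 1 by ring, coeff_succ_X_mul, coeff_sq_odd, zero_add]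

/-- the odd part -/
noncomputable def cA (f : J) : R := PowerSeries.mk fun k => coeff (2 * k + 1) f.ser
/-- the even part -/
noncomputable def cB (f : J) : R := PowerSeries.mk fun k => coeff (2 * k) f.ser

theorem coeff_cA (f : J) (k : ℕ) : coeff k (cA f) = coeff (2 * k + 1) f.ser := by
  simp [cA]

theorem coeff_cB (f : J) (k : ℕ) : coeff k (cB f) = coeff (2 * k) f.ser := by
  simp [cB]

theorem ser_eq (f : J) : f.ser = X * cA f ^ 2 + cB f ^ 2 := by
  ext n
  rcases Nat.even_or_odd' n with ⟨k, rfl | rfl⟩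
  · rw [coeff_comb_even, coeff_cB]
  · rw [coeff_comb_odd, coeff_cA]

theorem comb_inj {A B A' B' : R} (h : X * A ^ 2 + B ^ 2 = X * A' ^ 2 + B' ^ 2) :
    A = A' ∧ B = B' := by
  constructor
  · ext k
    rw [← coeff_comb_odd A B, h, coeff_comb_odd]
  · ext k
    rw [← coeff_comb_even A B, h, coeff_comb_even]

theorem cA_eq_of_ser {f : J} {A B : R} (h : f.ser = X * A ^ 2 + B ^ 2) : cA f = A :=
  (comb_inj ((ser_eq f).symm.trans h)).1

theorem cB_eq_of_ser {f : J} {A B : R} (h : f.ser = X * A ^ 2 + B ^ 2) : cB f = B :=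
  (comb_inj ((ser_eq f).symm.trans h)).2

theorem ext_AB {f g : J} (hA : cA f = cA g) (hB : cB f = cB g) : f = g := by
  apply Nott.ext
  rw [ser_eq f, ser_eq g, hA, hB]

theorem cA_zero (f : J) : coeff 0 (cA f) = 1 := by
  rw [coeff_cA]; exact f.c1

theorem cB_zero (f : J) : coeff 0 (cB f) = 0 := by
  rw [coeff_cB]; exact f.c0

/-- the element `X (1 + X P)² + (X Q)²` -/
noncomputable def mkJ (P Q : R) : J where
  ser := X * (1 + X * P) ^ 2 + (X * Q) ^ 2
  c0 := by simp
  c1 := by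
    have := coeff_comb_odd (1 + X * P) (X * Q) 0
    simp only [mul_zero, zero_add] at this
    rw [this]; simp

theorem cA_mkJ (P Q : R) : cA (mkJ P Q) = 1 + X * P := cA_eq_of_ser rfl
theorem cB_mkJ (P Q : R) : cB (mkJ P Q) = X * Q := cB_eq_of_ser rfl

theorem cA_one : cA (1 : J) = 1 := cA_eq_of_ser (B := 0) (by rw [Nott.one_ser]; ring)
theorem cB_one : cB (1 : J) = 0 := cB_eq_of_ser (A := 1) (by rw [Nott.one_ser]; ring)

/-- `X ↦ X (1 + X^k)²`, with `A = 1 + X^k`, `B = 0` (for `k ≥ 1`) -/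
noncomputable def aa (k : ℕ) : J := mkJ (X ^ (k - 1)) 0
/-- `X ↦ X + X^(2k)`, with `A = 1`, `B = X^k` (for `k ≥ 1`) -/
noncomputable def oo (k : ℕ) : J := mkJ 0 (X ^ (k - 1))

theorem X_mul_X_pow {k : ℕ} (hk : 1 ≤ k) : (X : R) * X ^ (k - 1) = X ^ k := by
  rw [← pow_succ']; congr 1; omega

theorem cA_aa {k : ℕ} (hk : 1 ≤ k) : cA (aa k) = 1 + X ^ k := by
  rw [aa, cA_mkJ, X_mul_X_pow hk]
theorem cB_aa (k : ℕ) : cB (aa k) = 0 := by rw [aa, cB_mkJ, mul_zero]
theorem cA_oo (k : ℕ) : cA (oo k) = 1 := by rw [oo, cA_mkJ, mul_zero, add_zero]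
theorem cB_oo {k : ℕ} (hk : 1 ≤ k) : cB (oo k) = X ^ k := by
  rw [oo, cB_mkJ, X_mul_X_pow hk]

theorem ser_aa {k : ℕ} (hk : 1 ≤ k) : (aa k).ser = X + X ^ (2 * k + 1) := by
  rw [ser_eq, cA_aa hk, cB_aa, add_sq']; ring
theorem ser_oo {k : ℕ} (hk : 1 ≤ k) : (oo k).ser = X + X ^ (2 * k) := by
  rw [ser_eq, cA_oo, cB_oo hk]; ring

/-- substitution `P ↦ P(g)` -/
noncomputable def sb (g : J) : R →ₐ[ZMod 2] R := PowerSeries.substAlgHom g.hasSubst

theorem sb_eq (g : J) (P : R) : sb g P = PowerSeries.subst g.ser P := by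
  rw [sb, PowerSeries.coe_substAlgHom]

theorem sb_X (g : J) : sb g X = g.ser := by
  rw [sb_eq, PowerSeries.subst_X g.hasSubst]

theorem sb_X_pow (g : J) (k : ℕ) : sb g (X ^ k) = g.ser ^ k := by
  rw [map_pow, sb_X]

theorem mul_ser' (f g : J) : (f * g).ser = sb g f.ser := by
  rw [sb_eq]; rfl

theorem sb_sb (f g : J) (P : R) : sb g (sb f P) = sb (f * g) P := by
  rw [sb_eq, sb_eq, sb_eq, PowerSeries.subst_comp_subst_apply f.hasSubst g.hasSubst]
  rfl

theorem sb_one (P : R) : sb 1 P = P := by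
  rw [sb_eq, Nott.one_ser, PowerSeries.X_subst]

theorem mul_comb (f g : J) : (f * g).ser =
    X * (cA g * sb g (cA f)) ^ 2 + (cB g * sb g (cA f) + sb g (cB f)) ^ 2 := by
  rw [mul_ser', ser_eq f, map_add, map_mul, map_pow, map_pow, sb_X, ser_eq g, add_sq']
  ring

theorem cA_mul (f g : J) : cA (f * g) = cA g * sb g (cA f) := cA_eq_of_ser (mul_comb f g)
theorem cB_mul (f g : J) : cB (f * g) = cB g * sb g (cA f) + sb g (cB f) :=
  cB_eq_of_ser (mul_comb f g)

/-! ### divisibility by powers of `X` -/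

theorem X_dvd_ser (g : J) : (X : R) ∣ g.ser := Nott.X_dvd_of g.c0

theorem dvd_sb {g : J} {N : ℕ} {P : R} (h : (X : R) ^ N ∣ P) : (X : R) ^ N ∣ sb g P := by
  obtain ⟨Q, rfl⟩ := h
  rw [map_mul, sb_X_pow]
  exact Dvd.dvd.mul_right (pow_dvd_pow_of_dvd (X_dvd_ser g) N) _

theorem dvd_sb_iff {g : J} {N : ℕ} {P : R} : (X : R) ^ N ∣ sb g P ↔ (X : R) ^ N ∣ P := by
  constructor
  · intro h
    have := dvd_sb (g := g⁻¹) h
    rwa [sb_sb, mul_inv_cancel, sb_one] at this
  · exact dvd_sb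

/-- changing the substituted series: `g ≡ g'` modulo `X^N` implies `P(g) ≡ P(g')` modulo `X^N` -/
theorem dvd_sb_sub {g g' : J} {N : ℕ} (h : (X : R) ^ N ∣ g.ser - g'.ser) (P : R) :
    (X : R) ^ N ∣ sb g P - sb g' P := by
  rw [X_pow_dvd_iff]
  intro m hm
  rw [map_sub, sb_eq, sb_eq, Nott.coeff_subst_eq g.c0, Nott.coeff_subst_eq g'.c0,
    sub_eq_zero]
  apply Finset.sum_congr rfl
  intro k _
  have h' : Nott.Cong N g.ser g'.ser := h
  rw [Nott.Cong.iff.1 (h'.pow k) m hm]

/-- congruence modulo the level `n` of the filtration -/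
def CongE (n : ℕ) (f g : J) : Prop :=
  (X : R) ^ (2 * n) ∣ cA f - cA g ∧ (X : R) ^ (n + 1) ∣ cB f - cB g

theorem CongE.refl (n : ℕ) (f : J) : CongE n f f := by simp [CongE]
theorem CongE.symm {n : ℕ} {f g : J} (h : CongE n f g) : CongE n g f := by
  refine ⟨?_, ?_⟩
  · rw [← neg_sub]; exact h.1.neg_right
  · rw [← neg_sub]; exact h.2.neg_right
theorem CongE.trans {n : ℕ} {f g k : J} (h : CongE n f g) (h' : CongE n g k) : CongE n f k := by
  refine ⟨?_, ?_⟩
  · rw [← sub_add_sub_cancel (cA f) (cA g) (cA k)]; exact dvd_add h.1 h'.1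
  · rw [← sub_add_sub_cancel (cB f) (cB g) (cB k)]; exact dvd_add h.2 h'.2
theorem CongE.mono {m n : ℕ} (hmn : m ≤ n) {f g : J} (h : CongE n f g) : CongE m f g :=
  ⟨(pow_dvd_pow _ (by omega)).trans h.1, (pow_dvd_pow _ (by omega)).trans h.2⟩

theorem CongE.ser {n : ℕ} {f g : J} (h : CongE n f g) (hn : 1 ≤ n) :
    (X : R) ^ (2 * n + 2) ∣ f.ser - g.ser := by
  have : f.ser - g.ser = X * (cA f - cA g) ^ 2 + (cB f - cB g) ^ 2 := by
    rw [ser_eq f, ser_eq g, sub_eq_add', sub_eq_add', sub_eq_add', add_sq', add_sq']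
    ring
  rw [this]
  apply dvd_add
  · have h1 := pow_dvd_pow_of_dvd h.1 2
    rw [← pow_mul] at h1
    have h2 : (X : R) ^ (2 * n * 2 + 1) ∣ X * (cA f - cA g) ^ 2 := by
      rw [pow_succ']; exact mul_dvd_mul_left _ h1
    exact (pow_dvd_pow _ (by omega)).trans h2
  · have h1 := pow_dvd_pow_of_dvd h.2 2
    rw [← pow_mul] at h1
    exact (pow_dvd_pow _ (by omega)).trans h1

theorem dvd_mul_sub {N : ℕ} {a b c d : R} (h : (X : R) ^ N ∣ a - b) (h' : (X : R) ^ N ∣ c - d) :
    (X : R) ^ N ∣ a * c - b * d := by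
  have : a * c - b * d = (a - b) * c + b * (c - d) := by ring
  rw [this]
  exact dvd_add (h.mul_right _) (h'.mul_left _)

theorem dvd_add_sub {N : ℕ} {a b c d : R} (h : (X : R) ^ N ∣ a - b) (h' : (X : R) ^ N ∣ c - d) :
    (X : R) ^ N ∣ (a + c) - (b + d) := by
  have : (a + c) - (b + d) = (a - b) + (c - d) := by ring
  rw [this]
  exact dvd_add h h'

theorem dvd_sb_congr {N M : ℕ} {P Q : R} {g g' : J} (h : (X : R) ^ N ∣ P - Q)
    (h' : (X : R) ^ M ∣ g.ser - g'.ser) (hM : N ≤ M) : (X : R) ^ N ∣ sb g P - sb g' Q := by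
  have : sb g P - sb g' Q = sb g (P - Q) + (sb g Q - sb g' Q) := by rw [map_sub]; ring
  rw [this]
  exact dvd_add (dvd_sb h) ((pow_dvd_pow _ hM).trans (dvd_sb_sub h' Q))

theorem congE_zero (f g : J) : CongE 0 f g := by
  refine ⟨by simp, ?_⟩
  rw [zero_add, pow_one, X_dvd_iff]
  simp only [map_sub]
  have h1 := cB_zero f
  have h2 := cB_zero g
  rw [coeff_zero_eq_constantCoeff_apply] at h1 h2
  rw [h1, h2, sub_zero]

theorem CongE.mul {n : ℕ} {f f' g g' : J} (h : CongE n f f') (h' : CongE n g g') :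
    CongE n (f * g) (f' * g') := by
  rcases Nat.eq_zero_or_pos n with rfl | hn
  · exact congE_zero _ _
  have hs := h'.ser hn
  refine ⟨?_, ?_⟩
  · rw [cA_mul, cA_mul]
    exact dvd_mul_sub h'.1 (dvd_sb_congr h.1 hs (by omega))
  · rw [cB_mul, cB_mul]
    refine dvd_add_sub (dvd_mul_sub h'.2 ?_) (dvd_sb_congr h.2 hs (by omega))
    exact dvd_sb_congr ((pow_dvd_pow _ (by omega)).trans h.1) hs (by omega)

/-- `E n`: `A ≡ 1` modulo `X^(2n)` and `B ≡ 0` modulo `X^(n+1)`. -/
def E (n : ℕ) : Subgroup J where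
  carrier := {f | CongE n f 1}
  one_mem' := CongE.refl _ _
  mul_mem' := by
    intro a b ha hb
    have := CongE.mul ha hb
    rwa [mul_one] at this
  inv_mem' := by
    intro a ha
    have := CongE.mul ha (CongE.refl n a⁻¹)
    rw [mul_inv_cancel, one_mul] at this
    exact this.symm

theorem mem_E {n : ℕ} {f : J} : f ∈ E n ↔ CongE n f 1 := Iff.rfl

theorem mem_E' {n : ℕ} {f : J} : f ∈ E n ↔ (X : R) ^ (2 * n) ∣ cA f - 1 ∧ (X : R) ^ (n + 1) ∣ cB f := by
  rw [mem_E, CongE, cA_one, cB_one, sub_zero]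

theorem congE_iff {n : ℕ} {f g : J} : CongE n f g ↔ f * g⁻¹ ∈ E n := by
  constructor
  · intro h
    have := CongE.mul h (CongE.refl n g⁻¹)
    rwa [mul_inv_cancel] at this
  · intro h
    have := CongE.mul (mem_E.1 h) (CongE.refl n g)
    rwa [inv_mul_cancel_right, one_mul] at this

theorem congE_iff' {n : ℕ} {f g : J} : CongE n f g ↔ g⁻¹ * f ∈ E n := by
  constructor
  · intro h
    have := CongE.mul (CongE.refl n g⁻¹) h
    rwa [inv_mul_cancel] at this
  · intro h
    have := CongE.mul (CongE.refl n g) (mem_E.1 h)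
    rwa [mul_inv_cancel_left, mul_one] at this

instance E_normal (n : ℕ) : (E n).Normal := by
  constructor
  intro f hf g
  rw [← congE_iff]
  have := CongE.mul (CongE.refl n g) (mem_E.1 hf)
  rwa [mul_one] at this

theorem E_anti {m n : ℕ} (h : m ≤ n) : E n ≤ E m := fun _ hf => CongE.mono h hf

theorem E_zero : E 0 = ⊤ := by
  rw [eq_top_iff]; intro f _; exact congE_zero _ _

theorem CongE.inv {n : ℕ} {f g : J} (h : CongE n f g) : CongE n f⁻¹ g⁻¹ := by
  rw [congE_iff, inv_inv]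
  exact (congE_iff'.1 h.symm)

theorem CongE.pow {n : ℕ} {f g : J} (h : CongE n f g) (k : ℕ) : CongE n (f ^ k) (g ^ k) := by
  induction k with
  | zero => simp only [pow_zero]; exact CongE.refl _ _
  | succ k ih => rw [pow_succ, pow_succ]; exact ih.mul h

/-- commutator from a congruence `f g ≡ w g f` -/
theorem comm_cong {n : ℕ} {f g w : J} (h : CongE n (f * g) (w * (g * f))) : CongE n ⁅f, g⁆ w := by
  have := h.mul (CongE.refl n (g * f)⁻¹)
  rw [mul_inv_cancel_right] at this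
  have e : f * g * (g * f)⁻¹ = ⁅f, g⁆ := by rw [commutatorElement_def]; group
  rwa [e] at this

/-- conjugation from a congruence `y f ≡ f' y` -/
theorem conj_cong {n : ℕ} {y f f' : J} (h : CongE n (y * f) (f' * y)) :
    CongE n (y * f * y⁻¹) f' := by
  have := h.mul (CongE.refl n y⁻¹)
  rwa [mul_inv_cancel_right] at this

end Pool.Agent.H72R2.N2
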