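import Mathlib
import Pool.Agent.H72R2.N2.Base
import Pool.Agent.Helper948.ProP.Defs

set_option autoImplicit false

/-! Statements for the finite presentability of the Nottingham group over `F_2`. -/

namespace Pool.Agent.H72R2.N2

open PowerSeries Pool.Agent.Helper168.NottDefs Topology
open scoped commutatorElement

/-! ### the filtration -/

def S_COMM : Prop := ∀ (i j : ℕ) (g h : J), 1 ≤ i → 1 ≤ j → g ∈ E i → h ∈ E j → ⁅g, h⁆ ∈ E (i + j + 1)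

def S_COMMT : Prop := ∀ (i : ℕ) (g h : J), g ∈ E i → ⁅g, h⁆ ∈ E (i + 1)

def S_SQ : Prop := ∀ (i : ℕ) (g : J), 1 ≤ i → g ∈ E i → g * g ∈ E (2 * i)

def S_DEC : Prop := ∀ (n : ℕ) (g : J), 1 ≤ n → g ∈ E n → ∃ a b c : ℕ, a ≤ 1 ∧ b ≤ 1 ∧ c ≤ 1 ∧
  CongE (n + 1) g (aa (2 * n) ^ a * aa (2 * n + 1) ^ b * oo (n + 1) ^ c)

def S_DEC0 : Prop := ∀ g : J, ∃ a b : ℕ, a ≤ 1 ∧ b ≤ 1 ∧ CongE 1 g (oo 1 ^ a * aa 1 ^ b)

def S_IND : Prop := ∀ n a b c : ℕ, 1 ≤ n → a ≤ 1 → b ≤ 1 → c ≤ 1 →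
  aa (2 * n) ^ a * aa (2 * n + 1) ^ b * oo (n + 1) ^ c ∈ E (n + 1) → a = 0 ∧ b = 0 ∧ c = 0

def S_MEM : Prop := (∀ k s : ℕ, 1 ≤ k → 2 * s ≤ k → aa k ∈ E s) ∧
  (∀ k s : ℕ, 1 ≤ k → s + 1 ≤ k → oo k ∈ E s)

/-! ### first-order operators (conjugation by `x0 = oo 1`, `x1 = aa 1`) -/

def S_B1 : Prop := ∀ i : ℕ, 2 ≤ i →
  CongE (i + 2) (oo 1 * aa (2 * i)) (aa (2 * i) * aa (2 * i + 2) ^ i * oo 1)

def S_B2 : Prop := ∀ i : ℕ, 1 ≤ i →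
  CongE (i + 2) (oo 1 * aa (2 * i + 1)) (aa (2 * i + 1) * aa (2 * i + 2) * aa (2 * i + 3) ^ i * oo 1)

def S_B3 : Prop := ∀ i : ℕ, 1 ≤ i →
  CongE (i + 2) (oo 1 * oo (i + 1)) (oo (i + 1) * oo (i + 2) ^ (i + 1) * oo 1)

def S_B4 : Prop := ∀ i : ℕ, 2 ≤ i → CongE (i + 2) (aa 1 * aa (2 * i)) (aa (2 * i) * aa 1)

def S_B5 : Prop := ∀ i : ℕ, 1 ≤ i →
  CongE (i + 2) (aa 1 * aa (2 * i + 1)) (aa (2 * i + 1) * aa (2 * i + 3) * aa 1)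

def S_B6 : Prop := ∀ i : ℕ, 1 ≤ i →
  CongE (i + 2) (aa 1 * oo (i + 1)) (oo (i + 1) * oo (i + 2) * aa (2 * i + 2) * aa (2 * i + 3) * aa 1)

def S_B7 : Prop := CongE 3 (oo 1 * aa 2) (aa 2 * aa 4 * oo 3 * oo 1) ∧
  CongE 3 (aa 1 * aa 2) (aa 2 * aa 5 * aa 1)

/-! ### deep commutators and squares -/

def S_C1 : Prop := ∀ (i j : ℕ) (h : J), 1 ≤ i → 2 ≤ j → h ∈ E i → ⁅aa (2 * j), h⁆ ∈ E (i + j + 2)

def S_C2 : Prop := ∀ k l s : ℕ, 1 ≤ k → 1 ≤ l → 2 * s ≤ k + 2 * l → 2 * s ≤ l + 2 * k →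
  ⁅aa k, aa l⁆ ∈ E s

def S_C3 : Prop := ∀ k l s : ℕ, 1 ≤ k → 1 ≤ l → s + 2 ≤ k + 2 * l → s + 2 ≤ l + 2 * k →
  ⁅oo k, oo l⁆ ∈ E s

def S_C4 : Prop := ∀ k l s : ℕ, Odd k → 1 ≤ l → 2 * s + 2 ≤ k + 4 * l → 2 * s + 1 ≤ 2 * k + 2 * l →
  s + 1 ≤ k + l → CongE s ⁅aa k, oo l⁆ (aa (k + 2 * l - 1))

def S_C5 : Prop := (∀ k s : ℕ, 1 ≤ k → 2 * s ≤ 3 * k → CongE s (aa k * aa k) (aa (2 * k))) ∧
  (∀ k s : ℕ, 1 ≤ k → s + 2 ≤ 3 * k → oo k * oo k ∈ E s) ∧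
  oo 1 * oo 1 = oo 2 ∧ CongE 2 (aa 1 * aa 1) (aa 2 * aa 3)

def S_IOTA : Prop := ∃ i : J, i * i = 1 ∧ CongE 1 i (oo 1 * aa 1)

/-! ### second-order moves -/

def S_D1 : Prop := ∀ j : ℕ, 3 ≤ j →
  CongE (j + 3) (aa 1 * aa (2 * j)) (aa (2 * j) * aa (2 * j + 4) ^ j * aa 1)

def S_D2 : Prop := ∀ i : ℕ, 2 ≤ i → CongE (i + 4) (oo 2 * aa (2 * i + 1))
  (aa (2 * i + 1) * aa (2 * i + 4) * aa (2 * i + 7) ^ i * oo 2)

def S_D3 : Prop := ∀ l : ℕ, 2 ≤ l → CongE (l + 3) (oo 2 * oo l) (oo l * oo (l + 3) ^ l * oo 2)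

def S_D4 : Prop := ∀ i : ℕ, 2 ≤ i →
  CongE (i + 4) (aa 3 * aa (2 * i + 1)) (aa (2 * i + 1) * aa (2 * i + 7) * aa 3)

def S_D5 : Prop := ∀ l : ℕ, 3 ≤ l →
  CongE (l + 3) (aa 3 * oo l) (oo l * oo (l + 3) * aa (2 * l + 2) * aa (2 * l + 5) * aa 3)

def S_D6 : Prop := ∀ l : ℕ, 2 ≤ l → CongE (l + 2) (aa 2 * oo l) (oo l * oo (l + 2) * aa 2)

def S_D7 : Prop := ∀ l : ℕ, 4 ≤ l → CongE (l + 5) (oo 3 * oo l) (oo l * oo (l + 5) ^ l * oo 3)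

/-! ### generation -/

/-- `E (n+1)` is generated by commutators modulo deep levels -/
def S_GEN : Prop := ∀ n M : ℕ, 1 ≤ n → E (n + 1) ≤ ⁅E n, (⊤ : Subgroup J)⁆ ⊔ E M

/-! ### central extensions -/

/-- A group `Γ` with a relation `L` to `J` making it a central extension of `J / E (n+2)` by the
group `{1, z}` of order two, in which all lifts of elements of `E (n+1)` are central. -/
structure Ext (n : ℕ) where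
  Γ : Type
  [grp : Group Γ]
  z : Γ
  hz : z ≠ 1
  L : Subgroup (Γ × J)
  surjJ : ∀ g : J, ∃ u, (u, g) ∈ L
  surjΓ : ∀ u : Γ, ∃ g, (u, g) ∈ L
  lift_z : (z, (1 : J)) ∈ L
  ker : ∀ u g, (u, g) ∈ L → g ∈ E (n + 2) → u = 1 ∨ u = z
  coker : ∀ g, ((1 : Γ), g) ∈ L → g ∈ E (n + 2)
  cent : ∀ u g, (u, g) ∈ L → g ∈ E (n + 1) → ∀ v : Γ, u * v = v * u

attribute [instance] Ext.grp

/-- the subgroup generated by the commutators `[u, v]` with `u` lifting an element of `E n` -/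
def Ext.cm {n : ℕ} (X : Ext n) : Subgroup X.Γ :=
  Subgroup.closure {w | ∃ u g v, (u, g) ∈ X.L ∧ g ∈ E n ∧ w = ⁅u, v⁆}

/-- the inductive step -/
def StepS (n : ℕ) : Prop := ∀ X : Ext n, X.z ∉ X.cm

/-- the descended statement -/
def DescS (n0 : ℕ) : Prop := ∀ (Q : Type) [Group Q] (π : Q →* J) (z : Q) (V : Subgroup Q) (N : ℕ),
  V.Normal → Function.Surjective π → z ≠ 1 → (∀ q, π q = 1 ↔ q = 1 ∨ q = z) → z ∉ V →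
  (∀ g ∈ E N, ∃ v ∈ V, π v = g) →
  ∃ T : Subgroup Q, T.Normal ∧ z ∉ T ∧ (∃ M, V ⊓ (E M).comap π ≤ T) ∧
    T.index = 2 * (E (n0 + 1)).index

def S_DESC : Prop := S_COMMT → S_GEN → ∀ n0 : ℕ, 1 ≤ n0 → (∀ n, n0 ≤ n → StepS n) → DescS n0

/-! ### topology and the final statement -/

def S_TOP1 : Prop := (∀ n, IsOpen (E n : Set J)) ∧ (∀ U ∈ 𝓝 (1 : J), ∃ n, (E n : Set J) ⊆ U) ∧
  (∀ n, (E n).index ≠ 0)

def S_TOP2 : Prop := Pool.Agent.Helper948.ProP.IsProP 2 J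

/-- `J` is topologically generated by `oo 1`, `aa 1`, `aa 3` -/
def S_TOP3 : Prop := ∀ H : Subgroup J, IsClosed (H : Set J) → oo 1 ∈ H → aa 1 ∈ H → aa 3 ∈ H → H = ⊤

/-- `J` is the quotient of every free pro-2 group on three generators by the closed normal subgroup
generated by finitely many elements. -/
def FinPres : Prop := ∀ (F : Type) [Group F] [TopologicalSpace F] [IsTopologicalGroup F]
  (ι : Fin 3 → F), Pool.Agent.Helper948.ProP.IsFreeProP 2 ι →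
  ∃ φ : F →ₜ* J, Function.Surjective φ ∧ ∃ S : Finset F,
    (φ : F →* J).ker = (Subgroup.normalClosure (S : Set F)).topologicalClosure

def S_MAIN : Prop := S_TOP1 → S_TOP2 → S_TOP3 → ∀ n0 : ℕ, DescS n0 → FinPres

end Pool.Agent.H72R2.N2
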