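import Mathlib
import Pool.Agent.H72R2.N2.Stm

set_option autoImplicit false

/-! Approximation calculus for products in the Nottingham group (helper205). -/

namespace Pool.Agent.H72R2.N2

open PowerSeries Pool.Agent.Helper168.NottDefs Topology

/-- `cA f ≡ 1 + P` modulo `X^a`, `cB f ≡ Q` modulo `X^b`, and the exact orders of `cA f - 1`, `cB f`,
`P`, `Q` are at least `m`, `n`. -/
structure App (a b m n : ℕ) (f : J) (P Q : R) : Prop where
  hA : (X : R) ^ a ∣ cA f - (1 + P)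
  hB : (X : R) ^ b ∣ cB f - Q
  oA : (X : R) ^ m ∣ cA f - 1
  oB : (X : R) ^ n ∣ cB f
  oP : (X : R) ^ m ∣ P
  oQ : (X : R) ^ n ∣ Q

theorem App.ser {a b m n : ℕ} {f : J} {P Q : R} (h : App a b m n f P Q) {r : ℕ}
    (h1 : r ≤ 2 * m + 1) (h2 : r ≤ 2 * n) : (X : R) ^ r ∣ f.ser - X := by
  have e : f.ser - X = X * (cA f - 1) ^ 2 + (cB f) ^ 2 := by
    rw [ser_eq f, sub_eq_add', sub_eq_add', add_sq']
    ring
  rw [e]
  refine dvd_add ?_ ?_
  · have h3 := pow_dvd_pow_of_dvd h.oA 2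
    rw [← pow_mul] at h3
    have h4 : (X : R) ^ (m * 2 + 1) ∣ X * (cA f - 1) ^ 2 := by
      rw [pow_succ']; exact mul_dvd_mul_left _ h3
    exact (pow_dvd_pow _ (by omega)).trans h4
  · have h3 := pow_dvd_pow_of_dvd h.oB 2
    rw [← pow_mul] at h3
    exact (pow_dvd_pow _ (by omega)).trans h3

/-- `g ≡ X` modulo `X^(r+1)` and `X^m ∣ P` imply `P(g) ≡ P` modulo `X^(m+r)`. -/
theorem sb_close {g : J} {r m N : ℕ} {P : R} (hg : (X : R) ^ (r + 1) ∣ g.ser - X)
    (hP : (X : R) ^ m ∣ P) (hN : N ≤ m + r) : (X : R) ^ N ∣ sb g P - P := by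
  refine (pow_dvd_pow _ hN).trans ?_
  obtain ⟨P', rfl⟩ := hP
  rw [map_mul, sb_X_pow]
  have h1 : (X : R) ^ (m + r) ∣ g.ser ^ m - X ^ m := by
    clear hN
    induction m with
    | zero => simp
    | succ m ih =>
      have e : g.ser ^ (m + 1) - X ^ (m + 1) = (g.ser ^ m - X ^ m) * g.ser +
        X ^ m * (g.ser - X) := by ring
      rw [e]
      refine dvd_add ?_ ?_
      · rw [show m + 1 + r = (m + r) + 1 by ring, pow_succ]
        exact mul_dvd_mul ih (X_dvd_ser g)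
      · rw [show m + 1 + r = m + (r + 1) by ring, pow_add]
        exact mul_dvd_mul_left _ hg
  have h2 : (X : R) ^ (r + 1) ∣ sb g P' - P' := by
    have h3 := dvd_sb_sub (g := g) (g' := 1) (N := r + 1) (by rwa [Nott.one_ser]) P'
    rwa [sb_one] at h3
  have e : g.ser ^ m * sb g P' - X ^ m * P' = (g.ser ^ m - X ^ m) * sb g P' +
    X ^ m * (sb g P' - P') := by ring
  rw [e]
  refine dvd_add (h1.mul_right _) ?_
  have h4 : (X : R) ^ (m + r) ∣ X ^ m * (sb g P' - P') := by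
    rw [pow_add]
    exact mul_dvd_mul_left _ ((pow_dvd_pow _ (by omega)).trans h2)
  exact h4

theorem App.mul {a b m n m' n' M N : ℕ} {f g : J} {P Q P' Q' : R} (h : App a b m n f P Q)
    (h' : App a b m' n' g P' Q') (c1 : a ≤ m + m') (c2 : a ≤ m + 2 * m')
    (c3 : a + 1 ≤ m + 2 * n') (c4 : b ≤ m + n') (c5 : b ≤ n + 2 * m') (c6 : b + 1 ≤ n + 2 * n')
    (c7 : M ≤ m) (c8 : M ≤ m') (c9 : N ≤ n) (c10 : N ≤ n') (hn : 1 ≤ n') :
    App a b M N (f * g) (P + P') (Q + Q') := by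
  obtain ⟨r, hr1, hr2, hr3⟩ : ∃ r, r + 1 ≤ 2 * m' + 1 ∧ r + 1 ≤ 2 * n' ∧
      (r = 2 * m' ∨ r + 1 = 2 * n') := by
    rcases le_total (2 * m' + 1) (2 * n') with h | h
    · exact ⟨2 * m', le_rfl, h, Or.inl rfl⟩
    · exact ⟨2 * n' - 1, by omega, by omega, Or.inr (by omega)⟩
  have hs := h'.ser hr1 hr2
  have k1 : (X : R) ^ a ∣ sb g P - P := sb_close hs h.oP (by omega)
  have k2 : (X : R) ^ b ∣ sb g Q - Q := sb_close hs h.oQ (by omega)
  have k3 : (X : R) ^ a ∣ sb g (cA f) - (1 + P) := by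
    have e : sb g (cA f) - (1 + P) = sb g (cA f - (1 + P)) + (sb g P - P) := by
      rw [map_sub, map_add, map_one]; ring
    rw [e]
    exact dvd_add (dvd_sb h.hA) k1
  have k4 : (X : R) ^ b ∣ sb g (cB f) - Q := by
    have e : sb g (cB f) - Q = sb g (cB f - Q) + (sb g Q - Q) := by
      rw [map_sub]; ring
    rw [e]
    exact dvd_add (dvd_sb h.hB) k2
  refine ⟨?_, ?_, ?_, ?_, ?_, ?_⟩
  · rw [cA_mul]
    have e : cA g * sb g (cA f) - (1 + (P + P')) =
        (cA g * sb g (cA f) - (1 + P') * (1 + P)) + P * P' := by ring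
    rw [e]
    refine dvd_add (dvd_mul_sub h'.hA k3) ?_
    have := mul_dvd_mul h.oP h'.oP
    rw [← pow_add] at this
    exact (pow_dvd_pow _ c1).trans this
  · rw [cB_mul]
    have e : cB g * sb g (cA f) + sb g (cB f) - (Q + Q') =
        (cB g - Q') + cB g * (sb g (cA f - 1)) + (sb g (cB f) - Q) := by
      rw [map_sub, map_one]; ring
    rw [e]
    refine dvd_add (dvd_add h'.hB ?_) k4
    have := mul_dvd_mul h'.oB (dvd_sb (g := g) h.oA)
    rw [← pow_add] at this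
    exact (pow_dvd_pow _ (by omega)).trans this
  · rw [cA_mul]
    have e : cA g * sb g (cA f) - 1 = (cA g - 1) * sb g (cA f) + sb g (cA f - 1) := by
      rw [map_sub, map_one]; ring
    rw [e]
    exact dvd_add (((pow_dvd_pow _ c8).trans h'.oA).mul_right _)
      (dvd_sb ((pow_dvd_pow _ c7).trans h.oA))
  · rw [cB_mul]
    exact dvd_add (((pow_dvd_pow _ c10).trans h'.oB).mul_right _)
      (dvd_sb ((pow_dvd_pow _ c9).trans h.oB))
  · exact dvd_add ((pow_dvd_pow _ c7).trans h.oP) ((pow_dvd_pow _ c8).trans h'.oP)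
  · exact dvd_add ((pow_dvd_pow _ c9).trans h.oQ) ((pow_dvd_pow _ c10).trans h'.oQ)

theorem App.of_aa {a b n : ℕ} (k : ℕ) (hk : 1 ≤ k) : App a b k n (aa k) (X ^ k) 0 := by
  refine ⟨?_, ?_, ?_, ?_, dvd_rfl, dvd_zero _⟩
  · rw [cA_aa hk, sub_self]; exact dvd_zero _
  · rw [cB_aa, sub_zero]; exact dvd_zero _
  · rw [cA_aa hk, add_sub_cancel_left]
  · rw [cB_aa]; exact dvd_zero _

theorem App.of_oo {a b m : ℕ} (k : ℕ) (hk : 1 ≤ k) : App a b m k (oo k) 0 (X ^ k) := by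
  refine ⟨?_, ?_, ?_, ?_, dvd_zero _, dvd_rfl⟩
  · rw [cA_oo, add_zero, sub_self]; exact dvd_zero _
  · rw [cB_oo hk, sub_self]; exact dvd_zero _
  · rw [cA_oo, sub_self]; exact dvd_zero _
  · rw [cB_oo hk]

theorem App.one {a b m n : ℕ} : App a b m n 1 0 0 := by
  refine ⟨?_, ?_, ?_, ?_, dvd_zero _, dvd_zero _⟩
  · rw [cA_one, add_zero, sub_self]; exact dvd_zero _
  · rw [cB_one, sub_zero]; exact dvd_zero _
  · rw [cA_one, sub_self]; exact dvd_zero _
  · rw [cB_one]; exact dvd_zero _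

theorem App.aa_pow {a b n : ℕ} (k : ℕ) (hk : 1 ≤ k) (i : ℕ) (h1 : a ≤ 2 * k) (h2 : a + 1 ≤ k + 2 * n)
    (h3 : b ≤ k + n) (h4 : b + 1 ≤ n + 2 * n) (hn : 1 ≤ n) :
    App a b k n (aa k ^ i) ((i : R) * X ^ k) 0 := by
  induction i with
  | zero => simpa using App.one
  | succ i ih =>
    rw [pow_succ]
    have h5 : App a b k n (aa k) (X ^ k) 0 := App.of_aa k hk
    have := ih.mul h5 (M := k) (N := n) (by omega) (by omega) (by omega) (by omega) (by omega)
      (by omega) le_rfl le_rfl le_rfl le_rfl hn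
    have e : ((i : R) * X ^ k + X ^ k) = (((i + 1 : ℕ) : R) * X ^ k) := by push_cast; ring
    rw [e, add_zero] at this
    exact this

theorem App.oo_pow {a b m : ℕ} (k : ℕ) (hk : 1 ≤ k) (i : ℕ) (h1 : a ≤ 2 * m) (h2 : a + 1 ≤ m + 2 * k)
    (h3 : b ≤ m + k) (h4 : b + 1 ≤ k + 2 * k) (h5 : b ≤ k + 2 * m) :
    App a b m k (oo k ^ i) 0 ((i : R) * X ^ k) := by
  induction i with
  | zero => simpa using App.one
  | succ i ih =>
    rw [pow_succ]
    have h6 : App a b m k (oo k) 0 (X ^ k) := App.of_oo k hk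
    have := ih.mul h6 (M := m) (N := k) (by omega) (by omega) (by omega) (by omega) (by omega)
      (by omega) le_rfl le_rfl le_rfl le_rfl hk
    have e : ((i : R) * X ^ k + X ^ k) = (((i + 1 : ℕ) : R) * X ^ k) := by push_cast; ring
    rw [e, add_zero] at this
    exact this

/-- `(1 + u)^n ≡ 1 + n u` modulo `u²`. -/
theorem one_add_pow_close (u : R) (n : ℕ) : ∃ c : R, (1 + u) ^ n = 1 + (n : R) * u + u ^ 2 * c := by
  induction n with
  | zero => exact ⟨0, by simp⟩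
  | succ n ih =>
    obtain ⟨c, hc⟩ := ih
    refine ⟨(n : R) + c * (1 + u), ?_⟩
    rw [pow_succ, hc]
    push_cast
    ring

/-- `(1 + u)^(2n) ≡ 1 + n u²` modulo `u⁴`. -/
theorem one_add_pow_two_mul_close (u : R) (n : ℕ) :
    ∃ c : R, (1 + u) ^ (2 * n) = 1 + (n : R) * u ^ 2 + u ^ 4 * c := by
  obtain ⟨c, hc⟩ := one_add_pow_close (u ^ 2) n
  refine ⟨c, ?_⟩
  rw [pow_mul, add_sq', one_pow, hc]
  ring

end Pool.Agent.H72R2.N2
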