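import Mathlib
import Pool.Agent.H72R2.N2.T205

set_option autoImplicit false

namespace Pool.Agent.H72R2.N2

open PowerSeries Pool.Agent.Helper168.NottDefs Topology

/-- comparison of `oo 1 * aa k` with `f' * oo 1` -/
theorem B1_aux {s k n : ℕ} (hk : 1 ≤ k) {f' : J} {P Q : R} (h : App (2 * s) (s + 1) k n f' P Q)
    (hP : (X : R) ^ (2 * s) ∣ sb (oo 1) P - X ^ k) (hks : s ≤ k) (hks2 : s + 1 ≤ 2 * k + 1)
    (hn : s + 1 ≤ n) : CongE s (oo 1 * aa k) (f' * oo 1) := by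
  have h1 : (X : R) ^ (2 * s) ∣ sb (oo 1) (cA f') - (1 + X ^ k) := by
    have e : sb (oo 1) (cA f') - (1 + X ^ k) = sb (oo 1) (cA f' - (1 + P)) +
        (sb (oo 1) P - X ^ k) := by rw [map_sub, map_add, map_one]; ring
    rw [e]
    exact dvd_add (dvd_sb h.hA) hP
  constructor
  · rw [cA_mul, cA_mul, cA_aa hk, cA_oo, map_one, mul_one, one_mul]
    rw [← neg_sub]
    exact h1.neg_right
  · rw [cB_mul, cB_mul, cB_aa, zero_mul, zero_add, cB_oo le_rfl, pow_one, sb_X, ser_aa hk]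
    have e : X + X ^ (2 * k + 1) - (X * sb (oo 1) (cA f') + sb (oo 1) (cB f')) =
        X ^ (2 * k + 1) - X * sb (oo 1) (cA f' - 1) - sb (oo 1) (cB f') := by
      rw [map_sub, map_one]; ring
    rw [e]
    refine dvd_sub (dvd_sub (pow_dvd_pow _ hks2) ?_) (dvd_sb ((pow_dvd_pow _ hn).trans h.oB))
    rw [pow_succ']
    exact mul_dvd_mul_left _ (dvd_sb ((pow_dvd_pow _ hks).trans h.oA))

theorem B1_sb (m : ℕ) : sb (oo 1) (X ^ (2 * m)) = X ^ (2 * m) * (1 + X) ^ (2 * m) := by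
  rw [sb_X_pow, ser_oo le_rfl, ← mul_pow]
  congr 1
  ring

theorem B1_natCast (g : J) (i : ℕ) (P : R) : sb g ((i : R) * P) = (i : R) * sb g P := by
  rw [map_mul, map_natCast]

theorem B1 : S_B1 := by
  intro i hi
  have h1 : App (2 * (i + 2)) (i + 3) (2 * i) (i + 3) (aa (2 * i)) (X ^ (2 * i)) 0 :=
    App.of_aa _ (by omega)
  have h2 : App (2 * (i + 2)) (i + 3) (2 * i + 2) (i + 3) (aa (2 * i + 2) ^ i)
      ((i : R) * X ^ (2 * i + 2)) 0 :=
    App.aa_pow _ (by omega) i (by omega) (by omega) (by omega) (by omega) (by omega)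
  have h3 : App (2 * (i + 2)) (i + 3) (2 * i) (i + 3) (aa (2 * i) * aa (2 * i + 2) ^ i)
      (X ^ (2 * i) + (i : R) * X ^ (2 * i + 2)) (0 + 0) :=
    h1.mul h2 (by omega) (by omega) (by omega) (by omega) (by omega) (by omega) (by omega)
      (by omega) (by omega) (by omega) (by omega)
  refine B1_aux (by omega) h3 ?_ (by omega) (by omega) (by omega)
  obtain ⟨c, hc⟩ := one_add_pow_two_mul_close X i
  obtain ⟨d, hd⟩ := one_add_pow_two_mul_close X (i + 1)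
  rw [map_add, B1_natCast, show 2 * i + 2 = 2 * (i + 1) by ring, B1_sb, B1_sb, hc, hd]
  have e : X ^ (2 * i) * (1 + (i : R) * X ^ 2 + X ^ 4 * c) +
      (i : R) * (X ^ (2 * (i + 1)) * (1 + ((i + 1 : ℕ) : R) * X ^ 2 + X ^ 4 * d)) - X ^ (2 * i) =
      X ^ (2 * (i + 2)) * (c + (i : R) * ((i + 1 : ℕ) : R) + (i : R) * X ^ 2 * d) +
      2 * ((i : R) * X ^ (2 * (i + 1))) := by ring
  rw [e, two_eq_zero, zero_mul, add_zero]
  exact dvd_mul_right _ _

end Pool.Agent.H72R2.N2
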