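import Mathlib
import Pool.Agent.H72R2.N2.T205
import Pool.Agent.H72R2.N2.B1

set_option autoImplicit false

namespace Pool.Agent.H72R2.N2

open PowerSeries Pool.Agent.Helper168.NottDefs Topology

theorem B2_sb (m : ℕ) : sb (oo 1) (X ^ m) = X ^ m * (1 + X) ^ m := by
  rw [sb_X_pow, ser_oo le_rfl, ← mul_pow]
  congr 1
  ring

theorem B2 : S_B2 := by
  intro i hi
  have h1 : App (2 * (i + 2)) (i + 3) (2 * i + 1) (i + 3) (aa (2 * i + 1)) (X ^ (2 * i + 1)) 0 :=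
    App.of_aa _ (by omega)
  have h2 : App (2 * (i + 2)) (i + 3) (2 * i + 2) (i + 3) (aa (2 * i + 2)) (X ^ (2 * i + 2)) 0 :=
    App.of_aa _ (by omega)
  have h3 : App (2 * (i + 2)) (i + 3) (2 * i + 3) (i + 3) (aa (2 * i + 3) ^ i)
      ((i : R) * X ^ (2 * i + 3)) 0 :=
    App.aa_pow _ (by omega) i (by omega) (by omega) (by omega) (by omega) (by omega)
  have h4 : App (2 * (i + 2)) (i + 3) (2 * i + 1) (i + 3) (aa (2 * i + 1) * aa (2 * i + 2))
      (X ^ (2 * i + 1) + X ^ (2 * i + 2)) (0 + 0) :=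
    h1.mul h2 (by omega) (by omega) (by omega) (by omega) (by omega) (by omega) (by omega)
      (by omega) (by omega) (by omega) (by omega)
  have h5 : App (2 * (i + 2)) (i + 3) (2 * i + 1) (i + 3)
      (aa (2 * i + 1) * aa (2 * i + 2) * aa (2 * i + 3) ^ i)
      (X ^ (2 * i + 1) + X ^ (2 * i + 2) + (i : R) * X ^ (2 * i + 3)) (0 + 0 + 0) :=
    h4.mul h3 (by omega) (by omega) (by omega) (by omega) (by omega) (by omega) (by omega)
      (by omega) (by omega) (by omega) (by omega)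
  refine B1_aux (by omega) h5 ?_ (by omega) (by omega) (by omega)
  obtain ⟨c, hc⟩ := one_add_pow_two_mul_close X i
  obtain ⟨d, hd⟩ := one_add_pow_two_mul_close X (i + 1)
  rw [map_add, map_add, B1_natCast, B2_sb, B2_sb, B2_sb]
  have e1 : (1 + X : R) ^ (2 * i + 1) = (1 + (i : R) * X ^ 2 + X ^ 4 * c) * (1 + X) := by
    rw [pow_succ, hc]
  have e2 : (1 + X : R) ^ (2 * i + 2) = 1 + ((i + 1 : ℕ) : R) * X ^ 2 + X ^ 4 * d := by
    rw [show 2 * i + 2 = 2 * (i + 1) by ring, hd]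
  have e3 : (1 + X : R) ^ (2 * i + 3) = (1 + ((i + 1 : ℕ) : R) * X ^ 2 + X ^ 4 * d) * (1 + X) := by
    rw [show 2 * i + 3 = (2 * i + 2) + 1 by ring, pow_succ, e2]
  rw [e1, e2, e3]
  have e : X ^ (2 * i + 1) * ((1 + (i : R) * X ^ 2 + X ^ 4 * c) * (1 + X)) +
      X ^ (2 * i + 2) * (1 + ((i + 1 : ℕ) : R) * X ^ 2 + X ^ 4 * d) +
      (i : R) * (X ^ (2 * i + 3) * ((1 + ((i + 1 : ℕ) : R) * X ^ 2 + X ^ 4 * d) * (1 + X))) -
      X ^ (2 * i + 1) =
      X ^ (2 * (i + 2)) * ((i : R) + X * c * (1 + X) + ((i + 1 : ℕ) : R) + X ^ 2 * d +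
        (i : R) * (1 + ((i + 1 : ℕ) : R) * X * (1 + X) + X ^ 3 * d * (1 + X))) +
      2 * (X ^ (2 * i + 2) + (i : R) * X ^ (2 * i + 3)) := by ring
  rw [e, two_eq_zero, zero_mul, add_zero]
  exact dvd_mul_right _ _

end Pool.Agent.H72R2.N2
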