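import Mathlib
import Pool.Agent.H72R2.N2.T205

set_option autoImplicit false

namespace Pool.Agent.H72R2.N2

open PowerSeries Pool.Agent.Helper168.NottDefs Topology

theorem B3_pow (k n : ℕ) : cA (oo k ^ n) = 1 := by
  induction n with
  | zero => rw [pow_zero, cA_one]
  | succ n ih => rw [pow_succ, cA_mul, cA_oo, ih, map_one, mul_one]

theorem B3_sb (m : ℕ) : sb (oo 1) (X ^ m) = X ^ m * (1 + X) ^ m := by
  rw [sb_X_pow, ser_oo le_rfl, ← mul_pow]
  congr 1
  ring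

theorem B3 : S_B3 := by
  intro i hi
  have h1 : App (2 * (i + 2)) (i + 3) (i + 4) (i + 1) (oo (i + 1)) 0 (X ^ (i + 1)) :=
    App.of_oo _ (by omega)
  have h2 : App (2 * (i + 2)) (i + 3) (i + 4) (i + 2) (oo (i + 2) ^ (i + 1)) 0
      (((i + 1 : ℕ) : R) * X ^ (i + 2)) :=
    App.oo_pow _ (by omega) _ (by omega) (by omega) (by omega) (by omega) (by omega)
  have h3 : App (2 * (i + 2)) (i + 3) (i + 4) (i + 1) (oo (i + 1) * oo (i + 2) ^ (i + 1)) (0 + 0)
      (X ^ (i + 1) + ((i + 1 : ℕ) : R) * X ^ (i + 2)) :=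
    h1.mul h2 (by omega) (by omega) (by omega) (by omega) (by omega) (by omega) (by omega)
      (by omega) (by omega) (by omega) (by omega)
  have hA : cA (oo (i + 1) * oo (i + 2) ^ (i + 1)) = 1 := by
    rw [cA_mul, B3_pow, cA_oo, map_one, mul_one]
  constructor
  · rw [cA_mul, cA_mul, cA_oo, cA_oo, hA, map_one, map_one, sub_self]
    exact dvd_zero _
  · rw [cB_mul, cB_mul (oo (i + 1) * oo (i + 2) ^ (i + 1)), hA, cA_oo, map_one, map_one,
      cB_oo (show 1 ≤ i + 1 by omega), cB_oo le_rfl, pow_one, mul_one, mul_one, sb_X,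
      ser_oo (show 1 ≤ i + 1 by omega)]
    obtain ⟨c, hc⟩ := one_add_pow_close X (i + 1)
    have h4 : (X : R) ^ (i + 3) ∣ sb (oo 1) (cB (oo (i + 1) * oo (i + 2) ^ (i + 1))) -
        X ^ (i + 1) := by
      have e : sb (oo 1) (cB (oo (i + 1) * oo (i + 2) ^ (i + 1))) - X ^ (i + 1) =
          sb (oo 1) (cB (oo (i + 1) * oo (i + 2) ^ (i + 1)) -
            (X ^ (i + 1) + ((i + 1 : ℕ) : R) * X ^ (i + 2))) +
          (sb (oo 1) (X ^ (i + 1) + ((i + 1 : ℕ) : R) * X ^ (i + 2)) - X ^ (i + 1)) := by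
        rw [map_sub]; ring
      rw [e]
      refine dvd_add (dvd_sb h3.hB) ?_
      rw [map_add, map_mul, map_natCast, B3_sb, B3_sb, show i + 2 = (i + 1) + 1 by ring,
        pow_succ (1 + X) (i + 1), hc]
      have e2 : X ^ (i + 1) * (1 + ((i + 1 : ℕ) : R) * X + X ^ 2 * c) + ((i + 1 : ℕ) : R) *
          (X ^ (i + 1 + 1) * ((1 + ((i + 1 : ℕ) : R) * X + X ^ 2 * c) * (1 + X))) - X ^ (i + 1) =
          X ^ (i + 3) * (c + ((i + 1 : ℕ) : R) * (1 + (((i + 1 : ℕ) : R) + X * c) * (1 + X))) +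
          2 * (((i + 1 : ℕ) : R) * X ^ (i + 2)) := by ring
      rw [e2, two_eq_zero, zero_mul, add_zero]
      exact dvd_mul_right _ _
    have e3 : X ^ (i + 1) + (X + X ^ (2 * (i + 1))) -
        (X + sb (oo 1) (cB (oo (i + 1) * oo (i + 2) ^ (i + 1)))) =
        X ^ (2 * (i + 1)) - (sb (oo 1) (cB (oo (i + 1) * oo (i + 2) ^ (i + 1))) -
        X ^ (i + 1)) := by ring
    rw [e3]
    exact dvd_sub (pow_dvd_pow _ (by omega)) h4

end Pool.Agent.H72R2.N2
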