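import Pool.Agent.H72R2.N2.Stm

set_option autoImplicit false

namespace Pool.Agent.H72R2.N2

open PowerSeries Pool.Agent.Helper168.NottDefs Topology
open scoped commutatorElement

theorem B4_cB (k l : ℕ) : cB (aa k * aa l) = 0 := by
  rw [cB_mul, cB_aa, cB_aa, map_zero, zero_mul, add_zero]

theorem B4_sq : (1 + (X : R) ^ 2) ^ 2 = 1 + X ^ 4 := by
  rw [add_sq']; ring

theorem B4_aux (i : ℕ) : (X : R) ^ 4 ∣ (1 + X ^ 4) ^ i - 1 := by
  have := sub_dvd_pow_sub_pow (1 + (X : R) ^ 4) 1 i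
  rwa [add_sub_cancel_left, one_pow] at this

theorem B4 : S_B4 := by
  intro i hi
  refine ⟨?_, ?_⟩
  · have h1 : cA (aa 1 * aa (2 * i)) = (1 + X ^ (2 * i)) * (1 + (X + X ^ (4 * i + 1))) := by
      rw [cA_mul, cA_aa (le_refl 1), cA_aa (by omega : 1 ≤ 2 * i), map_add, map_one, sb_X_pow,
        ser_aa (by omega : 1 ≤ 2 * i), pow_one]
      congr 4
      omega
    have h2 : cA (aa (2 * i) * aa 1) = (1 + X) * (1 + (X + X ^ 3) ^ (2 * i)) := by
      rw [cA_mul, cA_aa (le_refl 1), cA_aa (by omega : 1 ≤ 2 * i), map_add, map_one, sb_X_pow,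
        ser_aa (le_refl 1), pow_one]
    have h3 : ((X : R) + X ^ 3) ^ (2 * i) = X ^ (2 * i) * (1 + X ^ 4) ^ i := by
      rw [← B4_sq, ← pow_mul, ← mul_pow]; congr 1; ring
    rw [h1, h2, h3]
    have e : (1 + (X : R) ^ (2 * i)) * (1 + (X + X ^ (4 * i + 1))) -
        (1 + X) * (1 + X ^ (2 * i) * (1 + X ^ 4) ^ i) =
        (1 + X ^ (2 * i)) * X ^ (4 * i + 1) - (1 + X) * (X ^ (2 * i) * ((1 + X ^ 4) ^ i - 1)) := by
      ring
    rw [e]
    refine dvd_sub ?_ ?_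
    · exact Dvd.dvd.mul_left (pow_dvd_pow _ (by omega)) _
    · apply Dvd.dvd.mul_left
      have : 2 * (i + 2) = 2 * i + 4 := by ring
      rw [this, pow_add]
      exact mul_dvd_mul_left _ (B4_aux i)
  · rw [B4_cB, B4_cB, sub_self]; exact dvd_zero _

end Pool.Agent.H72R2.N2
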