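import Pool.Agent.H72R2.N2.Stm

set_option autoImplicit false

namespace Pool.Agent.H72R2.N2

open PowerSeries Pool.Agent.Helper168.NottDefs

theorem B5_p (a : R) (k : ℕ) : a ∣ (1 + a) ^ k - 1 := by
  have h := sub_dvd_pow_sub_pow (1 + a) 1 k
  rw [one_pow] at h
  have h2 : (1 + a) - 1 = a := by ring
  rwa [h2] at h

theorem B5 : S_B5 := by
  intro i hi
  obtain ⟨j, rfl⟩ : ∃ j, i = j + 1 := ⟨i - 1, by omega⟩
  have h2 : (2 : R) = 0 := two_eq_zero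
  have hm : 2 * (j + 1) + 1 = 2 * j + 3 := by ring
  have hm2 : 2 * (j + 1) + 3 = 2 * j + 5 := by ring
  rw [hm, hm2]
  refine ⟨?_, ?_⟩
  · -- the odd parts
    have hL : cA (aa 1 * aa (2 * j + 3)) =
        (1 + X ^ (2 * j + 3)) * (1 + (X + X ^ (2 * (2 * j + 3) + 1))) := by
      rw [cA_mul, cA_aa (by omega), cA_aa (by omega), map_add, map_one, sb_X_pow,
        ser_aa (by omega), pow_one]
    have hR : cA (aa (2 * j + 3) * aa (2 * j + 5) * aa 1) =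
        (1 + X) * ((1 + (X + X ^ 3) ^ (2 * j + 5)) *
          (1 + ((X + X ^ 3) + (X + X ^ 3) ^ (2 * (2 * j + 5) + 1)) ^ (2 * j + 3))) := by
      rw [cA_mul, cA_mul, cA_aa (by omega), cA_aa (by omega), cA_aa (by omega)]
      simp only [map_mul, map_add, map_one, map_pow, sb_X]
      rw [ser_aa (by omega : 1 ≤ 2 * j + 5), ser_aa (by omega : 1 ≤ 1), map_add, map_pow, sb_X,
        ser_aa (by omega : 1 ≤ 1), pow_one]
    rw [hL, hR]
    have hP : ∃ p : R, (X + X ^ 3 : R) ^ (2 * j + 5) = X ^ (2 * j + 5) + X ^ (2 * j + 6) * p := by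
      obtain ⟨p, hp⟩ := B5_p (X ^ 2) (2 * j + 5)
      refine ⟨X * p, ?_⟩
      have h3 : (X + X ^ 3 : R) = X * (1 + X ^ 2) := by ring
      have h4 : (1 + X ^ 2 : R) ^ (2 * j + 5) = 1 + X ^ 2 * p := by rw [← hp]; ring
      rw [h3, mul_pow, h4]
      ring
    have hQ : ∃ q : R, ((X + X ^ 3 : R) + (X + X ^ 3) ^ (2 * (2 * j + 5) + 1)) ^ (2 * j + 3) =
        X ^ (2 * j + 3) + X ^ (2 * j + 5) + X ^ (2 * j + 6) * q := by
      obtain ⟨q1, hq1⟩ := B5_p (X ^ 4) (j + 1)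
      have h3 : (X + X ^ 3 : R) = X * (1 + X ^ 2) := by ring
      have h4 : (1 + X ^ 2 : R) ^ (2 * j + 3) = (1 + X ^ 2) * (1 + X ^ 4 * q1) := by
        have h5 : (1 + X ^ 4 : R) ^ (j + 1) = 1 + X ^ 4 * q1 := by rw [← hq1]; ring
        have h6 : (1 + X ^ 2 : R) ^ 2 = 1 + X ^ 4 := by
          rw [add_sq']
          ring
        rw [← h5, ← h6, ← pow_mul, ← pow_succ']
        congr 1
      have h7 := sub_dvd_pow_sub_pow ((X + X ^ 3 : R) + (X + X ^ 3) ^ (2 * (2 * j + 5) + 1))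
        (X + X ^ 3 : R) (2 * j + 3)
      have h8 : (X ^ (2 * (2 * j + 5) + 1) : R) ∣
          ((X + X ^ 3 : R) + (X + X ^ 3) ^ (2 * (2 * j + 5) + 1)) - (X + X ^ 3 : R) := by
        rw [add_sub_cancel_left]
        exact pow_dvd_pow_of_dvd ⟨1 + X ^ 2, h3⟩ _
      obtain ⟨q2, hq2⟩ := h8.trans h7
      refine ⟨X * (1 + X ^ 2) * q1 + X ^ (2 * j + 5) * q2, ?_⟩
      have h9 : ((X + X ^ 3 : R) + (X + X ^ 3) ^ (2 * (2 * j + 5) + 1)) ^ (2 * j + 3) =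
          (X + X ^ 3 : R) ^ (2 * j + 3) + X ^ (2 * (2 * j + 5) + 1) * q2 := by
        rw [← hq2]; ring
      rw [h9, h3, mul_pow, h4]
      ring
    obtain ⟨p, hp⟩ := hP
    obtain ⟨q, hq⟩ := hQ
    rw [hp, hq]
    refine ⟨(1 + X ^ (2 * j + 3)) * (X * X ^ (2 * j)) - (1 + X) * ((p + q) +
      X ^ 2 * X ^ (2 * j) * (1 + X * p) * (1 + X ^ 2 + X ^ 3 * q)), ?_⟩
    linear_combination (-(1 + X) * X ^ (2 * j + 5) : R) * h2
  · -- the even parts
    have hL : cB (aa 1 * aa (2 * j + 3)) = 0 := by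
      rw [cB_mul, cB_aa, cB_aa, map_zero, zero_mul, add_zero]
    have hR : cB (aa (2 * j + 3) * aa (2 * j + 5) * aa 1) = 0 := by
      rw [cB_mul, cB_mul, cB_aa, cB_aa, cB_aa]
      simp
    rw [hL, hR, sub_zero]
    exact dvd_zero _

end Pool.Agent.H72R2.N2
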