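import Pool.Agent.H72R2.N2.Stm

set_option autoImplicit false

namespace Pool.Agent.H72R2.N2

open PowerSeries Pool.Agent.Helper168.NottDefs

/-- the odd part of the longer product -/
theorem B7_W : ∃ w : R, sb (oo 1) (sb (oo 3) (cA (aa 2 * aa 4))) =
    1 + X ^ 2 + X ^ 6 * w := by
  have h2 : (2 : R) = 0 := two_eq_zero
  have h1 : sb (oo 1) (sb (oo 3) (cA (aa 2 * aa 4))) =
      (1 + ((X + X ^ 2) + (X + X ^ 2) ^ 6) ^ 4) *
        (1 + (((X + X ^ 2) + (X + X ^ 2) ^ 6) + ((X + X ^ 2) + (X + X ^ 2) ^ 6) ^ 9) ^ 2) := by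
    have e1 : (oo 1).ser = X + X ^ 2 := by rw [ser_oo (by omega)]
    have e3 : (oo 3).ser = X + X ^ 6 := by rw [ser_oo (by omega)]
    have e4 : (aa 4).ser = X + X ^ 9 := by rw [ser_aa (by omega)]
    rw [cA_mul, cA_aa (by omega), cA_aa (by omega)]
    simp only [map_mul, map_add, map_one, map_pow, sb_X, e1, e3, e4]
  rw [h1]
  set V : R := (X + X ^ 2) + (X + X ^ 2) ^ 6 with hV
  have hv : ∃ v : R, V = X * v := ⟨(1 + X) + X ^ 5 * (1 + X) ^ 6, by rw [hV]; ring⟩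
  obtain ⟨v, hv⟩ := hv
  have hV2 : V ^ 2 = X ^ 2 + X ^ 4 + X ^ 12 * (1 + X) ^ 12 := by
    rw [hV, add_sq', add_sq']
    ring
  have hV4 : V ^ 4 = X ^ 4 + X ^ 8 + X ^ 24 * (1 + X) ^ 24 := by
    have : V ^ 4 = (V ^ 2) ^ 2 := by ring
    rw [this, hV2, add_sq', add_sq']
    ring
  have h9 : (V + V ^ 9) ^ 2 = X ^ 2 + X ^ 4 + X ^ 12 * (1 + X) ^ 12 + X ^ 18 * v ^ 18 := by
    rw [add_sq', hV2, hv]
    ring
  rw [h9, hV4]
  refine ⟨X ^ 6 * (1 + X) ^ 12 + X ^ 12 * v ^ 18 + 1 + X ^ 2 + X ^ 10 * (1 + X) ^ 12 +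
    X ^ 16 * v ^ 18 + (X ^ 2 + X ^ 18 * (1 + X) ^ 24) *
      (1 + X ^ 2 + X ^ 4 + X ^ 12 * (1 + X) ^ 12 + X ^ 18 * v ^ 18), ?_⟩
  linear_combination (X ^ 4 : R) * h2

theorem B7_1 : CongE 3 (oo 1 * aa 2) (aa 2 * aa 4 * oo 3 * oo 1) := by
  have h2 : (2 : R) = 0 := two_eq_zero
  obtain ⟨w, hw⟩ := B7_W
  have hLA : cA (oo 1 * aa 2) = 1 + X ^ 2 := by
    rw [cA_mul, cA_aa (by omega), cA_oo, map_one, mul_one]
  have hLB : cB (oo 1 * aa 2) = X + X ^ 5 := by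
    rw [cB_mul, cB_aa, zero_mul, zero_add, cB_oo (by omega), sb_X_pow, ser_aa (by omega), pow_one]
  have hRA : cA (aa 2 * aa 4 * oo 3 * oo 1) = 1 + X ^ 2 + X ^ 6 * w := by
    rw [cA_mul, cA_oo, one_mul, cA_mul, cA_oo, one_mul, hw]
  have hRB : cB (aa 2 * aa 4 * oo 3 * oo 1) =
      X * (1 + X ^ 2 + X ^ 6 * w) + (X + X ^ 2) ^ 3 * (1 + X ^ 2 + X ^ 6 * w) := by
    rw [cB_mul (aa 2 * aa 4 * oo 3) (oo 1), cA_mul (aa 2 * aa 4) (oo 3), cA_oo, one_mul, hw,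
      cB_oo (by omega), cB_mul (aa 2 * aa 4) (oo 3), cB_oo (by omega)]
    have h0 : cB (aa 2 * aa 4) = 0 := by
      rw [cB_mul, cB_aa, cB_aa]
      simp
    rw [h0, map_zero, add_zero, map_mul, hw, sb_X_pow, ser_oo (by omega), pow_one]
  refine ⟨?_, ?_⟩
  · rw [hLA, hRA]
    exact ⟨-w, by ring⟩
  · rw [hLB, hRB]
    refine ⟨X - X ^ 3 * w - X - (3 + 3 * X + X ^ 2) * (1 + X ^ 2 + X ^ 6 * w) - X ^ 5 * w, ?_⟩
    linear_combination (-X ^ 3 : R) * h2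

theorem B7_2 : CongE 3 (aa 1 * aa 2) (aa 2 * aa 5 * aa 1) := by
  have h2 : (2 : R) = 0 := two_eq_zero
  refine ⟨?_, ?_⟩
  · have hL : cA (aa 1 * aa 2) = (1 + X ^ 2) * (1 + (X + X ^ 5)) := by
      rw [cA_mul, cA_aa (by omega), cA_aa (by omega), map_add, map_one, sb_X_pow,
        ser_aa (by omega), pow_one]
    have hR : cA (aa 2 * aa 5 * aa 1) =
        (1 + X) * ((1 + (X + X ^ 3) ^ 5) * (1 + ((X + X ^ 3) + (X + X ^ 3) ^ 11) ^ 2)) := by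
      have e1 : (aa 1).ser = X + X ^ 3 := by rw [ser_aa (by omega)]
      have e5 : (aa 5).ser = X + X ^ 11 := by rw [ser_aa (by omega)]
      rw [cA_mul, cA_mul, cA_aa (by omega), cA_aa (by omega), cA_aa (by omega)]
      simp only [map_mul, map_add, map_one, map_pow, sb_X, e1, e5, pow_one]
    rw [hL, hR]
    have h9 : ((X + X ^ 3) + (X + X ^ 3) ^ 11 : R) ^ 2 =
        X ^ 2 + X ^ 6 + X ^ 22 * (1 + X ^ 2) ^ 22 := by
      rw [add_sq', add_sq']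
      ring
    have h5 : (X + X ^ 3 : R) ^ 5 = X ^ 5 + X ^ 7 * (5 + 10 * X ^ 2 + 10 * X ^ 4 + 5 * X ^ 6 +
        X ^ 8) := by ring
    rw [h9, h5]
    refine ⟨X - (1 + X ^ 2) - X * (5 + 10 * X ^ 2 + 10 * X ^ 4 + 5 * X ^ 6 +
        X ^ 8) * (1 + X) * (1 + X ^ 2) - X
        - (1 + X) * (1 + X ^ 5 + X ^ 7 * (5 + 10 * X ^ 2 + 10 * X ^ 4 + 5 * X ^ 6 +
        X ^ 8)) * (1 + X ^ 16 * (1 + X ^ 2) ^ 22), ?_⟩
    ring
  · have hL : cB (aa 1 * aa 2) = 0 := by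
      rw [cB_mul, cB_aa, cB_aa, map_zero, zero_mul, add_zero]
    have hR : cB (aa 2 * aa 5 * aa 1) = 0 := by
      rw [cB_mul, cB_mul, cB_aa, cB_aa, cB_aa]
      simp
    rw [hL, hR, sub_zero]
    exact dvd_zero _

theorem B7 : S_B7 := ⟨B7_1, B7_2⟩

end Pool.Agent.H72R2.N2
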