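import Mathlib
import Pool.Agent.H72R2.N2.Stm

set_option autoImplicit false

namespace Pool.Agent.H72R2.N2

open PowerSeries Pool.Agent.Helper168.NottDefs Topology
open scoped commutatorElement

theorem C1_pow_sub {N e : ℕ} {u v : R} (huv : (X : R) ^ N ∣ u - v) (hu : (X : R) ^ e ∣ u)
    (hv : (X : R) ^ e ∣ v) (m : ℕ) : (X : R) ^ (N + e * (m - 1)) ∣ u ^ m - v ^ m := by
  cases m with
  | zero => simp
  | succ m =>
    rw [Nat.add_sub_cancel, ← mul_pow_sub_one_helper u v m, pow_add]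
    refine mul_dvd_mul huv ?_
    refine Finset.dvd_sum ?_
    intro a ha
    rw [Finset.mem_range] at ha
    have h1 : (X : R) ^ (e * m) = (X ^ e) ^ a * (X ^ e) ^ (m - a) := by
      rw [← pow_add, ← pow_mul]; congr 2; omega
    rw [h1]
    exact mul_dvd_mul (pow_dvd_pow_of_dvd hu a) (pow_dvd_pow_of_dvd hv (m - a))
where
  mul_pow_sub_one_helper (u v : R) (m : ℕ) :
      (u - v) * ∑ a ∈ Finset.range (m + 1), u ^ a * v ^ (m - a) = u ^ (m + 1) - v ^ (m + 1) := by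
    have := Commute.mul_geom_sum₂ (Commute.all u v) (m + 1)
    rw [← this]
    congr 1

theorem C1_sb_sub {N m : ℕ} {g : J} {P : R} (hm : 1 ≤ m) (hg : (X : R) ^ N ∣ g.ser - X)
    (hP : (X : R) ^ m ∣ P) : (X : R) ^ (m - 1 + N) ∣ sb g P - P := by
  obtain ⟨Q, rfl⟩ := hP
  rw [map_mul, sb_X_pow]
  have e : g.ser ^ m * sb g Q - X ^ m * Q = (g.ser ^ m - X ^ m) * sb g Q +
      X ^ m * (sb g Q - Q) := by ring
  rw [e]
  apply dvd_add
  · have h1 := C1_pow_sub (e := 1) hg (by rw [pow_one]; exact X_dvd_ser g) (by rw [pow_one]) m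
    refine Dvd.dvd.mul_right ?_ _
    refine (pow_dvd_pow _ ?_).trans h1
    omega
  · have h2 : (X : R) ^ N ∣ sb g Q - Q := by
      have := dvd_sb_sub (g := g) (g' := 1) (by rw [Nott.one_ser]; exact hg) Q
      rwa [sb_one] at this
    have h3 : (X : R) ^ (m - 1 + N) ∣ X ^ m * X ^ N := by
      rw [← pow_add]; exact pow_dvd_pow _ (by omega)
    exact h3.trans (mul_dvd_mul_left _ h2)

theorem C1 : S_C1 := by
  intro i j h hi hj hh
  rw [mem_E'] at hh
  obtain ⟨hA, hB⟩ := hh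
  have ha : 1 ≤ 2 * j := by omega
  rw [mem_E]
  apply comm_cong
  rw [one_mul]
  -- h² - X²
  have hsq : (X : R) ^ (4 * i + 4) ∣ h.ser ^ 2 - X ^ 2 := by
    have e : h.ser ^ 2 - X ^ 2 = X ^ 2 * (cA h - 1) ^ 4 + cB h ^ 4 := by
      have e1 : (cA h - 1) ^ 4 = cA h ^ 4 + 1 := by
        rw [sub_eq_add', show (4 : ℕ) = 2 * 2 from rfl, pow_mul, add_sq', add_sq']
        ring
      rw [e1, ser_eq h, add_sq', sub_eq_add']
      ring
    rw [e]
    apply dvd_add
    · have h1 := pow_dvd_pow_of_dvd hA 4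
      rw [← pow_mul] at h1
      exact Dvd.dvd.mul_left ((pow_dvd_pow _ (by omega : 4 * i + 4 ≤ 2 * i * 4)).trans h1) _
    · have h1 := pow_dvd_pow_of_dvd hB 4
      rw [← pow_mul] at h1
      exact (pow_dvd_pow _ (by omega)).trans h1
  have hpow : (X : R) ^ (2 * (i + j + 2)) ∣ h.ser ^ (2 * j) - X ^ (2 * j) := by
    rw [pow_mul h.ser, pow_mul (X : R) 2 j]
    have h1 := C1_pow_sub (e := 2) hsq (pow_dvd_pow_of_dvd (X_dvd_ser h) 2) dvd_rfl j
    exact (pow_dvd_pow _ (by omega)).trans h1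
  have hser : (X : R) ^ (4 * j + 1) ∣ (aa (2 * j)).ser - X := by
    rw [ser_aa ha, add_sub_cancel_left, show 2 * (2 * j) + 1 = 4 * j + 1 by ring]
  refine ⟨?_, ?_⟩
  · rw [cA_mul, cA_mul, cA_aa ha, map_add, map_one, sb_X_pow]
    have e : cA h * (1 + h.ser ^ (2 * j)) - (1 + X ^ (2 * j)) * sb (aa (2 * j)) (cA h) =
        cA h * (h.ser ^ (2 * j) - X ^ (2 * j)) -
        (1 + X ^ (2 * j)) * (sb (aa (2 * j)) (cA h - 1) - (cA h - 1)) := by
      rw [map_sub, map_one]; ring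
    rw [e]
    apply dvd_sub
    · exact hpow.mul_left _
    · refine Dvd.dvd.mul_left ?_ _
      exact (pow_dvd_pow _ (by omega)).trans (C1_sb_sub (by omega) hser hA)
  · rw [cB_mul, cB_mul, cA_aa ha, cB_aa, map_add, map_one, sb_X_pow, map_zero, zero_mul, add_zero,
      zero_add]
    have e : cB h * (1 + h.ser ^ (2 * j)) - sb (aa (2 * j)) (cB h) =
        cB h * h.ser ^ (2 * j) - (sb (aa (2 * j)) (cB h) - cB h) := by ring
    rw [e]
    apply dvd_sub
    · have h1 : (X : R) ^ (i + j + 2 + 1) ∣ X ^ (i + 1) * X ^ (2 * j) := by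
        rw [← pow_add]; exact pow_dvd_pow _ (by omega)
      exact h1.trans (mul_dvd_mul hB (pow_dvd_pow_of_dvd (X_dvd_ser h) _))
    · exact (pow_dvd_pow _ (by omega)).trans (C1_sb_sub (by omega) hser hB)

end Pool.Agent.H72R2.N2
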