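import Pool.Agent.H72R2.N2.Stm

/-! Task C2 (helper8). -/

set_option autoImplicit false

namespace Pool.Agent.H72R2.N2

open PowerSeries Pool.Agent.Helper168.NottDefs Topology
open scoped commutatorElement

theorem C2_pow (k l : ℕ) :
    (X : R) ^ (k + 2 * l) ∣ (X + X ^ (2 * l + 1)) ^ k - X ^ k := by
  have h1 : (X + X ^ (2 * l + 1) : R) = X * (1 + X ^ (2 * l)) := by ring
  have h2 : (X : R) ^ (2 * l) ∣ (1 + X ^ (2 * l)) ^ k - 1 ^ k := by
    have := sub_dvd_pow_sub_pow (1 + (X : R) ^ (2 * l)) 1 k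
    rwa [add_sub_cancel_left] at this
  have h3 : (X + X ^ (2 * l + 1) : R) ^ k - X ^ k = X ^ k * ((1 + X ^ (2 * l)) ^ k - 1 ^ k) := by
    rw [h1, mul_pow, one_pow]
    ring
  rw [h3, pow_add]
  exact mul_dvd_mul_left _ h2

theorem C2_cA {k l : ℕ} (hk : 1 ≤ k) (hl : 1 ≤ l) :
    cA (aa k * aa l) = (1 + X ^ l) * (1 + (X + X ^ (2 * l + 1)) ^ k) := by
  rw [cA_mul, cA_aa hk, cA_aa hl, map_add, map_one, sb_X_pow, ser_aa hl]

theorem C2_cB (k l : ℕ) : cB (aa k * aa l) = 0 := by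
  rw [cB_mul, cB_aa, cB_aa, zero_mul, map_zero, add_zero]

theorem C2 : S_C2 := by
  intro k l s hk hl h1 h2
  refine mem_E.2 (comm_cong ?_)
  rw [one_mul]
  refine ⟨?_, ?_⟩
  · rw [C2_cA hk hl, C2_cA hl hk]
    have e : (1 + X ^ l : R) * (1 + (X + X ^ (2 * l + 1)) ^ k) -
        (1 + X ^ k) * (1 + (X + X ^ (2 * k + 1)) ^ l) =
        (1 + X ^ l) * ((X + X ^ (2 * l + 1)) ^ k - X ^ k) -
        (1 + X ^ k) * ((X + X ^ (2 * k + 1)) ^ l - X ^ l) := by ring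
    rw [e]
    exact dvd_sub ((pow_dvd_pow _ h1).trans ((C2_pow k l).mul_left _))
      ((pow_dvd_pow _ h2).trans ((C2_pow l k).mul_left _))
  · rw [C2_cB, C2_cB, sub_zero]
    exact dvd_zero _

end Pool.Agent.H72R2.N2
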