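import Pool.Agent.H72R2.N2.Stm

set_option autoImplicit false

namespace Pool.Agent.H72R2.N2

open PowerSeries Pool.Agent.Helper168.NottDefs Topology
open scoped commutatorElement

theorem C3_aux (k l : ℕ) (hl : 1 ≤ l) :
    (X : R) ^ (k + 2 * l - 1) ∣ (X + X ^ (2 * l)) ^ k - X ^ k := by
  have h1 : (X : R) + X ^ (2 * l) = X * (1 + X ^ (2 * l - 1)) := by
    obtain ⟨m, rfl⟩ : ∃ m, l = m + 1 := ⟨l - 1, by omega⟩
    have : 2 * (m + 1) - 1 = 2 * m + 1 := by omega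
    rw [this]; ring
  have h2 : ((X : R) + X ^ (2 * l)) ^ k - X ^ k = X ^ k * ((1 + X ^ (2 * l - 1)) ^ k - 1 ^ k) := by
    rw [h1, mul_pow]; ring
  have h3 : (X : R) ^ (2 * l - 1) ∣ (1 + X ^ (2 * l - 1)) ^ k - 1 ^ k := by
    have := sub_dvd_pow_sub_pow (1 + (X : R) ^ (2 * l - 1)) 1 k
    rwa [add_sub_cancel_left] at this
  have h4 : k + 2 * l - 1 = k + (2 * l - 1) := by omega
  rw [h2, h4, pow_add]
  exact mul_dvd_mul_left _ h3

theorem C3_cB (k l : ℕ) (hk : 1 ≤ k) (hl : 1 ≤ l) :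
    cB (oo k * oo l) = X ^ l + (X + X ^ (2 * l)) ^ k := by
  rw [cB_mul, cA_oo, map_one, mul_one, cB_oo hk, cB_oo hl, sb_X_pow, ser_oo hl]

theorem C3_cA (k l : ℕ) : cA (oo k * oo l) = 1 := by
  rw [cA_mul, cA_oo, cA_oo, map_one, mul_one]

theorem C3 : S_C3 := by
  intro k l s hk hl h1 h2
  rw [mem_E]
  apply comm_cong
  rw [one_mul]
  refine ⟨?_, ?_⟩
  · rw [C3_cA, C3_cA, sub_self]; exact dvd_zero _
  · rw [C3_cB k l hk hl, C3_cB l k hl hk]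
    have e : ((X : R) ^ l + (X + X ^ (2 * l)) ^ k) - (X ^ k + (X + X ^ (2 * k)) ^ l) =
        ((X + X ^ (2 * l)) ^ k - X ^ k) - ((X + X ^ (2 * k)) ^ l - X ^ l) := by ring
    rw [e]
    refine dvd_sub ((pow_dvd_pow _ (by omega)).trans (C3_aux k l hl))
      ((pow_dvd_pow _ (by omega)).trans (C3_aux l k hk))

end Pool.Agent.H72R2.N2
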