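import Mathlib
import Pool.Agent.H72R2.N2.Stm

set_option autoImplicit false

namespace Pool.Agent.H72R2.N2

open PowerSeries Pool.Agent.Helper168.NottDefs Topology
open scoped commutatorElement

theorem C4_pow {N a : ℕ} {P Q : R} (hP : (X : R) ^ a ∣ P) (hQ : (X : R) ^ a ∣ Q)
    (h : (X : R) ^ N ∣ P - Q) (m : ℕ) : (X : R) ^ (N + a * (m - 1)) ∣ P ^ m - Q ^ m := by
  induction m with
  | zero => simp
  | succ m ih =>
    rcases Nat.eq_zero_or_pos m with rfl | hm
    · simpa using h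
    · have e : P ^ (m + 1) - Q ^ (m + 1) = (P - Q) * P ^ m + Q * (P ^ m - Q ^ m) := by ring
      rw [e]
      apply dvd_add
      · have h1 : (X : R) ^ (a * m) ∣ P ^ m := by
          rw [pow_mul]; exact pow_dvd_pow_of_dvd hP m
        have h2 := mul_dvd_mul h h1
        rw [← pow_add] at h2
        exact (pow_dvd_pow _ (by simp)).trans h2
      · have h2 := mul_dvd_mul hQ ih
        rw [← pow_add] at h2
        refine (pow_dvd_pow _ ?_).trans h2
        obtain ⟨m', rfl⟩ : ∃ m', m = m' + 1 := ⟨m - 1, by omega⟩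
        simp only [Nat.add_sub_cancel]
        rw [Nat.mul_succ]
        omega

theorem C4_dvd_of_le {M N : ℕ} {P : R} (h : (X : R) ^ N ∣ P) (hMN : M ≤ N) : (X : R) ^ M ∣ P :=
  (pow_dvd_pow _ hMN).trans h

/-- TASK C4 -/
theorem C4 : S_C4 := by
  intro k l s hk hl h1 h2 h3
  have hk1 : 1 ≤ k := hk.pos
  obtain ⟨q, hq⟩ := hk
  obtain ⟨t, ht⟩ : ∃ t, t = k + 2 * l - 1 := ⟨_, rfl⟩
  have ht1 : 1 ≤ t := by omega
  rw [← ht]
  apply comm_cong
  have hXf : (X : R) ∣ (aa k).ser := X_dvd_ser _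
  have hXg : (X : R) ∣ (oo l).ser := X_dvd_ser _
  have hXh : (X : R) ∣ (oo l * aa k).ser := X_dvd_ser _
  have hXf1 : (X : R) ^ 1 ∣ (aa k).ser := by rw [pow_one]; exact hXf
  have hXh1 : (X : R) ^ 1 ∣ (oo l * aa k).ser := by rw [pow_one]; exact hXh
  have hX1 : (X : R) ^ 1 ∣ (X : R) := by rw [pow_one]
  have hser : (oo l * aa k).ser = (aa k).ser + (aa k).ser ^ (2 * l) := by
    rw [mul_ser', ser_oo hl, map_add, sb_X, sb_X_pow]
  -- power of h
  have hpow : (X : R) ^ (2 * s) ∣ (oo l * aa k).ser ^ t - X ^ t := by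
    have e : (oo l * aa k).ser ^ t - X ^ t = ((oo l * aa k).ser ^ t - (aa k).ser ^ t) +
      ((aa k).ser ^ t - X ^ t) := by ring
    rw [e]
    apply dvd_add
    · have h4 : (X : R) ^ (2 * l) ∣ (oo l * aa k).ser - (aa k).ser := by
        rw [hser, add_sub_cancel_left]
        exact pow_dvd_pow_of_dvd hXf _
      have h5 := C4_pow hXh1 hXf1 h4 t
      exact C4_dvd_of_le h5 (by omega)
    · have h4 : (X : R) ^ (2 * k + 1) ∣ (aa k).ser - X := by
        rw [ser_aa hk1, add_sub_cancel_left]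
      have h5 := C4_pow hXf1 hX1 h4 t
      exact C4_dvd_of_le h5 (by omega)
  have hht : (X : R) ^ t ∣ (oo l * aa k).ser ^ t := pow_dvd_pow_of_dvd hXh _
  -- power of g
  have hg : (X : R) ^ (2 * s) ∣ (oo l).ser ^ k - (X ^ k + X ^ t) := by
    have e0 : (oo l).ser ^ 2 = X ^ 2 + X ^ (4 * l) := by
      rw [ser_oo hl, add_sq', ← pow_mul, show 2 * l * 2 = 4 * l by ring]
    have e1 : (oo l).ser ^ k = (oo l).ser * (X ^ 2 + X ^ (4 * l)) ^ q := by
      rw [hq, pow_succ', pow_mul, e0]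
    have e2 : (X : R) ^ k + X ^ t = (oo l).ser * (X ^ 2) ^ q := by
      rw [ser_oo hl, ← pow_mul, add_mul, ← pow_succ', ← pow_add, show 2 * q + 1 = k by omega,
        show 2 * l + 2 * q = t by omega]
    rw [e1, e2, ← mul_sub]
    have h4 : (X : R) ^ (4 * l) ∣ (X ^ 2 + X ^ (4 * l)) - X ^ 2 := by
      rw [add_sub_cancel_left]
    have h5 : (X : R) ^ 2 ∣ X ^ 2 + X ^ (4 * l) := dvd_add dvd_rfl (pow_dvd_pow _ (by omega))
    have h6 := C4_pow h5 dvd_rfl h4 q
    have h7 := mul_dvd_mul hXg h6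
    rw [← pow_succ'] at h7
    rcases Nat.eq_zero_or_pos q with rfl | hq0
    · simp
    · exact C4_dvd_of_le h7 (by omega)
  refine ⟨?_, ?_⟩
  · rw [cA_mul, cA_oo, one_mul, cA_aa hk1, map_add, map_one, sb_X_pow, cA_mul, cA_mul, cA_oo,
      map_one, mul_one, cA_aa hk1, cA_aa ht1, map_add, map_one, sb_X_pow]
    have e : (1 + (oo l).ser ^ k) - (1 + X ^ k) * (1 + (oo l * aa k).ser ^ t) =
        ((oo l).ser ^ k - (X ^ k + X ^ t)) - ((oo l * aa k).ser ^ t - X ^ t) -
          X ^ k * (oo l * aa k).ser ^ t := by ring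
    rw [e]
    refine dvd_sub (dvd_sub hg hpow) ?_
    have h4 := mul_dvd_mul (dvd_refl ((X : R) ^ k)) hht
    rw [← pow_add] at h4
    exact C4_dvd_of_le h4 (by omega)
  · rw [cB_mul, cA_aa hk1, cB_aa, map_zero, add_zero, cB_oo hl, map_add, map_one, sb_X_pow, cB_mul,
      cB_aa, map_zero, add_zero, cB_mul, cB_aa, zero_mul, zero_add, cB_oo hl, sb_X_pow,
      cA_aa ht1, map_add, map_one, sb_X_pow]
    have e : (X : R) ^ l * (1 + (oo l).ser ^ k) -
        (aa k).ser ^ l * (1 + (oo l * aa k).ser ^ t) =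
        X ^ l * (oo l).ser ^ k - (aa k).ser ^ l * (oo l * aa k).ser ^ t -
          ((aa k).ser ^ l - X ^ l) := by ring
    rw [e]
    refine dvd_sub (dvd_sub ?_ ?_) ?_
    · have h4 := mul_dvd_mul (dvd_refl ((X : R) ^ l)) (pow_dvd_pow_of_dvd hXg k)
      rw [← pow_add] at h4
      exact C4_dvd_of_le h4 (by omega)
    · have h4 := mul_dvd_mul (pow_dvd_pow_of_dvd hXf l) hht
      rw [← pow_add] at h4
      exact C4_dvd_of_le h4 (by omega)
    · have h4 : (X : R) ^ (2 * k + 1) ∣ (aa k).ser - X := by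
        rw [ser_aa hk1, add_sub_cancel_left]
      have h5 := C4_pow hXf1 hX1 h4 l
      exact C4_dvd_of_le h5 (by omega)

end Pool.Agent.H72R2.N2
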