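import Mathlib
import Pool.Agent.H72R2.N2.Stm

set_option autoImplicit false

/-! Task C5: squares of `aa k` and `oo k`. -/

namespace Pool.Agent.H72R2.N2

open PowerSeries Pool.Agent.Helper168.NottDefs Topology
open scoped commutatorElement

theorem C5_pow_sub (k m : ℕ) : (X : R) ^ (k + m) ∣ (X * (1 + X ^ m)) ^ k - X ^ k := by
  have h : (X : R) ^ m ∣ (1 + X ^ m) ^ k - 1 := by
    have := sub_dvd_pow_sub_pow ((1 : R) + X ^ m) 1 k
    rwa [one_pow, add_sub_cancel_left] at this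
  rw [mul_pow, pow_add]
  have e : (X : R) ^ k * (1 + X ^ m) ^ k - X ^ k = X ^ k * ((1 + X ^ m) ^ k - 1) := by ring
  rw [e]
  exact mul_dvd_mul_left _ h

theorem C5_cA_aa_aa {k : ℕ} (hk : 1 ≤ k) :
    cA (aa k * aa k) = (1 + X ^ k) * (1 + (X + X ^ (2 * k + 1)) ^ k) := by
  rw [cA_mul, cA_aa hk, map_add, map_one, sb_X_pow, ser_aa hk]

theorem C5_cB_aa_aa (k l : ℕ) : cB (aa k * aa l) = 0 := by
  rw [cB_mul, cB_aa, cB_aa, zero_mul, map_zero, add_zero]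

theorem C5_1 (k s : ℕ) (hk : 1 ≤ k) (hs : 2 * s ≤ 3 * k) :
    CongE s (aa k * aa k) (aa (2 * k)) := by
  refine ⟨?_, ?_⟩
  · rw [C5_cA_aa_aa hk, cA_aa (by omega)]
    have h1 := C5_pow_sub k (2 * k)
    have e1 : (X : R) * (1 + X ^ (2 * k)) = X + X ^ (2 * k + 1) := by ring
    rw [e1] at h1
    have e2 : (1 + (X : R) ^ k) * (1 + (X + X ^ (2 * k + 1)) ^ k) - (1 + X ^ (2 * k))
        = (1 + X ^ k) * ((X + X ^ (2 * k + 1)) ^ k - X ^ k) + 2 * X ^ k := by ring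
    rw [e2, two_eq_zero, zero_mul, add_zero]
    exact ((pow_dvd_pow _ (by omega)).trans h1).mul_left _
  · rw [C5_cB_aa_aa, cB_aa, sub_zero]
    exact dvd_zero _

theorem C5_2 (k s : ℕ) (hk : 1 ≤ k) (hs : s + 2 ≤ 3 * k) : oo k * oo k ∈ E s := by
  rw [mem_E']
  refine ⟨?_, ?_⟩
  · rw [cA_mul, cA_oo, map_one, mul_one, sub_self]
    exact dvd_zero _
  · rw [cB_mul, cA_oo, map_one, mul_one, cB_oo hk, sb_X_pow, ser_oo hk]
    have h1 := C5_pow_sub k (2 * k - 1)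
    have e1 : (X : R) * (1 + X ^ (2 * k - 1)) = X + X ^ (2 * k) := by
      rw [mul_add, mul_one, ← pow_succ']
      congr 2; omega
    rw [e1, sub_eq_add'] at h1
    rw [add_comm (X ^ k)]
    exact (pow_dvd_pow _ (show s + 1 ≤ k + (2 * k - 1) by omega)).trans h1

theorem C5_3 : oo 1 * oo 1 = oo 2 := by
  apply ext_AB
  · rw [cA_mul, cA_oo, cA_oo, map_one, mul_one]
  · rw [cB_mul, cA_oo, map_one, mul_one, cB_oo (by norm_num), cB_oo (by norm_num), sb_X_pow,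
      ser_oo (by norm_num)]
    have e : (X : R) ^ 1 + (X + X ^ (2 * 1)) ^ 1 = X ^ 2 + 2 * X := by ring
    rw [e, two_eq_zero, zero_mul, add_zero]

theorem C5_4 : CongE 2 (aa 1 * aa 1) (aa 2 * aa 3) := by
  refine ⟨?_, ?_⟩
  · rw [C5_cA_aa_aa (le_refl 1), cA_mul, cA_aa (by norm_num), cA_aa (by norm_num), map_add, map_one,
      sb_X_pow, ser_aa (by norm_num)]
    have e : (1 + (X : R) ^ 1) * (1 + (X + X ^ (2 * 1 + 1)) ^ 1) -
        (1 + X ^ 3) * (1 + (X + X ^ (2 * 3 + 1)) ^ 2)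
        = X ^ (2 * 2) * (1 - X - 2 * X ^ 4 - X ^ 10 - 2 * X ^ 7 - X ^ 13) + 2 * X := by ring
    rw [e, two_eq_zero]
    simp
  · rw [C5_cB_aa_aa, C5_cB_aa_aa, sub_zero]
    exact dvd_zero _

theorem C5 : S_C5 := ⟨C5_1, C5_2, C5_3, C5_4⟩

end Pool.Agent.H72R2.N2
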