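import Pool.Agent.H72R2.N2.Stm3

set_option autoImplicit false

namespace Pool.Agent.H72R2.N2

open PowerSeries Pool.Agent.Helper168.NottDefs
open scoped commutatorElement

theorem C6_pow (u : R) (i : ℕ) : u ∣ (1 + u) ^ i - 1 := by
  have h := sub_dvd_pow_sub_pow (1 + u) 1 i
  rwa [one_pow, add_sub_cancel_left] at h

theorem C6 : S_C6 := by
  intro k l s hk hk1 hl h1 h2
  obtain ⟨i, rfl⟩ := hk
  have key : CongE s (aa (i + i) * oo l) (1 * (oo l * aa (i + i))) := by
    rw [one_mul]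
    have hA1 : cA (aa (i + i) * oo l) = 1 + (X + X ^ (2 * l)) ^ (i + i) := by
      rw [cA_mul, cA_oo, one_mul, cA_aa hk1, map_add, map_one, sb_X_pow, ser_oo hl]
    have hA2 : cA (oo l * aa (i + i)) = 1 + X ^ (i + i) := by
      rw [cA_mul, cA_oo, map_one, mul_one, cA_aa hk1]
    have hB1 : cB (aa (i + i) * oo l) = X ^ l * (1 + (X + X ^ (2 * l)) ^ (i + i)) := by
      rw [cB_mul, cB_aa, map_zero, add_zero, cB_oo hl, cA_aa hk1, map_add, map_one, sb_X_pow,
        ser_oo hl]
    have hB2 : cB (oo l * aa (i + i)) = (X + X ^ (2 * (i + i) + 1)) ^ l := by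
      rw [cB_mul, cB_aa, zero_mul, zero_add, cB_oo hl, sb_X_pow, ser_aa hk1]
    refine ⟨?_, ?_⟩
    · rw [hA1, hA2, add_sub_add_left_eq_sub]
      have e : ((X : R) + X ^ (2 * l)) ^ (i + i) - X ^ (i + i) =
          X ^ (i + i) * ((1 + X ^ (4 * l - 2)) ^ i - 1) := by
        have e1 : ((X : R) + X ^ (2 * l)) ^ (i + i) = (X ^ 2 * (1 + X ^ (4 * l - 2))) ^ i := by
          rw [← two_mul, pow_mul, add_sq', ← pow_mul, mul_add, mul_one, ← pow_add]
          congr 3
          omega
        rw [e1, mul_pow, ← pow_mul, two_mul]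
        ring
      rw [e]
      refine (pow_dvd_pow (X : R) (show 2 * s ≤ (i + i) + (4 * l - 2) by omega)).trans ?_
      rw [pow_add]
      exact mul_dvd_mul_left _ (C6_pow _ _)
    · rw [hB1, hB2]
      have e : (X : R) ^ l * (1 + (X + X ^ (2 * l)) ^ (i + i)) - (X + X ^ (2 * (i + i) + 1)) ^ l =
          X ^ l * (X + X ^ (2 * l)) ^ (i + i) -
            X ^ l * ((1 + X ^ (2 * (i + i))) ^ l - 1) := by
        have e1 : (X : R) + X ^ (2 * (i + i) + 1) = X * (1 + X ^ (2 * (i + i))) := by ring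
        rw [e1, mul_pow]
        ring
      rw [e]
      refine (pow_dvd_pow (X : R) (show s + 1 ≤ l + (i + i) by omega)).trans ?_
      rw [pow_add]
      refine dvd_sub ?_ ?_
      · refine mul_dvd_mul_left _ (pow_dvd_pow_of_dvd ?_ _)
        exact dvd_add (dvd_refl _) (dvd_pow_self _ (by omega))
      · refine mul_dvd_mul_left _ ?_
        exact (pow_dvd_pow (X : R) (show i + i ≤ 2 * (i + i) by omega)).trans (C6_pow _ _)
  exact mem_E.2 (comm_cong key)

end Pool.Agent.H72R2.N2
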