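import Pool.Agent.H72R2.N2.Stm

set_option autoImplicit false

/-! Commutators in the filtration `E n` of the Nottingham group over `F_2`. -/

namespace Pool.Agent.H72R2.N2

open PowerSeries Pool.Agent.Helper168.NottDefs Topology
open scoped commutatorElement

/-- `g ∈ E j` is congruent to `X` -/
theorem COMM_ser {j : ℕ} {g : J} (hj : 1 ≤ j) (hg : g ∈ E j) :
    (X : R) ^ (2 * j + 2) ∣ g.ser - X := by
  have := CongE.ser (mem_E.1 hg) hj
  rwa [Nott.one_ser] at this

theorem COMM_dvd_pow_sub {u v : R} {M N L : ℕ} (hu : (X : R) ^ L ∣ u) (hv : (X : R) ^ L ∣ v)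
    (h : (X : R) ^ M ∣ u - v) : (X : R) ^ (M + L * (N - 1)) ∣ u ^ N - v ^ N := by
  rcases Nat.eq_zero_or_pos N with rfl | hN
  · simp
  rw [← Commute.mul_geom_sum₂ (Commute.all u v), pow_add]
  refine mul_dvd_mul h (Finset.dvd_sum fun k hk => ?_)
  have hk' : k < N := Finset.mem_range.1 hk
  have h1 : (X : R) ^ (L * k) ∣ u ^ k := by rw [pow_mul]; exact pow_dvd_pow_of_dvd hu k
  have h2 : (X : R) ^ (L * (N - 1 - k)) ∣ v ^ (N - 1 - k) := by
    rw [pow_mul]; exact pow_dvd_pow_of_dvd hv _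
  have h3 := mul_dvd_mul h1 h2
  rw [← pow_add] at h3
  have : L * k + L * (N - 1 - k) = L * (N - 1) := by
    rw [← Nat.mul_add]; congr 1; omega
  rwa [this] at h3

/-- Taylor estimate -/
theorem COMM_taylor {f : J} {M N : ℕ} {P : R} (hN : 1 ≤ N) (hM : 1 ≤ M)
    (hf : (X : R) ^ M ∣ f.ser - X) (hP : (X : R) ^ N ∣ P) :
    (X : R) ^ (N + M - 1) ∣ sb f P - P := by
  obtain ⟨Q, rfl⟩ := hP
  rw [map_mul, sb_X_pow]
  have e : f.ser ^ N * sb f Q - X ^ N * Q =
      (f.ser ^ N - X ^ N) * sb f Q + X ^ N * (sb f Q - Q) := by ring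
  rw [e]
  have h1 : (X : R) ^ (M + 1 * (N - 1)) ∣ f.ser ^ N - X ^ N :=
    COMM_dvd_pow_sub (by rw [pow_one]; exact X_dvd_ser f) (by rw [pow_one]) hf
  have h2 : (X : R) ^ M ∣ sb f Q - Q := by
    have h := dvd_sb_sub (g := f) (g' := 1) (N := M) (by rwa [Nott.one_ser]) Q
    rwa [sb_one] at h
  apply dvd_add
  · exact (pow_dvd_pow _ (by omega)).trans (h1.mul_right _)
  · refine (pow_dvd_pow _ (show N + M - 1 ≤ N + M by omega)).trans ?_
    rw [pow_add]
    exact mul_dvd_mul_left _ h2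

/-- Taylor estimate for even exponents -/
theorem COMM_taylor_even {f : J} {M i : ℕ} {P : R} (hM : 2 ≤ M)
    (hf : (X : R) ^ M ∣ f.ser - X) (hP : (X : R) ^ (2 * i) ∣ P) :
    (X : R) ^ (2 * i + M) ∣ sb f P - P := by
  obtain ⟨Q, rfl⟩ := hP
  rw [map_mul, sb_X_pow]
  have e : f.ser ^ (2 * i) * sb f Q - X ^ (2 * i) * Q =
      (f.ser ^ (2 * i) - X ^ (2 * i)) * sb f Q + X ^ (2 * i) * (sb f Q - Q) := by ring
  rw [e]
  have h2 : (X : R) ^ M ∣ sb f Q - Q := by
    have h := dvd_sb_sub (g := f) (g' := 1) (N := M) (by rwa [Nott.one_ser]) Q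
    rwa [sb_one] at h
  apply dvd_add
  · rcases Nat.eq_zero_or_pos i with rfl | hi
    · simp
    have h1 : (X : R) ^ (2 * M) ∣ f.ser ^ 2 - X ^ 2 := by
      have h3 : f.ser ^ 2 - X ^ 2 = (f.ser - X) ^ 2 := by
        rw [sub_eq_add', sub_eq_add', add_sq']
      rw [h3, mul_comm, pow_mul]
      exact pow_dvd_pow_of_dvd hf 2
    have h4 : (X : R) ^ (2 * M + 2 * (i - 1)) ∣ (f.ser ^ 2) ^ i - (X ^ 2) ^ i :=
      COMM_dvd_pow_sub (pow_dvd_pow_of_dvd (X_dvd_ser f) 2) (dvd_refl _) h1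
    rw [← pow_mul, ← pow_mul] at h4
    exact (pow_dvd_pow _ (by omega)).trans (h4.mul_right _)
  · rw [pow_add]
    exact mul_dvd_mul_left _ h2

theorem COMM : S_COMM := by
  intro i j g h hi hj hg hh
  rw [mem_E]
  apply comm_cong
  rw [one_mul]
  have hgs := COMM_ser hi hg
  have hhs := COMM_ser hj hh
  obtain ⟨ga, gb⟩ := mem_E'.1 hg
  obtain ⟨ha, hb⟩ := mem_E'.1 hh
  set a : R := cA g - 1 with hadef
  set c : R := cA h - 1 with hcdef
  have eA : cA g = 1 + a := by rw [hadef]; ring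
  have eC : cA h = 1 + c := by rw [hcdef]; ring
  have t1 := COMM_taylor_even (f := h) (i := i) (by omega) hhs ga
  have t2 := COMM_taylor_even (f := g) (i := j) (by omega) hgs ha
  have t3 := COMM_taylor (f := h) (by omega) (by omega) hhs gb
  have t4 := COMM_taylor (f := g) (by omega) (by omega) hgs hb
  refine ⟨?_, ?_⟩
  · rw [cA_mul, cA_mul, eA, eC, map_add, map_add, map_one, map_one]
    have e : (1 + c) * (1 + sb h a) - (1 + a) * (1 + sb g c) =
        (1 + c) * (sb h a - a) - (1 + a) * (sb g c - c) := by ring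
    rw [e]
    apply dvd_sub
    · exact ((pow_dvd_pow _ (by omega)).trans t1).mul_left _
    · exact ((pow_dvd_pow _ (by omega)).trans t2).mul_left _
  · rw [cB_mul, cB_mul, eA, eC, map_add, map_add, map_one, map_one]
    have e : cB h * (1 + sb h a) + sb h (cB g) - (cB g * (1 + sb g c) + sb g (cB h)) =
        cB h * sb h a - cB g * sb g c + (sb h (cB g) - cB g) - (sb g (cB h) - cB h) := by ring
    rw [e]
    have d1 : (X : R) ^ (j + 1 + 2 * i) ∣ cB h * sb h a := by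
      rw [pow_add]; exact mul_dvd_mul hb (dvd_sb ga)
    have d2 : (X : R) ^ (i + 1 + 2 * j) ∣ cB g * sb g c := by
      rw [pow_add]; exact mul_dvd_mul gb (dvd_sb ha)
    apply dvd_sub (dvd_add (dvd_sub ?_ ?_) ?_) ?_
    · exact (pow_dvd_pow _ (by omega)).trans d1
    · exact (pow_dvd_pow _ (by omega)).trans d2
    · exact (pow_dvd_pow _ (by omega)).trans t3
    · exact (pow_dvd_pow _ (by omega)).trans t4

end Pool.Agent.H72R2.N2
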