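import Mathlib
import Pool.Agent.H72R2.N2.Stm

set_option autoImplicit false

/-! COMMT: commutators with arbitrary elements go one level deeper. -/

namespace Pool.Agent.H72R2.N2

open PowerSeries Pool.Agent.Helper168.NottDefs Topology
open scoped commutatorElement

theorem COMMT_ser (h : J) : (X : R) ^ 2 ∣ h.ser - X := by
  rw [X_pow_dvd_iff]
  intro m hm
  interval_cases m
  · rw [map_sub, h.c0, coeff_zero_X, sub_zero]
  · rw [map_sub, h.c1, coeff_one_X, sub_self]

theorem COMMT_sb (h : J) (P : R) : (X : R) ^ 2 ∣ sb h P - P := by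
  have := dvd_sb_sub (g := h) (g' := 1) (N := 2) (by rw [Nott.one_ser]; exact COMMT_ser h) P
  rwa [sb_one] at this

theorem COMMT_one (h : J) : (X : R) ∣ cA h - 1 := by
  rw [X_dvd_iff, map_sub]
  have h1 := cA_zero h
  rw [coeff_zero_eq_constantCoeff_apply] at h1
  rw [h1, map_one, sub_self]

theorem COMMT_B (h : J) : (X : R) ∣ cB h := by
  rw [X_dvd_iff]
  have h1 := cB_zero h
  rwa [coeff_zero_eq_constantCoeff_apply] at h1

theorem COMMT_sb1 (h : J) (N : ℕ) (P : R) (hP : (X : R) ^ N ∣ P) :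
    (X : R) ^ (N + 1) ∣ sb h P - P := by
  obtain ⟨Q, rfl⟩ := hP
  obtain ⟨r, hr⟩ := COMMT_ser h
  have hs : h.ser = X * (1 + X * r) := by linear_combination hr
  obtain ⟨s, hs1⟩ : (X : R) ∣ (1 + X * r) ^ N - 1 := by
    have h1 := sub_dvd_pow_sub_pow (1 + X * r) 1 N
    rw [one_pow] at h1
    refine Dvd.dvd.trans ?_ h1
    exact ⟨r, by ring⟩
  obtain ⟨t, ht⟩ := COMMT_sb h Q
  have e1 : (1 + X * r) ^ N = 1 + X * s := by linear_combination hs1
  have e2 : sb h Q = Q + X ^ 2 * t := by linear_combination ht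
  rw [map_mul, sb_X_pow, hs, mul_pow, e1, e2]
  exact ⟨X * t + s * Q + X ^ 2 * s * t, by ring⟩

theorem COMMT_sb2 (h : J) (N : ℕ) (P : R) (hP : (X : R) ^ (2 * N) ∣ P) :
    (X : R) ^ (2 * N + 2) ∣ sb h P - P := by
  obtain ⟨Q, rfl⟩ := hP
  obtain ⟨r, hr⟩ := COMMT_ser h
  have hs : h.ser ^ 2 = X ^ 2 * (1 + X ^ 2 * r ^ 2) := by
    have h1 : (h.ser - X) ^ 2 = h.ser ^ 2 - X ^ 2 := by
      rw [sub_eq_add', add_sq', sub_eq_add']
    rw [hr] at h1
    linear_combination -h1
  obtain ⟨s, hs1⟩ : (X : R) ^ 2 ∣ (1 + X ^ 2 * r ^ 2) ^ N - 1 := by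
    have h1 := sub_dvd_pow_sub_pow (1 + X ^ 2 * r ^ 2) 1 N
    rw [one_pow] at h1
    refine Dvd.dvd.trans ?_ h1
    exact ⟨r ^ 2, by ring⟩
  obtain ⟨t, ht⟩ := COMMT_sb h Q
  have e1 : (1 + X ^ 2 * r ^ 2) ^ N = 1 + X ^ 2 * s := by linear_combination hs1
  have e2 : sb h Q = Q + X ^ 2 * t := by linear_combination ht
  rw [map_mul, sb_X_pow, pow_mul, hs, mul_pow, e1, e2, ← pow_mul]
  exact ⟨t + s * Q + X ^ 2 * s * t, by ring⟩

theorem COMMT : S_COMMT := by
  intro i g h hg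
  rw [mem_E]
  apply comm_cong
  rw [one_mul]
  obtain ⟨ha, hb⟩ := mem_E'.1 hg
  rcases Nat.eq_zero_or_pos i with rfl | hi
  · refine ⟨?_, ?_⟩
    · rw [cA_mul, cA_mul]
      have e : cA h * sb h (cA g) - cA g * sb g (cA h) =
        cA h * (sb h (cA g) - cA g) - cA g * (sb g (cA h) - cA h) := by ring
      rw [e]
      exact dvd_sub ((COMMT_sb h _).mul_left _) ((COMMT_sb g _).mul_left _)
    · rw [cB_mul, cB_mul]
      have e : cB h * sb h (cA g) + sb h (cB g) - (cB g * sb g (cA h) + sb g (cB h)) =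
        cB h * (sb h (cA g) - cA g) + cB h * (cA g - 1) + (sb h (cB g) - cB g)
          - (cB g * (sb g (cA h) - cA h) + cB g * (cA h - 1) + (sb g (cB h) - cB h)) := by ring
      rw [e]
      have h2 : ∀ u v : J, (X : R) ^ (0 + 1 + 1) ∣ cB u * (cA v - 1) := by
        intro u v
        have := mul_dvd_mul (COMMT_B u) (COMMT_one v)
        rwa [← pow_two] at this
      exact dvd_sub (dvd_add (dvd_add ((COMMT_sb h _).mul_left _) (h2 h g)) (COMMT_sb h _))
        (dvd_add (dvd_add ((COMMT_sb g _).mul_left _) (h2 g h)) (COMMT_sb g _))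
  · have hser : (X : R) ^ (2 * i + 2) ∣ g.ser - (1 : J).ser := (mem_E.1 hg).ser hi
    have hsb : ∀ P : R, (X : R) ^ (2 * i + 2) ∣ sb g P - P := by
      intro P
      have := dvd_sb_sub hser P
      rwa [sb_one] at this
    refine ⟨?_, ?_⟩
    · rw [cA_mul, cA_mul]
      have e : cA h * sb h (cA g) - cA g * sb g (cA h) =
        cA h * (sb h (cA g - 1) - (cA g - 1)) - cA g * (sb g (cA h) - cA h) := by
        rw [map_sub, map_one]
        ring
      rw [e]
      exact dvd_sub ((COMMT_sb2 h i _ ha).mul_left _) ((hsb _).mul_left _)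
    · rw [cB_mul, cB_mul]
      have e : cB h * sb h (cA g) + sb h (cB g) - (cB g * sb g (cA h) + sb g (cB h)) =
        cB h * sb h (cA g - 1) + (sb h (cB g) - cB g)
          - (cB g * (sb g (cA h) - cA h) + cB g * (cA h - 1) + (sb g (cB h) - cB h)) := by
        rw [map_sub, map_one]
        ring
      rw [e]
      have hle : (X : R) ^ (i + 1 + 1) ∣ X ^ (2 * i + 2) := pow_dvd_pow _ (by omega)
      have h1 : (X : R) ^ (i + 1 + 1) ∣ cB h * sb h (cA g - 1) := by
        have h3 := mul_dvd_mul (COMMT_B h) (dvd_sb (g := h) ha)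
        rw [← pow_succ'] at h3
        exact (pow_dvd_pow _ (by omega)).trans h3
      have h2 : (X : R) ^ (i + 1 + 1) ∣ cB g * (cA h - 1) := by
        have := mul_dvd_mul hb (COMMT_one h)
        rwa [← pow_succ] at this
      exact dvd_sub (dvd_add h1 (COMMT_sb1 h _ _ hb))
        (dvd_add (dvd_add ((hle.trans (hsb _)).mul_left _) h2) (hle.trans (hsb _)))

end Pool.Agent.H72R2.N2
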