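import Mathlib
import Pool.Agent.H72R2.N2.Stm

set_option autoImplicit false

/-! Commutator calculus in a central extension `Ext n`. -/

namespace Pool.Agent.H72R2.N2

open PowerSeries Pool.Agent.Helper168.NottDefs Topology
open scoped commutatorElement

namespace Ext

variable {n : ℕ} (X : Ext n)

/-- a lift -/
noncomputable def s (g : J) : X.Γ := (X.surjJ g).choose

theorem s_mem (g : J) : (X.s g, g) ∈ X.L := (X.surjJ g).choose_spec

theorem mul_mem {u v : X.Γ} {g h : J} (hu : (u, g) ∈ X.L) (hv : (v, h) ∈ X.L) :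
    (u * v, g * h) ∈ X.L := X.L.mul_mem hu hv

theorem inv_mem {u : X.Γ} {g : J} (hu : (u, g) ∈ X.L) : (u⁻¹, g⁻¹) ∈ X.L := X.L.inv_mem hu

theorem comm_mem {u v : X.Γ} {g h : J} (hu : (u, g) ∈ X.L) (hv : (v, h) ∈ X.L) :
    (⁅u, v⁆, ⁅g, h⁆) ∈ X.L := by
  rw [commutatorElement_def, commutatorElement_def]
  exact X.mul_mem (X.mul_mem (X.mul_mem hu hv) (X.inv_mem hu)) (X.inv_mem hv)

theorem z_cent (v : X.Γ) : X.z * v = v * X.z := X.cent _ _ X.lift_z (one_mem _) v

theorem z_sq : X.z * X.z = 1 := by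
  have h := X.mul_mem X.lift_z X.lift_z
  rw [mul_one] at h
  rcases X.ker _ _ h (one_mem _) with h | h
  · exact h
  · exact absurd (mul_left_cancel (h.trans (mul_one _).symm)) X.hz

theorem eq_or {u v : X.Γ} {g : J} (hu : (u, g) ∈ X.L) (hv : (v, g) ∈ X.L) : u = v ∨ u = v * X.z := by
  have h := X.mul_mem (X.inv_mem hv) hu
  rw [inv_mul_cancel] at h
  rcases X.ker _ _ h (one_mem _) with h | h
  · left; exact (inv_mul_eq_one.1 h).symm
  · right; rw [← h, mul_inv_cancel_left]

/-- the commutator of lifts -/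
noncomputable def C (g h : J) : X.Γ := ⁅X.s g, X.s h⁆

theorem C_eq {u v : X.Γ} {g h : J} (hu : (u, g) ∈ X.L) (hv : (v, h) ∈ X.L) : ⁅u, v⁆ = X.C g h := by
  have key1 : ∀ u v : X.Γ, ⁅u * X.z, v⁆ = ⁅u, v⁆ := by
    intro u v
    rw [commutatorElement_def, commutatorElement_def, mul_inv_rev]
    have h1 := X.z_cent v
    calc u * X.z * v * (X.z⁻¹ * u⁻¹) * v⁻¹ = u * (X.z * v) * X.z⁻¹ * u⁻¹ * v⁻¹ := by group
      _ = u * v * u⁻¹ * v⁻¹ := by rw [h1]; group
  have key2 : ∀ u v : X.Γ, ⁅u, v * X.z⁆ = ⁅u, v⁆ := by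
    intro u v
    rw [← inv_inj, commutatorElement_inv, commutatorElement_inv, key1]
  unfold C
  rcases X.eq_or hu (X.s_mem g) with h1 | h1 <;> rcases X.eq_or hv (X.s_mem h) with h2 | h2 <;>
    rw [h1, h2]
  · rw [key2]
  · rw [key1]
  · rw [key1, key2]

theorem C_mem (g h : J) : (X.C g h, ⁅g, h⁆) ∈ X.L := X.comm_mem (X.s_mem g) (X.s_mem h)

theorem C_swap (g h : J) : X.C h g = (X.C g h)⁻¹ := by
  unfold C; rw [commutatorElement_inv]

theorem C_self (g : J) : X.C g g = 1 := by
  unfold C; rw [commutatorElement_self]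

theorem central_of {u : X.Γ} {g : J} (hu : (u, g) ∈ X.L) (hg : g ∈ E (n + 1)) (v : X.Γ) :
    u * v = v * u := X.cent _ _ hu hg v

theorem C_one_left {g : J} (hg : g ∈ E (n + 1)) (h : J) : X.C g h = 1 := by
  unfold C
  rw [commutatorElement_eq_one_iff_mul_comm]
  exact X.cent _ _ (X.s_mem g) hg _

theorem C_one_right {h : J} (hh : h ∈ E (n + 1)) (g : J) : X.C g h = 1 := by
  rw [C_swap, C_one_left X hh, inv_one]

theorem C_mul_left' (g g' h : J) : X.C (g * g') h = X.s g * X.C g' h * (X.s g)⁻¹ * X.C g h := by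
  rw [← X.C_eq (X.mul_mem (X.s_mem g) (X.s_mem g')) (X.s_mem h)]
  unfold C
  simp only [commutatorElement_def]; group

theorem C_mul_right' (g h h' : J) : X.C g (h * h') = X.C g h * (X.s h * X.C g h' * (X.s h)⁻¹) := by
  rw [← X.C_eq (X.s_mem g) (X.mul_mem (X.s_mem h) (X.s_mem h'))]
  unfold C
  simp only [commutatorElement_def]; group

/-- central elements of order dividing two -/
def Zc : Subgroup X.Γ where
  carrier := {u | (∀ v, u * v = v * u) ∧ u * u = 1}
  one_mem' := ⟨by simp, by simp⟩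
  mul_mem' := by
    rintro a b ⟨ha, ha'⟩ ⟨hb, hb'⟩
    refine ⟨fun v => ?_, ?_⟩
    · rw [mul_assoc, hb, ← mul_assoc, ha, mul_assoc]
    · calc a * b * (a * b) = a * (b * a) * b := by group
        _ = (a * a) * (b * b) := by rw [hb]; group
        _ = 1 := by rw [ha', hb', one_mul]
  inv_mem' := by
    rintro a ⟨ha, ha'⟩
    have : a⁻¹ = a := (eq_inv_of_mul_eq_one_left ha').symm
    rw [this]
    exact ⟨ha, ha'⟩

theorem mem_Zc {u : X.Γ} : u ∈ X.Zc ↔ (∀ v, u * v = v * u) ∧ u * u = 1 := Iff.rfl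

theorem z_mem_Zc : X.z ∈ X.Zc := ⟨X.z_cent, X.z_sq⟩

instance : CommGroup X.Zc :=
  { (inferInstance : Group X.Zc) with mul_comm := fun a b => Subtype.ext (a.2.1 b) }

/-- the additive group of central involutions -/
abbrev V : Type := Additive X.Zc

noncomputable instance : Module (ZMod 2) X.V :=
  AddCommGroup.zmodModule (n := 2) (by
    intro x
    rw [two_nsmul]
    exact Additive.toMul.injective (Subtype.ext (Additive.toMul x).2.2))

theorem V_add_self (x : X.V) : x + x = 0 := by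
  exact Additive.toMul.injective (Subtype.ext (Additive.toMul x).2.2)

/-- make an element of `V` -/
noncomputable def toV (u : X.Γ) : X.V := by
  classical
  exact if h : u ∈ X.Zc then Additive.ofMul ⟨u, h⟩ else 0

theorem toV_mul {u v : X.Γ} (hu : u ∈ X.Zc) (hv : v ∈ X.Zc) :
    X.toV (u * v) = X.toV u + X.toV v := by
  unfold toV
  rw [dif_pos hu, dif_pos hv, dif_pos (X.Zc.mul_mem hu hv)]
  rfl

theorem toV_one : X.toV 1 = 0 := by
  unfold toV
  rw [dif_pos X.Zc.one_mem]
  rfl

theorem toV_inj {u v : X.Γ} (hu : u ∈ X.Zc) (hv : v ∈ X.Zc) (h : X.toV u = X.toV v) : u = v := by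
  unfold toV at h
  rw [dif_pos hu, dif_pos hv] at h
  exact congrArg Subtype.val (Additive.ofMul.injective h)

theorem toV_eq_zero {u : X.Γ} (hu : u ∈ X.Zc) : X.toV u = 0 ↔ u = 1 := by
  rw [← toV_one]
  exact ⟨fun h => X.toV_inj hu X.Zc.one_mem h, fun h => by rw [h]⟩

/-- the commutator pairing -/
noncomputable def D (g h : J) : X.V := X.toV (X.C g h)

/-- the pair `(g, h)` is good -/
def good (g h : J) : Prop := X.C g h ∈ X.Zc

variable {X}

theorem good.swap {g h : J} (H : X.good g h) : X.good h g := by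
  unfold good; rw [C_swap]; exact X.Zc.inv_mem H

theorem good_comm {g h : J} : X.good g h ↔ X.good h g := ⟨good.swap, good.swap⟩

theorem C_mul_left {g g' h : J} (H : X.good g' h) : X.C (g * g') h = X.C g' h * X.C g h := by
  rw [C_mul_left', ← H.1, mul_inv_cancel_right]

theorem C_mul_right {g h h' : J} (H : X.good g h') : X.C g (h * h') = X.C g h * X.C g h' := by
  rw [C_mul_right', ← H.1, mul_inv_cancel_right]

theorem good.mul_left {g g' h : J} (H : X.good g h) (H' : X.good g' h) : X.good (g * g') h := by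
  unfold good; rw [C_mul_left H']; exact X.Zc.mul_mem H' H

theorem good.mul_right {g h h' : J} (H : X.good g h) (H' : X.good g h') : X.good g (h * h') := by
  unfold good; rw [C_mul_right H']; exact X.Zc.mul_mem H H'

theorem D_mul_left {g g' h : J} (H : X.good g h) (H' : X.good g' h) :
    X.D (g * g') h = X.D g h + X.D g' h := by
  unfold D; rw [C_mul_left H', toV_mul X H' H, add_comm]

theorem D_mul_right {g h h' : J} (H : X.good g h) (H' : X.good g h') :
    X.D g (h * h') = X.D g h + X.D g h' := by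
  unfold D; rw [C_mul_right H', toV_mul X H H']

theorem D_swap {g h : J} : X.D g h = X.D h g := by
  unfold D
  rw [C_swap X h g]
  by_cases H : X.C h g ∈ X.Zc
  · congr 1
    exact (eq_inv_of_mul_eq_one_left H.2).symm
  · unfold toV
    rw [dif_neg H, dif_neg (fun h => H (by simpa using X.Zc.inv_mem h))]

theorem good_one_left (h : J) : X.good 1 h := by
  unfold good; rw [C_one_left X (one_mem _)]; exact X.Zc.one_mem
theorem good_one_right (g : J) : X.good g 1 := (good_one_left g).swap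

theorem D_one_left (h : J) : X.D 1 h = 0 := by
  unfold D; rw [C_one_left X (one_mem _), toV_one]
theorem D_one_right (g : J) : X.D g 1 = 0 := by rw [D_swap, D_one_left]

theorem D_self (g : J) : X.D g g = 0 := by unfold D; rw [C_self, toV_one]
theorem good_self (g : J) : X.good g g := by unfold good; rw [C_self]; exact X.Zc.one_mem

theorem good.pow_left {g h : J} (H : X.good g h) (k : ℕ) : X.good (g ^ k) h := by
  induction k with
  | zero => rw [pow_zero]; exact good_one_left h
  | succ k ih => rw [pow_succ]; exact ih.mul_left H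

theorem good.pow_right {g h : J} (H : X.good g h) (k : ℕ) : X.good g (h ^ k) :=
  (H.swap.pow_left k).swap

theorem D_pow_left {g h : J} (H : X.good g h) (k : ℕ) :
    X.D (g ^ k) h = (k : ZMod 2) • X.D g h := by
  induction k with
  | zero => rw [pow_zero, D_one_left]; simp
  | succ k ih =>
    rw [pow_succ, D_mul_left (H.pow_left k) H, ih]
    push_cast
    rw [add_smul, one_smul]

theorem D_pow_right {g h : J} (H : X.good g h) (k : ℕ) :
    X.D g (h ^ k) = (k : ZMod 2) • X.D g h := by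
  rw [D_swap, D_pow_left H.swap, D_swap]

theorem D_eq_zero {g h : J} (H : X.C g h = 1) : X.D g h = 0 := by
  unfold D; rw [H, toV_one]

theorem good_of_one {g h : J} (H : X.C g h = 1) : X.good g h := by
  unfold good; rw [H]; exact X.Zc.one_mem

theorem good.C_eq_one {g h : J} (H : X.good g h) (h0 : X.D g h = 0) : X.C g h = 1 :=
  (X.toV_eq_zero H).1 h0

theorem C_inv_left {g h : J} (H : X.good g h) : X.good g⁻¹ h ∧ X.D g⁻¹ h = X.D g h := by
  have h1 : X.C g⁻¹ h = (X.s g)⁻¹ * (X.C g h)⁻¹ * X.s g := by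
    rw [← X.C_eq (X.inv_mem (X.s_mem g)) (X.s_mem h)]
    unfold C
    simp only [commutatorElement_def]; group
  have h2 : X.C g⁻¹ h = (X.C g h)⁻¹ := by
    rw [h1, mul_assoc, (X.Zc.inv_mem H).1, inv_mul_cancel_left]
  have h3 : (X.C g h)⁻¹ = X.C g h := (eq_inv_of_mul_eq_one_left H.2).symm
  unfold good D
  rw [h2, h3]
  exact ⟨H, rfl⟩

/-- all lifts of conjugates -/
theorem C_conj' (y g h : J) : X.C (y * g * y⁻¹) (y * h * y⁻¹) = X.C y ⁅g, h⁆ * X.C g h := by
  rw [← X.C_eq (X.mul_mem (X.mul_mem (X.s_mem y) (X.s_mem g)) (X.inv_mem (X.s_mem y)))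
    (X.mul_mem (X.mul_mem (X.s_mem y) (X.s_mem h)) (X.inv_mem (X.s_mem y))),
    ← X.C_eq (X.s_mem y) (X.C_mem g h)]
  unfold C
  simp only [commutatorElement_def]; group

/-- pairs at level sum `> L` are trivial -/
def Tr (X : Ext n) (L : ℕ) : Prop :=
  ∀ (i j : ℕ) (g h : J), 1 ≤ i → 1 ≤ j → L + 1 ≤ i + j → g ∈ E i → h ∈ E j → X.C g h = 1

theorem C_congr_left {g g' h w : J} (hw : g = g' * w) (H : X.C w h = 1) :
    X.C g h = X.C g' h := by
  rw [hw, C_mul_left', H, mul_one, mul_inv_cancel, one_mul]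

theorem C_congr_right {g h h' w : J} (hw : h = h' * w) (H : X.C g w = 1) :
    X.C g h = X.C g h' := by
  rw [hw, C_mul_right', H, mul_one, mul_inv_cancel, mul_one]

theorem C_congrE_left {L : ℕ} (hT : X.Tr L) {s j : ℕ} {g g' h : J} (hg : CongE s g g')
    (hh : h ∈ E j) (hs : 1 ≤ s) (hj : 1 ≤ j) (hsj : L + 1 ≤ s + j) : X.C g h = X.C g' h := by
  refine C_congr_left (w := g'⁻¹ * g) (by group) ?_
  exact hT s j _ _ hs hj hsj (congE_iff'.1 hg) hh

theorem C_congrE_right {L : ℕ} (hT : X.Tr L) {t i : ℕ} {g h h' : J} (hh : CongE t h h')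
    (hg : g ∈ E i) (ht : 1 ≤ t) (hi : 1 ≤ i) (hti : L + 1 ≤ i + t) : X.C g h = X.C g h' := by
  refine C_congr_right (w := h'⁻¹ * h) (by group) ?_
  exact hT i t _ _ hi ht hti hg (congE_iff'.1 hh)

theorem C_congr_top {g h h' : J} (hh : CongE (n + 1) h h') : X.C g h = X.C g h' :=
  C_congr_right (w := h'⁻¹ * h) (by group) (C_one_right X (congE_iff'.1 hh) g)

theorem C_congr_top_left {g g' h : J} (hg : CongE (n + 1) g g') : X.C g h = X.C g' h :=
  C_congr_left (w := g'⁻¹ * g) (by group) (C_one_left X (congE_iff'.1 hg) h)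

/-- The general move: expand `C (y g y⁻¹) (y h y⁻¹) = C y ⁅g, h⁆ * C g h`. -/
theorem move_gen {s t : ℕ} {y g h g1 h1 : J}
    (cg : CongE s (y * g) (g * g1 * y)) (ch : CongE t (y * h) (h * h1 * y))
    (t1 : ∀ w ∈ E s, X.C w (y * h * y⁻¹) = 1) (t2 : ∀ w ∈ E t, X.C (g * g1) w = 1)
    (c1 : X.good g1 h) (c2 : X.good g h1) (c3 : X.good g1 h1) :
    X.good y ⁅g, h⁆ ∧ X.D y ⁅g, h⁆ = X.D g1 h + X.D g h1 + X.D g1 h1 := by
  have e1 : X.C (y * g * y⁻¹) (y * h * y⁻¹) = X.C (g * g1) (h * h1) := by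
    rw [C_congr_left (g' := g * g1) (w := (g * g1)⁻¹ * (y * g * y⁻¹)) (by group)
      (t1 _ (congE_iff'.1 (conj_cong cg)))]
    exact C_congr_right (w := (h * h1)⁻¹ * (y * h * y⁻¹)) (by group)
      (t2 _ (congE_iff'.1 (conj_cong ch)))
  rw [C_conj'] at e1
  have e2 : X.C (g * g1) (h * h1) = X.C g1 h * X.C g1 h1 * X.C g h1 * X.C g h := by
    have h3 : X.good g1 (h * h1) := c1.mul_right c3
    rw [C_mul_left h3, C_mul_right c3, C_mul_right c2]
    rw [← c2.1 (X.C g h)]
    group
  rw [e2] at e1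
  have e3 : X.C y ⁅g, h⁆ = X.C g1 h * X.C g1 h1 * X.C g h1 := mul_right_cancel e1
  have h4 : X.C g1 h * X.C g1 h1 ∈ X.Zc := X.Zc.mul_mem c1 c3
  refine ⟨?_, ?_⟩
  · unfold good; rw [e3]; exact X.Zc.mul_mem h4 c2
  · unfold D
    rw [e3, toV_mul X h4 c2, toV_mul X c1 c3]
    abel

/-- The basic move with error terms controlled by levels. -/
theorem move {L : ℕ} (hT : X.Tr L) {i j s t : ℕ} {y g h g1 h1 : J} (hg : g ∈ E i) (hh : h ∈ E j)
    (hg1 : g1 ∈ E i) (hi : 1 ≤ i) (hj : 1 ≤ j) (hs : 1 ≤ s) (ht : 1 ≤ t)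
    (cg : CongE s (y * g) (g * g1 * y)) (ch : CongE t (y * h) (h * h1 * y))
    (hsj : L + 1 ≤ s + j) (hti : L + 1 ≤ i + t)
    (c1 : X.good g1 h) (c2 : X.good g h1) (c3 : X.good g1 h1) :
    X.good y ⁅g, h⁆ ∧ X.D y ⁅g, h⁆ = X.D g1 h + X.D g h1 + X.D g1 h1 :=
  move_gen cg ch
    (fun w hw => hT s j w _ hs hj hsj hw ((E_normal j).conj_mem h hh y))
    (fun w hw => hT i t _ w hi ht hti ((E i).mul_mem hg hg1) hw) c1 c2 c3

/-- every lift of an element of `E (n+1)` is a central involution -/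
theorem mem_Zc_of (hG : S_GEN) (hsq : S_SQ) (hct : S_COMMT) (hn : 1 ≤ n) {u : X.Γ} {g : J} (hu : (u, g) ∈ X.L)
    (hg : g ∈ E (n + 1)) : u ∈ X.Zc := by
  refine ⟨X.cent u g hu hg, ?_⟩
  -- the set of `g` in `J` all of whose lifts of.. have square one
  let T : Subgroup J :=
    { carrier := {g | g ∈ E (n + 1) ∧ ∀ u, (u, g) ∈ X.L → u * u = 1}
      one_mem' := ⟨one_mem _, fun u hu => by
        rcases X.ker _ _ hu (one_mem _) with h | h
        · rw [h, mul_one]
        · rw [h, X.z_sq]⟩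
      mul_mem' := by
        rintro a b ⟨ha, ha'⟩ ⟨hb, hb'⟩
        refine ⟨(E (n + 1)).mul_mem ha hb, fun u hu => ?_⟩
        have h1 := X.mul_mem (X.s_mem a) (X.s_mem b)
        have h2 : X.s a * X.s b * (X.s a * X.s b) = 1 := by
          calc X.s a * X.s b * (X.s a * X.s b) = X.s a * (X.s b * X.s a) * X.s b := by group
            _ = (X.s a * X.s a) * (X.s b * X.s b) := by
              rw [X.cent _ _ (X.s_mem b) hb]; group
            _ = 1 := by rw [ha' _ (X.s_mem a), hb' _ (X.s_mem b), mul_one]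
        rcases X.eq_or hu h1 with h | h
        · rw [h, h2]
        · calc u * u = X.s a * X.s b * (X.z * (X.s a * X.s b)) * X.z := by rw [h]; group
            _ = (X.s a * X.s b * (X.s a * X.s b)) * (X.z * X.z) := by rw [X.z_cent]; group
            _ = 1 := by rw [h2, X.z_sq, mul_one]
      inv_mem' := by
        rintro a ⟨ha, ha'⟩
        refine ⟨(E (n + 1)).inv_mem ha, fun u hu => ?_⟩
        have h1 := X.inv_mem hu
        rw [inv_inv] at h1
        have h2 := ha' _ h1
        have h3 : (u * u)⁻¹ = 1 := by rw [mul_inv_rev]; exact h2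
        exact inv_eq_one.1 h3 }
  have hle : E (n + 1) ≤ T := by
    refine (hG n (n + 2) hn).trans (sup_le ?_ ?_)
    · rw [Subgroup.commutator_le]
      intro a ha b _
      have h1 : ⁅a, b⁆ ∈ E (n + 1) := hct n a b ha
      have h2 : X.C a b * X.C a b = 1 := by
        have h3 := X.C_mul_left' a a b
        rw [C_one_left X (E_anti (by omega) (hsq n a hn ha))] at h3
        have h4 : ∀ v, X.C a b * v = v * X.C a b := X.cent _ _ (X.C_mem a b) h1
        have h5 : X.s a * X.C a b * (X.s a)⁻¹ = X.C a b := by rw [← h4, mul_inv_cancel_right]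
        rw [h5] at h3
        exact h3.symm
      refine ⟨h1, fun u hu => ?_⟩
      rcases X.eq_or hu (X.C_mem a b) with h | h
      · rw [h, h2]
      · calc u * u = X.C a b * (X.z * X.C a b) * X.z := by rw [h]; group
          _ = (X.C a b * X.C a b) * (X.z * X.z) := by rw [X.z_cent]; group
          _ = 1 := by rw [h2, X.z_sq, mul_one]
    · intro a ha
      refine ⟨E_anti (by omega) ha, fun u hu => ?_⟩
      rcases X.ker _ _ hu ha with h | h
      · rw [h, mul_one]
      · rw [h, X.z_sq]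
  exact (hle hg).2 u hu

/-- the standing hypotheses -/
structure Hyp (n : ℕ) : Prop where
  comm : S_COMM
  commt : S_COMMT
  sq : S_SQ
  gen : S_GEN
  mem : S_MEM
  hn : 1 ≤ n

variable (H : Hyp n)
include H

theorem good_of {g h : J} (hc : ⁅g, h⁆ ∈ E (n + 1)) : X.good g h :=
  mem_Zc_of H.gen H.sq H.commt H.hn (X.C_mem g h) hc

theorem good_lev {i j : ℕ} {g h : J} (hi : 1 ≤ i) (hj : 1 ≤ j) (hg : g ∈ E i) (hh : h ∈ E j)
    (hij : n ≤ i + j) : X.good g h :=
  good_of H (E_anti (by omega) (H.comm i j g h hi hj hg hh))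

theorem good_top {g h : J} (hg : g ∈ E n) : X.good g h :=
  good_of H (H.commt n g h hg)

theorem good_top' {g h : J} (hh : h ∈ E n) : X.good g h := (good_top H hh).swap

/-- level `n+2` pairs are trivial -/
theorem tr_succ : X.Tr (n + 1) := by
  have key : ∀ i, 1 ≤ i → ∀ j, 1 ≤ j → n + 2 ≤ i + j → ∀ g ∈ E i, ∀ h ∈ E j, X.C g h = 1 := by
    intro i hi
    induction i, hi using Nat.le_induction with
    | base =>
      intro j hj hij g _ h hh
      exact C_one_right X (E_anti (by omega) hh) g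
    | succ i hi ih =>
      intro j hj hij g hg h hh
      -- the centralizer of `h`
      let T : Subgroup J :=
        { carrier := {g | X.C g h = 1}
          one_mem' := by
            show X.C 1 h = 1
            exact C_one_left X (one_mem _) h
          mul_mem' := by
            intro a b ha hb
            show X.C (a * b) h = 1
            rw [C_mul_left', show X.C a h = 1 from ha, show X.C b h = 1 from hb]
            group
          inv_mem' := by
            intro a ha
            have h1 : X.C a h = 1 := ha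
            show X.C a⁻¹ h = 1
            have h2 : X.good a h := good_of_one h1
            have := C_inv_left h2
            exact this.1.C_eq_one (by rw [this.2]; exact D_eq_zero h1) }
      have hle : E (i + 1) ≤ T := by
        refine (H.gen i (n + 1) hi).trans (sup_le ?_ ?_)
        · rw [Subgroup.commutator_le]
          intro a ha b _
          show X.C ⁅a, b⁆ h = 1
          have hai : a⁻¹ ∈ E i := (E i).inv_mem ha
          have e1 : X.C (b * a⁻¹ * b⁻¹) h = X.C a⁻¹ h := by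
            have h1 := X.C_conj' b a⁻¹ (b⁻¹ * h * b)
            have h2 : b * (b⁻¹ * h * b) * b⁻¹ = h := by group
            have h3 : b⁻¹ * h * b ∈ E j := by
              have := (E_normal j).conj_mem h hh b⁻¹
              rwa [inv_inv] at this
            rw [h2, C_one_right X (E_anti (by omega) (H.comm i j _ _ hi hj hai h3)), one_mul] at h1
            rw [h1]
            refine C_congr_right (w := ⁅h⁻¹, b⁻¹⁆) (by rw [commutatorElement_def]; group) ?_
            exact ih (j + 1) (by omega) (by omega) _ hai _ (H.commt j _ _ ((E j).inv_mem hh))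
          rw [show ⁅a, b⁆ = a * (b * a⁻¹ * b⁻¹) by rw [commutatorElement_def]; group,
            C_mul_left', e1, ← C_mul_left', mul_inv_cancel, C_one_left X (one_mem _)]
        · intro a ha
          exact C_one_left X ha h
      exact hle hg
  intro i j g h hi hj hij hg hh
  exact key i hi j hj (by omega) g hg h hh

/-! ### squares -/

omit H in
theorem lift_sq_eq {u v : X.Γ} {g : J} (hu : (u, g) ∈ X.L) (hv : (v, g) ∈ X.L) :
    u * u = v * v := by
  rcases X.eq_or hu hv with h | h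
  · rw [h]
  · calc u * u = v * (X.z * v) * X.z := by rw [h]; group
      _ = (v * v) * (X.z * X.z) := by rw [X.z_cent]; group
      _ = v * v := by rw [X.z_sq, mul_one]

/-- the square of a lift -/
noncomputable def Qv (X : Ext n) (w : J) : X.V := X.toV (X.s w * X.s w)

omit H in
theorem D_sq {y g : J} (hg : X.good g ⁅y, g⁆) (hq : X.s ⁅y, g⁆ * X.s ⁅y, g⁆ ∈ X.Zc) :
    X.good y (g * g) ∧ X.D y (g * g) = X.D g ⁅y, g⁆ + X.Qv ⁅y, g⁆ := by
  have h1 : X.s g * X.C y g * (X.s g)⁻¹ = X.C g ⁅y, g⁆ * X.C y g := by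
    rw [← X.C_eq (X.s_mem g) (X.C_mem y g), commutatorElement_def]; group
  have h2 : X.C y (g * g) = X.C g ⁅y, g⁆ * (X.s ⁅y, g⁆ * X.s ⁅y, g⁆) := by
    rw [C_mul_right', h1, ← lift_sq_eq (X.C_mem y g) (X.s_mem ⁅y, g⁆), ← mul_assoc, ← hg.1,
      mul_assoc]
  refine ⟨?_, ?_⟩
  · unfold good; rw [h2]; exact X.Zc.mul_mem hg hq
  · unfold D Qv
    rw [h2, toV_mul X hg hq]

section squares
variable {L m : ℕ} (hT : X.Tr L) (hm : 1 ≤ m) (hL : L + 1 ≤ 2 * m) (hn : n + 1 ≤ 2 * m)
include hm hn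

theorem Q_mem {w : J} (hw : w ∈ E m) : X.s w * X.s w ∈ X.Zc :=
  mem_Zc_of H.gen H.sq H.commt H.hn (X.mul_mem (X.s_mem w) (X.s_mem w))
    (E_anti hn (H.sq m w hm hw))

include hT hL

theorem Q_mul {w w' : J} (hw : w ∈ E m) (hw' : w' ∈ E m) :
    X.Qv (w * w') = X.Qv w + X.Qv w' := by
  have h1 : X.C w w' = 1 := hT m m w w' hm hm (by omega) hw hw'
  have h2 : X.s w * X.s w' = X.s w' * X.s w := commutatorElement_eq_one_iff_mul_comm.1 h1
  have h3 : X.s (w * w') * X.s (w * w') = (X.s w * X.s w) * (X.s w' * X.s w') := by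
    rw [lift_sq_eq (X.s_mem (w * w')) (X.mul_mem (X.s_mem w) (X.s_mem w'))]
    calc X.s w * X.s w' * (X.s w * X.s w') = X.s w * (X.s w' * X.s w) * X.s w' := by group
      _ = (X.s w * X.s w) * (X.s w' * X.s w') := by rw [← h2]; group
  unfold Qv
  rw [h3, toV_mul X (Q_mem H hm hn hw) (Q_mem H hm hn hw')]

omit hT hL in
theorem Q_conj {w : J} (hw : w ∈ E m) (y : J) : X.Qv (y * w * y⁻¹) = X.Qv w := by
  have h3 : X.s (y * w * y⁻¹) * X.s (y * w * y⁻¹) = X.s w * X.s w := by
    rw [lift_sq_eq (X.s_mem (y * w * y⁻¹))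
      (X.mul_mem (X.mul_mem (X.s_mem y) (X.s_mem w)) (X.inv_mem (X.s_mem y)))]
    have := (Q_mem H hm hn hw).1 (X.s y)
    calc X.s y * X.s w * (X.s y)⁻¹ * (X.s y * X.s w * (X.s y)⁻¹)
        = X.s y * (X.s w * X.s w) * (X.s y)⁻¹ := by group
      _ = X.s w * X.s w := by rw [← this]; group
  unfold Qv
  rw [h3]

theorem Q_one {w : J} (hw : w ∈ E (m + 1)) : X.s w * X.s w = 1 := by
  let T : Subgroup J :=
    { carrier := {w | w ∈ E m ∧ X.s w * X.s w = 1}
      one_mem' := ⟨one_mem _, by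
        rw [lift_sq_eq (X.s_mem 1) (v := 1) (X.L.one_mem), mul_one]⟩
      mul_mem' := by
        rintro a b ⟨ha, ha'⟩ ⟨hb, hb'⟩
        refine ⟨(E m).mul_mem ha hb, ?_⟩
        have := Q_mul H hT hm hL hn ha hb
        unfold Qv at this
        rw [ha', hb', toV_one, add_zero] at this
        exact (X.toV_eq_zero (Q_mem H hm hn ((E m).mul_mem ha hb))).1 this
      inv_mem' := by
        rintro a ⟨ha, ha'⟩
        refine ⟨(E m).inv_mem ha, ?_⟩
        rw [lift_sq_eq (X.s_mem a⁻¹) (X.inv_mem (X.s_mem a)), ← mul_inv_rev, ha', inv_one] }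
  have hle : E (m + 1) ≤ T := by
    refine (H.gen m (max m (n + 2)) hm).trans (sup_le ?_ ?_)
    · rw [Subgroup.commutator_le]
      intro a ha b _
      have h1 : ⁅a, b⁆ ∈ E m := E_anti (by omega) (H.commt m a b ha)
      refine ⟨h1, ?_⟩
      have e : ⁅a, b⁆ = a * (b * a⁻¹ * b⁻¹) := by rw [commutatorElement_def]; group
      have hai : a⁻¹ ∈ E m := (E m).inv_mem ha
      have h2 := Q_mul H hT hm hL hn ha ((E_normal m).conj_mem _ hai b)
      rw [Q_conj H hm hn hai b, ← Q_mul H hT hm hL hn ha hai, mul_inv_cancel, ← e] at h2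
      have h3 : X.Qv (1 : J) = 0 := by
        unfold Qv
        rw [lift_sq_eq (X.s_mem 1) (v := 1) (X.L.one_mem), mul_one, toV_one]
      rw [h3] at h2
      exact (X.toV_eq_zero (Q_mem H hm hn h1)).1 h2
    · intro a ha
      refine ⟨E_anti (le_max_left _ _) ha, ?_⟩
      rcases X.ker _ _ (X.s_mem a) (E_anti (le_max_right _ _) ha) with h | h
      · rw [h, mul_one]
      · rw [h, X.z_sq]
  exact (hle hw).2

theorem Qv_zero {w : J} (hw : w ∈ E (m + 1)) : X.Qv w = 0 := by
  unfold Qv; rw [Q_one H hT hm hL hn hw, toV_one]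

theorem Qv_congr {w w' : J} (hw' : w' ∈ E m) (h : CongE (m + 1) w w') : X.Qv w = X.Qv w' := by
  have h1 : w = w' * (w'⁻¹ * w) := by group
  have h2 := congE_iff'.1 h
  rw [h1, Q_mul H hT hm hL hn hw' (E_anti (by omega) h2), Qv_zero H hT hm hL hn h2, add_zero]

end squares

end Ext
end Pool.Agent.H72R2.N2
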