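import Pool.Agent.H72R2.N2.Stm

set_option autoImplicit false

namespace Pool.Agent.H72R2.N2

open PowerSeries Pool.Agent.Helper168.NottDefs Topology

theorem D1_binom (u : R) (m : ℕ) : ∃ Q : R, (1 + u) ^ m = 1 + (m : R) * u + u ^ 2 * Q := by
  induction m with
  | zero => exact ⟨0, by simp⟩
  | succ m ih =>
    obtain ⟨Q, hQ⟩ := ih
    refine ⟨(m : R) + Q + u * Q, ?_⟩
    rw [pow_succ, hQ]
    push_cast
    ring

theorem D1_pow_cB (k m : ℕ) : cB (aa k ^ m) = 0 := by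
  induction m with
  | zero => rw [pow_zero, cB_one]
  | succ m ih => rw [pow_succ, cB_mul, ih, cB_aa, map_zero]; ring

theorem D1_pow_cA {k : ℕ} (hk : 1 ≤ k) (m : ℕ) :
    ∃ Q : R, cA (aa k ^ m) = 1 + (m : R) * X ^ k + X ^ (2 * k) * Q := by
  induction m with
  | zero => exact ⟨0, by rw [pow_zero, cA_one]; simp⟩
  | succ m ih =>
    obtain ⟨Q, hQ⟩ := ih
    have h1 : (aa k).ser = X * (1 + X ^ (2 * k)) := by rw [ser_aa hk]; ring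
    obtain ⟨Q1, hQ1⟩ := D1_binom (X ^ (2 * k)) k
    have h2 : (aa k).ser ^ k = X ^ k * (1 + X ^ (2 * k) * ((k : R) + X ^ (2 * k) * Q1)) := by
      rw [h1, mul_pow, hQ1]; ring
    have h3 : (aa k).ser ^ (2 * k) = X ^ (2 * k) * (1 + X ^ (2 * k)) ^ (2 * k) := by
      rw [h1, mul_pow]
    refine ⟨(m : R) + (1 + X ^ k) * ((m : R) * X ^ k *
          ((k : R) + X ^ (2 * k) * Q1) + (1 + X ^ (2 * k)) ^ (2 * k) * sb (aa k) Q), ?_⟩
    rw [pow_succ, cA_mul, hQ, cA_aa hk, map_add, map_add, map_mul, map_mul, map_one, map_natCast,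
      sb_X_pow, sb_X_pow, h2, h3]
    push_cast
    ring

theorem D1_one_pow (a m : ℕ) (P : R) : ∃ Q : R, (1 + X ^ a * P) ^ m = 1 + X ^ a * Q := by
  obtain ⟨Q, hQ⟩ := D1_binom (X ^ a * P) m
  exact ⟨(m : R) * P + X ^ a * P ^ 2 * Q, by rw [hQ]; ring⟩

theorem D1 : S_D1 := by
  intro j hj
  obtain ⟨k, rfl⟩ : ∃ k, j = k + 3 := ⟨j - 3, by omega⟩
  -- the product f1
  obtain ⟨P, hP⟩ := D1_pow_cA (show 1 ≤ 2 * (k + 3) + 4 by omega) (k + 3)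
  have hwB : cB (aa (2 * (k + 3) + 4) ^ (k + 3)) = 0 := D1_pow_cB _ _
  generalize aa (2 * (k + 3) + 4) ^ (k + 3) = w at hP hwB ⊢
  have hwA : cA w = 1 + ((k + 3 : ℕ) : R) * X ^ (2 * k + 10) + X ^ (2 * k + 12) *
      (X ^ (2 * k + 8) * P) := by
    rw [hP]
    ring
  have hwser : w.ser = X * cA w ^ 2 := by
    rw [ser_eq, hwB]; ring
  -- sb w (X ^ (2 (k + 3)))
  have h1 : sb w (X ^ (2 * (k + 3))) = X ^ (2 * k + 6) * (cA w ^ (4 * (k + 3))) := by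
    rw [sb_X_pow, hwser]
    ring
  obtain ⟨P2, hP2⟩ : ∃ P2 : R, cA w ^ (4 * (k + 3)) = 1 + X ^ (2 * k + 10) * P2 := by
    obtain ⟨Q, hQ⟩ := D1_one_pow (2 * k + 10) (4 * (k + 3)) (((k + 3 : ℕ) : R) +
      X ^ 2 * (X ^ (2 * k + 8) * P))
    refine ⟨Q, ?_⟩
    rw [← hQ]
    have e : cA w = 1 + X ^ (2 * k + 10) * (((k + 3 : ℕ) : R) +
        X ^ 2 * (X ^ (2 * k + 8) * P)) := by rw [hwA]; ring
    rw [e]
  have hf : ∃ P3 : R, cA (aa (2 * (k + 3)) * w) = 1 + X ^ (2 * k + 6) +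
      ((k + 3 : ℕ) : R) * X ^ (2 * k + 10) + X ^ (2 * k + 12) * P3 := by
    rw [cA_mul, cA_aa (by omega), map_add, map_one, h1, hP2, hwA]
    refine ⟨X ^ (2 * k + 8) * P * (1 + X ^ (2 * k + 6) * (1 + X ^ (2 * k + 10) * P2)) +
            X ^ (2 * k + 4) * P2 + ((k + 3 : ℕ) : R) * X ^ (2 * k + 4) *
              (1 + X ^ (2 * k + 10) * P2), ?_⟩
    ring
  obtain ⟨P3, hP3⟩ := hf
  have hfB : cB (aa (2 * (k + 3)) * w) = 0 := by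
    rw [cB_mul, hwB, cB_aa, map_zero]; ring
  refine ⟨?_, ?_⟩
  · -- odd parts
    rw [cA_mul (aa 1) (aa (2 * (k + 3))), cA_mul (aa (2 * (k + 3)) * w) (aa 1), hP3,
      cA_aa (by omega : 1 ≤ 1), cA_aa (by omega : 1 ≤ 2 * (k + 3))]
    simp only [map_add, map_mul, map_one, map_natCast, sb_X_pow, ser_aa (by omega : 1 ≤ 1),
      ser_aa (by omega : 1 ≤ 2 * (k + 3))]
    obtain ⟨Q2, hQ2⟩ := D1_binom (X ^ 4) (k + 3)
    have e1 : ((X : R) + X ^ (2 * 1 + 1)) ^ (2 * k + 6) = X ^ (2 * k + 6) *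
        (1 + ((k + 3 : ℕ) : R) * X ^ 4 + (X ^ 4) ^ 2 * Q2) := by
      have e2 : ((X : R) + X ^ (2 * 1 + 1)) ^ (2 * k + 6) = ((X + X ^ 3) ^ 2) ^ (k + 3) := by
        rw [← pow_mul, show 2 * (k + 3) = 2 * k + 6 by ring]
      rw [e2, add_sq', ← hQ2]
      have e3 : (X : R) ^ 2 + (X ^ 3) ^ 2 = X ^ 2 * (1 + X ^ 4) := by ring
      have e6 : ((X : R) ^ 2) ^ (k + 3) = X ^ (2 * k + 6) := by
        rw [← pow_mul, show 2 * (k + 3) = 2 * k + 6 by ring]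
      rw [e3, mul_pow, e6]
    obtain ⟨Q3, hQ3⟩ := D1_binom (X ^ 2) (2 * k + 10)
    have e7 : (X : R) + X ^ (2 * 1 + 1) = X * (1 + X ^ 2) := by ring
    have e4 : ((X : R) + X ^ (2 * 1 + 1)) ^ (2 * k + 10) = X ^ (2 * k + 10) *
        (1 + ((2 * k + 10 : ℕ) : R) * X ^ 2 + (X ^ 2) ^ 2 * Q3) := by
      rw [← hQ3, ← mul_pow, e7]
    have e5 : ((X : R) + X ^ (2 * 1 + 1)) ^ (2 * k + 12) = X ^ (2 * k + 12) *
        (1 + X ^ 2) ^ (2 * k + 12) := by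
      rw [← mul_pow, e7]
    rw [e1, e4, e5]
    refine ⟨(1 + X ^ (2 * k + 6)) * X ^ (2 * k + 1) -
      (1 + X) * (X ^ 2 * Q2 + ((k + 3 : ℕ) : R) * (((2 * k + 10 : ℕ) : R) + X ^ 2 * Q3) +
        (1 + X ^ 2) ^ (2 * k + 12) * sb (aa 1) P3), ?_⟩
    linear_combination (- (1 + X) * ((k + 3 : ℕ) : R) * X ^ (2 * k + 10)) * two_eq_zero
  · rw [cB_mul, cB_mul (aa (2 * (k + 3)) * w), hfB, cB_aa, cB_aa]
    simp
end Pool.Agent.H72R2.N2
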