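import Mathlib
import Pool.Agent.H72R2.N2.Stm

set_option autoImplicit false

namespace Pool.Agent.H72R2.N2

open PowerSeries Pool.Agent.Helper168.NottDefs Topology
open scoped commutatorElement

theorem D2_pow_exp (y : R) (n : ℕ) : ∃ T : R, (1 + y) ^ n = 1 + (n : R) * y + y ^ 2 * T := by
  induction n with
  | zero => exact ⟨0, by simp⟩
  | succ n ih =>
    obtain ⟨T, hT⟩ := ih
    refine ⟨n + T + y * T, ?_⟩
    rw [pow_succ, hT]; push_cast; ring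

theorem D2_sb_congr {M N : ℕ} {g : J} (h : (X : R) ^ M ∣ g.ser - X) (hN : N ≤ M) (P : R) :
    (X : R) ^ N ∣ sb g P - P := by
  have h1 := dvd_sb_sub (g := g) (g' := 1) (N := M) (by rw [Nott.one_ser]; exact h) P
  rw [sb_one] at h1
  exact (pow_dvd_pow _ hN).trans h1

theorem D2_mul_aa {m N : ℕ} {f : J} {P : R} (hm : 1 ≤ m) (hN : N ≤ 2 * m + 1)
    (h : (X : R) ^ N ∣ cA f - P) : (X : R) ^ N ∣ cA (f * aa m) - P * (1 + X ^ m) := by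
  have h1 : (X : R) ^ N ∣ sb (aa m) (cA f) - cA f := by
    apply D2_sb_congr (M := 2 * m + 1) _ hN
    rw [ser_aa hm, add_sub_cancel_left]
  rw [cA_mul, cA_aa hm]
  have : (1 + X ^ m) * (sb (aa m)) (cA f) - P * (1 + X ^ m) =
      (1 + X ^ m) * ((sb (aa m) (cA f) - cA f) + (cA f - P)) := by ring
  rw [this]
  exact (dvd_add h1 h).mul_left _

theorem D2_mul_aa_pow {m N : ℕ} {f : J} {P : R} (hm : 1 ≤ m) (hN : N ≤ 2 * m + 1)
    (h : (X : R) ^ N ∣ cA f - P) (i : ℕ) :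
    (X : R) ^ N ∣ cA (f * aa m ^ i) - P * (1 + X ^ m) ^ i := by
  induction i with
  | zero => simpa using h
  | succ i ih =>
    rw [pow_succ, pow_succ, ← mul_assoc, ← mul_assoc]
    exact D2_mul_aa hm hN ih

theorem D2_cB_mul_aa {m : ℕ} {f : J} (h : cB f = 0) : cB (f * aa m) = 0 := by
  rw [cB_mul, cB_aa, h, map_zero, zero_mul, add_zero]

theorem D2_cB_mul_aa_pow {m : ℕ} {f : J} (h : cB f = 0) (i : ℕ) : cB (f * aa m ^ i) = 0 := by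
  induction i with
  | zero => simpa using h
  | succ i ih => rw [pow_succ, ← mul_assoc]; exact D2_cB_mul_aa ih

theorem D2_alg (c u v : R) (hu : u = X ^ 5 * v) :
    (1 + u) - (1 + u + u * X ^ 3 + c * u * X ^ 6) * (1 + u * X ^ 3) * (1 + c * u * X ^ 6) =
      (u * X ^ 7) * (-X*v-X^4*v-X^4*c*v-3*X^7*c*v-X^10*c^2*v-X^12*c*v^2-X^15*c*v^2-X^18*c^2*v^2) := by
  subst hu
  linear_combination (-X^8*v-X^11*c*v) * two_eq_zero

theorem D2 : S_D2 := by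
  intro i hi
  obtain ⟨j, rfl⟩ : ∃ j, i = j + 2 := ⟨i - 2, by omega⟩
  set f1 : J := aa (2 * (j + 2) + 1) * aa (2 * (j + 2) + 4) * aa (2 * (j + 2) + 7) ^ (j + 2) with hf1
  set u : R := X ^ (2 * j + 5) with hu
  have hN : (X : R) ^ (2 * j + 12) = u * X ^ 7 := by rw [hu, ← pow_add]
  have hA1 : (X : R) ^ (2 * j + 12) ∣ cA f1 -
      (1 + X ^ (2 * (j + 2) + 1)) * (1 + X ^ (2 * (j + 2) + 4)) * (1 + X ^ (2 * (j + 2) + 7)) ^ (j + 2) := by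
    rw [hf1]
    apply D2_mul_aa_pow (by omega) (by omega)
    apply D2_mul_aa (by omega) (by omega)
    rw [cA_aa (by omega), sub_self]
    exact dvd_zero _
  have hB1 : cB f1 = 0 := by
    rw [hf1]
    apply D2_cB_mul_aa_pow
    apply D2_cB_mul_aa
    exact cB_aa _
  have hs : sb (oo 2) (X : R) = X * (1 + X ^ 3) := by rw [sb_X, ser_oo (by norm_num)]; ring
  have hsq : ((1 : R) + X ^ 3) ^ 2 = 1 + X ^ 6 := by rw [add_sq']; ring
  obtain ⟨T, hT⟩ := D2_pow_exp (X ^ 6 : R) (j + 2)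
  obtain ⟨T2, hT2⟩ := D2_pow_exp (X ^ 6 : R) (j + 4)
  obtain ⟨T3, hT3⟩ := D2_pow_exp (X ^ 3 : R) (2 * j + 11)
  have h1 : sb (oo 2) (X ^ (2 * (j + 2) + 1) : R) = u * (1 + X ^ 3) * (1 + ((j + 2 : ℕ) : R) * X ^ 6 + X ^ 12 * T) := by
    rw [map_pow, hs, mul_pow, pow_succ (1 + X ^ 3 : R), pow_mul, hsq, hT, hu]; ring
  have h2 : sb (oo 2) (X ^ (2 * (j + 2) + 4) : R) = u * X ^ 3 * (1 + (((j + 2 : ℕ) : R) + 2) * X ^ 6 + X ^ 12 * T2) := by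
    rw [map_pow, hs, mul_pow, show 2 * (j + 2) + 4 = 2 * (j + 4) by ring, pow_mul (1 + X ^ 3 : R), hsq, hT2, hu]
    push_cast; ring
  have h3 : sb (oo 2) (X ^ (2 * (j + 2) + 7) : R) = u * X ^ 6 * (1 + X ^ 3 * (((2 * j + 11 : ℕ) : R) + X ^ 3 * T3)) := by
    rw [map_pow, hs, mul_pow, show 2 * (j + 2) + 7 = 2 * j + 11 by ring, hT3, hu]; ring
  obtain ⟨T1, hT1⟩ := D2_pow_exp (u * X ^ 6 * (1 + X ^ 3 * (((2 * j + 11 : ℕ) : R) + X ^ 3 * T3))) (j + 2)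
  have huv : u = X ^ 5 * X ^ (2 * j) := by rw [hu]; ring
  have halg := D2_alg ((j + 2 : ℕ) : R) u (X ^ (2 * j)) huv
  have hsP := dvd_sb (g := oo 2) hA1
  rw [map_sub, map_mul, map_mul, map_pow, map_add, map_add, map_add, map_one, h1, h2, h3, hT1] at hsP
  have g1 : (X : R) ^ (2 * j + 12) ∣ (1 + u * (1 + X ^ 3) * (1 + ((j + 2 : ℕ) : R) * X ^ 6 + X ^ 12 * T)) -
      (1 + u + u * X ^ 3 + ((j + 2 : ℕ) : R) * u * X ^ 6) := by
    rw [hN]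
    exact ⟨((j + 2 : ℕ) : R) * X ^ 2 + X ^ 5 * T * (1 + X ^ 3), by ring⟩
  have g2 : (X : R) ^ (2 * j + 12) ∣ (1 + u * X ^ 3 * (1 + (((j + 2 : ℕ) : R) + 2) * X ^ 6 + X ^ 12 * T2)) -
      (1 + u * X ^ 3) := by
    rw [hN]
    exact ⟨(((j + 2 : ℕ) : R) + 2) * X ^ 2 + X ^ 8 * T2, by ring⟩
  have g3 : (X : R) ^ (2 * j + 12) ∣ (1 + ((j + 2 : ℕ) : R) * (u * X ^ 6 * (1 + X ^ 3 * (((2 * j + 11 : ℕ) : R) + X ^ 3 * T3))) +
      (u * X ^ 6 * (1 + X ^ 3 * (((2 * j + 11 : ℕ) : R) + X ^ 3 * T3))) ^ 2 * T1) - (1 + ((j + 2 : ℕ) : R) * u * X ^ 6) := by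
    rw [hN]
    refine ⟨((j + 2 : ℕ) : R) * X ^ 2 * (((2 * j + 11 : ℕ) : R) + X ^ 3 * T3) +
      u * X ^ 5 * (1 + X ^ 3 * (((2 * j + 11 : ℕ) : R) + X ^ 3 * T3)) ^ 2 * T1, by ring⟩
  have g := dvd_mul_sub (dvd_mul_sub g1 g2) g3
  have key : (X : R) ^ (2 * j + 12) ∣ (1 + u) - sb (oo 2) (cA f1) := by
    have h4 : (X : R) ^ (2 * j + 12) ∣ (1 + u) - (1 + u + u * X ^ 3 + ((j + 2 : ℕ) : R) * u * X ^ 6) * (1 + u * X ^ 3) *
        (1 + ((j + 2 : ℕ) : R) * u * X ^ 6) := by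
      rw [halg, hN]; exact dvd_mul_right _ _
    have h5 := dvd_sub h4 (dvd_add hsP g)
    rwa [sub_add_sub_cancel, sub_sub_sub_cancel_right] at h5
  refine ⟨?_, ?_⟩
  · rw [cA_mul, cA_mul (f := f1), cA_oo, map_one, cA_aa (by omega), mul_one, one_mul]
    have : 2 * (j + 2 + 4) = 2 * j + 12 := by ring
    rw [this, show 2 * (j + 2) + 1 = 2 * j + 5 by ring]
    exact key
  · rw [cB_mul, cB_mul (f := f1), cB_oo (by norm_num), cB_aa, hB1, map_zero, zero_mul, zero_add, add_zero,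
      sb_X_pow, ser_aa (by omega)]
    have e : (X + X ^ (2 * (2 * (j + 2) + 1) + 1) : R) ^ 2 - X ^ 2 * sb (oo 2) (cA f1) =
        X ^ 2 * ((1 + u) - sb (oo 2) (cA f1)) - X ^ 2 * u + X ^ (2 * (2 * (2 * (j + 2) + 1) + 1)) := by
      rw [add_sq']; ring
    rw [e]
    refine dvd_add (dvd_sub ?_ ?_) ?_
    · exact ((pow_dvd_pow _ (by omega)).trans key).mul_left _
    · rw [hu, ← pow_add]; exact pow_dvd_pow _ (by omega)
    · exact pow_dvd_pow _ (by omega)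

end Pool.Agent.H72R2.N2
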