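import Pool.Agent.H72R2.N2.Stm

set_option autoImplicit false

namespace Pool.Agent.H72R2.N2

open PowerSeries Pool.Agent.Helper168.NottDefs Topology
open scoped commutatorElement

theorem D3_cB_mul {f g : J} (hf : cA f = 1) : cB (f * g) = cB g + sb g (cB f) := by
  rw [cB_mul, hf, map_one, mul_one]

theorem D3_cA_mul {f g : J} (hf : cA f = 1) (hg : cA g = 1) : cA (f * g) = 1 := by
  rw [cA_mul, hf, hg, map_one, mul_one]

theorem D3_cA_pow {f : J} (hf : cA f = 1) (n : ℕ) : cA (f ^ n) = 1 := by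
  induction n with
  | zero => rw [pow_zero, cA_one]
  | succ n ih => rw [pow_succ]; exact D3_cA_mul ih hf

theorem D3_aux {Y : R} {N : ℕ} (hY : (X : R) ^ N ∣ Y) (k : ℕ) :
    (X : R) ^ N ∣ (X + Y) ^ k - X ^ k := by
  have := sub_dvd_pow_sub_pow ((X : R) + Y) X k
  rw [add_sub_cancel_left] at this
  exact hY.trans this

theorem D3_aux' (u : R) (n : ℕ) : u ^ 2 ∣ (1 + u) ^ n - 1 - (n : R) * u := by
  induction n with
  | zero => simp
  | succ n ih =>
    have e : (1 + u) ^ (n + 1) - 1 - ((n + 1 : ℕ) : R) * u =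
        (1 + u) * ((1 + u) ^ n - 1 - (n : R) * u) + (n : R) * u ^ 2 := by
      push_cast; ring
    rw [e]
    exact dvd_add (ih.mul_left _) (dvd_mul_left _ _)

theorem D3_pow (m : ℕ) (hm : 2 ≤ m) (n : ℕ) :
    (X : R) ^ (m + 1) ∣ cB (oo m ^ n) - (n : R) * X ^ m := by
  induction n with
  | zero => rw [pow_zero, cB_one]; simp
  | succ n ih =>
    rw [pow_succ (oo m) n, D3_cB_mul (D3_cA_pow (cA_oo m) n), cB_oo (by omega)]
    have h1 := dvd_sb (g := oo m) ih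
    rw [map_sub, map_mul, map_natCast, sb_X_pow, ser_oo (by omega)] at h1
    have h2 : (X : R) ^ (m + 1) ∣ (X + X ^ (2 * m)) ^ m - X ^ m :=
      D3_aux (pow_dvd_pow _ (by omega)) m
    have e : X ^ m + (sb (oo m)) (cB (oo m ^ n)) - ((n + 1 : ℕ) : R) * X ^ m =
        ((sb (oo m)) (cB (oo m ^ n)) - (n : R) * (X + X ^ (2 * m)) ^ m) +
          (n : R) * ((X + X ^ (2 * m)) ^ m - X ^ m) := by
      push_cast; ring
    rw [e]
    exact dvd_add h1 (h2.mul_left _)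

theorem D3 : S_D3 := by
  intro l hl
  have hA1 : cA (oo l * oo (l + 3) ^ l) = 1 := D3_cA_mul (cA_oo l) (D3_cA_pow (cA_oo _) l)
  refine ⟨?_, ?_⟩
  · rw [D3_cA_mul (cA_oo 2) (cA_oo l), D3_cA_mul hA1 (cA_oo 2), sub_self]; exact dvd_zero _
  · have hp := D3_pow (l + 3) (by omega) l
    have hB1 : (X : R) ^ (l + 3 + 1) ∣
        cB (oo l * oo (l + 3) ^ l) - (X ^ l + (l : R) * X ^ (l + 3)) := by
      rw [D3_cB_mul (cA_oo l), cB_oo (by omega : 1 ≤ l), sb_X_pow]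
      have hd : (X : R) ^ (l + 3) ∣ cB (oo (l + 3) ^ l) := by
        have h1 := (pow_dvd_pow (X : R) (by omega : l + 3 ≤ l + 3 + 1)).trans hp
        have h2 := dvd_add h1 (dvd_mul_left ((X : R) ^ (l + 3)) (l : R))
        rwa [sub_add_cancel] at h2
      have hs : (oo (l + 3) ^ l : J).ser = X + cB (oo (l + 3) ^ l) ^ 2 := by
        rw [ser_eq, D3_cA_pow (cA_oo _) l]; ring
      have hd2 : (X : R) ^ (l + 3 + 1) ∣ cB (oo (l + 3) ^ l) ^ 2 := by
        have h1 := pow_dvd_pow_of_dvd hd 2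
        rw [← pow_mul] at h1
        exact (pow_dvd_pow _ (by omega)).trans h1
      have h3 := D3_aux hd2 l
      rw [hs]
      have e : cB (oo (l + 3) ^ l) + (X + cB (oo (l + 3) ^ l) ^ 2) ^ l -
          (X ^ l + (l : R) * X ^ (l + 3)) =
          (cB (oo (l + 3) ^ l) - (l : R) * X ^ (l + 3)) +
          ((X + cB (oo (l + 3) ^ l) ^ 2) ^ l - X ^ l) := by ring
      rw [e]
      exact dvd_add hp h3
    have h2 := dvd_sb (g := oo 2) hB1
    rw [map_sub, map_add, map_mul, map_natCast, sb_X_pow, sb_X_pow,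
      ser_oo (by norm_num : 1 ≤ 2)] at h2
    rw [D3_cB_mul (cA_oo 2), D3_cB_mul hA1, cB_oo (by omega : 1 ≤ l),
      cB_oo (by norm_num : 1 ≤ 2), sb_X_pow, ser_oo (by omega : 1 ≤ l)]
    have h4 : (X : R) ^ (l + 3 + 1) ∣ (X + X ^ (2 * 2)) ^ (l + 3) - X ^ (l + 3) := by
      have e1 : (X : R) + X ^ (2 * 2) = X * (1 + X ^ 3) := by ring
      have h5 := sub_dvd_pow_sub_pow (1 + (X : R) ^ 3) 1 (l + 3)
      rw [add_sub_cancel_left, one_pow] at h5
      have e2 : ((X : R) + X ^ (2 * 2)) ^ (l + 3) - X ^ (l + 3) =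
          X ^ (l + 3) * ((1 + X ^ 3) ^ (l + 3) - 1) := by
        rw [e1, mul_pow]; ring
      rw [e2, pow_add _ (l + 3) 1]
      exact mul_dvd_mul_left _ ((pow_dvd_pow _ (by norm_num)).trans h5)
    have h6 : (X : R) ^ (l + 3 + 1) ∣ (X + X ^ (2 * 2)) ^ l - X ^ l - (l : R) * X ^ (l + 3) := by
      have e1 : (X : R) + X ^ (2 * 2) = X * (1 + X ^ 3) := by ring
      have h5 := D3_aux' ((X : R) ^ 3) l
      rw [← pow_mul] at h5
      have e2 : ((X : R) + X ^ (2 * 2)) ^ l - X ^ l - (l : R) * X ^ (l + 3) =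
          X ^ l * ((1 + X ^ 3) ^ l - 1 - (l : R) * X ^ 3) := by
        rw [e1, mul_pow]; ring
      rw [e2, add_assoc, pow_add]
      exact mul_dvd_mul_left _ ((pow_dvd_pow _ (by norm_num)).trans h5)
    have h7 : (X : R) ^ (l + 3 + 1) ∣ X ^ (4 * l) := pow_dvd_pow _ (by omega)
    have e : X ^ l + (X + X ^ (2 * l)) ^ 2 -
        (X ^ 2 + (sb (oo 2)) (cB (oo l * oo (l + 3) ^ l))) =
        X ^ (4 * l) - ((sb (oo 2)) (cB (oo l * oo (l + 3) ^ l)) -
          ((X + X ^ (2 * 2)) ^ l + (l : R) * (X + X ^ (2 * 2)) ^ (l + 3))) -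
        ((X + X ^ (2 * 2)) ^ l - X ^ l - (l : R) * X ^ (l + 3)) -
        (l : R) * ((X + X ^ (2 * 2)) ^ (l + 3) - X ^ (l + 3)) := by
      have t := two_eq_zero
      have s : (X : R) ^ (4 * l) = (X ^ (2 * l)) ^ 2 := by rw [← pow_mul]; congr 1; ring
      rw [s]
      linear_combination ((X : R) * X ^ (2 * l) - (l : R) * X ^ (l + 3)) * t
    rw [e]
    exact dvd_sub (dvd_sub (dvd_sub h7 h2) h6) (h4.mul_left _)

end Pool.Agent.H72R2.N2
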