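import Mathlib
import Pool.Agent.H72R2.N2.Stm

set_option autoImplicit false

namespace Pool.Agent.H72R2.N2

open PowerSeries Pool.Agent.Helper168.NottDefs Topology
open scoped commutatorElement

theorem D4_one_add_pow (u : R) (m : ℕ) : u ∣ (1 + u) ^ m - 1 := by
  have := sub_dvd_pow_sub_pow (1 + u) 1 m
  simpa using this

theorem D4_one_add_odd (u : R) (i : ℕ) : u ^ 2 ∣ (1 + u) ^ (2 * i + 1) - (1 + u) := by
  have e : (1 + u) ^ (2 * i + 1) - (1 + u) = ((1 + u ^ 2) ^ i - 1) * (1 + u) := by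
    rw [pow_succ, pow_mul, add_sq' 1 u]; ring
  rw [e]
  exact (D4_one_add_pow (u ^ 2) i).mul_right _

theorem D4_pow_cong (N m k : ℕ) (P : R) (hN : N ≤ m + k) (hP : (X : R) ^ m ∣ P) :
    (X : R) ^ N ∣ (X * (1 + P)) ^ k - X ^ k := by
  have e : (X * (1 + P)) ^ k - (X : R) ^ k = X ^ k * ((1 + P) ^ k - 1) := by
    rw [mul_pow]; ring
  rw [e]
  have h1 : (X : R) ^ (k + m) ∣ X ^ k * ((1 + P) ^ k - 1) := by
    rw [pow_add]
    exact mul_dvd_mul_left _ (hP.trans (D4_one_add_pow P k))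
  exact (pow_dvd_pow _ (by omega)).trans h1

theorem D4 : S_D4 := by
  intro i hi
  obtain ⟨k, hk⟩ : ∃ k, k = 2 * i + 1 := ⟨_, rfl⟩
  have hk5 : 5 ≤ k := by omega
  rw [show 2 * i + 7 = k + 6 by omega, ← hk]
  refine ⟨?_, ?_⟩
  · rw [show 2 * (i + 4) = k + 7 by omega]
    -- left side
    have hl : (X : R) ^ (k + 7) ∣ cA (aa 3 * aa k) - (1 + X ^ k) * (1 + X ^ 3) := by
      rw [cA_mul, cA_aa (by omega), cA_aa (by omega), map_add, map_one, map_pow, sb_X,
        ser_aa (by omega)]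
      have h := D4_pow_cong (k + 7) (2 * k) 3 (X ^ (2 * k)) (by omega) dvd_rfl
      have e : (1 + (X : R) ^ k) * (1 + (X + X ^ (2 * k + 1)) ^ 3) - (1 + X ^ k) * (1 + X ^ 3)
          = (1 + X ^ k) * ((X * (1 + X ^ (2 * k))) ^ 3 - X ^ 3) := by ring
      rw [e]
      exact h.mul_left _
    -- first factor on the right
    have hr1 : (X : R) ^ (k + 7) ∣ cA (aa k * aa (k + 6)) - (1 + X ^ k + X ^ (k + 6)) := by
      rw [cA_mul, cA_aa (by omega), cA_aa (by omega), map_add, map_one, map_pow, sb_X,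
        ser_aa (by omega)]
      have h := D4_pow_cong (k + 7) (2 * (k + 6)) k (X ^ (2 * (k + 6))) (by omega) dvd_rfl
      have e : (1 + (X : R) ^ (k + 6)) * (1 + (X + X ^ (2 * (k + 6) + 1)) ^ k)
          - (1 + X ^ k + X ^ (k + 6))
          = (1 + X ^ (k + 6)) * ((X * (1 + X ^ (2 * (k + 6)))) ^ k - X ^ k)
            + X ^ (k + 7) * X ^ (k - 1) := by
        have : (X : R) ^ (k + 7) * X ^ (k - 1) = X ^ (k + 6) * X ^ k := by
          rw [← pow_add, ← pow_add]; congr 1; omega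
        rw [this]
        ring
      rw [e]
      exact dvd_add (h.mul_left _) (Dvd.intro _ rfl)
    have hr2 : (X : R) ^ (k + 7) ∣ sb (aa 3) (1 + X ^ k + X ^ (k + 6)) - (1 + X ^ k) := by
      rw [map_add, map_add, map_one, map_pow, map_pow, sb_X, ser_aa (by omega)]
      have h1 := D4_pow_cong (k + 7) 6 (k + 6) (X ^ 6) (by omega) dvd_rfl
      have h2 : (X : R) ^ (k + 7) ∣ (X * (1 + X ^ 6)) ^ k - (X ^ k + X ^ (k + 6)) := by
        have e : (X * (1 + (X : R) ^ 6)) ^ k - (X ^ k + X ^ (k + 6))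
            = X ^ k * ((1 + X ^ 6) ^ k - (1 + X ^ 6)) := by rw [mul_pow]; ring
        rw [e, hk]
        have h3 := D4_one_add_odd ((X : R) ^ 6) i
        rw [← hk] at h3 ⊢
        rw [← pow_mul] at h3
        have h4 : (X : R) ^ (k + 6 * 2) ∣ X ^ k * ((1 + X ^ 6) ^ k - (1 + X ^ 6)) := by
          rw [pow_add]; exact mul_dvd_mul_left _ h3
        exact (pow_dvd_pow _ (by omega)).trans h4
      have e : (1 : R) + (X + X ^ (2 * 3 + 1)) ^ k + (X + X ^ (2 * 3 + 1)) ^ (k + 6) - (1 + X ^ k)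
          = ((X * (1 + X ^ 6)) ^ k - (X ^ k + X ^ (k + 6)))
            + ((X * (1 + X ^ 6)) ^ (k + 6) - X ^ (k + 6)) + (X ^ (k + 6) + X ^ (k + 6)) := by
        have : (X : R) + X ^ (2 * 3 + 1) = X * (1 + X ^ 6) := by ring
        rw [this]; ring
      rw [e, add_self, add_zero]
      exact dvd_add h2 h1
    have hr : (X : R) ^ (k + 7) ∣ cA (aa k * aa (k + 6) * aa 3) - (1 + X ^ k) * (1 + X ^ 3) := by
      rw [cA_mul, cA_aa (show 1 ≤ 3 by omega)]
      have h3 : (X : R) ^ (k + 7) ∣ sb (aa 3) (cA (aa k * aa (k + 6)) - (1 + X ^ k + X ^ (k + 6))) :=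
        dvd_sb hr1
      rw [map_sub] at h3
      have e : (1 + (X : R) ^ 3) * sb (aa 3) (cA (aa k * aa (k + 6))) - (1 + X ^ k) * (1 + X ^ 3)
          = (1 + X ^ 3) * ((sb (aa 3) (cA (aa k * aa (k + 6)))
              - sb (aa 3) (1 + X ^ k + X ^ (k + 6)))
            + (sb (aa 3) (1 + X ^ k + X ^ (k + 6)) - (1 + X ^ k))) := by ring
      rw [e]
      exact (dvd_add h3 hr2).mul_left _
    have := dvd_sub hl hr
    rwa [sub_sub_sub_cancel_right] at this
  · simp [cB_mul, cB_aa]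

end Pool.Agent.H72R2.N2
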