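import Mathlib
import Pool.Agent.H72R2.N2.Stm

/-! Formalised by helper177. -/

set_option autoImplicit false

namespace Pool.Agent.H72R2.N2

open PowerSeries Pool.Agent.Helper168.NottDefs Topology
open scoped commutatorElement

theorem D5_trans {N : ℕ} {a b c : R} (h : (X : R) ^ N ∣ a - b) (h' : (X : R) ^ N ∣ b - c) :
    (X : R) ^ N ∣ a - c := by
  have : a - c = (a - b) + (b - c) := by ring
  rw [this]
  exact dvd_add h h'

theorem D5_sb_aa {k N : ℕ} (hk : 1 ≤ k) (hN : N ≤ 2 * k + 1) (P : R) :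
    (X : R) ^ N ∣ sb (aa k) P - P := by
  have h : (X : R) ^ N ∣ (aa k).ser - (1 : J).ser := by
    rw [ser_aa hk, Nott.one_ser, add_sub_cancel_left]
    exact pow_dvd_pow _ hN
  have := dvd_sb_sub h P
  rwa [sb_one] at this

theorem D5_sb_oo {k N : ℕ} (hk : 1 ≤ k) (hN : N ≤ 2 * k) (P : R) :
    (X : R) ^ N ∣ sb (oo k) P - P := by
  have h : (X : R) ^ N ∣ (oo k).ser - (1 : J).ser := by
    rw [ser_oo hk, Nott.one_ser, add_sub_cancel_left]
    exact pow_dvd_pow _ hN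
  have := dvd_sb_sub h P
  rwa [sb_one] at this

theorem D5_pow (m : ℕ) : (X : R) ^ (m + 6) ∣ sb (aa 3) (X ^ m) - X ^ m := by
  rw [sb_X_pow, ser_aa (by norm_num : 1 ≤ 3)]
  have h1 : (X + X ^ (2 * 3 + 1) : R) ^ m - X ^ m = X ^ m * ((1 + X ^ 6) ^ m - 1) := by
    rw [show (X + X ^ (2 * 3 + 1) : R) = X * (1 + X ^ 6) by ring, mul_pow]
    ring
  rw [h1, pow_add]
  refine mul_dvd_mul_left _ ?_
  have h2 := sub_dvd_pow_sub_pow (1 + X ^ 6 : R) 1 m
  rw [add_sub_cancel_left, one_pow] at h2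
  exact h2

theorem D5 : S_D5 := by
  intro l hl
  obtain ⟨l', rfl⟩ : ∃ l', l = l' + 3 := ⟨l - 3, by omega⟩
  set l := l' + 3 with hldef
  have hl1 : 1 ≤ l := by omega
  -- left side
  have hAL : (X : R) ^ (2 * l + 6) ∣ cA (aa 3 * oo l) - (1 + X ^ 3 + X ^ (2 * l + 2)) := by
    rw [cA_mul, cA_oo, one_mul, cA_aa (by norm_num : 1 ≤ 3), map_add, map_one, sb_X_pow,
      ser_oo hl1]
    have h : (1 + (X + X ^ (2 * l)) ^ 3 - (1 + X ^ 3 + X ^ (2 * l + 2)) : R) =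
        2 * X ^ (2 * l + 2) + X ^ (2 * l + 6) * (3 * X ^ (2 * l' + 1) + X ^ (4 * l' + 6)) := by
      rw [hldef]
      ring
    rw [h, two_eq_zero, zero_mul, zero_add]
    exact Dvd.intro _ rfl
  have hBL : (X : R) ^ (l + 4) ∣ cB (aa 3 * oo l) - (X ^ l + X ^ (l + 3)) := by
    rw [cB_mul, cB_aa, map_zero, add_zero, cB_oo hl1, cA_aa (by norm_num : 1 ≤ 3), map_add,
      map_one, sb_X_pow, ser_oo hl1]
    have h : (X ^ l * (1 + (X + X ^ (2 * l)) ^ 3) - (X ^ l + X ^ (l + 3)) : R) =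
        X ^ (l + 4) * (3 * X ^ (2 * l' + 4) + 3 * X ^ (4 * l' + 9) + X ^ (6 * l' + 14)) := by
      rw [hldef]
      ring
    rw [h]
    exact Dvd.intro _ rfl
  -- right side
  have hA1 : cA (oo l * oo (l + 3)) = 1 := by
    rw [cA_mul, cA_oo, cA_oo, map_one, one_mul]
  have hB1 : (X : R) ^ (2 * l + 6) ∣ cB (oo l * oo (l + 3)) - (X ^ l + X ^ (l + 3)) := by
    rw [cB_mul, cA_oo, map_one, mul_one, cB_oo (by omega : 1 ≤ l + 3), cB_oo hl1,
      add_comm (X ^ (l + 3) : R) _]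
    exact dvd_add_sub (D5_sb_oo (by omega) (by omega) _) (by simp)
  have hA2 : cA (oo l * oo (l + 3) * aa (2 * l + 2)) = 1 + X ^ (2 * l + 2) := by
    rw [cA_mul, hA1, map_one, mul_one, cA_aa (by omega)]
  have hB2 : (X : R) ^ (2 * l + 6) ∣
      cB (oo l * oo (l + 3) * aa (2 * l + 2)) - (X ^ l + X ^ (l + 3)) := by
    rw [cB_mul, cB_aa, zero_mul, zero_add]
    exact D5_trans (D5_sb_aa (by omega) (by omega) _) hB1
  have hA3 : (X : R) ^ (2 * l + 6) ∣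
      cA (oo l * oo (l + 3) * aa (2 * l + 2) * aa (2 * l + 5)) -
        (1 + X ^ (2 * l + 2) + X ^ (2 * l + 5)) := by
    rw [cA_mul, hA2, cA_aa (by omega : 1 ≤ 2 * l + 5)]
    have h1 : (X : R) ^ (2 * l + 6) ∣
        (1 + X ^ (2 * l + 5)) * sb (aa (2 * l + 5)) (1 + X ^ (2 * l + 2)) -
          (1 + X ^ (2 * l + 5)) * (1 + X ^ (2 * l + 2)) :=
      dvd_mul_sub (by simp) (D5_sb_aa (by omega) (by omega) _)
    refine D5_trans h1 ?_
    have h : ((1 + X ^ (2 * l + 5)) * (1 + X ^ (2 * l + 2)) -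
        (1 + X ^ (2 * l + 2) + X ^ (2 * l + 5)) : R) = X ^ (2 * l + 6) * X ^ (2 * l + 1) := by
      ring
    rw [h]
    exact Dvd.intro _ rfl
  have hB3 : (X : R) ^ (2 * l + 6) ∣
      cB (oo l * oo (l + 3) * aa (2 * l + 2) * aa (2 * l + 5)) - (X ^ l + X ^ (l + 3)) := by
    rw [cB_mul, cB_aa, zero_mul, zero_add]
    exact D5_trans (D5_sb_aa (by omega) (by omega) _) hB2
  have hAR : (X : R) ^ (2 * l + 6) ∣
      cA (oo l * oo (l + 3) * aa (2 * l + 2) * aa (2 * l + 5) * aa 3) -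
        (1 + X ^ 3 + X ^ (2 * l + 2)) := by
    rw [cA_mul, cA_aa (by norm_num : 1 ≤ 3)]
    have h1 : (X : R) ^ (2 * l + 6) ∣
        sb (aa 3) (cA (oo l * oo (l + 3) * aa (2 * l + 2) * aa (2 * l + 5))) -
          sb (aa 3) (1 + X ^ (2 * l + 2) + X ^ (2 * l + 5)) := by
      rw [← map_sub]
      exact dvd_sb hA3
    have h2 : (X : R) ^ (2 * l + 6) ∣
        sb (aa 3) (1 + X ^ (2 * l + 2) + X ^ (2 * l + 5)) -
          (1 + X ^ (2 * l + 2) + X ^ (2 * l + 5)) := by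
      rw [map_add, map_add, map_one]
      refine dvd_add_sub (dvd_add_sub (by simp) ?_) ?_
      · exact (pow_dvd_pow _ (by omega)).trans (D5_pow (2 * l + 2))
      · exact (pow_dvd_pow _ (by omega)).trans (D5_pow (2 * l + 5))
    have h3 := dvd_mul_sub (N := 2 * l + 6) (a := (1 + X ^ 3 : R)) (b := 1 + X ^ 3) (by simp)
      (D5_trans h1 h2)
    refine D5_trans h3 ?_
    have h : ((1 + X ^ 3) * (1 + X ^ (2 * l + 2) + X ^ (2 * l + 5)) -
        (1 + X ^ 3 + X ^ (2 * l + 2)) : R) =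
        2 * X ^ (2 * l + 5) + X ^ (2 * l + 6) * X ^ 2 := by
      ring
    rw [h, two_eq_zero, zero_mul, zero_add]
    exact Dvd.intro _ rfl
  have hBR : (X : R) ^ (l + 4) ∣
      cB (oo l * oo (l + 3) * aa (2 * l + 2) * aa (2 * l + 5) * aa 3) - (X ^ l + X ^ (l + 3)) := by
    rw [cB_mul, cB_aa, zero_mul, zero_add]
    have h1 : (X : R) ^ (l + 4) ∣
        sb (aa 3) (cB (oo l * oo (l + 3) * aa (2 * l + 2) * aa (2 * l + 5))) -
          sb (aa 3) (X ^ l + X ^ (l + 3)) := by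
      rw [← map_sub]
      exact dvd_sb ((pow_dvd_pow _ (by omega)).trans hB3)
    refine D5_trans h1 ?_
    rw [map_add]
    refine dvd_add_sub ?_ ?_
    · exact (pow_dvd_pow _ (by omega)).trans (D5_pow l)
    · exact (pow_dvd_pow _ (by omega)).trans (D5_pow (l + 3))
  refine ⟨?_, ?_⟩
  · have e : 2 * (l + 3) = 2 * l + 6 := by ring
    rw [e, ← sub_sub_sub_cancel_right _ _ (1 + X ^ 3 + X ^ (2 * l + 2) : R)]
    exact dvd_sub hAL hAR
  · have e : l + 3 + 1 = l + 4 := by ring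
    rw [e, ← sub_sub_sub_cancel_right _ _ (X ^ l + X ^ (l + 3) : R)]
    exact dvd_sub hBL hBR

end Pool.Agent.H72R2.N2
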