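import Mathlib
import Pool.Agent.H72R2.N2.Stm

set_option autoImplicit false

namespace Pool.Agent.H72R2.N2

open PowerSeries Pool.Agent.Helper168.NottDefs Topology
open scoped commutatorElement

theorem D6_pow {g : J} {m : ℕ} (h : (X : R) ^ (m + 1) ∣ g.ser - X) (k : ℕ) :
    (X : R) ^ (m + k) ∣ g.ser ^ k - X ^ k := by
  induction k with
  | zero => simp
  | succ k ih =>
    have e : g.ser ^ (k + 1) - X ^ (k + 1) = (g.ser - X) * g.ser ^ k + X * (g.ser ^ k - X ^ k) := by ring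
    rw [e]
    apply dvd_add
    · have h1 : (X : R) ^ k ∣ g.ser ^ k := pow_dvd_pow_of_dvd (X_dvd_ser g) k
      have := mul_dvd_mul h h1
      rw [← pow_add] at this
      exact (pow_dvd_pow _ (by omega)).trans this
    · rw [← add_assoc, pow_succ']
      exact mul_dvd_mul_left _ ih

theorem D6_sb {g : J} {m : ℕ} (h : (X : R) ^ m ∣ g.ser - X) (P : R) :
    (X : R) ^ m ∣ sb g P - P := by
  have := dvd_sb_sub (g := g) (g' := 1) (N := m) (by rw [Nott.one_ser]; exact h) P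
  rwa [sb_one] at this

/-- transitivity of congruence -/
theorem D6_tr {N : ℕ} {a b c : R} (h : (X : R) ^ N ∣ a - b) (h' : (X : R) ^ N ∣ b - c) :
    (X : R) ^ N ∣ a - c := by
  rw [← sub_add_sub_cancel a b c]; exact dvd_add h h'

theorem D6_mono {N M : ℕ} (hM : M ≤ N) {a : R} (h : (X : R) ^ N ∣ a) : (X : R) ^ M ∣ a :=
  (pow_dvd_pow _ hM).trans h

theorem D6 : S_D6 := by
  intro l hl
  have hX : ∀ k, 1 ≤ k → (X : R) ^ (2 * k) ∣ (oo k).ser - X := fun k hk => by
    rw [ser_oo hk]; simp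
  have hY : ∀ k, 1 ≤ k → (X : R) ^ (2 * k + 1) ∣ (aa k).ser - X := fun k hk => by
    rw [ser_aa hk]; simp
  have hB1 : (X : R) ^ (l + 3) ∣ cB (oo l * oo (l + 2)) - (X ^ l + X ^ (l + 2)) := by
    rw [cB_mul, cA_oo, cB_oo (by omega), cB_oo (by omega), map_one, mul_one]
    have h1 : (X : R) ^ (l + 3) ∣ sb (oo (l + 2)) (X ^ l) - X ^ l :=
      D6_sb (D6_mono (by omega) (hX (l + 2) (by omega))) _
    have e : X ^ (l + 2) + sb (oo (l + 2)) (X ^ l) - (X ^ l + X ^ (l + 2)) =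
        sb (oo (l + 2)) (X ^ l) - X ^ l := by ring
    rwa [e]
  have hA1 : cA (oo l * oo (l + 2)) = 1 := by
    rw [cA_mul, cA_oo, cA_oo, map_one, mul_one]
  have hs' : (X : R) ^ (4 + 1) ∣ (aa 2).ser - X := hY 2 (by omega)
  constructor
  · rw [cA_mul, cA_oo, one_mul, cA_aa (by omega), map_add, map_one, sb_X_pow, ser_oo (by omega), cA_mul, hA1,
      map_one, cA_aa (by omega), mul_one, add_sq']
    have e : 1 + (X ^ 2 + (X ^ (2 * l)) ^ 2) - (1 + X ^ 2) = (X : R) ^ (4 * l) := by ring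
    rw [e]
    exact pow_dvd_pow _ (by omega)
  · rw [cB_mul, cB_oo (by omega), cB_aa, map_zero, add_zero, cA_aa (by omega), map_add, map_one, sb_X_pow,
      ser_oo (by omega), cB_mul, cB_aa, zero_mul, zero_add, add_sq']
    have h1 : (X : R) ^ (l + 2 + 1) ∣ (X ^ l + X ^ (l + 2)) - sb (aa 2) (cB (oo l * oo (l + 2))) := by
      rw [← neg_sub]
      refine Dvd.dvd.neg_right ?_
      refine D6_tr (b := sb (aa 2) (X ^ l + X ^ (l + 2))) ?_ ?_
      · rw [← map_sub]; exact dvd_sb hB1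
      · rw [map_add, sb_X_pow, sb_X_pow]
        have e : (aa 2).ser ^ l + (aa 2).ser ^ (l + 2) - (X ^ l + X ^ (l + 2)) =
            ((aa 2).ser ^ l - X ^ l) + ((aa 2).ser ^ (l + 2) - X ^ (l + 2)) := by ring
        rw [e]
        exact dvd_add (D6_mono (by omega) (D6_pow hs' l)) (D6_mono (by omega) (D6_pow hs' (l + 2)))
    refine D6_tr ?_ h1
    have e : (X : R) ^ l * (1 + (X ^ 2 + (X ^ (2 * l)) ^ 2)) - (X ^ l + X ^ (l + 2)) = X ^ (5 * l) := by ring
    rw [e]
    exact pow_dvd_pow _ (by omega)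

end Pool.Agent.H72R2.N2
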