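import Pool.Agent.H72R2.N2.Stm

set_option autoImplicit false

/-! The congruence `D7` in the Nottingham group over `F_2`. -/

namespace Pool.Agent.H72R2.N2

open PowerSeries Pool.Agent.Helper168.NottDefs Topology
open scoped commutatorElement

theorem D7_cA_pow (k n : ℕ) : cA (oo k ^ n) = 1 := by
  induction n with
  | zero => rw [pow_zero, cA_one]
  | succ n ih => rw [pow_succ, cA_mul, ih, map_one, cA_oo, mul_one]

theorem D7_pow_sub {u v : R} {M N L : ℕ} (hu : (X : R) ^ L ∣ u) (hv : (X : R) ^ L ∣ v)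
    (h : (X : R) ^ M ∣ u - v) : (X : R) ^ (M + L * (N - 1)) ∣ u ^ N - v ^ N := by
  rcases Nat.eq_zero_or_pos N with rfl | hN
  · simp
  rw [← Commute.mul_geom_sum₂ (Commute.all u v), pow_add]
  refine mul_dvd_mul h (Finset.dvd_sum fun k hk => ?_)
  have hk' : k < N := Finset.mem_range.1 hk
  have h1 : (X : R) ^ (L * k) ∣ u ^ k := by rw [pow_mul]; exact pow_dvd_pow_of_dvd hu k
  have h2 : (X : R) ^ (L * (N - 1 - k)) ∣ v ^ (N - 1 - k) := by
    rw [pow_mul]; exact pow_dvd_pow_of_dvd hv _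
  have h3 := mul_dvd_mul h1 h2
  rw [← pow_add] at h3
  have : L * k + L * (N - 1 - k) = L * (N - 1) := by
    rw [← Nat.mul_add]; congr 1; omega
  rwa [this] at h3

/-- Taylor estimate -/
theorem D7_taylor {f : J} {M N : ℕ} {P : R} (hN : 1 ≤ N) (hM : 1 ≤ M)
    (hf : (X : R) ^ M ∣ f.ser - X) (hP : (X : R) ^ N ∣ P) :
    (X : R) ^ (N + M - 1) ∣ sb f P - P := by
  obtain ⟨Q, rfl⟩ := hP
  rw [map_mul, sb_X_pow]
  have e : f.ser ^ N * sb f Q - X ^ N * Q =
      (f.ser ^ N - X ^ N) * sb f Q + X ^ N * (sb f Q - Q) := by ring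
  rw [e]
  have h1 : (X : R) ^ (M + 1 * (N - 1)) ∣ f.ser ^ N - X ^ N :=
    D7_pow_sub (by rw [pow_one]; exact X_dvd_ser f) (by rw [pow_one]) hf
  have h2 : (X : R) ^ M ∣ sb f Q - Q := by
    have h := dvd_sb_sub (g := f) (g' := 1) (N := M) (by rwa [Nott.one_ser]) Q
    rwa [sb_one] at h
  apply dvd_add
  · exact (pow_dvd_pow _ (by omega)).trans (h1.mul_right _)
  · refine (pow_dvd_pow _ (show N + M - 1 ≤ N + M by omega)).trans ?_
    rw [pow_add]
    exact mul_dvd_mul_left _ h2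

theorem D7_ser_pow {k : ℕ} (hk : 1 ≤ k) (n : ℕ) :
    (X : R) ^ (2 * k) ∣ (oo k ^ n).ser - X := by
  have h : (oo k ^ n).ser - X = cB (oo k ^ n) ^ 2 := by
    rw [ser_eq, D7_cA_pow]; ring
  rw [h, mul_comm, pow_mul]
  apply pow_dvd_pow_of_dvd
  induction n with
  | zero => rw [pow_zero, cB_one]; exact dvd_zero _
  | succ n ih =>
    rw [pow_succ, cB_mul, D7_cA_pow, map_one, mul_one, cB_oo hk]
    exact dvd_add (dvd_refl _) (dvd_sb (ih (by rw [ser_eq, D7_cA_pow]; ring)))

theorem D7_cB_pow {k : ℕ} (hk : 1 ≤ k) (n : ℕ) :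
    (X : R) ^ (k + 1) ∣ cB (oo k ^ n) - n • X ^ k := by
  induction n with
  | zero => rw [pow_zero, cB_one]; simp
  | succ n ih =>
    rw [pow_succ (oo k) n, cB_mul, D7_cA_pow, map_one, mul_one, cB_oo hk]
    have hd : (X : R) ^ k ∣ cB (oo k ^ n) := by
      have h1 : (X : R) ^ k ∣ n • (X : R) ^ k := by
        rw [nsmul_eq_mul]; exact Dvd.intro_left _ rfl
      have h2 := dvd_add ((pow_dvd_pow _ (Nat.le_succ k)).trans ih) h1
      rwa [sub_add_cancel] at h2
    have ht := D7_taylor (f := oo k) (M := 2 * k) (by omega) (by omega)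
      (by rw [ser_oo hk]; simp) hd
    have e : X ^ k + sb (oo k) (cB (oo k ^ n)) - (n + 1) • X ^ k =
        (sb (oo k) (cB (oo k ^ n)) - cB (oo k ^ n)) + (cB (oo k ^ n) - n • X ^ k) := by
      rw [add_smul, one_smul]; ring
    rw [e]
    exact dvd_add ((pow_dvd_pow _ (by omega)).trans ht) ih

theorem D7 : S_D7 := by
  intro l hl
  refine ⟨?_, ?_⟩
  · simp only [cA_mul, cA_oo, D7_cA_pow, map_one, mul_one, sub_self]
    exact dvd_zero _
  · have h3 : 1 ≤ 3 := by norm_num
    have h5 : 1 ≤ l + 5 := by omega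
    have h1 : 1 ≤ l := by omega
    -- left side
    have hL : (X : R) ^ (l + 6) ∣ cB (oo 3 * oo l) - (X ^ l + X ^ 3) := by
      rw [cB_mul, cA_oo, map_one, mul_one, cB_oo h1, cB_oo h3]
      have ht := D7_taylor (f := oo l) (M := 2 * l) (N := 3) (P := X ^ 3) (by omega) (by omega)
        (by rw [ser_oo h1]; simp) (dvd_refl _)
      have e : X ^ l + sb (oo l) (X ^ 3) - (X ^ l + X ^ 3) = sb (oo l) (X ^ 3) - X ^ 3 := by ring
      rw [e]
      exact (pow_dvd_pow _ (by omega)).trans ht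
    -- the element f1
    set w : J := oo (l + 5) ^ l with hw
    have hf1 : (X : R) ^ (l + 6) ∣ cB (oo l * w) - (X ^ l + l • X ^ (l + 5)) := by
      rw [cB_mul, cA_oo, map_one, mul_one, cB_oo h1]
      have hb := D7_cB_pow h5 l
      have ht := D7_taylor (f := w) (M := 2 * (l + 5)) (N := l) (P := X ^ l) (by omega) (by omega)
        (D7_ser_pow h5 l) (dvd_refl _)
      have e : cB w + sb w (X ^ l) - (X ^ l + l • X ^ (l + 5)) =
          (cB w - l • X ^ (l + 5)) + (sb w (X ^ l) - X ^ l) := by ring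
      rw [e]
      exact dvd_add hb ((pow_dvd_pow _ (by omega)).trans ht)
    -- (X + X^6)^l modulo X^(l+6)
    have hbin : (X : R) ^ (l + 6) ∣ sb (oo 3) (X ^ l) - (X ^ l + l • X ^ (l + 5)) := by
      rw [sb_X_pow, ser_oo h3]
      clear hf1 hL hw w hl h5 h1
      induction l with
      | zero => simp
      | succ l ih =>
        have e : (X + X ^ (2 * 3)) ^ (l + 1) - (X ^ (l + 1) + (l + 1) • X ^ (l + 1 + 5)) =
            (X + X ^ (2 * 3)) * ((X + X ^ (2 * 3)) ^ l - (X ^ l + l • X ^ (l + 5))) +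
              l • (X : R) ^ (l + 11) := by
          simp only [nsmul_eq_mul]; push_cast; ring
        rw [e]
        apply dvd_add
        · obtain ⟨Q, hQ⟩ := ih
          rw [hQ]
          exact ⟨(1 + X ^ 5) * Q, by ring⟩
        · rw [nsmul_eq_mul]
          exact (pow_dvd_pow _ (by omega)).mul_left _
    have hR : (X : R) ^ (l + 6) ∣ cB (oo l * w * oo 3) - (X ^ l + X ^ 3) := by
      rw [cB_mul, cA_mul, cA_oo, map_one, mul_one, hw, D7_cA_pow, map_one, mul_one, cB_oo h3,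
        ← hw]
      have hs := dvd_sb (g := oo 3) hf1
      rw [map_sub, map_add, map_nsmul] at hs
      have ht := D7_taylor (f := oo 3) (M := 6) (N := l + 5) (P := X ^ (l + 5)) (by omega)
        (by omega) (by rw [ser_oo h3]; simp) (dvd_refl _)
      have e : X ^ 3 + sb (oo 3) (cB (oo l * w)) - (X ^ l + X ^ 3) =
          (sb (oo 3) (cB (oo l * w)) - (sb (oo 3) (X ^ l) + l • sb (oo 3) (X ^ (l + 5)))) +
          (sb (oo 3) (X ^ l) - (X ^ l + l • X ^ (l + 5))) +
          (l • (sb (oo 3) (X ^ (l + 5)) - X ^ (l + 5))) +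
          (l • (X ^ (l + 5) + X ^ (l + 5))) := by
        simp only [nsmul_eq_mul]; ring
      rw [e, add_self, smul_zero, add_zero]
      refine dvd_add (dvd_add hs hbin) ?_
      rw [nsmul_eq_mul]
      exact ((pow_dvd_pow _ (by omega)).trans ht).mul_left _
    have e : cB (oo 3 * oo l) - cB (oo l * w * oo 3) =
        (cB (oo 3 * oo l) - (X ^ l + X ^ 3)) - (cB (oo l * w * oo 3) - (X ^ l + X ^ 3)) := by ring
    rw [e]
    exact dvd_sub hL hR

end Pool.Agent.H72R2.N2
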