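import Mathlib
import Pool.Agent.H72R2.N2.Stm

set_option autoImplicit false

/-! The quotients `E n / E (n+1)`. -/

namespace Pool.Agent.H72R2.N2

open PowerSeries Pool.Agent.Helper168.NottDefs Topology
open scoped commutatorElement

theorem DEC_mul {g : J} {M : ℕ} (f : J) (h : (X : R) ^ M ∣ g.ser - X) :
    (X : R) ^ M ∣ cA (f * g) - cA g * cA f ∧ (X : R) ^ M ∣ cB (f * g) - (cB g * cA f + cB f) := by
  have h' : ∀ P : R, (X : R) ^ M ∣ sb g P - P := by
    intro P
    have := dvd_sb_sub (g := g) (g' := 1) (N := M) (by rw [Nott.one_ser]; exact h) P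
    rwa [sb_one] at this
  constructor
  · rw [cA_mul, ← mul_sub]
    exact (h' _).mul_left _
  · rw [cB_mul]
    have : cB g * sb g (cA f) + sb g (cB f) - (cB g * cA f + cB f) =
      cB g * (sb g (cA f) - cA f) + (sb g (cB f) - cB f) := by ring
    rw [this]
    exact dvd_add ((h' _).mul_left _) (h' _)

theorem DEC_ser {n : ℕ} (hn : 1 ≤ n) {g : J} (h : g ∈ E n) : (X : R) ^ (2 * n + 2) ∣ g.ser - X := by
  have := (mem_E.1 h).ser hn
  rwa [Nott.one_ser] at this

/-- additivity of the coordinates on `E n` modulo the next level -/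
theorem DEC_add {n : ℕ} (hn : 1 ≤ n) {f g : J} (hf : f ∈ E n) (hg : g ∈ E n) :
    (X : R) ^ (2 * n + 2) ∣ cA (f * g) - (1 + (cA f - 1) + (cA g - 1)) ∧
    (X : R) ^ (n + 2) ∣ cB (f * g) - (cB f + cB g) := by
  obtain ⟨h1, h2⟩ := DEC_mul f (DEC_ser hn hg)
  obtain ⟨f1, f2⟩ := mem_E'.1 hf
  obtain ⟨g1, g2⟩ := mem_E'.1 hg
  constructor
  · have e : cA (f * g) - (1 + (cA f - 1) + (cA g - 1)) =
        (cA (f * g) - cA g * cA f) + (cA f - 1) * (cA g - 1) := by ring
    rw [e]
    refine dvd_add h1 ?_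
    refine (pow_dvd_pow (X : R) (show 2 * n + 2 ≤ 2 * n + 2 * n by omega)).trans ?_
    rw [pow_add]
    exact mul_dvd_mul f1 g1
  · have e : cB (f * g) - (cB f + cB g) =
        (cB (f * g) - (cB g * cA f + cB f)) + cB g * (cA f - 1) := by ring
    rw [e]
    refine dvd_add ((pow_dvd_pow _ (by omega)).trans h2) ?_
    refine (pow_dvd_pow (X : R) (show n + 2 ≤ (n + 1) + 2 * n by omega)).trans ?_
    rw [pow_add]
    exact mul_dvd_mul g2 f1

theorem DEC_zmod (a : ZMod 2) : a = 0 ∨ a = 1 := by revert a; decide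

theorem DEC_val (a : ZMod 2) : a.val ≤ 1 := by revert a; decide

theorem DEC_aa {k : ℕ} (hk : 1 ≤ k) (a : ZMod 2) :
    cA (aa k ^ a.val) = 1 + PowerSeries.C a * X ^ k ∧ cB (aa k ^ a.val) = 0 := by
  rcases DEC_zmod a with rfl | rfl
  · rw [ZMod.val_zero, pow_zero, cA_one, cB_one, map_zero, zero_mul, add_zero]
    exact ⟨rfl, rfl⟩
  · rw [ZMod.val_one, pow_one, cA_aa hk, cB_aa, map_one, one_mul]
    exact ⟨rfl, rfl⟩

theorem DEC_oo {k : ℕ} (hk : 1 ≤ k) (a : ZMod 2) :
    cA (oo k ^ a.val) = 1 ∧ cB (oo k ^ a.val) = PowerSeries.C a * X ^ k := by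
  rcases DEC_zmod a with rfl | rfl
  · rw [ZMod.val_zero, pow_zero, cA_one, cB_one, map_zero, zero_mul]
    exact ⟨rfl, rfl⟩
  · rw [ZMod.val_one, pow_one, cA_oo, cB_oo hk, map_one, one_mul]
    exact ⟨rfl, rfl⟩

theorem DEC_aa_mem {k n : ℕ} (hk : 1 ≤ k) (h : 2 * n ≤ k) (a : ZMod 2) : aa k ^ a.val ∈ E n := by
  rw [mem_E', (DEC_aa hk a).1, (DEC_aa hk a).2, add_sub_cancel_left]
  exact ⟨(pow_dvd_pow _ h).mul_left _, dvd_zero _⟩

theorem DEC_oo_mem {k n : ℕ} (hk : 1 ≤ k) (h : n + 1 ≤ k) (a : ZMod 2) : oo k ^ a.val ∈ E n := by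
  rw [mem_E', (DEC_oo hk a).1, (DEC_oo hk a).2, sub_self]
  exact ⟨dvd_zero _, (pow_dvd_pow _ h).mul_left _⟩

theorem DEC : S_DEC := by
  intro n g hn hg
  obtain ⟨g1, g2⟩ := mem_E'.1 hg
  rw [X_pow_dvd_iff] at g1 g2
  set a : ZMod 2 := coeff (2 * n) (cA g) with ha
  set b : ZMod 2 := coeff (2 * n + 1) (cA g) with hb
  set c : ZMod 2 := coeff (n + 1) (cB g) with hc
  refine ⟨a.val, b.val, c.val, DEC_val _, DEC_val _, DEC_val _, ?_⟩
  have mP := DEC_aa_mem (k := 2 * n) (n := n) (by omega) (by omega) a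
  have mQ := DEC_aa_mem (k := 2 * n + 1) (n := n) (by omega) (by omega) b
  have mR := DEC_oo_mem (k := n + 1) (n := n) (by omega) (by omega) c
  obtain ⟨P1, P2⟩ := DEC_aa (k := 2 * n) (by omega) a
  obtain ⟨Q1, Q2⟩ := DEC_aa (k := 2 * n + 1) (by omega) b
  obtain ⟨R1, R2⟩ := DEC_oo (k := n + 1) (by omega) c
  obtain ⟨x1, x2⟩ := DEC_add hn mP mQ
  obtain ⟨y1, y2⟩ := DEC_add hn ((E n).mul_mem mP mQ) mR
  rw [P1, Q1] at x1
  rw [P2, Q2] at x2
  rw [R1] at y1
  rw [R2] at y2
  constructor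
  · have z1 : (X : R) ^ (2 * n + 2) ∣ cA g -
        (1 + PowerSeries.C a * X ^ (2 * n) + PowerSeries.C b * X ^ (2 * n + 1)) := by
      rw [X_pow_dvd_iff]
      intro m hm
      rw [map_sub, map_add, map_add, coeff_C_mul, coeff_C_mul, coeff_X_pow, coeff_X_pow]
      rcases Nat.lt_or_ge m (2 * n) with h | h
      · have := g1 m h
        rw [map_sub] at this
        rw [if_neg (by omega), if_neg (by omega), mul_zero, mul_zero, add_zero, add_zero]
        exact this
      · rcases Nat.lt_or_ge m (2 * n + 1) with h' | h'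
        · have e : m = 2 * n := by omega
          subst e
          rw [if_pos rfl, if_neg (by omega), mul_one, mul_zero, add_zero, ← ha, coeff_one,
            if_neg (by omega), zero_add, sub_self]
        · have e : m = 2 * n + 1 := by omega
          subst e
          rw [if_neg (by omega), if_pos rfl, mul_one, mul_zero, add_zero, ← hb, coeff_one,
            if_neg (by omega), zero_add, sub_self]
    have e : 2 * (n + 1) = 2 * n + 2 := by ring
    rw [e]
    have := dvd_sub z1 (dvd_add x1 y1)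
    convert this using 1
    ring
  · have z2 : (X : R) ^ (n + 2) ∣ cB g - PowerSeries.C c * X ^ (n + 1) := by
      rw [X_pow_dvd_iff]
      intro m hm
      rw [map_sub, coeff_C_mul, coeff_X_pow]
      rcases Nat.lt_or_ge m (n + 1) with h | h
      · rw [if_neg (by omega), mul_zero, sub_zero]
        exact g2 m h
      · have e : m = n + 1 := by omega
        subst e
        rw [if_pos rfl, mul_one, ← hc, sub_self]
    have e : n + 1 + 1 = n + 2 := by ring
    rw [e]
    have := dvd_sub z2 (dvd_add x2 y2)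
    convert this using 1
    ring

theorem DEC0 : S_DEC0 := by
  intro g
  set a : ZMod 2 := coeff 1 (cB g) with ha
  set b : ZMod 2 := coeff 1 (cA g) with hb
  refine ⟨a.val, b.val, DEC_val _, DEC_val _, ?_⟩
  obtain ⟨P1, P2⟩ := DEC_oo (k := 1) le_rfl a
  obtain ⟨Q1, Q2⟩ := DEC_aa (k := 1) le_rfl b
  have hs : (X : R) ^ 2 ∣ (aa 1 ^ b.val).ser - X := by
    rw [X_pow_dvd_iff]
    intro m hm
    rw [map_sub, coeff_X]
    rcases Nat.lt_or_ge m 1 with h | h
    · have : m = 0 := by omega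
      subst this
      rw [if_neg (by omega), sub_zero]
      exact (aa 1 ^ b.val).c0
    · have : m = 1 := by omega
      subst this
      rw [if_pos rfl, (aa 1 ^ b.val).c1, sub_self]
  obtain ⟨x1, x2⟩ := DEC_mul (oo 1 ^ a.val) hs
  rw [P1, Q1, mul_one] at x1
  rw [P1, P2, Q2, zero_mul, zero_add] at x2
  constructor
  · have z1 : (X : R) ^ 2 ∣ cA g - (1 + PowerSeries.C b * X ^ 1) := by
      rw [X_pow_dvd_iff]
      intro m hm
      rw [map_sub, map_add, coeff_C_mul, coeff_X_pow, coeff_one]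
      rcases Nat.lt_or_ge m 1 with h | h
      · have : m = 0 := by omega
        subst this
        rw [cA_zero, if_pos rfl, if_neg (by omega), mul_zero, add_zero, sub_self]
      · have : m = 1 := by omega
        subst this
        rw [if_neg (by omega), if_pos rfl, mul_one, zero_add, ← hb, sub_self]
    have := dvd_sub z1 x1
    rw [mul_one]
    convert this using 1
    ring
  · have z2 : (X : R) ^ 2 ∣ cB g - PowerSeries.C a * X ^ 1 := by
      rw [X_pow_dvd_iff]
      intro m hm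
      rw [map_sub, coeff_C_mul, coeff_X_pow]
      rcases Nat.lt_or_ge m 1 with h | h
      · have : m = 0 := by omega
        subst this
        rw [cB_zero, if_neg (by omega), mul_zero, sub_self]
      · have : m = 1 := by omega
        subst this
        rw [if_pos rfl, mul_one, ← ha, sub_self]
    have := dvd_sub z2 x2
    convert this using 1
    ring

end Pool.Agent.H72R2.N2
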