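import Mathlib
import Pool.Agent.H72R2.N2.Stm

set_option autoImplicit false

/-! Task DESC (helper61): descending along the filtration in a central extension. -/

namespace Pool.Agent.H72R2.N2

open PowerSeries Pool.Agent.Helper168.NottDefs Topology
open scoped commutatorElement

section DESCsec

variable {Q : Type} [Group Q] (π : Q →* J) (V : Subgroup Q) (M : ℕ)

/-- the subgroups `T k` -/
noncomputable def DESC_T (k : ℕ) : Subgroup Q :=
  (V ⊓ (E M).comap π) ⊔ ⁅(E k).comap π, (⊤ : Subgroup Q)⁆

theorem DESC_T_normal [hV : V.Normal] (k : ℕ) : (DESC_T π V M k).Normal := by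
  have h1 : (V ⊓ (E M).comap π).Normal := Subgroup.normal_inf_normal V _
  have h2 : (⁅(E k).comap π, (⊤ : Subgroup Q)⁆).Normal := Subgroup.commutator_normal _ _
  exact Subgroup.sup_normal _ _

/-- the image of `T k` is `E (k+1)` -/
theorem DESC_map_T (hc : S_COMMT) (hg : S_GEN) (hs : Function.Surjective π) {N : ℕ}
    (hVN : ∀ g ∈ E N, ∃ v ∈ V, π v = g) (hNM : N ≤ M) (k : ℕ) (hk : 1 ≤ k) (hkM : k + 1 ≤ M) :
    (DESC_T π V M k).map π = E (k + 1) := by
  unfold DESC_T
  rw [Subgroup.map_sup, Subgroup.map_commutator, Subgroup.map_comap_eq_self_of_surjective hs,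
    Subgroup.map_top_of_surjective π hs]
  apply le_antisymm
  · apply sup_le
    · rintro _ ⟨v, ⟨_, hv⟩, rfl⟩
      exact E_anti hkM hv
    · rw [Subgroup.commutator_le]
      intro g hg' h _
      exact hc k g h hg'
  · refine (hg k M hk).trans ?_
    rw [sup_comm]
    refine sup_le_sup ?_ le_rfl
    intro g hgM
    obtain ⟨v, hv, rfl⟩ := hVN g (E_anti hNM hgM)
    exact ⟨v, ⟨hv, hgM⟩, rfl⟩

end DESCsec

theorem DESC : S_DESC := by
  intro hc hg n0 hn0 hstep Q _ π z V N hVn hs hz hker hzV hVN
  classical
  haveI := hVn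
  set M : ℕ := max N n0 + 2 with hM
  have hNM : N ≤ M := (le_max_left N n0).trans (by omega)
  have hn0M : n0 ≤ max N n0 := le_max_right _ _
  have hπz : π z = 1 := (hker z).2 (Or.inr rfl)
  -- `z` is central of order two
  have hcent : ∀ q : Q, q * z = z * q := by
    intro q
    have h1 : π (q * z * q⁻¹) = 1 := by rw [map_mul, map_mul, hπz, mul_one, map_inv, mul_inv_cancel]
    rcases (hker _).1 h1 with h | h
    · exfalso
      apply hz
      have h2 := congrArg (fun x => q⁻¹ * x * q) h
      simpa [mul_assoc] using h2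
    · have h2 := congrArg (fun x => x * q) h
      simpa [mul_assoc] using h2
  have hTn : ∀ k, (DESC_T π V M k).Normal := fun k => DESC_T_normal π V M k
  have hfib : ∀ q t : Q, π q = π t → q = t ∨ q = z * t := by
    intro q t h
    have h1 : π (q * t⁻¹) = 1 := by rw [map_mul, map_inv, h, mul_inv_cancel]
    rcases (hker _).1 h1 with h | h
    · left
      exact mul_inv_eq_one.1 h
    · right
      rw [← h]
      group
  -- base
  have hbase : z ∉ DESC_T π V M (max N n0) := by
    intro h
    apply hzV
    have hle : DESC_T π V M (max N n0) ≤ V := by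
      unfold DESC_T
      apply sup_le inf_le_left
      rw [Subgroup.commutator_le]
      intro q hq w _
      have h1 : π q ∈ E N := E_anti (le_max_left N n0) hq
      obtain ⟨v, hv, hvq⟩ := hVN _ h1
      have h2 : ⁅v, w⁆ ∈ V := by
        rw [commutatorElement_def, mul_assoc, mul_assoc]
        refine V.mul_mem hv ?_
        rw [← mul_assoc]
        exact hVn.conj_mem _ (V.inv_mem hv) w
      rcases hfib q v hvq.symm with h | h
      · rw [h]; exact h2
      · have h3 : ⁅q, w⁆ = ⁅v, w⁆ := by
          rw [h, commutatorElement_def, commutatorElement_def, mul_inv_rev]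
          have h4 := hcent (v * w * v⁻¹)
          have h6 : z * v * w * (v⁻¹ * z⁻¹) = v * w * v⁻¹ := by
            calc z * v * w * (v⁻¹ * z⁻¹) = (z * (v * w * v⁻¹)) * z⁻¹ := by group
              _ = (v * w * v⁻¹) * z * z⁻¹ := by rw [h4]
              _ = v * w * v⁻¹ := by group
          rw [h6]
        rw [h3]
        exact h2
    exact hle h
  -- step
  have hdown : ∀ n, n0 ≤ n → n + 1 ≤ max N n0 → z ∉ DESC_T π V M (n + 1) →
      z ∉ DESC_T π V M n := by
    intro n hn hn1 hzT hzn
    haveI := hTn (n + 1)
    have hmap : (DESC_T π V M (n + 1)).map π = E (n + 2) :=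
      DESC_map_T π V M hc hg hs hVN hNM (n + 1) (by omega) (by omega)
    let X : Ext n :=
      { Γ := Q ⧸ DESC_T π V M (n + 1)
        z := (QuotientGroup.mk' (DESC_T π V M (n + 1))) z
        hz := by
          intro h
          exact hzT ((QuotientGroup.eq_one_iff z).1 h)
        L := ((QuotientGroup.mk' (DESC_T π V M (n + 1))).prod π).range
        surjJ := by
          intro g
          obtain ⟨q, rfl⟩ := hs g
          exact ⟨_, q, rfl⟩
        surjΓ := by
          intro u
          obtain ⟨q, rfl⟩ := QuotientGroup.mk'_surjective _ u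
          exact ⟨_, q, rfl⟩
        lift_z := ⟨z, by rw [← hπz]; rfl⟩
        ker := by
          rintro u g ⟨q, hq⟩ hg2
          have h1 : (QuotientGroup.mk' (DESC_T π V M (n + 1))) q = u := congrArg Prod.fst hq
          have h2 : π q = g := congrArg Prod.snd hq
          subst h2
          rw [← hmap] at hg2
          obtain ⟨t, ht, htq⟩ := hg2
          have ht1 : (QuotientGroup.mk' (DESC_T π V M (n + 1))) t = 1 :=
            (QuotientGroup.eq_one_iff t).2 ht
          rcases hfib q t htq.symm with h | h
          · left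
            rw [← h1, h, ht1]
          · right
            rw [← h1, h, map_mul, ht1, mul_one]
        coker := by
          rintro g ⟨q, hq⟩
          have h1 : (QuotientGroup.mk' (DESC_T π V M (n + 1))) q = 1 := congrArg Prod.fst hq
          have h2 : π q = g := congrArg Prod.snd hq
          have h3 : q ∈ DESC_T π V M (n + 1) := (QuotientGroup.eq_one_iff q).1 h1
          rw [← hmap, ← h2]
          exact ⟨q, h3, rfl⟩
        cent := by
          rintro u g ⟨q, hq⟩ hg1 v
          have h1 : (QuotientGroup.mk' (DESC_T π V M (n + 1))) q = u := congrArg Prod.fst hq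
          have h2 : π q = g := congrArg Prod.snd hq
          obtain ⟨w, rfl⟩ := QuotientGroup.mk'_surjective _ v
          rw [← h1]
          have h3 : ⁅q, w⁆ ∈ DESC_T π V M (n + 1) := by
            apply Subgroup.mem_sup_right
            apply Subgroup.commutator_mem_commutator _ (Subgroup.mem_top _)
            rw [Subgroup.mem_comap, h2]
            exact hg1
          have h4 : (QuotientGroup.mk' (DESC_T π V M (n + 1))) ⁅q, w⁆ = 1 :=
            (QuotientGroup.eq_one_iff _).2 h3
          rw [map_commutatorElement] at h4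
          exact commutatorElement_eq_one_iff_mul_comm.1 h4 }
    apply hstep n hn X
    have hle : DESC_T π V M n ≤ X.cm.comap (QuotientGroup.mk' (DESC_T π V M (n + 1))) := by
      have hV1 : V ⊓ (E M).comap π ≤ X.cm.comap (QuotientGroup.mk' (DESC_T π V M (n + 1))) := by
        intro q hq
        rw [Subgroup.mem_comap]
        have h1 : (QuotientGroup.mk' (DESC_T π V M (n + 1))) q = 1 :=
          (QuotientGroup.eq_one_iff q).2 (Subgroup.mem_sup_left hq)
        rw [h1]
        exact X.cm.one_mem
      refine sup_le hV1 ?_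
      rw [Subgroup.commutator_le]
      intro q hq w _
      rw [Subgroup.mem_comap, map_commutatorElement]
      exact Subgroup.subset_closure ⟨_, π q, _, ⟨q, rfl⟩, hq, rfl⟩
    exact hle hzn
  have hall : ∀ m, m ≤ max N n0 - n0 → z ∉ DESC_T π V M (max N n0 - m) := by
    intro m
    induction m with
    | zero => intro _; exact hbase
    | succ m ih =>
      intro hm
      have h1 := ih (by omega)
      have h2 : max N n0 - m = (max N n0 - (m + 1)) + 1 := by omega
      rw [h2] at h1
      exact hdown _ (by omega) (by omega) h1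
  have hz0 : z ∉ DESC_T π V M n0 := by
    have h1 := hall (max N n0 - n0) le_rfl
    have h2 : max N n0 - (max N n0 - n0) = n0 := by omega
    rwa [h2] at h1
  haveI := hTn n0
  refine ⟨DESC_T π V M n0, hTn n0, hz0, ⟨M, le_sup_left⟩, ?_⟩
  have hmap : (DESC_T π V M n0).map π = E (n0 + 1) :=
    DESC_map_T π V M hc hg hs hVN hNM n0 hn0 (by omega)
  have hkcard : Nat.card π.ker = 2 := by
    have h1 : (π.ker : Set Q) = {1, z} := by
      ext q
      simp only [SetLike.mem_coe, MonoidHom.mem_ker, Set.mem_insert_iff, Set.mem_singleton_iff]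
      exact hker q
    have h2 : Nat.card π.ker = Set.ncard (π.ker : Set Q) := rfl
    rw [h2, h1]
    exact Set.ncard_pair hz.symm
  have h1 : (E (n0 + 1)).index = (DESC_T π V M n0 ⊔ π.ker).index := by
    rw [← hmap, Subgroup.index_map, MonoidHom.range_eq_top.2 hs, Subgroup.index_top, mul_one]
  have h2 : (DESC_T π V M n0).relIndex (DESC_T π V M n0 ⊔ π.ker) = 2 := by
    rw [sup_comm, Subgroup.relIndex_sup_right, ← Subgroup.inf_relIndex_right]
    have h3 : DESC_T π V M n0 ⊓ π.ker = ⊥ := by
      rw [eq_bot_iff]
      rintro q ⟨hqT, hqk⟩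
      rcases (hker q).1 hqk with h | h
      · exact h
      · exact absurd (h ▸ hqT) hz0
    rw [h3, Subgroup.relIndex_bot_left, hkcard]
  rw [← Subgroup.relIndex_mul_index (le_sup_left : DESC_T π V M n0 ≤ DESC_T π V M n0 ⊔ π.ker), h2,
    ← h1]

end Pool.Agent.H72R2.N2
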