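import Pool.Agent.H72R2.N2.Stm

set_option autoImplicit false

namespace Pool.Agent.H72R2.N2

open PowerSeries Pool.Agent.Helper168.NottDefs
open scoped commutatorElement

/-- a congruence which exhibits `w` as a commutator -/
theorem GEN_key {n s : ℕ} {y f w : J} (hf : f ∈ E n) (h : CongE s (y * f) (f * w * y)) :
    w ∈ ⁅E n, (⊤ : Subgroup J)⁆ ⊔ E s := by
  have h1 : CongE s (y * f * y⁻¹) (f * w) := conj_cong h
  have h2 : CongE s (f⁻¹ * (y * f * y⁻¹)) w := by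
    have := (CongE.refl s f⁻¹).mul h1
    rwa [inv_mul_cancel_left] at this
  have h3 : f⁻¹ * (y * f * y⁻¹) = ⁅f⁻¹, y⁆ := by
    rw [commutatorElement_def]
    group
  rw [h3] at h2
  have h4 : w * ⁅f⁻¹, y⁆⁻¹ ∈ E s := congE_iff.1 h2.symm
  have h5 : ⁅f⁻¹, y⁆ ∈ ⁅E n, (⊤ : Subgroup J)⁆ :=
    Subgroup.commutator_mem_commutator (inv_mem hf) (Subgroup.mem_top _)
  have h6 : w = w * ⁅f⁻¹, y⁆⁻¹ * ⁅f⁻¹, y⁆ := by group
  rw [h6]
  exact mul_mem (Subgroup.mem_sup_right h4) (Subgroup.mem_sup_left h5)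

theorem GEN_one (h1 : S_DEC) (h2 : S_B2) (h3 : S_B5) (h4 : S_B6) (h5 : S_MEM) (n : ℕ)
    (hn : 1 ≤ n) : E (n + 1) ≤ ⁅E n, (⊤ : Subgroup J)⁆ ⊔ E (n + 2) := by
  have e1 : aa (2 * n + 1) ∈ E n := h5.1 _ _ (by omega) (by omega)
  have e2 : oo (n + 1) ∈ E n := h5.2 _ _ (by omega) (by omega)
  have m3 : aa (2 * n + 3) ∈ ⁅E n, (⊤ : Subgroup J)⁆ ⊔ E (n + 2) := GEN_key e1 (h3 n hn)
  have m2 : aa (2 * n + 2) ∈ ⁅E n, (⊤ : Subgroup J)⁆ ⊔ E (n + 2) := by
    have h := h2 n hn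
    rw [mul_assoc (aa (2 * n + 1))] at h
    have h' := GEN_key e1 h
    exact (Subgroup.mul_mem_cancel_right _ (pow_mem m3 n)).1 h'
  have mo : oo (n + 2) ∈ ⁅E n, (⊤ : Subgroup J)⁆ ⊔ E (n + 2) := by
    have h := h4 n hn
    rw [mul_assoc (oo (n + 1)), mul_assoc (oo (n + 1))] at h
    have h' := GEN_key e2 h
    exact (Subgroup.mul_mem_cancel_right _ m2).1 ((Subgroup.mul_mem_cancel_right _ m3).1 h')
  intro g hg
  obtain ⟨a, b, c, _, _, _, h⟩ := h1 (n + 1) g (by omega) hg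
  have hw : aa (2 * (n + 1)) ^ a * aa (2 * (n + 1) + 1) ^ b * oo (n + 1 + 1) ^ c ∈
      ⁅E n, (⊤ : Subgroup J)⁆ ⊔ E (n + 2) :=
    mul_mem (mul_mem (pow_mem m2 a) (pow_mem m3 b)) (pow_mem mo c)
  have hd := Subgroup.mem_sup_right (S := ⁅E n, (⊤ : Subgroup J)⁆) (congE_iff.1 h)
  exact (Subgroup.mul_mem_cancel_right _ (inv_mem hw)).1 hd

theorem GEN (h1 : S_DEC) (h2 : S_B2) (h3 : S_B5) (h4 : S_B6) (h5 : S_MEM) (h6 : S_COMMT) :
    S_GEN := by
  intro n M hn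
  have key : ∀ k : ℕ, E (n + 1) ≤ ⁅E n, (⊤ : Subgroup J)⁆ ⊔ E (n + 1 + k) := by
    intro k
    induction k with
    | zero => exact le_sup_right
    | succ k ih =>
      have h := GEN_one h1 h2 h3 h4 h5 (n + k) (by omega)
      have e1 : n + 1 + k = n + k + 1 := by omega
      have e2 : n + 1 + (k + 1) = n + k + 2 := by omega
      rw [e1] at ih
      rw [e2]
      refine ih.trans (sup_le le_sup_left (h.trans (sup_le ?_ le_sup_right)))
      exact (Subgroup.commutator_mono (E_anti (by omega)) le_rfl).trans le_sup_left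
  rcases Nat.le_total M (n + 1) with hM | hM
  · exact (E_anti hM).trans le_sup_right
  · have := key (M - (n + 1))
    rwa [Nat.add_sub_cancel' hM] at this

end Pool.Agent.H72R2.N2
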