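import Pool.Agent.H72R2.N2.Stm

set_option autoImplicit false

namespace Pool.Agent.H72R2.N2

open PowerSeries Pool.Agent.Helper168.NottDefs

theorem IND_not_dvd {m k : ℕ} (hk : k < m) (h : (X : R) ^ m ∣ X ^ k) : False := by
  rw [X_pow_dvd_iff] at h
  have := h k hk
  rw [coeff_X_pow, if_pos rfl] at this
  exact one_ne_zero this

theorem IND_unit {w g : J} (h : (X : R) ∣ sb w (cA g)) : False := by
  rw [← pow_one (X : R), dvd_sb_iff, X_pow_dvd_iff] at h
  have h1 := h 0 one_pos
  rw [cA_zero] at h1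
  exact one_ne_zero h1

theorem IND : S_IND := by
  intro n a b c hn ha hb hc h
  rw [mem_E'] at h
  obtain ⟨hA, hB⟩ := h
  have h2n : 1 ≤ 2 * n := by omega
  have h2n1 : 1 ≤ 2 * n + 1 := by omega
  have hw : cA (oo (n + 1) ^ c) = 1 := by
    interval_cases c
    · rw [pow_zero, cA_one]
    · rw [pow_one, cA_oo]
  have hf0 : cB (aa (2 * n) ^ a) = 0 := by
    interval_cases a
    · rw [pow_zero, cB_one]
    · rw [pow_one, cB_aa]
  have hh0 : cB (aa (2 * n + 1) ^ b) = 0 := by
    interval_cases b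
    · rw [pow_zero, cB_one]
    · rw [pow_one, cB_aa]
  have hP : cB (aa (2 * n) ^ a * aa (2 * n + 1) ^ b) = 0 := by
    rw [cB_mul, hf0, hh0, map_zero, zero_mul, zero_add]
  rw [cB_mul, hP, map_zero, add_zero] at hB
  have hc0 : c = 0 := by
    by_contra hne
    have hc1 : c = 1 := by omega
    subst hc1
    rw [pow_one, cB_oo (by omega), show n + 1 + 1 = (n + 1) + 1 from rfl, pow_succ] at hB
    have hX : (X : R) ^ (n + 1) ≠ 0 := pow_ne_zero _ X_ne_zero
    exact IND_unit ((mul_dvd_mul_iff_left hX).1 hB)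
  rw [cA_mul, hw, one_mul] at hA
  have hA2 : (X : R) ^ (2 * (n + 1)) ∣ cA (aa (2 * n) ^ a * aa (2 * n + 1) ^ b) - 1 := by
    rw [← dvd_sb_iff (g := oo (n + 1) ^ c), map_sub, map_one]
    exact hA
  have hab : a = 0 ∧ b = 0 := by
    interval_cases b
    · refine ⟨?_, rfl⟩
      by_contra hne
      have ha1 : a = 1 := by omega
      subst ha1
      rw [pow_zero, mul_one, pow_one, cA_aa h2n, add_sub_cancel_left] at hA2
      exact IND_not_dvd (by omega) hA2
    · exfalso
      interval_cases a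
      · rw [pow_zero, one_mul, pow_one, cA_aa h2n1, add_sub_cancel_left] at hA2
        exact IND_not_dvd (by omega) hA2
      · rw [pow_one, pow_one, cA_mul, cA_aa h2n, cA_aa h2n1, map_add, map_one] at hA2
        have hA3 := (pow_dvd_pow (X : R) (show 2 * n + 1 ≤ 2 * (n + 1) by omega)).trans hA2
        have e : (1 + X ^ (2 * n + 1)) * (1 + sb (aa (2 * n + 1)) (X ^ (2 * n))) - 1 =
            sb (aa (2 * n + 1)) (X ^ (2 * n)) +
              (X : R) ^ (2 * n + 1) * (1 + sb (aa (2 * n + 1)) (X ^ (2 * n))) := by ring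
        rw [e, dvd_add_left (dvd_mul_right _ _), dvd_sb_iff] at hA3
        exact IND_not_dvd (by omega) hA3
  exact ⟨hab.1, hab.2, hc0⟩

end Pool.Agent.H72R2.N2
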