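import Mathlib
import Pool.Agent.H72R2.N2.Stm

set_option autoImplicit false

namespace Pool.Agent.H72R2.N2

open PowerSeries Pool.Agent.Helper168.NottDefs

/-- the geometric series -/
noncomputable def IOTA_G : R := PowerSeries.mk fun _ => 1

theorem IOTA_G_mul : (1 + X) * IOTA_G = (1 : R) := by
  have h : (1 - X) * IOTA_G = (1 : R) := by
    rw [mul_comm]; exact PowerSeries.mk_one_mul_one_sub_eq_one _
  rwa [sub_eq_add'] at h

noncomputable def IOTA_i : J := mkJ IOTA_G IOTA_G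

theorem IOTA_G_eq : 1 + X * IOTA_G = (IOTA_G : R) := by
  have h := IOTA_G_mul
  have h2 := add_self (X * IOTA_G)
  linear_combination -h + h2

theorem IOTA_cA : cA IOTA_i = IOTA_G := by
  rw [IOTA_i, cA_mkJ, IOTA_G_eq]

theorem IOTA_cB : cB IOTA_i = X * IOTA_G := by
  rw [IOTA_i, cB_mkJ]

theorem IOTA_ser : IOTA_i.ser = X * IOTA_G := by
  rw [ser_eq, IOTA_cA, IOTA_cB]
  have h := IOTA_G_mul
  linear_combination (X * IOTA_G) * h

theorem IOTA_sbG : sb IOTA_i IOTA_G = 1 + X := by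
  have h : sb IOTA_i ((1 + X) * IOTA_G) = 1 := by rw [IOTA_G_mul, map_one]
  rw [map_mul, map_add, map_one, sb_X, IOTA_ser, IOTA_G_eq] at h
  calc sb IOTA_i IOTA_G = ((1 + X) * IOTA_G) * sb IOTA_i IOTA_G := by rw [IOTA_G_mul, one_mul]
    _ = (1 + X) * (IOTA_G * sb IOTA_i IOTA_G) := by ring
    _ = 1 + X := by rw [h, mul_one]

theorem IOTA : S_IOTA := by
  refine ⟨IOTA_i, ?_, ?_, ?_⟩
  · apply ext_AB
    · rw [cA_mul, IOTA_cA, IOTA_sbG, cA_one, mul_comm, IOTA_G_mul]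
    · rw [cB_mul, IOTA_cB, IOTA_cA, map_mul, IOTA_sbG, sb_X, IOTA_ser, cB_one]
      exact add_self _
  · -- cA
    rw [cA_mul, IOTA_cA, cA_oo, map_one, cA_aa le_rfl]
    have h : IOTA_G - (1 + X ^ 1) = X ^ (2 * 1) * (IOTA_G : R) := by
      have h1 := IOTA_G_eq
      have h2 : (X : R) * (1 + X * IOTA_G) = X * IOTA_G := by rw [h1]
      have h3 := add_self (X : R)
      linear_combination -h1 - h2
    rw [mul_one (1 + (X : R) ^ 1), h]
    exact Dvd.intro _ rfl
  · rw [cB_mul, IOTA_cB, cA_oo, map_one, mul_one, cB_aa, zero_add, cB_oo le_rfl, sb_X_pow,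
      ser_aa le_rfl]
    have h1 := IOTA_G_eq
    have h : X * IOTA_G - (X + X ^ (2 * 1 + 1)) ^ 1 = X ^ (1 + 1) * (IOTA_G - X : R) := by
      linear_combination (-(X : R)) * h1
    rw [h]
    exact Dvd.intro _ rfl

end Pool.Agent.H72R2.N2
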