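import Mathlib
import Pool.Agent.H72R2.N2.Stm
import Pool.Agent.Helper948.ProP.B1

set_option autoImplicit false

/-! Task MAIN: finite presentability from the descended statement. -/

namespace Pool.Agent.H72R2.N2

open Pool.Agent.Helper168.NottDefs Topology
open Pool.Agent.Helper948.ProP

/-- the quotient of a pro-`2` group by an open normal subgroup is a `2`-group -/
theorem MAIN_pgroup {F : Type} [Group F] [TopologicalSpace F] (h : IsProP 2 F)
    (W : Subgroup F) [W.Normal] (hW : IsOpen (W : Set F)) : IsPGroup 2 (F ⧸ W) := by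
  obtain ⟨V, hVn, hVo, hVW, k, hk⟩ := h.basis W (hW.mem_nhds W.one_mem)
  have hVW' : V ≤ W := hVW
  have h1 : W.index ∣ V.index := Subgroup.index_dvd_of_le hVW'
  rw [hk] at h1
  obtain ⟨j, -, hj⟩ := (Nat.dvd_prime_pow Nat.prime_two).1 h1
  exact IsPGroup.of_card (n := j) (by rw [← hj]; rfl)

/-- a normal subgroup of index `M ≠ 0` is the kernel of a homomorphism to `Perm (Fin M)` -/
theorem MAIN_perm {F : Type} [Group F] (W : Subgroup F) [hW : W.Normal] (M : ℕ) (hM : M ≠ 0)
    (hi : W.index = M) : ∃ ψ : F →* Equiv.Perm (Fin M), ψ.ker = W := by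
  have hc : Nat.card (F ⧸ W) = M := hi
  have : Finite (F ⧸ W) := Nat.finite_of_card_ne_zero (by rw [hc]; exact hM)
  let e : F ⧸ W ≃ Fin M := (Finite.equivFin _).trans (finCongr hc)
  refine ⟨(e.permCongrHom.toMonoidHom.comp (MulAction.toPermHom F (F ⧸ W))), ?_⟩
  have h1 : (MulAction.toPermHom F (F ⧸ W)).ker = W := by
    rw [← Subgroup.normalCore_eq_ker, Subgroup.normalCore_eq_self]
  ext x
  have h2 : MulAction.toPermHom F (F ⧸ W) x = 1 ↔ x ∈ W := by
    rw [← MonoidHom.mem_ker, h1]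
  rw [MonoidHom.mem_ker, MonoidHom.comp_apply, ← h2]
  exact map_eq_one_iff e.permCongrHom e.permCongrHom.injective

/-- a free pro-`2` group of rank `3` has finitely many open normal subgroups of index `M` -/
theorem MAIN_finite {F : Type} [Group F] [TopologicalSpace F] (ι : Fin 3 → F)
    (h : IsFreeProP 2 ι) (M : ℕ) (hM : M ≠ 0) :
    {W : Subgroup F | W.Normal ∧ IsOpen (W : Set F) ∧ W.index = M}.Finite := by
  have := h.proP.topGroup
  obtain ⟨-, huq, -, -⟩ := B1.finFree_basic 2 ι h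
  have key : ∀ W : {W : Subgroup F | W.Normal ∧ IsOpen (W : Set F) ∧ W.index = M},
      ∃ ψ : F →* Equiv.Perm (Fin M), ψ.ker = W.1 := by
    rintro ⟨W, hWn, hWo, hWi⟩
    exact MAIN_perm W M hM hWi
  choose ψ hψ using key
  let f : {W : Subgroup F | W.Normal ∧ IsOpen (W : Set F) ∧ W.index = M} →
      Subgroup (Equiv.Perm (Fin M)) × (Fin 3 → Equiv.Perm (Fin M)) :=
    fun W => ((ψ W).range, fun i => ψ W (ι i))
  have hf : Function.Injective f := by
    intro W W' hWW
    have h1 : (ψ W).range = (ψ W').range := congrArg Prod.fst hWW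
    have h2 : ∀ i, ψ W (ι i) = ψ W' (ι i) := fun i => congrFun (congrArg Prod.snd hWW) i
    have ho : ∀ W, IsOpen ((ψ W).ker : Set F) := by
      intro W
      rw [hψ W]
      exact W.2.2.1
    have hp : IsPGroup 2 (ψ W).range :=
      (MAIN_pgroup h.proP (ψ W).ker (ho W)).of_equiv (QuotientGroup.quotientKerEquivRange (ψ W))
    have hmem : ∀ x, ψ W' x ∈ (ψ W).range := fun x => by
      rw [h1]; exact ⟨x, rfl⟩
    have h3 := huq (ψ W).range hp (ψ W).rangeRestrict ((ψ W').codRestrict (ψ W).range hmem)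
      (by rw [MonoidHom.ker_rangeRestrict]; exact ho W)
      (by
        have : ((ψ W').codRestrict (ψ W).range hmem).ker = (ψ W').ker := by
          ext x
          rw [MonoidHom.mem_ker, MonoidHom.mem_ker]
          constructor
          · intro hx
            exact congrArg Subtype.val hx
          · intro hx
            exact Subtype.ext hx
        rw [this]; exact ho W')
      (fun z => Subtype.ext (h2 z))
    have h4 : (ψ W).ker = (ψ W').ker := by
      ext x
      have h5 : (ψ W) x = (ψ W') x := congrArg Subtype.val (DFunLike.congr_fun h3 x)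
      rw [MonoidHom.mem_ker, MonoidHom.mem_ker, h5]
    rw [hψ, hψ] at h4
    exact Subtype.ext h4
  have : Finite {W : Subgroup F | W.Normal ∧ IsOpen (W : Set F) ∧ W.index = M} :=
    Finite.of_injective f hf
  exact Set.toFinite _

/-- there is an open subgroup contained in all open normal subgroups of index `M` -/
theorem MAIN_K {F : Type} [Group F] [TopologicalSpace F] (ι : Fin 3 → F)
    (h : IsFreeProP 2 ι) (M : ℕ) (hM : M ≠ 0) : ∃ K : Subgroup F, IsOpen (K : Set F) ∧
      ∀ W : Subgroup F, W.Normal → IsOpen (W : Set F) → W.index = M → K ≤ W := by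
  refine ⟨sInf {W : Subgroup F | W.Normal ∧ IsOpen (W : Set F) ∧ W.index = M}, ?_, ?_⟩
  · rw [Subgroup.coe_sInf]
    exact (MAIN_finite ι h M hM).isOpen_biInter (fun W hW => hW.2.1)
  · intro W h1 h2 h3
    exact sInf_le ⟨h1, h2, h3⟩

/-- finitely many elements of `R` represent all cosets of the open subgroup `K` which meet `R` -/
theorem MAIN_S {F : Type} [Group F] [TopologicalSpace F] [IsTopologicalGroup F] [CompactSpace F]
    (R K : Subgroup F) (hK : IsOpen (K : Set F)) :
    ∃ S : Finset F, (∀ s ∈ S, s ∈ R) ∧ ∀ r ∈ R, ∃ s ∈ S, s⁻¹ * r ∈ K := by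
  classical
  have : Finite (F ⧸ K) := K.quotient_finite_of_isOpen hK
  have := Fintype.ofFinite (F ⧸ K)
  have key : ∀ c : F ⧸ K, ∃ s : F, s ∈ R ∧ ((∃ r ∈ R, (r : F ⧸ K) = c) → (s : F ⧸ K) = c) := by
    intro c
    by_cases hc : ∃ r ∈ R, (r : F ⧸ K) = c
    · obtain ⟨r, hr, hrc⟩ := hc
      exact ⟨r, hr, fun _ => hrc⟩
    · exact ⟨1, R.one_mem, fun h => absurd h hc⟩
  choose g hgR hg using key
  refine ⟨Finset.univ.image g, ?_, ?_⟩
  · intro s hs
    obtain ⟨c, -, rfl⟩ := Finset.mem_image.1 hs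
    exact hgR c
  · intro r hr
    refine ⟨g (r : F ⧸ K), Finset.mem_image_of_mem _ (Finset.mem_univ _), ?_⟩
    exact QuotientGroup.eq.1 (hg (r : F ⧸ K) ⟨r, hr, rfl⟩)

/-- an open normal subgroup not containing `R` can be enlarged such that `R` has image of order 2
in the quotient -/
theorem MAIN_enlarge {F : Type} [Group F] [TopologicalSpace F] [IsTopologicalGroup F]
    (h : IsProP 2 F) (R U : Subgroup F) (hUn : U.Normal) (hUo : IsOpen (U : Set F))
    (hRU : ¬ R ≤ U) : ∃ U1 : Subgroup F, ∃ _ : U1.Normal, IsOpen (U1 : Set F) ∧ U ≤ U1 ∧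
      ∃ ζ : F ⧸ U1, ζ ≠ 1 ∧ (∀ r ∈ R, (r : F ⧸ U1) = 1 ∨ (r : F ⧸ U1) = ζ) ∧
        ∃ r ∈ R, (r : F ⧸ U1) = ζ := by
  classical
  have := h.compact
  have hex : ∃ n, ∃ U1 : Subgroup F, U1.Normal ∧ IsOpen (U1 : Set F) ∧ U ≤ U1 ∧ ¬ R ≤ U1 ∧
      U1.index = n := ⟨U.index, U, hUn, hUo, le_rfl, hRU, rfl⟩
  obtain ⟨U1, hn1, ho1, hle1, hR1, hi1⟩ := Nat.find_spec hex
  have hmin := fun m (hm : m < Nat.find hex) => Nat.find_min hex hm
  refine ⟨U1, hn1, ho1, hle1, ?_⟩
  have : Finite (F ⧸ U1) := U1.quotient_finite_of_isOpen ho1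
  have : U1.FiniteIndex := Subgroup.finiteIndex_of_finite_quotient
  obtain ⟨r0, hr0R, hr0U⟩ := SetLike.not_le_iff_exists.1 hR1
  have : Nontrivial (F ⧸ U1) := ⟨⟨(r0 : F ⧸ U1), 1, fun he => hr0U ((QuotientGroup.eq_one_iff r0).1 he)⟩⟩
  have hp := MAIN_pgroup h U1 ho1
  have : Nontrivial (Subgroup.center (F ⧸ U1)) := hp.center_nontrivial
  have hdvd : 2 ∣ Nat.card (Subgroup.center (F ⧸ U1)) := by
    rcases (hp.to_subgroup (Subgroup.center (F ⧸ U1))).card_eq_or_dvd with h1 | h1
    · exact absurd h1 (Finite.one_lt_card).ne'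
    · exact h1
  obtain ⟨ζ, hζ⟩ := exists_prime_orderOf_dvd_card' 2 hdvd
  have hζ1 : (ζ : F ⧸ U1) ≠ 1 := by
    intro h1
    have h2 : ζ = 1 := Subtype.ext h1
    rw [h2, orderOf_one] at hζ
    exact absurd hζ (by norm_num)
  have hζ2 : (ζ : F ⧸ U1) * (ζ : F ⧸ U1) = 1 := by
    have h1 : ζ ^ 2 = 1 := by rw [← hζ]; exact pow_orderOf_eq_one ζ
    have h2 := congrArg Subtype.val h1
    simpa [pow_two] using h2
  -- the two element subgroup generated by `ζ`
  let Z : Subgroup (F ⧸ U1) :=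
    { carrier := {x | x = 1 ∨ x = ζ}
      one_mem' := Or.inl rfl
      mul_mem' := by
        rintro a b (rfl | rfl) (rfl | rfl)
        · left; simp
        · right; simp
        · right; simp
        · left; exact hζ2
      inv_mem' := by
        rintro a (rfl | rfl)
        · left; simp
        · right; exact inv_eq_of_mul_eq_one_left hζ2 }
  have hZn : Z.Normal := by
    constructor
    intro a ha g
    rcases ha with rfl | rfl
    · left; simp
    · right
      have h1 := Subgroup.mem_center_iff.1 ζ.2 g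
      rw [h1, mul_inv_cancel_right]
  let U2 : Subgroup F := Z.comap (QuotientGroup.mk' U1)
  have hU12 : U1 < U2 := by
    refine lt_of_le_of_ne ?_ ?_
    · intro x hx
      left
      exact (QuotientGroup.eq_one_iff x).2 hx
    · intro he
      obtain ⟨x, hx⟩ := QuotientGroup.mk'_surjective U1 (ζ : F ⧸ U1)
      have h1 : x ∈ U2 := Or.inr hx
      rw [← he] at h1
      apply hζ1
      rw [← hx]
      exact (QuotientGroup.eq_one_iff x).2 h1
  have hU2o : IsOpen (U2 : Set F) := Subgroup.isOpen_mono hU12.le ho1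
  have hR2 : R ≤ U2 := by
    by_contra hcon
    have h1 : U2.index < U1.index := Subgroup.index_strictAnti hU12
    rw [hi1] at h1
    exact hmin _ h1 ⟨U2, hZn.comap _, hU2o, hle1.trans hU12.le, hcon, rfl⟩
  refine ⟨ζ, hζ1, fun r hr => hR2 hr, r0, hr0R, ?_⟩
  rcases hR2 hr0R with h1 | h1
  · exact absurd ((QuotientGroup.eq_one_iff r0).1 h1) hr0U
  · exact h1

/-- the key claim -/
theorem MAIN_claim (h1 : S_TOP1) (h2 : S_TOP2) (n0 : ℕ) (hD : DescS n0) {F : Type} [Group F]
    [TopologicalSpace F] [IsTopologicalGroup F] (hF : IsProP 2 F) (φ : F →ₜ* J)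
    (hφ : Function.Surjective φ) (K : Subgroup F)
    (hK : ∀ W : Subgroup F, W.Normal → IsOpen (W : Set F) →
      W.index = 2 * (E (n0 + 1)).index → K ≤ W)
    (S : Finset F) (hS : ∀ s ∈ S, s ∈ (φ : F →* J).ker)
    (hSK : ∀ r ∈ (φ : F →* J).ker, ∃ s ∈ S, s⁻¹ * r ∈ K)
    (U : Subgroup F) (hUn : U.Normal) (hUo : IsOpen (U : Set F)) (hSU : ∀ s ∈ S, s ∈ U) :
    (φ : F →* J).ker ≤ U := by
  by_contra hcon
  obtain ⟨U1, hn1, ho1, hle1, ζ, hζ, hR, r, hr, hrζ⟩ := MAIN_enlarge hF _ U hUn hUo hcon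
  have := hF.compact
  have := hF.t2
  have := h2.topGroup
  have := h2.compact
  have := h2.t2
  let θ : F →* J × (F ⧸ U1) := (φ : F →* J).prod (QuotientGroup.mk' U1)
  let Q := θ.range
  let θ' : F →* Q := θ.rangeRestrict
  have hθ' : Function.Surjective θ' := θ.rangeRestrict_surjective
  let π : Q →* J := (MonoidHom.fst J (F ⧸ U1)).comp Q.subtype
  let σ : Q →* (F ⧸ U1) := (MonoidHom.snd J (F ⧸ U1)).comp Q.subtype
  have hπ : ∀ x, π (θ' x) = φ x := fun x => rfl
  have hσ : ∀ x, σ (θ' x) = (x : F ⧸ U1) := fun x => rfl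
  have hext : ∀ q q' : Q, π q = π q' → σ q = σ q' → q = q' := by
    intro q q' ha hb
    exact Subtype.ext (Prod.ext ha hb)
  let z : Q := θ' r
  have hφr : φ r = 1 := hr
  have hπz : π z = 1 := hφr
  have hσz : σ z = ζ := hrζ
  have hz1 : z ≠ 1 := by
    intro he
    apply hζ
    rw [← hσz, he, map_one]
  obtain ⟨N, hN⟩ : ∃ N, ∀ g ∈ E N, ∃ v ∈ σ.ker, π v = g := by
    have hU1c : IsClosed (U1 : Set F) := U1.isClosed_of_isOpen ho1
    have hcl : IsClosed ((U1.map (φ : F →* J)) : Set J) := by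
      have : ((U1.map (φ : F →* J)) : Set J) = φ '' (U1 : Set F) := rfl
      rw [this]
      exact (hU1c.isCompact.image φ.continuous_toFun).isClosed
    have : Finite (F ⧸ U1) := U1.quotient_finite_of_isOpen ho1
    have hfi : U1.FiniteIndex := Subgroup.finiteIndex_of_finite_quotient
    have : (U1.map (φ : F →* J)).FiniteIndex := by
      constructor
      have hd : (U1.map (φ : F →* J)).index ∣ U1.index := Subgroup.index_map_dvd U1 hφ
      intro h0
      rw [h0] at hd
      exact hfi.index_ne_zero (Nat.eq_zero_of_zero_dvd hd)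
    have hop : IsOpen ((U1.map (φ : F →* J)) : Set J) :=
      Subgroup.isOpen_of_isClosed_of_finiteIndex _ hcl
    obtain ⟨N, hN⟩ := h1.2.1 _ (hop.mem_nhds (Subgroup.one_mem _))
    refine ⟨N, fun g hg => ?_⟩
    obtain ⟨u, hu, rfl⟩ := hN hg
    exact ⟨θ' u, (QuotientGroup.eq_one_iff u).2 hu, rfl⟩
  obtain ⟨T, hTn, hzT, ⟨M, hM⟩, hTi⟩ := hD Q π z σ.ker N inferInstance
    (fun g => by
      obtain ⟨x, rfl⟩ := hφ g
      exact ⟨θ' x, rfl⟩) hz1
    (by
      intro q
      constructor
      · intro hq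
        obtain ⟨x, rfl⟩ := hθ' q
        rcases hR x hq with hx | hx
        · left
          exact hext _ _ (by rw [hq, map_one]) (by rw [map_one]; exact hx)
        · right
          exact hext _ _ (by rw [hq, hπz]) (by rw [hσz]; exact hx)
      · rintro (rfl | rfl)
        · exact map_one π
        · exact hπz)
    (by
      intro hz
      apply hζ
      rw [← hσz]
      exact hz) hN
  let W : Subgroup F := T.comap θ'
  have hWn : W.Normal := hTn.comap _
  have hWi : W.index = 2 * (E (n0 + 1)).index := by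
    rw [← hTi]
    exact Subgroup.index_comap_of_surjective T hθ'
  have hWo : IsOpen (W : Set F) := by
    have hle : U1 ⊓ (E M).comap (φ : F →* J) ≤ W := by
      intro x hx
      exact hM ⟨(QuotientGroup.eq_one_iff x).2 hx.1, hx.2⟩
    refine Subgroup.isOpen_mono hle ?_
    exact ho1.inter ((h1.1 M).preimage φ.continuous_toFun)
  have hKW : K ≤ W := hK W hWn hWo hWi
  obtain ⟨s, hs, hsr⟩ := hSK r hr
  have hθs : θ' s = 1 :=
    hext _ _ (by rw [map_one]; exact hS s hs) (by
      rw [map_one]; exact (QuotientGroup.eq_one_iff s).2 (hle1 (hSU s hs)))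
  apply hzT
  have hmem : θ' (s⁻¹ * r) ∈ T := hKW hsr
  rw [map_mul, map_inv, hθs, inv_one, one_mul] at hmem
  exact hmem

theorem MAIN : S_MAIN := by
  intro h1 h2 h3 n0 hD F _ _ _ ι hF
  have := hF.proP.compact
  have := hF.proP.t2
  have := h2.topGroup
  have := h2.compact
  have := h2.t2
  obtain ⟨φ, hφι, -⟩ := hF.lift J h2 ![oo 1, aa 1, aa 3] (fun U hU => Set.toFinite _)
  have hsurj : Function.Surjective φ := by
    have hr : (φ : F →* J).range = ⊤ := by
      apply h3
      · have : ((φ : F →* J).range : Set J) = Set.range φ := rfl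
        rw [this]
        exact (isCompact_range φ.continuous_toFun).isClosed
      · exact ⟨ι 0, hφι 0⟩
      · exact ⟨ι 1, hφι 1⟩
      · exact ⟨ι 2, hφι 2⟩
    exact MonoidHom.range_eq_top.1 hr
  refine ⟨φ, hsurj, ?_⟩
  obtain ⟨K, hKo, hK⟩ := MAIN_K ι hF (2 * (E (n0 + 1)).index)
    (mul_ne_zero two_ne_zero (h1.2.2 _))
  obtain ⟨S, hS, hSK⟩ := MAIN_S (φ : F →* J).ker K hKo
  refine ⟨S, le_antisymm ?_ ?_⟩
  · intro r hr
    by_contra hcon
    let C : Subgroup F := (Subgroup.normalClosure (S : Set F)).topologicalClosure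
    have hCc : IsClosed (C : Set F) := Subgroup.isClosed_topologicalClosure _
    have hCn : C.Normal := Subgroup.is_normal_topologicalClosure _
    have hU : (fun x => r * x) ⁻¹' ((C : Set F)ᶜ) ∈ 𝓝 (1 : F) := by
      refine (hCc.isOpen_compl.preimage (continuous_const_mul r)).mem_nhds ?_
      simpa using hcon
    obtain ⟨V, hVn, hVo, hVU, -⟩ := hF.proP.basis _ hU
    have hcl := MAIN_claim h1 h2 n0 hD hF.proP φ hsurj K hK S hS hSK (C ⊔ V)
      (Subgroup.sup_normal C V) (Subgroup.isOpen_mono le_sup_right hVo)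
      (fun s hs => (le_sup_left : C ≤ C ⊔ V)
        (Subgroup.le_topologicalClosure _ (Subgroup.subset_normalClosure hs)))
    obtain ⟨c, hc, v, hv, hcv⟩ := Subgroup.mem_sup_of_normal_right.1 (hcl hr)
    have h5 : v⁻¹ ∈ V := V.inv_mem hv
    have h6 : r * v⁻¹ ∉ C := hVU h5
    apply h6
    rw [← hcv, mul_inv_cancel_right]
    exact hc
  · have hcl : IsClosed ((φ : F →* J).ker : Set F) := by
      have : ((φ : F →* J).ker : Set F) = φ ⁻¹' {1} := rfl
      rw [this]
      exact isClosed_singleton.preimage φ.continuous_toFun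
    refine Subgroup.topologicalClosure_minimal _ ?_ hcl
    exact Subgroup.normalClosure_le_normal (fun s hs => hS s hs)

end Pool.Agent.H72R2.N2
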