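import Mathlib
import Pool.Agent.H72R2.N2.Stm

set_option autoImplicit false

namespace Pool.Agent.H72R2.N2

open PowerSeries Pool.Agent.Helper168.NottDefs Topology
open scoped commutatorElement

theorem MEM : S_MEM := by
  refine ⟨?_, ?_⟩
  · intro k s hk hs
    rw [mem_E', cA_aa hk, cB_aa]
    refine ⟨?_, dvd_zero _⟩
    rw [add_sub_cancel_left]
    exact pow_dvd_pow _ hs
  · intro k s hk hs
    rw [mem_E', cA_oo, cB_oo hk]
    refine ⟨?_, pow_dvd_pow _ hs⟩
    rw [sub_self]
    exact dvd_zero _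

end Pool.Agent.H72R2.N2
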