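import Mathlib
import Pool.Agent.H72R2.N2.Stm

set_option autoImplicit false

namespace Pool.Agent.H72R2.N2

open PowerSeries Pool.Agent.Helper168.NottDefs

theorem SQ_sb_sub {g : J} {M N : ℕ} {P : R} (hg : (X : R) ^ (M + 1) ∣ g.ser - X)
    (hP : (X : R) ^ N ∣ P) : (X : R) ^ (N + M) ∣ sb g P - P := by
  obtain ⟨Q, rfl⟩ := hP
  obtain ⟨v, hv⟩ := hg
  have hser : g.ser = X * (1 + X ^ M * v) := by
    have : g.ser = X + X ^ (M + 1) * v := by rw [← hv]; ring
    rw [this]; ring
  have h1 : sb g (X ^ N * Q) - X ^ N * Q =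
      X ^ N * ((((1 + X ^ M * v) ^ N) - 1) * sb g Q + (sb g Q - Q)) := by
    rw [map_mul, sb_X_pow, hser, mul_pow]; ring
  rw [h1, pow_add]
  apply mul_dvd_mul_left
  apply dvd_add
  · have h2 := sub_dvd_pow_sub_pow (1 + (X : R) ^ M * v) 1 N
    rw [one_pow, add_sub_cancel_left] at h2
    exact ((Dvd.intro _ rfl : (X : R) ^ M ∣ X ^ M * v).trans h2).mul_right _
  · have h3 : (X : R) ^ (M + 1) ∣ g.ser - (1 : J).ser := by
      rw [Nott.one_ser]; exact ⟨v, hv⟩
    have h4 := dvd_sb_sub h3 Q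
    rw [sb_one] at h4
    exact (pow_dvd_pow _ (Nat.le_succ M)).trans h4

theorem SQ : S_SQ := by
  intro i g hi hg
  have hser := (mem_E.1 hg).ser hi
  rw [Nott.one_ser] at hser
  rw [mem_E'] at hg ⊢
  obtain ⟨hc, hd⟩ := hg
  have e1 : cA (g * g) - 1 = (sb g (cA g - 1) - (cA g - 1)) + (cA g - 1) * sb g (cA g - 1) := by
    rw [cA_mul, map_sub, map_one]
    have h := two_eq_zero
    linear_combination (-(1 : R) + cA g) * h
  have e2 : cB (g * g) = cB g * sb g (cA g - 1) + (sb g (cB g) - cB g) := by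
    rw [cB_mul, map_sub, map_one]
    have h := two_eq_zero
    linear_combination (cB g) * h
  constructor
  · rw [e1]
    apply dvd_add
    · exact (pow_dvd_pow _ (by omega)).trans (SQ_sb_sub (M := 2 * i + 1) hser hc)
    · have := mul_dvd_mul hc (dvd_sb (g := g) hc)
      rw [← pow_add] at this
      exact (pow_dvd_pow _ (by omega)).trans this
  · rw [e2]
    apply dvd_add
    · have := mul_dvd_mul hd (dvd_sb (g := g) hc)
      rw [← pow_add] at this
      exact (pow_dvd_pow _ (by omega)).trans this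
    · exact (pow_dvd_pow _ (by omega)).trans (SQ_sb_sub (M := 2 * i + 1) hser hd)

end Pool.Agent.H72R2.N2
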