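import Mathlib
import Pool.Agent.H72R2.N2.Calc

set_option autoImplicit false

/-! Statements of the derivation inside a central extension `X : Ext n`. -/

namespace Pool.Agent.H72R2.N2

open PowerSeries Pool.Agent.Helper168.NottDefs Topology
open scoped commutatorElement

def S_C6 : Prop := ∀ k l s : ℕ, Even k → 1 ≤ k → 1 ≤ l → 2 * s + 2 ≤ k + 4 * l → s + 1 ≤ k + l →
  ⁅aa k, oo l⁆ ∈ E s

/-- all the facts about `J` -/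
structure Facts : Prop where
  comm : S_COMM
  commt : S_COMMT
  sq : S_SQ
  dec : S_DEC
  dec0 : S_DEC0
  ind : S_IND
  mem : S_MEM
  b1 : S_B1
  b2 : S_B2
  b3 : S_B3
  b4 : S_B4
  b5 : S_B5
  b6 : S_B6
  b7 : S_B7
  c1 : S_C1
  c2 : S_C2
  c3 : S_C3
  c4 : S_C4
  c5 : S_C5
  c6 : S_C6
  iota : S_IOTA
  d1 : S_D1
  d2 : S_D2
  d3 : S_D3
  d4 : S_D4
  d5 : S_D5
  d6 : S_D6
  d7 : S_D7
  gen : S_GEN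

theorem Facts.hyp (F : Facts) {n : ℕ} (hn : 1 ≤ n) : Ext.Hyp n :=
  ⟨F.comm, F.commt, F.sq, F.gen, F.mem, hn⟩

/-- pairs `(aa (2j), E (L-j))` are trivial -/
def S_Z : Prop := ∀ (n : ℕ) (X : Ext n) (L : ℕ), 20 ≤ n → (L = n ∨ L = n + 1) → X.Tr L →
  ∀ (j : ℕ) (h : J), 2 ≤ j → j + 3 ≤ L → h ∈ E (L - j) → X.C (aa (2 * j)) h = 1

def S_K : Prop := ∀ (n : ℕ) (X : Ext n) (L : ℕ), 20 ≤ n → (L = n ∨ L = n + 1) → X.Tr L →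
  ∀ i j : ℕ, 1 ≤ i → 1 ≤ j → i + j + 1 = L →
    X.D (aa (2 * i + 3)) (aa (2 * j + 1)) = X.D (aa (2 * i + 1)) (aa (2 * j + 3))

def S_DD : Prop := ∀ (n : ℕ) (X : Ext n) (L : ℕ), 20 ≤ n → (L = n ∨ L = n + 1) → X.Tr L →
  ∀ i j : ℕ, 3 ≤ i → 3 ≤ j → i + j + 1 = L →
    X.D (aa 1) (aa (2 * L)) = X.D (aa (2 * i + 3)) (oo (j + 1)) + X.D (aa (2 * i + 1)) (oo (j + 2)) +
      X.D (aa (2 * i + 1)) (aa (2 * j + 3))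

def S_FF : Prop := ∀ (n : ℕ) (X : Ext n) (L : ℕ), 20 ≤ n → (L = n ∨ L = n + 1) → X.Tr L →
  ∀ i j : ℕ, 3 ≤ i → 3 ≤ j → i + j + 2 = L →
    X.good (aa (2 * i + 3)) (aa (2 * j)) ∧ X.D (aa (2 * i + 3)) (aa (2 * j)) = 0

def S_XX : Prop := ∀ (n : ℕ) (X : Ext n) (m : ℕ), 20 ≤ n → (2 * m + 1 = n ∨ 2 * m + 1 = n + 1) →
  X.Tr (2 * m + 1) → X.D (aa 1) (aa (4 * m + 2)) = X.D (aa (2 * m - 1)) (aa (2 * m + 5))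

def S_KB : Prop := ∀ (n : ℕ) (X : Ext n), 20 ≤ n → X.D (aa 3) (aa (2 * n + 1)) = 0

def S_BA : Prop := ∀ (n : ℕ) (X : Ext n), 20 ≤ n → ∀ h ∈ E n,
  X.C (oo 2) h = 1 ∧ X.C (aa 2 * aa 3) h = 1

def S_BM : Prop := ∀ (n : ℕ) (X : Ext n), 20 ≤ n → ∀ i : ℕ, 2 ≤ i → i ≤ n →
  ∀ h ∈ E (n + 1 - i),
    (Even i → X.C (aa (2 * i)) h = 1 ∧ X.C (oo (i + 1) * aa (2 * i + 1)) h = 1) ∧
    (Odd i → X.C (oo (i + 1) * aa (2 * i)) h = 1)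

def S_BB : Prop := ∀ (n : ℕ) (X : Ext n), 20 ≤ n → ∀ h ∈ E n, X.C (aa 3) h = 1

/-- level `n+1` pairs are trivial -/
def S_TR : Prop := ∀ (n : ℕ) (X : Ext n), 20 ≤ n → X.Tr n

def S_RE : Prop := ∀ (n : ℕ) (X : Ext n), 20 ≤ n → Even n → X.D (aa 1) (aa (2 * n)) = 0

/-- `n = 2m+1` from here on -/
def S_P : Prop := ∀ (n : ℕ) (X : Ext n) (m : ℕ), 20 ≤ n → n = 2 * m + 1 → X.Tr n →
  X.D (aa (2 * m)) (oo (m + 1)) = 0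

def S_D0 : Prop := ∀ (n : ℕ) (X : Ext n) (m : ℕ), 20 ≤ n → n = 2 * m + 1 → X.Tr n →
  ∀ i j : ℕ, 3 ≤ i → 3 ≤ j → i + j = 2 * m → Even i →
    X.D (oo 1) (aa (2 * n)) = X.D (aa (2 * i + 1)) (oo (j + 2))

def S_O2 : Prop := ∀ (n : ℕ) (X : Ext n) (m : ℕ), 20 ≤ n → n = 2 * m + 1 → X.Tr n →
  X.D (oo 2) (aa (4 * m - 2)) = X.D (oo 1) (aa (2 * n))

/-- the squares -/
def S_SS : Prop := ∀ (n : ℕ) (X : Ext n) (m : ℕ), 20 ≤ n → n = 2 * m + 1 → X.Tr n →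
  X.D (aa 1) (aa (2 * n)) = X.D (aa n) (aa (n + 2)) + X.Qv (aa (n + 2)) ∧
  X.D (oo 1) (aa (2 * n)) = X.Qv (aa (n + 1)) + (m : ZMod 2) • X.D (aa 1) (aa (2 * n)) ∧
  X.D (oo 2) (aa (4 * m - 2)) = X.Qv (aa (n + 1)) +
    ((m : ZMod 2) + 1) • X.D (aa (2 * m - 1)) (aa (2 * m + 5))

def S_RO : Prop := ∀ (n : ℕ) (X : Ext n), 20 ≤ n → Odd n → X.Tr n → X.D (aa 1) (aa (2 * n)) = 0

def S_R6 : Prop := ∀ (n : ℕ) (X : Ext n), 20 ≤ n → Odd n → X.Tr n → X.D (oo 1) (oo (n + 1)) = 0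

def S_IO : Prop := ∀ (n : ℕ) (X : Ext n), 20 ≤ n → X.Tr n →
  (Odd n → X.D (oo 1) (aa (2 * n) * aa (2 * n + 1)) + X.D (aa 1) (aa (2 * n) * aa (2 * n + 1)) = 0) ∧
  (Even n → X.D (oo 1) (aa (2 * n)) + X.D (aa 1) (aa (2 * n)) = 0 ∧
    X.D (oo 1) (oo (n + 1) * aa (2 * n) * aa (2 * n + 1)) +
      X.D (aa 1) (oo (n + 1) * aa (2 * n) * aa (2 * n + 1)) = 0)

def S_FIN : Prop := ∀ n : ℕ, 20 ≤ n → StepS n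

end Pool.Agent.H72R2.N2
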