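import Pool.Agent.H72R2.N2.Stm

set_option autoImplicit false

/-! TOP1: the topology given by the filtration. -/

namespace Pool.Agent.H72R2.N2

open PowerSeries Pool.Agent.Helper168.NottDefs Topology

theorem TOP1_lev_le (n : ℕ) : Nott.lev 2 (4 * n + 1) ≤ E n := by
  intro f hf
  rw [Nott.mem_lev] at hf
  have h : ∀ m, m < 4 * n + 2 → coeff m f.ser = coeff m (X : R) := by
    intro m hm
    exact (Nott.Cong.iff.1 hf) m (by omega)
  rw [mem_E']
  constructor
  · rw [X_pow_dvd_iff]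
    intro j hj
    rw [← cA_one, map_sub, coeff_cA, coeff_cA, Nott.one_ser, h _ (by omega), sub_self]
  · rw [X_pow_dvd_iff]
    intro j hj
    rw [coeff_cB, h _ (by omega), coeff_X, if_neg (by omega)]

theorem TOP1_le_lev (n : ℕ) (hn : 1 ≤ n) : E n ≤ Nott.lev 2 (2 * n + 1) := by
  intro f hf
  rw [Nott.mem_lev]
  have := CongE.ser (mem_E.1 hf) hn
  rw [Nott.one_ser] at this
  exact this

theorem TOP1 : S_TOP1 := by
  have h1 : ∀ n, IsOpen (E n : Set J) := fun n =>
    Subgroup.isOpen_mono (TOP1_lev_le n) (Nott.isOpen_lev _)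
  refine ⟨h1, ?_, ?_⟩
  · intro U hU
    obtain ⟨n, hn⟩ := Nott.exists_lev_subset hU
    refine ⟨n + 1, fun f hf => ?_⟩
    have h2 : f ∈ Nott.lev 2 n :=
      Nott.lev_mono (by omega : n ≤ 2 * (n + 1) + 1) (TOP1_le_lev (n + 1) (by omega) hf)
    exact hn h2
  · intro n
    haveI : Finite (J ⧸ E n) := Subgroup.quotient_finite_of_isOpen (E n) (h1 n)
    haveI := Subgroup.finiteIndex_of_finite_quotient (H := E n)
    exact Subgroup.FiniteIndex.index_ne_zero

end Pool.Agent.H72R2.N2
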