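import Mathlib
import Pool.Agent.H72R2.N2.Stm

set_option autoImplicit false

/-! `J` is topologically generated by `oo 1`, `aa 1`, `aa 3`. -/

namespace Pool.Agent.H72R2.N2

open PowerSeries Pool.Agent.Helper168.NottDefs Topology
open scoped commutatorElement

/-- elements congruent modulo `E n` to an element of `H` -/
def TOP3_K (H : Subgroup J) (n : ℕ) : Subgroup J where
  carrier := {g | ∃ h ∈ H, CongE n g h}
  one_mem' := ⟨1, H.one_mem, CongE.refl _ _⟩
  mul_mem' := by
    rintro a b ⟨h, hh, h1⟩ ⟨k, hk, h2⟩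
    exact ⟨h * k, H.mul_mem hh hk, h1.mul h2⟩
  inv_mem' := by
    rintro a ⟨h, hh, h1⟩
    exact ⟨h⁻¹, H.inv_mem hh, h1.inv⟩

theorem TOP3_mem {H : Subgroup J} {n : ℕ} {g : J} : g ∈ TOP3_K H n ↔ ∃ h ∈ H, CongE n g h := Iff.rfl

theorem TOP3_le (H : Subgroup J) (n : ℕ) : H ≤ TOP3_K H n := fun g hg => ⟨g, hg, CongE.refl _ _⟩

theorem TOP3_cong {H : Subgroup J} {n : ℕ} {g g' : J} (h : CongE n g g') (h' : g' ∈ TOP3_K H n) :
    g ∈ TOP3_K H n := by
  obtain ⟨k, hk, h1⟩ := h'
  exact ⟨k, hk, h.trans h1⟩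

theorem TOP3_cong' {H : Subgroup J} {n : ℕ} {g g' : J} (h : CongE n g g') (h' : g ∈ TOP3_K H n) :
    g' ∈ TOP3_K H n := TOP3_cong h.symm h'

/-- commutators of elements of `E n` with elements of `H` -/
theorem TOP3_comm (h6 : S_COMMT) {H : Subgroup J} {n : ℕ} (hP : E n ≤ TOP3_K H (n + 1)) {f y : J}
    (hf : f ∈ E n) (hy : y ∈ H) : f⁻¹ * y * f * y⁻¹ ∈ TOP3_K H (n + 2) := by
  obtain ⟨h, hh, h1⟩ := hP hf
  -- f = h * e with e in E (n+1)
  have he : h⁻¹ * f ∈ E (n + 1) := congE_iff'.1 h1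
  refine ⟨h⁻¹ * y * h * y⁻¹, ?_, ?_⟩
  · exact H.mul_mem (H.mul_mem (H.mul_mem (H.inv_mem hh) hy) hh) (H.inv_mem hy)
  · rw [congE_iff]
    set e := h⁻¹ * f with hedef
    have hf' : f = h * e := by rw [hedef]; group
    have e1 : f⁻¹ * y * f * y⁻¹ * (h⁻¹ * y * h * y⁻¹)⁻¹ =
        ⁅e⁻¹, h⁻¹ * y * h⁆ := by
      rw [hf', commutatorElement_def]; group
    rw [e1]
    exact h6 (n + 1) _ _ ((E (n + 1)).inv_mem he)

theorem TOP3 (h0 : S_DEC0) (h1 : S_DEC) (h2 : S_B2) (h3 : S_B5) (h4 : S_B6) (h5 : S_C5)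
    (h6 : S_COMMT) (h7 : S_TOP1) (h8 : S_MEM) : S_TOP3 := by
  intro H hcl ho1 ha1 ha3
  -- the steps
  have hP : ∀ n, E n ≤ TOP3_K H (n + 1) := by
    intro n
    induction n with
    | zero =>
      intro g _
      obtain ⟨a, b, -, -, hg⟩ := h0 g
      exact TOP3_cong hg (TOP3_le H _ (H.mul_mem (H.pow_mem ho1 _) (H.pow_mem ha1 _)))
    | succ n ih =>
      intro g hg
      obtain ⟨a, b, c, -, -, -, hc⟩ := h1 (n + 1) g (by omega) hg
      refine TOP3_cong hc ?_
      rcases Nat.eq_zero_or_pos n with rfl | hn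
      · have e2 : oo 2 ∈ TOP3_K H 2 := by
          refine TOP3_le H _ ?_
          rw [← h5.2.2.1]
          exact H.mul_mem ho1 ho1
        have e3 : aa 3 ∈ TOP3_K H 2 := TOP3_le H _ ha3
        have e4 : aa 2 ∈ TOP3_K H 2 := by
          have h23 : aa 2 * aa 3 ∈ TOP3_K H 2 :=
            TOP3_cong' h5.2.2.2 (TOP3_le H _ (H.mul_mem ha1 ha1))
          have := (TOP3_K H 2).mul_mem h23 ((TOP3_K H 2).inv_mem e3)
          rwa [mul_inv_cancel_right] at this
        exact (TOP3_K H 2).mul_mem ((TOP3_K H 2).mul_mem ((TOP3_K H 2).pow_mem e4 _)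
          ((TOP3_K H 2).pow_mem e3 _)) ((TOP3_K H 2).pow_mem e2 _)
      · have mA : aa (2 * n + 1) ∈ E n := h8.1 _ _ (by omega) (by omega)
        have mO : oo (n + 1) ∈ E n := h8.2 _ _ (by omega) (by omega)
        -- the general step
        have key : ∀ f y w : J, f ∈ E n → y ∈ H → CongE (n + 2) (y * f) (f * w * y) →
            w ∈ TOP3_K H (n + 2) := by
          intro f y w hf hy hw
          have hk := TOP3_comm h6 ih hf hy
          refine TOP3_cong' ?_ hk
          have := ((CongE.refl (n + 2) f⁻¹).mul hw).mul (CongE.refl (n + 2) y⁻¹)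
          have e1 : f⁻¹ * (y * f) * y⁻¹ = f⁻¹ * y * f * y⁻¹ := by group
          have e2 : f⁻¹ * (f * w * y) * y⁻¹ = w := by group
          rwa [e1, e2] at this
        have k1 : aa (2 * n + 3) ∈ TOP3_K H (n + 2) := key _ _ _ mA ha1 (h3 n hn)
        have k2 : aa (2 * n + 2) ∈ TOP3_K H (n + 2) := by
          have := key (aa (2 * n + 1)) (oo 1) (aa (2 * n + 2) * aa (2 * n + 3) ^ n) mA ho1 (by
            have := h2 n hn
            simpa only [mul_assoc] using this)
          have := (TOP3_K H (n + 2)).mul_mem this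
            ((TOP3_K H (n + 2)).inv_mem ((TOP3_K H (n + 2)).pow_mem k1 n))
          rwa [mul_inv_cancel_right] at this
        have k3 : oo (n + 2) ∈ TOP3_K H (n + 2) := by
          have := key (oo (n + 1)) (aa 1) (oo (n + 2) * aa (2 * n + 2) * aa (2 * n + 3)) mO ha1 (by
            have := h4 n hn
            simpa only [mul_assoc] using this)
          have := (TOP3_K H (n + 2)).mul_mem this ((TOP3_K H (n + 2)).inv_mem k1)
          rw [mul_inv_cancel_right] at this
          have := (TOP3_K H (n + 2)).mul_mem this ((TOP3_K H (n + 2)).inv_mem k2)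
          rwa [mul_inv_cancel_right] at this
        have i1 : 2 * (n + 1) = 2 * n + 2 := by ring
        rw [i1]
        exact (TOP3_K H (n + 2)).mul_mem ((TOP3_K H (n + 2)).mul_mem
          ((TOP3_K H (n + 2)).pow_mem k2 _) ((TOP3_K H (n + 2)).pow_mem k1 _))
          ((TOP3_K H (n + 2)).pow_mem k3 _)
  -- all elements are approximated
  have hall : ∀ n, ∀ g : J, g ∈ TOP3_K H n := by
    intro n
    induction n with
    | zero => intro g; exact ⟨1, H.one_mem, congE_zero _ _⟩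
    | succ n ih =>
      intro g
      obtain ⟨h, hh, hc⟩ := ih g
      have hm : g * h⁻¹ ∈ E n := congE_iff.1 hc
      have := (TOP3_K H (n + 1)).mul_mem (hP n hm) (TOP3_le H (n + 1) hh)
      rwa [inv_mul_cancel_right] at this
  -- closedness
  rw [eq_top_iff]
  intro g _
  by_contra hg
  have hU : {u : J | u * g ∈ (H : Set J)ᶜ} ∈ 𝓝 (1 : J) := by
    have hc : Continuous fun u : J => u * g := continuous_mul_const g
    have ho : IsOpen {u : J | u * g ∈ (H : Set J)ᶜ} := hcl.isOpen_compl.preimage hc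
    refine ho.mem_nhds ?_
    show (1 : J) * g ∈ (H : Set J)ᶜ
    rw [one_mul]
    exact hg
  obtain ⟨n, hn⟩ := h7.2.1 _ hU
  obtain ⟨h, hh, hc⟩ := hall n g
  have : h * g⁻¹ ∈ E n := congE_iff.1 hc.symm
  have := hn this
  apply this
  show h * g⁻¹ * g ∈ H
  rwa [inv_mul_cancel_right]

end Pool.Agent.H72R2.N2
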