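import Mathlib
import Pool.Agent.H72R2.N2.Stm3

set_option autoImplicit false

namespace Pool.Agent.H72R2.N2

open PowerSeries Pool.Agent.Helper168.NottDefs Topology
open scoped commutatorElement

theorem T_BA (F : Facts) : S_BA := by
  intro n X hn h hh
  have H : Ext.Hyp n := F.hyp (by omega)
  have key : ∀ g : J, X.C (g * g) h = 1 := by
    intro g
    have hg : X.good g h := Ext.good_top' H hh
    rw [Ext.C_mul_left hg]
    exact hg.2
  constructor
  · rw [← F.c5.2.2.1]
    exact key _
  · have h1 : X.C (aa 1 * aa 1) h = X.C (aa 2 * aa 3) h :=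
      Ext.C_congrE_left (Ext.tr_succ H) F.c5.2.2.2 hh (by omega) (by omega) (by omega)
    rw [← h1]
    exact key _

end Pool.Agent.H72R2.N2
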