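import Pool.Agent.H72R2.N2.Stm3

set_option autoImplicit false

/-! Task T_BB of helper72 (helper747): pairs `(aa 3, E n)` are trivial. -/

namespace Pool.Agent.H72R2.N2

open PowerSeries Pool.Agent.Helper168.NottDefs Topology
open scoped commutatorElement

open Ext in
theorem T_BB_aux (F : Facts) (bm : S_BM) (kb : S_KB) {m : ℕ} (X : Ext (m + 1))
    (hm : 20 ≤ m + 1) : X.D (aa 3) (aa (2 * m + 2)) = 0 ∧ X.D (aa 3) (aa (2 * m + 3)) = 0 := by
  have H := F.hyp (n := m + 1) (by omega)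
  have hT : X.Tr (m + 1 + 1) := tr_succ H
  have k1 : X.D (aa 3) (aa (2 * m + 3)) = 0 := by
    have := kb (m + 1) X hm
    rwa [show 2 * (m + 1) + 1 = 2 * m + 3 by ring] at this
  have m3 : aa 3 ∈ E 1 := F.mem.1 3 1 (by omega) (by omega)
  have m4 : aa 4 ∈ E 2 := F.mem.1 4 2 (by omega) (by omega)
  have m5 : aa 5 ∈ E 2 := F.mem.1 5 2 (by omega) (by omega)
  have mh : aa (2 * m + 1) ∈ E m := F.mem.1 _ _ (by omega) (by omega)
  have mh2 : aa (2 * m + 2) ∈ E (m + 1) := F.mem.1 _ _ (by omega) (by omega)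
  have mh3 : aa (2 * m + 3) ∈ E (m + 1) := F.mem.1 _ _ (by omega) (by omega)
  have mc : ⁅aa 3, aa (2 * m + 1)⁆ ∈ E (m + 1 + 1) :=
    F.c2 3 (2 * m + 1) (m + 1 + 1) (by omega) (by omega) (by omega) (by omega)
  -- the move with `aa 1`
  have h1 := move (X := X) hT (i := 1) (j := m) (s := 3) (t := m + 2) (y := aa 1) (g := aa 3)
    (h := aa (2 * m + 1)) (g1 := aa 5) (h1 := aa (2 * m + 3)) m3 mh
    (E_anti (by omega) m5) le_rfl (by omega) (by omega) (by omega)
    (F.b5 1 le_rfl) (F.b5 m (by omega)) (by omega) (by omega)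
    (good_lev H (by omega) (by omega) m5 mh (by omega))
    (good_top' H mh3) (good_top' H mh3)
  have e1 : X.D (aa 1) ⁅aa 3, aa (2 * m + 1)⁆ = 0 := D_eq_zero (C_one_right X mc _)
  have e2 : X.D (aa 5) (aa (2 * m + 3)) = 0 :=
    D_eq_zero (hT 2 (m + 1) _ _ (by omega) (by omega) (by omega) m5 mh3)
  have e3 : X.D (aa 5) (aa (2 * m + 1)) = 0 := by
    have := h1.2
    rw [e1, e2, k1, add_zero, add_zero] at this
    exact this.symm
  -- the move with `oo 1`
  have cg : CongE 3 (oo 1 * aa 3) (aa 3 * (aa 4 * aa 5) * oo 1) := by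
    have := F.b2 1 le_rfl
    rw [pow_one] at this
    rw [← mul_assoc (aa 3)]
    exact this
  have ch : CongE (m + 2) (oo 1 * aa (2 * m + 1))
      (aa (2 * m + 1) * (aa (2 * m + 2) * aa (2 * m + 3) ^ m) * oo 1) := by
    have := F.b2 m (by omega)
    rw [← mul_assoc (aa (2 * m + 1))]
    exact this
  have mg1 : aa 4 * aa 5 ∈ E 2 := (E 2).mul_mem m4 m5
  have mh1 : aa (2 * m + 2) * aa (2 * m + 3) ^ m ∈ E (m + 1) :=
    (E (m + 1)).mul_mem mh2 ((E (m + 1)).pow_mem mh3 m)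
  have h2 := move (X := X) hT (i := 1) (j := m) (s := 3) (t := m + 2) (y := oo 1) (g := aa 3)
    (h := aa (2 * m + 1)) (g1 := aa 4 * aa 5) (h1 := aa (2 * m + 2) * aa (2 * m + 3) ^ m) m3 mh
    (E_anti (by omega) mg1) le_rfl (by omega) (by omega) (by omega)
    cg ch (by omega) (by omega)
    (good_lev H (by omega) (by omega) mg1 mh (by omega))
    (good_top' H mh1) (good_top' H mh1)
  have e4 : X.D (oo 1) ⁅aa 3, aa (2 * m + 1)⁆ = 0 := D_eq_zero (C_one_right X mc _)
  have e5 : X.D (aa 4 * aa 5) (aa (2 * m + 2) * aa (2 * m + 3) ^ m) = 0 :=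
    D_eq_zero (hT 2 (m + 1) _ _ (by omega) (by omega) (by omega) mg1 mh1)
  have e6 : X.D (aa 4) (aa (2 * m + 1)) = 0 :=
    D_eq_zero ((bm (m + 1) X hm 2 le_rfl (by omega) (aa (2 * m + 1))
      (E_anti (by omega) mh)).1 (by decide)).1
  have e7 : X.D (aa 4 * aa 5) (aa (2 * m + 1)) = 0 := by
    rw [D_mul_left (good_lev H (by omega) (by omega) m4 mh (by omega))
      (good_lev H (by omega) (by omega) m5 mh (by omega)), e6, e3, add_zero]
  have e8 : X.D (aa 3) (aa (2 * m + 2) * aa (2 * m + 3) ^ m) = X.D (aa 3) (aa (2 * m + 2)) := by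
    rw [D_mul_right (good_top' H mh2) (good_top' H ((E (m + 1)).pow_mem mh3 m)),
      D_pow_right (good_top' H mh3), k1, smul_zero, add_zero]
  refine ⟨?_, k1⟩
  have := h2.2
  rw [e4, e5, e7, e8, zero_add, add_zero] at this
  exact this.symm

open Ext in
theorem T_BB (F : Facts) (ba : S_BA) (bm : S_BM) (kb : S_KB) : S_BB := by
  intro n X hn h hh
  obtain ⟨m, rfl⟩ : ∃ m, n = m + 1 := ⟨n - 1, by omega⟩
  have H := F.hyp (n := m + 1) (by omega)
  obtain ⟨k2, k1⟩ := T_BB_aux F bm kb X hn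
  obtain ⟨a, b, c, _, _, _, hc⟩ := F.dec (m + 1) h (by omega) hh
  rw [C_congr_top hc]
  have e2 : 2 * (m + 1) = 2 * m + 2 := by ring
  have e3 : 2 * (m + 1) + 1 = 2 * m + 3 := by ring
  have e4 : m + 1 + 1 = m + 2 := by ring
  rw [e3, e2, e4]
  have m3 : aa 3 ∈ E 1 := F.mem.1 3 1 (by omega) (by omega)
  have mh2 : aa (2 * m + 2) ∈ E (m + 1) := F.mem.1 _ _ (by omega) (by omega)
  have mh3 : aa (2 * m + 3) ∈ E (m + 1) := F.mem.1 _ _ (by omega) (by omega)
  have mo : oo (m + 2) ∈ E (m + 1) := F.mem.2 _ _ (by omega) (by omega)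
  have k3 : X.D (aa 3) (oo (m + 2)) = 0 := by
    have h1 := bm (m + 1) X hn (m + 1) (by omega) le_rfl (aa 3)
      (E_anti (by omega) m3)
    rw [e3, e2, e4] at h1
    rcases Nat.even_or_odd (m + 1) with he | ho
    · have h2 := D_eq_zero (h1.1 he).2
      rw [D_mul_left (good_top H mo) (good_top H mh3), D_swap, D_swap (g := aa (2 * m + 3)), k1,
        add_zero] at h2
      exact h2
    · have h2 := D_eq_zero (h1.2 ho)
      rw [D_mul_left (good_top H mo) (good_top H mh2), D_swap, D_swap (g := aa (2 * m + 2)), k2,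
        add_zero] at h2
      exact h2
  have g2 : X.good (aa 3) (aa (2 * m + 2) ^ a) := (good_top' H mh2).pow_right a
  have g3 : X.good (aa 3) (aa (2 * m + 3) ^ b) := (good_top' H mh3).pow_right b
  have g4 : X.good (aa 3) (oo (m + 2) ^ c) := (good_top' H mo).pow_right c
  refine ((g2.mul_right g3).mul_right g4).C_eq_one ?_
  rw [D_mul_right (g2.mul_right g3) g4, D_mul_right g2 g3, D_pow_right (good_top' H mh2),
    D_pow_right (good_top' H mh3), D_pow_right (good_top' H mo), k1, k2, k3]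
  simp

end Pool.Agent.H72R2.N2
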