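import Mathlib
import Pool.Agent.H72R2.N2.Stm3

set_option autoImplicit false

namespace Pool.Agent.H72R2.N2

open PowerSeries Pool.Agent.Helper168.NottDefs Topology
open scoped commutatorElement

theorem T_BM_key {n : ℕ} {X : Ext n} (H : Ext.Hyp n) {i : ℕ} {y g g1 : J} (hi : 1 ≤ i)
    (hin : i + 1 ≤ n) (hg : g ∈ E i) (hg1 : g1 ∈ E (i + 1))
    (hC : ∀ h ∈ E (n + 1 - i), X.C g h = 1)
    (cg : CongE (i + 2) (y * g) (g * g1 * y)) : ∀ h ∈ E (n - i), X.D g1 h = 0 := by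
  intro h hh
  have hT : X.Tr (n + 1) := Ext.tr_succ H
  obtain ⟨h1, hh1⟩ : ∃ h1 : J, h1 = h⁻¹ * (y * h * y⁻¹) := ⟨_, rfl⟩
  have e1 : h1 ∈ E (n + 1 - i) := by
    have e : h1 = ⁅h⁻¹, y⁆ := by rw [hh1, commutatorElement_def]; group
    rw [e, show n + 1 - i = (n - i) + 1 by omega]
    exact H.commt _ _ _ ((E _).inv_mem hh)
  have e2 : y * h = h * h1 * y := by rw [hh1]; group
  have c2 := hC h1 e1
  have c3 : X.C g1 h1 = 1 :=
    hT (i + 1) (n + 1 - i) _ _ (by omega) (by omega) (by omega) hg1 e1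
  have c1 : X.good g1 h :=
    Ext.good_lev H (i := i + 1) (j := n - i) (by omega) (by omega) hg1 hh (by omega)
  have hm := (Ext.move hT (i := i) (j := n - i) (s := i + 2) (t := n + 2) hg hh
    (E_anti (by omega) hg1) hi (by omega) (by omega) (by omega) cg
    (by rw [← e2]; exact CongE.refl _ _) (by omega) (by omega) c1 (Ext.good_of_one c2)
    (Ext.good_of_one c3)).2
  have h0 : X.D y ⁅g, h⁆ = 0 := Ext.D_eq_zero
    (Ext.C_one_right X (E_anti (by omega) (H.comm i (n - i) g h hi (by omega) hg hh)) y)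
  rw [h0, Ext.D_eq_zero c2, Ext.D_eq_zero c3, add_zero, add_zero] at hm
  exact hm.symm

theorem T_BM_comb (hc : S_COMM) {i : ℕ} {y g g' u v : J} (hi : 1 ≤ i) (hg' : g' ∈ E i)
    (hu : u ∈ E (i + 1))
    (h1 : CongE (i + 2) (y * g) (g * u * y)) (h2 : CongE (i + 2) (y * g') (g' * v * y)) :
    CongE (i + 2) (y * (g * g')) (g * g' * (u * v) * y) := by
  have h3 : CongE (i + 2) (u * g') (g' * u) := by
    rw [congE_iff']
    have e : (g' * u)⁻¹ * (u * g') = ⁅u⁻¹, g'⁻¹⁆ := by rw [commutatorElement_def]; group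
    rw [e]
    exact E_anti (by omega)
      (hc (i + 1) i _ _ (by omega) hi ((E _).inv_mem hu) ((E _).inv_mem hg'))
  have a1 : CongE (i + 2) (y * (g * g')) (g * u * y * g') := by
    have := h1.mul (CongE.refl (i + 2) g')
    rwa [mul_assoc y g g'] at this
  have a2 : CongE (i + 2) (g * u * y * g') (g * u * (g' * v * y)) := by
    have := (CongE.refl (i + 2) (g * u)).mul h2
    rwa [← mul_assoc (g * u) y g'] at this
  have a3 : CongE (i + 2) (g * u * (g' * v * y)) (g * g' * (u * v) * y) := by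
    have := ((CongE.refl (i + 2) g).mul h3).mul (CongE.refl (i + 2) (v * y))
    have e1 : g * u * (g' * v * y) = g * (u * g') * (v * y) := by group
    have e2 : g * g' * (u * v) * y = g * (g' * u) * (v * y) := by group
    rw [e1, e2]
    exact this
  exact a1.trans (a2.trans a3)

theorem T_BM_step {n : ℕ} {X : Ext n} (F : Facts) {i : ℕ} (hi : 2 ≤ i) (hin : i + 1 ≤ n)
    (ih : ∀ h ∈ E (n + 1 - i),
      (Even i → X.C (aa (2 * i)) h = 1 ∧ X.C (oo (i + 1) * aa (2 * i + 1)) h = 1) ∧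
      (Odd i → X.C (oo (i + 1) * aa (2 * i)) h = 1)) :
    ∀ h ∈ E (n - i),
      (Even (i + 1) → X.C (aa (2 * i + 2)) h = 1 ∧ X.C (oo (i + 2) * aa (2 * i + 3)) h = 1) ∧
      (Odd (i + 1) → X.C (oo (i + 2) * aa (2 * i + 2)) h = 1) := by
  intro h hh
  have H : Ext.Hyp n := F.hyp (by omega)
  have good : ∀ g ∈ E (i + 1), X.good g h := fun g hg =>
    Ext.good_lev H (i := i + 1) (j := n - i) (by omega) (by omega) hg hh (by omega)
  have mo1 : oo (i + 1) ∈ E i := F.mem.2 _ _ (by omega) (by omega)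
  have mo2 : oo (i + 2) ∈ E (i + 1) := F.mem.2 _ _ (by omega) (by omega)
  have ma0 : aa (2 * i) ∈ E i := F.mem.1 _ _ (by omega) (by omega)
  have ma1 : aa (2 * i + 1) ∈ E i := F.mem.1 _ _ (by omega) (by omega)
  have ma2 : aa (2 * i + 2) ∈ E (i + 1) := F.mem.1 _ _ (by omega) (by omega)
  have ma3 : aa (2 * i + 3) ∈ E (i + 1) := F.mem.1 _ _ (by omega) (by omega)
  have mo2p : oo (i + 2) ^ (i + 1) ∈ E (i + 1) := (E _).pow_mem mo2 _
  rcases Nat.even_or_odd i with hev | hodd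
  · -- `i` even
    have hz : ((i : ℕ) : ZMod 2) = 0 := (ZMod.natCast_eq_zero_iff_even).2 hev
    refine ⟨fun h' => absurd h' (by simpa using hev.add_one), fun _ => ?_⟩
    have cg := T_BM_comb F.comm (by omega) ma1 mo2p (F.b3 i (by omega))
      (v := aa (2 * i + 2) * aa (2 * i + 3) ^ i)
      (by
        have := F.b2 i (by omega)
        rwa [mul_assoc (aa (2 * i + 1)) (aa (2 * i + 2))] at this)
    have m3p : aa (2 * i + 3) ^ i ∈ E (i + 1) := (E _).pow_mem ma3 _
    have hD := T_BM_key H (by omega) hin ((E _).mul_mem mo1 ma1)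
      ((E _).mul_mem mo2p ((E _).mul_mem ma2 m3p))
      (fun h' hh' => ((ih h' hh').1 hev).2) cg h hh
    rw [Ext.D_mul_left (good _ mo2p) (good _ ((E _).mul_mem ma2 m3p)),
      Ext.D_mul_left (good _ ma2) (good _ m3p), Ext.D_pow_left (good _ mo2),
      Ext.D_pow_left (good _ ma3), hz, Nat.cast_add, hz, zero_smul, add_zero, zero_add,
      Nat.cast_one, one_smul] at hD
    refine (good _ ((E _).mul_mem mo2 ma2)).C_eq_one ?_
    rw [Ext.D_mul_left (good _ mo2) (good _ ma2), hD]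
  · have hz : ((i : ℕ) : ZMod 2) = 1 := (ZMod.natCast_eq_one_iff_odd).2 hodd
    refine ⟨fun _ => ?_, fun h' => absurd h' (by simpa using hodd.add_one)⟩
    have hg : oo (i + 1) * aa (2 * i) ∈ E i := (E _).mul_mem mo1 ma0
    have hC : ∀ h' ∈ E (n + 1 - i), X.C (oo (i + 1) * aa (2 * i)) h' = 1 :=
      fun h' hh' => (ih h' hh').2 hodd
    -- `y = oo 1`
    have m2p : aa (2 * i + 2) ^ i ∈ E (i + 1) := (E _).pow_mem ma2 _
    have cg1 := T_BM_comb F.comm (by omega) ma0 mo2p (F.b3 i (by omega)) (F.b1 i hi)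
    have hD1 := T_BM_key H (by omega) hin hg ((E _).mul_mem mo2p m2p) hC cg1 h hh
    rw [Ext.D_mul_left (good _ mo2p) (good _ m2p), Ext.D_pow_left (good _ mo2),
      Ext.D_pow_left (good _ ma2), hz, Nat.cast_add, hz, Nat.cast_one, one_smul,
      show (1 : ZMod 2) + 1 = 0 by decide, zero_smul, zero_add] at hD1
    -- `y = aa 1`
    have m6 : oo (i + 2) * aa (2 * i + 2) * aa (2 * i + 3) ∈ E (i + 1) :=
      (E _).mul_mem ((E _).mul_mem mo2 ma2) ma3
    have cg2 := T_BM_comb F.comm (by omega) ma0 m6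
      (by
        have := F.b6 i (by omega)
        have e : oo (i + 1) * oo (i + 2) * aa (2 * i + 2) * aa (2 * i + 3) * aa 1 =
          oo (i + 1) * (oo (i + 2) * aa (2 * i + 2) * aa (2 * i + 3)) * aa 1 := by group
        rwa [e] at this) (v := 1)
      (by rw [mul_one]; exact F.b4 i hi)
    have hD2 := T_BM_key H (by omega) hin hg ((E _).mul_mem m6 (one_mem _)) hC cg2 h hh
    rw [mul_one, Ext.D_mul_left (good _ ((E _).mul_mem mo2 ma2)) (good _ ma3),
      Ext.D_mul_left (good _ mo2) (good _ ma2), hD1, add_zero] at hD2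
    refine ⟨(good _ ma2).C_eq_one hD1, (good _ ((E _).mul_mem mo2 ma3)).C_eq_one ?_⟩
    rw [Ext.D_mul_left (good _ mo2) (good _ ma3), hD2]

theorem T_BM_base {n : ℕ} {X : Ext n} (F : Facts) (ba : S_BA) (hn : 20 ≤ n) :
    ∀ h ∈ E (n - 1), X.C (aa 4) h = 1 ∧ X.C (oo 3 * aa 5) h = 1 := by
  intro h hh
  have H : Ext.Hyp n := F.hyp (by omega)
  have good : ∀ g ∈ E 2, X.good g h := fun g hg =>
    Ext.good_lev H (i := 2) (j := n - 1) (by omega) (by omega) hg hh (by omega)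
  have mo2 : oo 2 ∈ E 1 := F.mem.2 _ _ (by omega) (by omega)
  have ma2 : aa 2 ∈ E 1 := F.mem.1 _ _ (by omega) (by omega)
  have ma3 : aa 3 ∈ E 1 := F.mem.1 _ _ (by omega) (by omega)
  have mo3 : oo 3 ∈ E 2 := F.mem.2 _ _ (by omega) (by omega)
  have ma4 : aa 4 ∈ E 2 := F.mem.1 _ _ (by omega) (by omega)
  have ma5 : aa 5 ∈ E 2 := F.mem.1 _ _ (by omega) (by omega)
  -- `g = oo 2`, `y = aa 1`
  have m6 : oo 3 * aa 4 * aa 5 ∈ E 2 := (E _).mul_mem ((E _).mul_mem mo3 ma4) ma5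
  have cg1 : CongE (1 + 2) (aa 1 * oo 2) (oo 2 * (oo 3 * aa 4 * aa 5) * aa 1) := by
    have := F.b6 1 le_rfl
    norm_num at this
    have e : oo 2 * oo 3 * aa 4 * aa 5 * aa 1 = oo 2 * (oo 3 * aa 4 * aa 5) * aa 1 := by group
    rw [e] at this
    exact this
  have hD1 := T_BM_key H (i := 1) le_rfl (by omega) mo2 m6
    (fun h' hh' => (ba n X hn h' (by simpa using hh')).1) cg1 h hh
  -- `g = aa 2 * aa 3`, `y = oo 1`
  have m7 : aa 4 * oo 3 ∈ E 2 := (E _).mul_mem ma4 mo3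
  have m8 : aa 4 * aa 5 ∈ E 2 := (E _).mul_mem ma4 ma5
  have cg2 : CongE (1 + 2) (oo 1 * (aa 2 * aa 3))
      (aa 2 * aa 3 * ((aa 4 * oo 3) * (aa 4 * aa 5)) * oo 1) := by
    refine T_BM_comb F.comm le_rfl ma3 m7 ?_ ?_
    · have := F.b7.1
      rwa [mul_assoc (aa 2) (aa 4)] at this
    · have := F.b2 1 le_rfl
      norm_num at this
      rwa [mul_assoc (aa 3) (aa 4)] at this
  have hD2 := T_BM_key H (i := 1) le_rfl (by omega) ((E _).mul_mem ma2 ma3)
    ((E _).mul_mem m7 m8)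
    (fun h' hh' => (ba n X hn h' (by simpa using hh')).2) cg2 h hh
  rw [Ext.D_mul_left (good _ ((E _).mul_mem mo3 ma4)) (good _ ma5),
    Ext.D_mul_left (good _ mo3) (good _ ma4)] at hD1
  rw [Ext.D_mul_left (good _ m7) (good _ m8), Ext.D_mul_left (good _ ma4) (good _ mo3),
    Ext.D_mul_left (good _ ma4) (good _ ma5)] at hD2
  have h35 : X.D (oo 3) h + X.D (aa 5) h = 0 := by
    have e : X.D (aa 4) h + X.D (oo 3) h + (X.D (aa 4) h + X.D (aa 5) h) =
      (X.D (aa 4) h + X.D (aa 4) h) + (X.D (oo 3) h + X.D (aa 5) h) := by abel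
    rw [e, Ext.V_add_self, zero_add] at hD2
    exact hD2
  have h4 : X.D (aa 4) h = 0 := by
    have e : X.D (oo 3) h + X.D (aa 4) h + X.D (aa 5) h =
      X.D (aa 4) h + (X.D (oo 3) h + X.D (aa 5) h) := by abel
    rw [e, h35, add_zero] at hD1
    exact hD1
  refine ⟨(good _ ma4).C_eq_one h4, (good _ ((E _).mul_mem mo3 ma5)).C_eq_one ?_⟩
  rw [Ext.D_mul_left (good _ mo3) (good _ ma5), h35]

theorem T_BM (F : Facts) (ba : S_BA) : S_BM := by
  intro n X hn i hi
  induction i, hi using Nat.le_induction with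
  | base =>
    intro _ h hh
    refine ⟨fun _ => ?_, fun h' => absurd h' (by decide)⟩
    have := T_BM_base (X := X) F ba hn h (by simpa using hh)
    exact this
  | succ i hi ih =>
    intro hin h hh
    have h1 := T_BM_step F hi hin (ih (by omega)) h (by simpa using hh)
    exact h1

end Pool.Agent.H72R2.N2
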