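import Mathlib
import Pool.Agent.H72R2.N2.Stm3

set_option autoImplicit false

namespace Pool.Agent.H72R2.N2

open PowerSeries Pool.Agent.Helper168.NottDefs Topology
open scoped commutatorElement

theorem T_DD (F : Facts) (z : S_Z) : S_DD := by
  intro n X L hn hL hT i j hi hj hij
  have H : Ext.Hyp n := F.hyp (by omega)
  have hg : aa (2 * i + 1) ∈ E i := F.mem.1 _ _ (by omega) (by omega)
  have hh : oo (j + 1) ∈ E j := F.mem.2 _ _ (by omega) (by omega)
  have hg1 : aa (2 * i + 3) ∈ E i := F.mem.1 _ _ (by omega) (by omega)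
  have hg1' : aa (2 * i + 3) ∈ E (i + 1) := F.mem.1 _ _ (by omega) (by omega)
  have hp : oo (j + 2) ∈ E (j + 1) := F.mem.2 _ _ (by omega) (by omega)
  have hq : aa (2 * j + 2) ∈ E (j + 1) := F.mem.1 _ _ (by omega) (by omega)
  have hr : aa (2 * j + 3) ∈ E (j + 1) := F.mem.1 _ _ (by omega) (by omega)
  have hh1 : oo (j + 2) * aa (2 * j + 2) * aa (2 * j + 3) ∈ E (j + 1) :=
    (E (j + 1)).mul_mem ((E (j + 1)).mul_mem hp hq) hr
  have gp : X.good (aa (2 * i + 1)) (oo (j + 2)) :=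
    Ext.good_lev H (by omega) (by omega) hg hp (by omega)
  have gq : X.good (aa (2 * i + 1)) (aa (2 * j + 2)) :=
    Ext.good_lev H (by omega) (by omega) hg hq (by omega)
  have gr : X.good (aa (2 * i + 1)) (aa (2 * j + 3)) :=
    Ext.good_lev H (by omega) (by omega) hg hr (by omega)
  have c1 : X.good (aa (2 * i + 3)) (oo (j + 1)) :=
    Ext.good_lev H (by omega) (by omega) hg1' hh (by omega)
  have c2 : X.good (aa (2 * i + 1)) (oo (j + 2) * aa (2 * j + 2) * aa (2 * j + 3)) :=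
    (gp.mul_right gq).mul_right gr
  have c3' : X.C (aa (2 * i + 3)) (oo (j + 2) * aa (2 * j + 2) * aa (2 * j + 3)) = 1 :=
    hT (i + 1) (j + 1) _ _ (by omega) (by omega) (by omega) hg1' hh1
  have c3 : X.good (aa (2 * i + 3)) (oo (j + 2) * aa (2 * j + 2) * aa (2 * j + 3)) :=
    Ext.good_of_one c3'
  have cg : CongE (i + 2) (aa 1 * aa (2 * i + 1)) (aa (2 * i + 1) * aa (2 * i + 3) * aa 1) :=
    F.b5 i (by omega)
  have ch : CongE (j + 2) (aa 1 * oo (j + 1))
      (oo (j + 1) * (oo (j + 2) * aa (2 * j + 2) * aa (2 * j + 3)) * aa 1) := by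
    have := F.b6 j (by omega)
    simpa only [mul_assoc] using this
  obtain ⟨-, key⟩ := Ext.move (X := X) hT (i := i) (j := j) hg hh hg1 (by omega) (by omega)
    (by omega) (by omega) cg ch (by omega) (by omega) c1 c2 c3
  have hz : X.D (aa (2 * i + 1)) (aa (2 * j + 2)) = 0 := by
    rw [Ext.D_swap]
    exact Ext.D_eq_zero (z n X L hn hL hT (j + 1) _ (by omega) (by omega)
      (by rw [show L - (j + 1) = i by omega]; exact hg))
  have hcong : CongE (n + 1) ⁅aa (2 * i + 1), oo (j + 1)⁆ (aa (2 * L)) := by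
    have h1 := F.c4 (2 * i + 1) (j + 1) (L + 1) ⟨i, rfl⟩ (by omega) (by omega) (by omega) (by omega)
    rw [show 2 * i + 1 + 2 * (j + 1) - 1 = 2 * L by omega] at h1
    exact h1.mono (by omega)
  have hC : X.D (aa 1) ⁅aa (2 * i + 1), oo (j + 1)⁆ = X.D (aa 1) (aa (2 * L)) := by
    unfold Ext.D
    rw [Ext.C_congr_top hcong]
  rw [← hC, key, Ext.D_mul_right (gp.mul_right gq) gr, Ext.D_mul_right gp gq, hz,
    Ext.D_eq_zero c3']
  abel

end Pool.Agent.H72R2.N2
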