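import Pool.Agent.H72R2.N2.Stm3

set_option autoImplicit false

namespace Pool.Agent.H72R2.N2

open PowerSeries Pool.Agent.Helper168.NottDefs Topology
open scoped commutatorElement

theorem T_FF (F : Facts) (z : S_Z) : S_FF := by
  intro n X L hn hL hT i j hi hj hij
  have H : Ext.Hyp n := F.hyp (by omega)
  have hnL : n ≤ L := by omega
  -- membership
  have m1 : aa (2 * i + 1) ∈ E i := F.mem.1 _ _ (by omega) (by omega)
  have m2 : aa (2 * i + 3) ∈ E (i + 1) := F.mem.1 _ _ (by omega) (by omega)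
  have m3 : aa (2 * j + 4) ∈ E (j + 2) := F.mem.1 _ _ (by omega) (by omega)
  have m4 : aa (2 * i + 3) ∈ E i := F.mem.1 _ _ (by omega) (by omega)
  -- goodness
  have c1 : X.good (aa (2 * i + 3)) (aa (2 * j)) :=
    Ext.good_of H (F.c2 _ _ _ (by omega) (by omega) (by omega) (by omega))
  have c2 : X.good (aa (2 * i + 1)) (aa (2 * j + 4)) :=
    Ext.good_lev H (i := i) (j := j + 2) (by omega) (by omega) m1 m3 (by omega)
  have c3 : X.good (aa (2 * i + 3)) (aa (2 * j + 4)) :=
    Ext.good_lev H (i := i + 1) (j := j + 2) (by omega) (by omega) m2 m3 (by omega)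
  obtain ⟨-, hD⟩ := Ext.move_gen (X := X) (F.b5 i (by omega)) (F.d1 j hj)
    (by
      intro w hw
      have e1 : X.C w (aa 1 * aa (2 * j) * (aa 1)⁻¹) = X.C w (aa (2 * j)) := by
        refine Ext.C_congr_right (w := (aa (2 * j))⁻¹ * (aa 1 * aa (2 * j) * (aa 1)⁻¹))
          (by group) ?_
        exact hT (i + 2) (j + 2) _ _ (by omega) (by omega) (by omega) hw
          (congE_iff'.1 (conj_cong (F.b4 j (by omega))))
      have e2 : X.C (aa (2 * j)) w = 1 := by
        refine z n X L hn hL hT j w (by omega) (by omega) ?_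
        rw [show L - j = i + 2 by omega]
        exact hw
      rw [e1, Ext.C_swap, e2, inv_one])
    (by
      intro w hw
      exact hT i (j + 3) _ _ (by omega) (by omega) (by omega) ((E i).mul_mem m1 m4) hw)
    c1 (c2.pow_right j) (c3.pow_right j)
  have z1 : X.D (aa 1) ⁅aa (2 * i + 1), aa (2 * j)⁆ = 0 :=
    Ext.D_eq_zero (Ext.C_one_right X (F.c2 _ _ _ (by omega) (by omega) (by omega) (by omega)) _)
  have z2 : X.D (aa (2 * i + 1)) (aa (2 * j + 4) ^ j) = 0 := by
    have h1 : X.C (aa (2 * (j + 2))) (aa (2 * i + 1)) = 1 := by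
      refine z n X L hn hL hT (j + 2) _ (by omega) (by omega) ?_
      rw [show L - (j + 2) = i by omega]
      exact m1
    have h2 : X.D (aa (2 * i + 1)) (aa (2 * j + 4)) = 0 := by
      rw [Ext.D_swap, show 2 * j + 4 = 2 * (j + 2) by ring]
      exact Ext.D_eq_zero h1
    rw [Ext.D_pow_right c2, h2, smul_zero]
  have z3 : X.D (aa (2 * i + 3)) (aa (2 * j + 4) ^ j) = 0 := by
    have h1 : X.C (aa (2 * i + 3)) (aa (2 * j + 4)) = 1 :=
      hT (i + 1) (j + 2) _ _ (by omega) (by omega) (by omega) m2 m3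
    rw [Ext.D_pow_right c3, Ext.D_eq_zero h1, smul_zero]
  rw [z1, z2, z3, add_zero, add_zero] at hD
  exact ⟨c1, hD.symm⟩

end Pool.Agent.H72R2.N2
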