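import Mathlib
import Pool.Agent.H72R2.N2.Stm3

set_option autoImplicit false

/-! The central involution is not a product of commutators: end of the derivation. -/

namespace Pool.Agent.H72R2.N2

open PowerSeries Pool.Agent.Helper168.NottDefs Topology
open scoped commutatorElement

/-! ### the quotient by `E (n + 2)` -/

theorem FIN_congE_quot {m : ℕ} {f g : J} :
    CongE m f g ↔ QuotientGroup.mk' (E m) f = QuotientGroup.mk' (E m) g := by
  rw [congE_iff', QuotientGroup.mk'_apply, QuotientGroup.mk'_apply, eq_comm, QuotientGroup.eq]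

theorem FIN_comm_quot (F : Facts) {n : ℕ} {x : J} (hx : x ∈ E n) (y : J ⧸ E (n + 1)) :
    QuotientGroup.mk' (E (n + 1)) x * y = y * QuotientGroup.mk' (E (n + 1)) x := by
  obtain ⟨g, rfl⟩ := QuotientGroup.mk'_surjective (E (n + 1)) y
  have h := F.commt n x g hx
  rw [mem_E, FIN_congE_quot, map_one, map_commutatorElement,
    commutatorElement_eq_one_iff_mul_comm] at h
  exact h

theorem FIN_sq_quot (F : Facts) {n : ℕ} (hn : 1 ≤ n) {x : J} (hx : x ∈ E n) :
    QuotientGroup.mk' (E (n + 1)) x * QuotientGroup.mk' (E (n + 1)) x = 1 := by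
  have h : x * x ∈ E (n + 1) := E_anti (by omega) (F.sq n x hn hx)
  rw [mem_E, FIN_congE_quot, map_one, map_mul] at h
  exact h

theorem FIN_pow_mod {Q : Type*} [Group Q] {x : Q} (hx : x * x = 1) (a : ℕ) :
    x ^ a = x ^ (a % 2) := by
  conv_lhs => rw [← Nat.div_add_mod a 2, pow_add, pow_mul, pow_two, hx, one_pow, one_mul]

/-- commutator from the expansion of a conjugate -/
theorem FIN_comm {Q : Type*} [Group Q] {x y w : Q} (h : x * y = y * w * x)
    (hw : w * y = y * w) : ⁅x, y⁆ = w := by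
  rw [commutatorElement_def, h, ← hw]
  group

theorem FIN_algebra {Q : Type*} [Group Q] {A B O : Q} (hA : ∀ y, A * y = y * A)
    (hB : ∀ y, B * y = y * B) (hO : ∀ y, O * y = y * O) (i j k n : ℕ) :
    B ^ i * (O * A * B) ^ j * (A * B ^ n) ^ k = A ^ (j + k) * B ^ (i + j + n * k) * O ^ j := by
  have e1 : (O * A * B) ^ j = O ^ j * A ^ j * B ^ j := by
    rw [Commute.mul_pow (show Commute (O * A) B from (hB (O * A)).symm),
      Commute.mul_pow (show Commute O A from hO A)]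
  have e2 : (A * B ^ n) ^ k = A ^ k * B ^ (n * k) := by
    rw [Commute.mul_pow (show Commute A (B ^ n) from hA _), ← pow_mul]
  have pA : ∀ (m : ℕ) (y : Q), A ^ m * y = y * A ^ m := fun m y =>
    ((show Commute A y from hA y).pow_left m).eq
  have pO : ∀ (m : ℕ) (y : Q), O ^ m * y = y * O ^ m := fun m y =>
    ((show Commute O y from hO y).pow_left m).eq
  rw [e1, e2, pow_add, pow_add, pow_add]
  have key : ∀ a a' b b' b'' o : Q, (∀ y, a * y = y * a) → (∀ y, a' * y = y * a') →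
      (∀ y, o * y = y * o) → b * (o * a * b') * (a' * b'') = a * a' * (b * b' * b'') * o := by
    intro a a' b b' b'' o ha ha' ho
    calc b * (o * a * b') * (a' * b'') = (b * o) * (a * (b' * (a' * b''))) := by
          simp only [mul_assoc]
      _ = (o * b) * (a * (b' * (a' * b''))) := by rw [ho b]
      _ = o * ((b * a) * ((b' * a') * b'')) := by simp only [mul_assoc]
      _ = o * ((a * b) * ((a' * b') * b'')) := by rw [ha b, ha' b']
      _ = o * (a * ((b * a') * (b' * b''))) := by simp only [mul_assoc]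
      _ = o * (a * ((a' * b) * (b' * b''))) := by rw [ha' b]
      _ = (a * ((a' * b) * (b' * b''))) * o := by rw [ho]
      _ = a * a' * (b * b' * b'') * o := by simp only [mul_assoc]
  exact key _ _ _ _ _ _ (pA j) (pA k) (pO j)

/-- no nontrivial product of the three commutators lies in `E (n + 2)` -/
theorem FIN_indep (F : Facts) {n : ℕ} (hn : 1 ≤ n) (i j k : ℕ) (hi : i ≤ 1) (hj : j ≤ 1)
    (hk : k ≤ 1) (hg : ⁅aa 1, aa (2 * n + 1)⁆ ^ i * ⁅aa 1, oo (n + 1)⁆ ^ j *
      ⁅oo 1, aa (2 * n + 1)⁆ ^ k ∈ E (n + 2)) : i = 0 ∧ j = 0 ∧ k = 0 := by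
  have mA : aa (2 * n + 2) ∈ E (n + 1) := F.mem.1 _ _ (by omega) (by omega)
  have mB : aa (2 * n + 3) ∈ E (n + 1) := F.mem.1 _ _ (by omega) (by omega)
  have mO : oo (n + 2) ∈ E (n + 1) := F.mem.2 _ _ (by omega) (by omega)
  have hA := FIN_comm_quot F mA
  have hB := FIN_comm_quot F mB
  have hO := FIN_comm_quot F mO
  have b5 := F.b5 n hn
  have b6 := F.b6 n hn
  have b2 := F.b2 n hn
  rw [FIN_congE_quot] at b5 b6 b2
  simp only [map_mul, map_pow] at b5 b6 b2
  have c5 := FIN_comm (Q := J ⧸ E (n + 2)) b5 (hB _)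
  have c6 := FIN_comm (Q := J ⧸ E (n + 2)) (w := QuotientGroup.mk' (E (n + 2)) (oo (n + 2)) *
      QuotientGroup.mk' (E (n + 2)) (aa (2 * n + 2)) *
      QuotientGroup.mk' (E (n + 2)) (aa (2 * n + 3)))
    (x := QuotientGroup.mk' (E (n + 2)) (aa 1)) (y := QuotientGroup.mk' (E (n + 2)) (oo (n + 1)))
    (by rw [b6]; group)
    (by
      rw [mul_assoc, hB, ← mul_assoc, mul_assoc _ _ (QuotientGroup.mk' (E (n + 2)) (oo (n + 1))),
        hA, ← mul_assoc, hO]
      group)
  have c2 := FIN_comm (Q := J ⧸ E (n + 2)) (w := QuotientGroup.mk' (E (n + 2)) (aa (2 * n + 2)) *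
      QuotientGroup.mk' (E (n + 2)) (aa (2 * n + 3)) ^ n)
    (x := QuotientGroup.mk' (E (n + 2)) (oo 1)) (y := QuotientGroup.mk' (E (n + 2)) (aa (2 * n + 1)))
    (by rw [b2]; group)
    (by
      have hBn : QuotientGroup.mk' (E (n + 2)) (aa (2 * n + 3)) ^ n *
          QuotientGroup.mk' (E (n + 2)) (aa (2 * n + 1)) =
          QuotientGroup.mk' (E (n + 2)) (aa (2 * n + 1)) *
          QuotientGroup.mk' (E (n + 2)) (aa (2 * n + 3)) ^ n :=
        ((show Commute _ _ from hB _).pow_left n).eq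
      rw [mul_assoc, hBn, ← mul_assoc, hA]
      group)
  rw [mem_E, FIN_congE_quot, map_one, map_mul, map_mul, map_pow, map_pow, map_pow,
    map_commutatorElement, map_commutatorElement, map_commutatorElement, c5, c6, c2,
    FIN_algebra hA hB hO, FIN_pow_mod (FIN_sq_quot F (by omega) mA) (j + k),
    FIN_pow_mod (FIN_sq_quot F (by omega) mB) (i + j + n * k)] at hg
  have h1 : aa (2 * (n + 1)) ^ ((j + k) % 2) * aa (2 * (n + 1) + 1) ^ ((i + j + n * k) % 2) *
      oo (n + 1 + 1) ^ j ∈ E (n + 1 + 1) := by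
    rw [mem_E, FIN_congE_quot, map_one, map_mul, map_mul, map_pow, map_pow, map_pow]
    exact hg
  obtain ⟨h2, h3, h4⟩ := F.ind (n + 1) _ _ _ (by omega) (by omega) (by omega) hj h1
  subst h4
  have hk0 : k = 0 := by omega
  subst hk0
  refine ⟨by omega, rfl, rfl⟩

theorem T_FIN (F : Facts) (tr : S_TR) (re : S_RE) (ro : S_RO) (r6 : S_R6) (io : S_IO) : S_FIN := by
  intro n hn X hz
  have hn1 : 1 ≤ n := by omega
  have H := F.hyp hn1
  have hT := tr n X hn
  have m0 : aa (2 * n) ∈ E n := F.mem.1 _ _ (by omega) (by omega)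
  have m1 : aa (2 * n + 1) ∈ E n := F.mem.1 _ _ (by omega) (by omega)
  have mo : oo (n + 1) ∈ E n := F.mem.2 _ _ (by omega) (by omega)
  have g0 : ∀ y, X.good y (aa (2 * n)) := fun y => Ext.good_top' H m0
  have g1 : ∀ y, X.good y (aa (2 * n + 1)) := fun y => Ext.good_top' H m1
  have go : ∀ y, X.good y (oo (n + 1)) := fun y => Ext.good_top' H mo
  -- relations
  have r0 : X.D (aa 1) (aa (2 * n)) = 0 := by
    rcases Nat.even_or_odd n with he | ho
    · exact re n X hn he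
    · exact ro n X hn ho hT
  have rA : X.D (oo 1) (aa (2 * n)) ∈ Submodule.span (ZMod 2)
      {X.D (aa 1) (aa (2 * n + 1)), X.D (aa 1) (oo (n + 1)), X.D (oo 1) (aa (2 * n + 1))} := by
    rcases Nat.even_or_odd n with he | ho
    · have h := ((io n X hn hT).2 he).1
      rw [r0, add_zero] at h
      rw [h]
      exact Submodule.zero_mem _
    · have h := (io n X hn hT).1 ho
      rw [Ext.D_mul_right (g0 _) (g1 _), Ext.D_mul_right (g0 _) (g1 _), r0, zero_add] at h
      have h2 : X.D (oo 1) (aa (2 * n)) =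
          X.D (oo 1) (aa (2 * n + 1)) + X.D (aa 1) (aa (2 * n + 1)) := by
        linear_combination (norm := (match_scalars <;> decide)) (1 : ZMod 2) • h
      rw [h2]
      exact Submodule.add_mem _ (Submodule.subset_span (by simp)) (Submodule.subset_span (by simp))
  have rO : X.D (oo 1) (oo (n + 1)) ∈ Submodule.span (ZMod 2)
      {X.D (aa 1) (aa (2 * n + 1)), X.D (aa 1) (oo (n + 1)), X.D (oo 1) (aa (2 * n + 1))} := by
    rcases Nat.even_or_odd n with he | ho
    · obtain ⟨h, h'⟩ := (io n X hn hT).2 he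
      rw [r0, add_zero] at h
      rw [Ext.D_mul_right ((go _).mul_right (g0 _)) (g1 _), Ext.D_mul_right (go _) (g0 _),
        Ext.D_mul_right ((go _).mul_right (g0 _)) (g1 _), Ext.D_mul_right (go _) (g0 _), r0, h,
        add_zero, add_zero] at h'
      have h2 : X.D (oo 1) (oo (n + 1)) = X.D (oo 1) (aa (2 * n + 1)) +
          X.D (aa 1) (oo (n + 1)) + X.D (aa 1) (aa (2 * n + 1)) := by
        linear_combination (norm := (match_scalars <;> decide)) (1 : ZMod 2) • h'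
      rw [h2]
      exact Submodule.add_mem _ (Submodule.add_mem _ (Submodule.subset_span (by simp))
        (Submodule.subset_span (by simp))) (Submodule.subset_span (by simp))
    · rw [r6 n X hn ho hT]
      exact Submodule.zero_mem _
  obtain ⟨Sp, hSp⟩ : ∃ Sp : Submodule (ZMod 2) X.V, Sp = Submodule.span (ZMod 2)
      {X.D (aa 1) (aa (2 * n + 1)), X.D (aa 1) (oo (n + 1)), X.D (oo 1) (aa (2 * n + 1))} :=
    ⟨_, rfl⟩
  rw [← hSp] at rA rO
  have rP : X.D (aa 1) (aa (2 * n + 1)) ∈ Sp := by rw [hSp]; exact Submodule.subset_span (by simp)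
  have rQ : X.D (aa 1) (oo (n + 1)) ∈ Sp := by rw [hSp]; exact Submodule.subset_span (by simp)
  have rR : X.D (oo 1) (aa (2 * n + 1)) ∈ Sp := by
    rw [hSp]; exact Submodule.subset_span (by simp)
  -- the subgroup
  let W : Subgroup X.Γ :=
    { carrier := {u | u ∈ X.Zc ∧ X.toV u ∈ Sp}
      one_mem' := ⟨X.Zc.one_mem, by rw [Ext.toV_one]; exact Sp.zero_mem⟩
      mul_mem' := by
        rintro a b ⟨ha, ha'⟩ ⟨hb, hb'⟩
        exact ⟨X.Zc.mul_mem ha hb, by rw [Ext.toV_mul X ha hb]; exact Sp.add_mem ha' hb'⟩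
      inv_mem' := by
        rintro a ⟨ha, ha'⟩
        have h1 : a⁻¹ = a := (eq_inv_of_mul_eq_one_left ha.2).symm
        rw [h1]
        exact ⟨ha, ha'⟩ }
  have hcm : X.cm ≤ W := by
    unfold Ext.cm
    rw [Subgroup.closure_le]
    rintro w ⟨u, e, v, hu, he, rfl⟩
    obtain ⟨y, hv⟩ := X.surjΓ v
    rw [X.C_eq hu hv]
    obtain ⟨a, b, ha, hb, hab⟩ := F.dec0 y
    obtain ⟨α, β, γ, -, -, -, hd⟩ := F.dec n e hn1 he
    have e1 : X.C e y = X.C (aa (2 * n) ^ α * aa (2 * n + 1) ^ β * oo (n + 1) ^ γ)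
        (oo 1 ^ a * aa 1 ^ b) := by
      rw [Ext.C_congrE_right hT hab he le_rfl hn1 le_rfl]
      exact Ext.C_congr_top_left hd
    rw [e1]
    -- goodness
    have G : ∀ y, X.good y (aa (2 * n) ^ α * aa (2 * n + 1) ^ β * oo (n + 1) ^ γ) := fun y =>
      (((g0 y).pow_right α).mul_right ((g1 y).pow_right β)).mul_right ((go y).pow_right γ)
    refine ⟨(G _).swap, ?_⟩
    change X.D _ _ ∈ Sp
    rw [Ext.D_swap, Ext.D_mul_left (G _) (G _), Ext.D_pow_left (G _), Ext.D_pow_left (G _)]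
    have D1 : ∀ y, X.D y (aa (2 * n) ^ α * aa (2 * n + 1) ^ β * oo (n + 1) ^ γ) =
        (α : ZMod 2) • X.D y (aa (2 * n)) + (β : ZMod 2) • X.D y (aa (2 * n + 1)) +
          (γ : ZMod 2) • X.D y (oo (n + 1)) := by
      intro y
      rw [Ext.D_mul_right (((g0 y).pow_right α).mul_right ((g1 y).pow_right β))
        ((go y).pow_right γ), Ext.D_mul_right ((g0 y).pow_right α) ((g1 y).pow_right β),
        Ext.D_pow_right (g0 y), Ext.D_pow_right (g1 y), Ext.D_pow_right (go y)]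
    rw [D1, D1, r0]
    refine Sp.add_mem (Sp.smul_mem _ (Sp.add_mem (Sp.add_mem (Sp.smul_mem _ rA)
      (Sp.smul_mem _ rR)) (Sp.smul_mem _ rO))) (Sp.smul_mem _ (Sp.add_mem (Sp.add_mem
        (Sp.smul_mem _ Sp.zero_mem) (Sp.smul_mem _ rP)) (Sp.smul_mem _ rQ)))
  obtain ⟨hz1, hz2⟩ := hcm hz
  rw [hSp, Submodule.mem_span_insert] at hz2
  obtain ⟨i, y1, hy1, hz3⟩ := hz2
  rw [Submodule.mem_span_pair] at hy1
  obtain ⟨j, k, rfl⟩ := hy1
  -- natural exponents
  have cP := g1 (aa 1)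
  have cQ := go (aa 1)
  have cR := g1 (oo 1)
  have hpow : ∀ (x : ZMod 2) (g h : J), X.good g h →
      X.C g h ^ x.val ∈ X.Zc ∧ X.toV (X.C g h ^ x.val) = x • X.D g h := by
    intro x g h hgh
    refine ⟨X.Zc.pow_mem hgh _, ?_⟩
    have hx : x.val = 0 ∨ x.val = 1 := by
      have := ZMod.val_lt x
      omega
    have hxv : ((x.val : ℕ) : ZMod 2) = x := ZMod.natCast_zmod_val x
    rcases hx with h0 | h0
    · rw [h0, pow_zero, Ext.toV_one, ← hxv, h0, Nat.cast_zero, zero_smul]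
    · rw [h0, pow_one, ← hxv, h0, Nat.cast_one, one_smul]
      rfl
  obtain ⟨pP, qP⟩ := hpow i _ _ cP
  obtain ⟨pQ, qQ⟩ := hpow j _ _ cQ
  obtain ⟨pR, qR⟩ := hpow k _ _ cR
  have hzeq : X.z = X.C (aa 1) (aa (2 * n + 1)) ^ i.val * X.C (aa 1) (oo (n + 1)) ^ j.val *
      X.C (oo 1) (aa (2 * n + 1)) ^ k.val := by
    refine X.toV_inj hz1 (X.Zc.mul_mem (X.Zc.mul_mem pP pQ) pR) ?_
    rw [Ext.toV_mul X (X.Zc.mul_mem pP pQ) pR, Ext.toV_mul X pP pQ, qP, qQ, qR, hz3]
    abel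
  have hpm : ∀ (u : X.Γ) (g : J) (a : ℕ), (u, g) ∈ X.L → (u ^ a, g ^ a) ∈ X.L := by
    intro u g a h
    exact X.L.pow_mem h a
  have hlift : (X.z, ⁅aa 1, aa (2 * n + 1)⁆ ^ i.val * ⁅aa 1, oo (n + 1)⁆ ^ j.val *
      ⁅oo 1, aa (2 * n + 1)⁆ ^ k.val) ∈ X.L := by
    rw [hzeq]
    exact X.mul_mem (X.mul_mem (hpm _ _ _ (X.C_mem _ _)) (hpm _ _ _ (X.C_mem _ _)))
      (hpm _ _ _ (X.C_mem _ _))
  have h1 := X.mul_mem (X.inv_mem X.lift_z) hlift
  rw [inv_mul_cancel, inv_one, one_mul] at h1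
  have hvl : ∀ x : ZMod 2, x.val ≤ 1 := fun x => by
    have := ZMod.val_lt x
    omega
  obtain ⟨hi0, hj0, hk0⟩ := FIN_indep F hn1 _ _ _ (hvl i) (hvl j) (hvl k) (X.coker _ h1)
  rw [hi0, hj0, hk0, pow_zero, pow_zero, pow_zero, mul_one, mul_one] at hzeq
  exact X.hz hzeq

end Pool.Agent.H72R2.N2
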