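import Mathlib
import Pool.Agent.H72R2.N2.Stm3

set_option autoImplicit false

namespace Pool.Agent.H72R2.N2

open PowerSeries Pool.Agent.Helper168.NottDefs Topology
open scoped commutatorElement

theorem T_IO_step1 (F : Facts) {n : ℕ} (X : Ext n) (hn : 20 ≤ n) (hT : X.Tr n) {i0 h : J}
    (hi : i0 * i0 = 1) (hh : h ∈ E (n - 1)) : X.D i0 ⁅h, i0⁆ = 0 := by
  have H := F.hyp (n := n) (by omega)
  have hc : ⁅h, i0⁆ ∈ E n := by
    have := F.commt (n - 1) h i0 hh
    rwa [show n - 1 + 1 = n by omega] at this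
  have h1 : X.C h ⁅h, i0⁆ = 1 := hT (n - 1) n _ _ (by omega) (by omega) (by omega) hh hc
  have h2 : X.s h * X.C h i0 * (X.s h)⁻¹ * (X.C h i0)⁻¹ = 1 := by
    rw [← h1, ← X.C_eq (X.s_mem h) (X.C_mem h i0), commutatorElement_def]
  have h3 : X.s h * X.C h i0 * (X.s h)⁻¹ = X.C h i0 := by
    rwa [mul_inv_eq_one] at h2
  have h4 : X.C h i0 * X.C h i0 = 1 := by
    have h41 := X.C_mul_left' h h i0
    rw [h3] at h41
    rw [← h41]
    exact Ext.C_one_left X (E_anti (by omega) (F.sq (n - 1) h (by omega) hh)) i0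
  have h5 : X.C i0 ⁅h, i0⁆ ∈ X.Zc := Ext.good_top' H hc
  have h6 : X.s i0 * X.C h i0 * (X.s i0)⁻¹ = X.C i0 ⁅h, i0⁆ * X.C h i0 := by
    rw [← X.C_eq (X.s_mem i0) (X.C_mem h i0), commutatorElement_def]; group
  have h7 : X.C h i0 * (X.C i0 ⁅h, i0⁆ * X.C h i0) = 1 := by
    have h71 := X.C_mul_right' h i0 i0
    rw [hi, Ext.C_one_right X (one_mem _), h6] at h71
    exact h71.symm
  have h8 : X.C i0 ⁅h, i0⁆ = 1 := by
    rw [← mul_assoc, ← h5.1 (X.C h i0), mul_assoc, h4, mul_one] at h7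
    exact h7
  exact Ext.D_eq_zero h8

/-- commutators of `E n` vanish modulo `E (n+1)`: conjugation is trivial -/
theorem T_IO_conj (F : Facts) {n : ℕ} {g : J} (hg : g ∈ E n) (y : J) :
    CongE (n + 1) (y * g * y⁻¹) g := by
  rw [congE_iff]
  have h1 : y * g * y⁻¹ * g⁻¹ = (⁅g, y⁆)⁻¹ := by
    rw [commutatorElement_inv, commutatorElement_def]
  rw [h1]
  exact (E (n + 1)).inv_mem (F.commt n g y hg)

theorem T_IO_one (F : Facts) {n : ℕ} (hn : 1 ≤ n) {h p y : J} (hp : p ∈ E n)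
    (hc : CongE (n + 1) (y * h) (h * p * y)) : CongE (n + 1) ⁅h, y⁆ p := by
  have h1 : CongE (n + 1) (y * h * y⁻¹) (h * p) := conj_cong hc
  have h2 : ⁅h, y⁆ = h * (y * h * y⁻¹)⁻¹ := by rw [commutatorElement_def]; group
  rw [h2]
  have h3 : CongE (n + 1) (h * (y * h * y⁻¹)⁻¹) (h * (h * p)⁻¹) :=
    (CongE.refl _ h).mul h1.inv
  refine h3.trans ?_
  have h4 : h * (h * p)⁻¹ = h * p⁻¹ * h⁻¹ := by group
  rw [h4]
  refine (T_IO_conj F ((E n).inv_mem hp) h).trans ?_
  have h5 : p * p ∈ E (n + 1) := E_anti (by omega) (F.sq n p hn hp)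
  rw [congE_iff']
  have h6 : p⁻¹ * p⁻¹ = (p * p)⁻¹ := by group
  rw [h6]
  exact (E (n + 1)).inv_mem h5

theorem T_IO_key (F : Facts) {n : ℕ} (X : Ext n) (hn : 20 ≤ n) (hT : X.Tr n) {h p0 p1 : J}
    (hh : h ∈ E (n - 1)) (hp0 : p0 ∈ E n) (hp1 : p1 ∈ E n)
    (hc0 : CongE (n + 1) (oo 1 * h) (h * p0 * oo 1))
    (hc1 : CongE (n + 1) (aa 1 * h) (h * p1 * aa 1)) :
    X.D (oo 1) (p0 * p1) + X.D (aa 1) (p0 * p1) = 0 := by
  have H := F.hyp (n := n) (by omega)
  obtain ⟨i0, hi, hcong⟩ := F.iota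
  have h1 := T_IO_step1 F X hn hT hi hh
  have hpp : p0 * p1 ∈ E n := (E n).mul_mem hp0 hp1
  -- the commutator modulo `E (n+1)`
  have hw : i0 * (oo 1 * aa 1)⁻¹ ∈ E 1 := congE_iff.1 hcong
  have h2 : CongE (n + 1) ⁅h, i0⁆ (p0 * p1) := by
    have e1 : ⁅h, i0⁆ = ⁅h, i0 * (oo 1 * aa 1)⁻¹⁆ *
        ((i0 * (oo 1 * aa 1)⁻¹) * ⁅h, oo 1 * aa 1⁆ * (i0 * (oo 1 * aa 1)⁻¹)⁻¹) := by
      simp only [commutatorElement_def]; group
    have e2 : ⁅h, i0 * (oo 1 * aa 1)⁻¹⁆ ∈ E (n + 1) := by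
      have := F.comm (n - 1) 1 h _ (by omega) (by omega) hh hw
      rwa [show n - 1 + 1 + 1 = n + 1 by omega] at this
    have e3 : ∀ y : J, ⁅h, y⁆ ∈ E n := by
      intro y
      have := F.commt (n - 1) h y hh
      rwa [show n - 1 + 1 = n by omega] at this
    have e4 : CongE (n + 1) ⁅h, i0⁆ (1 * ⁅h, oo 1 * aa 1⁆) := by
      rw [e1]
      exact CongE.mul (mem_E.1 e2) (T_IO_conj F (e3 _) _)
    rw [one_mul] at e4
    refine e4.trans ?_
    have e5 : ⁅h, oo 1 * aa 1⁆ = ⁅h, oo 1⁆ * (oo 1 * ⁅h, aa 1⁆ * (oo 1)⁻¹) := by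
      simp only [commutatorElement_def]; group
    rw [e5]
    exact CongE.mul (T_IO_one F (by omega) hp0 hc0)
      ((T_IO_conj F (e3 _) _).trans (T_IO_one F (by omega) hp1 hc1))
  have h3 : X.D i0 ⁅h, i0⁆ = X.D i0 (p0 * p1) := by
    unfold Ext.D
    rw [Ext.C_congr_top h2]
  have h4 : X.D i0 (p0 * p1) = X.D (oo 1 * aa 1) (p0 * p1) := by
    unfold Ext.D
    rw [Ext.C_congrE_left hT hcong hpp (by omega) (by omega) (by omega)]
  rw [← Ext.D_mul_left (Ext.good_top' H hpp) (Ext.good_top' H hpp), ← h4, ← h3, h1]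

theorem T_IO (F : Facts) : S_IO := by
  intro n X hn hT
  have H := F.hyp (n := n) (by omega)
  obtain ⟨mem1, mem2⟩ := F.mem
  have a0 : aa (2 * n) ∈ E n := mem1 _ _ (by omega) (by omega)
  have a1 : aa (2 * n + 1) ∈ E n := mem1 _ _ (by omega) (by omega)
  have o1 : oo (n + 1) ∈ E n := mem2 _ _ (by omega) (by omega)
  refine ⟨?_, ?_⟩
  · rintro ⟨k, hk⟩
    have hb2 := F.b2 (n - 1) (by omega)
    have hb5 := F.b5 (n - 1) (by omega)
    rw [show n - 1 + 2 = n + 1 by omega, show 2 * (n - 1) + 2 = 2 * n by omega,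
      show 2 * (n - 1) + 3 = 2 * n + 1 by omega, mul_assoc (aa (2 * (n - 1) + 1))] at hb2
    rw [show n - 1 + 2 = n + 1 by omega, 
      show 2 * (n - 1) + 3 = 2 * n + 1 by omega] at hb5
    have key := T_IO_key F X hn hT (mem1 _ _ (by omega) (by omega))
      ((E n).mul_mem a0 ((E n).pow_mem a1 _)) a1 hb2 hb5
    have red : ∀ y : J, X.D y (aa (2 * n) * aa (2 * n + 1) ^ (n - 1) * aa (2 * n + 1)) =
        X.D y (aa (2 * n) * aa (2 * n + 1)) := by
      intro y
      have g0 : X.good y (aa (2 * n)) := Ext.good_top' H a0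
      have g1 : X.good y (aa (2 * n + 1)) := Ext.good_top' H a1
      rw [Ext.D_mul_right (g0.mul_right (g1.pow_right _)) g1,
        Ext.D_mul_right g0 (g1.pow_right _), Ext.D_pow_right g1, Ext.D_mul_right g0 g1]
      have : ((n - 1 : ℕ) : ZMod 2) = 0 := by
        rw [ZMod.natCast_eq_zero_iff]; omega
      rw [this, zero_smul, add_zero]
    rw [red, red] at key
    exact key
  · rintro ⟨k, hk⟩
    refine ⟨?_, ?_⟩
    · have hb1 := F.b1 (n - 1) (by omega)
      have hb4 := F.b4 (n - 1) (by omega)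
      rw [show n - 1 + 2 = n + 1 by omega, show 2 * (n - 1) + 2 = 2 * n by omega] at hb1
      rw [show n - 1 + 2 = n + 1 by omega] at hb4
      have hb4' : CongE (n + 1) (aa 1 * aa (2 * (n - 1))) (aa (2 * (n - 1)) * 1 * aa 1) := by
        rwa [mul_one]
      have key := T_IO_key F X hn hT (mem1 _ _ (by omega) (by omega))
        ((E n).pow_mem a0 _) (one_mem _) hb1 hb4'
      rw [mul_one] at key
      have red : ∀ y : J, X.D y (aa (2 * n) ^ (n - 1)) = X.D y (aa (2 * n)) := by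
        intro y
        have g0 : X.good y (aa (2 * n)) := Ext.good_top' H a0
        rw [Ext.D_pow_right g0]
        have : ((n - 1 : ℕ) : ZMod 2) = 1 := by
          have h2 : n - 1 = 2 * (k - 1) + 1 := by omega
          rw [h2]
          push_cast
          rw [show (2 : ZMod 2) = 0 by decide, zero_mul, zero_add]
        rw [this, one_smul]
      rw [red, red] at key
      exact key
    · have hb3 := F.b3 (n - 1) (by omega)
      have hb6 := F.b6 (n - 1) (by omega)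
      rw [show n - 1 + 2 = n + 1 by omega, show n - 1 + 1 = n by omega] at hb3
      rw [show n - 1 + 2 = n + 1 by omega, show n - 1 + 1 = n by omega,
        show 2 * (n - 1) + 2 = 2 * n by omega, show 2 * (n - 1) + 3 = 2 * n + 1 by omega] at hb6
      have hb6' : CongE (n + 1) (aa 1 * oo n)
          (oo n * (oo (n + 1) * aa (2 * n) * aa (2 * n + 1)) * aa 1) := by
        have e : oo n * (oo (n + 1) * aa (2 * n) * aa (2 * n + 1)) * aa 1 =
            oo n * oo (n + 1) * aa (2 * n) * aa (2 * n + 1) * aa 1 := by group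
        rw [e]; exact hb6
      have hm : oo (n + 1) * aa (2 * n) * aa (2 * n + 1) ∈ E n :=
        (E n).mul_mem ((E n).mul_mem o1 a0) a1
      have key := T_IO_key F X hn hT (mem2 _ _ (by omega) (by omega))
        ((E n).pow_mem o1 _) hm hb3 hb6'
      have red : ∀ y : J, X.D y (oo (n + 1) ^ n * (oo (n + 1) * aa (2 * n) * aa (2 * n + 1))) =
          X.D y (oo (n + 1) * aa (2 * n) * aa (2 * n + 1)) := by
        intro y
        have g0 : X.good y (oo (n + 1)) := Ext.good_top' H o1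
        rw [Ext.D_mul_right (g0.pow_right _) (Ext.good_top' H hm), Ext.D_pow_right g0]
        have : ((n : ℕ) : ZMod 2) = 0 := by
          rw [ZMod.natCast_eq_zero_iff]; omega
        rw [this, zero_smul, zero_add]
      rw [red, red] at key
      exact key

end Pool.Agent.H72R2.N2
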