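import Mathlib
import Pool.Agent.H72R2.N2.Stm3

set_option autoImplicit false

/-! T_K -/

namespace Pool.Agent.H72R2.N2

open PowerSeries Pool.Agent.Helper168.NottDefs Topology
open scoped commutatorElement

theorem T_K (F : Facts) : S_K := by
  intro n X L hn hL hT i j hi hj hij
  have H : Ext.Hyp n := F.hyp (by omega)
  have hg : aa (2 * i + 1) ∈ E i := F.mem.1 _ _ (by omega) (by omega)
  have hh : aa (2 * j + 1) ∈ E j := F.mem.1 _ _ (by omega) (by omega)
  have hg1 : aa (2 * i + 3) ∈ E (i + 1) := F.mem.1 _ _ (by omega) (by omega)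
  have hh1 : aa (2 * j + 3) ∈ E (j + 1) := F.mem.1 _ _ (by omega) (by omega)
  have hm := Ext.move hT hg hh (E_anti (by omega) hg1) hi hj (s := i + 2) (t := j + 2)
    (by omega) (by omega) (F.b5 i hi) (F.b5 j hj) (by omega) (by omega)
    (Ext.good_lev H (by omega) hj hg1 hh (by omega))
    (Ext.good_lev H hi (by omega) hg hh1 (by omega))
    (Ext.good_lev H (by omega) (by omega) hg1 hh1 (by omega))
  have h1 : X.D (aa 1) ⁅aa (2 * i + 1), aa (2 * j + 1)⁆ = 0 := by
    apply Ext.D_eq_zero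
    apply Ext.C_one_right
    exact F.c2 _ _ _ (by omega) (by omega) (by omega) (by omega)
  have h2 : X.D (aa (2 * i + 3)) (aa (2 * j + 3)) = 0 :=
    Ext.D_eq_zero (hT (i + 1) (j + 1) _ _ (by omega) (by omega) (by omega) hg1 hh1)
  have h3 := hm.2
  rw [h1, h2, add_zero] at h3
  have h4 := X.V_add_self (X.D (aa (2 * i + 1)) (aa (2 * j + 3)))
  exact add_right_cancel (h3.symm.trans h4.symm)

end Pool.Agent.H72R2.N2
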