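import Pool.Agent.H72R2.N2.Stm3

set_option autoImplicit false

namespace Pool.Agent.H72R2.N2

open PowerSeries Pool.Agent.Helper168.NottDefs Topology
open scoped commutatorElement

theorem T_KB (F : Facts) (z : S_Z) (k : S_K) (x : S_XX) : S_KB := by
  intro n X hn
  have H : Ext.Hyp n := F.hyp (by omega)
  have hT : X.Tr (n + 1) := Ext.tr_succ H
  -- the chain
  have key : ∀ i : ℕ, 1 ≤ i → i ≤ n →
      X.D (aa (2 * i + 1)) (aa (2 * (n + 1 - i) + 1)) = X.D (aa 3) (aa (2 * n + 1)) := by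
    intro i hi
    induction i, hi using Nat.le_induction with
    | base =>
      intro _
      rw [show n + 1 - 1 = n by omega]
    | succ i hi ih =>
      intro hin
      rw [← ih (by omega)]
      have h1 := k n X (n + 1) hn (Or.inr rfl) hT i (n - i) hi (by omega) (by omega)
      rw [show 2 * (i + 1) + 1 = 2 * i + 3 by ring, show n + 1 - (i + 1) = n - i by omega,
        show 2 * (n + 1 - i) + 1 = 2 * (n - i) + 3 by omega]
      exact h1
  rcases Nat.even_or_odd n with he | ho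
  · obtain ⟨m, hm⟩ := he
    have hm2 : n = 2 * m := by omega
    have h1 := x n X m hn (Or.inr (by omega)) (by rw [← hm2]; exact hT)
    have h2 : X.D (aa 1) (aa (4 * m + 2)) = 0 :=
      Ext.D_eq_zero (Ext.C_one_right X (F.mem.1 _ _ (by omega) (by omega)) _)
    rw [← key (m - 1) (by omega) (by omega), show 2 * (m - 1) + 1 = 2 * m - 1 by omega,
      show 2 * (n + 1 - (m - 1)) + 1 = 2 * m + 5 by omega, ← h1, h2]
  · obtain ⟨j, hj⟩ : ∃ j, n = j + 4 := ⟨n - 4, by omega⟩
    have m1 : aa 9 ∈ E 4 := F.mem.1 _ _ (by omega) (by omega)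
    have m2 : aa (2 * j + 1) ∈ E j := F.mem.1 _ _ (by omega) (by omega)
    have m3 : aa 10 ∈ E 5 := F.mem.1 _ _ (by omega) (by omega)
    have m4 : aa 11 ∈ E 5 := F.mem.1 _ _ (by omega) (by omega)
    have m5 : aa (2 * j + 2) ∈ E (j + 1) := F.mem.1 _ _ (by omega) (by omega)
    have m6 : aa (2 * j + 3) ∈ E (j + 1) := F.mem.1 _ _ (by omega) (by omega)
    have a1 : X.good (aa 10) (aa (2 * j + 1)) :=
      Ext.good_lev H (i := 5) (j := j) (by omega) (by omega) m3 m2 (by omega)
    have a2 : X.good (aa 11) (aa (2 * j + 1)) :=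
      Ext.good_lev H (i := 5) (j := j) (by omega) (by omega) m4 m2 (by omega)
    have a3 : X.good (aa 9) (aa (2 * j + 2)) :=
      Ext.good_lev H (i := 4) (j := j + 1) (by omega) (by omega) m1 m5 (by omega)
    have a4 : X.good (aa 9) (aa (2 * j + 3)) :=
      Ext.good_lev H (i := 4) (j := j + 1) (by omega) (by omega) m1 m6 (by omega)
    have m7 : aa 10 * aa 11 ^ 4 ∈ E 5 := (E 5).mul_mem m3 ((E 5).pow_mem m4 4)
    have m8 : aa (2 * j + 2) * aa (2 * j + 3) ^ j ∈ E (j + 1) :=
      (E (j + 1)).mul_mem m5 ((E (j + 1)).pow_mem m6 j)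
    have c3 : X.C (aa 10 * aa 11 ^ 4) (aa (2 * j + 2) * aa (2 * j + 3) ^ j) = 1 :=
      hT 5 (j + 1) _ _ (by omega) (by omega) (by omega) m7 m8
    have b1 := F.b2 4 (by omega)
    have b2 := F.b2 j (by omega)
    rw [mul_assoc (aa (2 * 4 + 1))] at b1
    rw [mul_assoc (aa (2 * j + 1))] at b2
    obtain ⟨-, hD⟩ := Ext.move hT (i := 4) (j := j) (s := 6) (t := j + 2) (y := oo 1) (g := aa 9)
      (h := aa (2 * j + 1)) (g1 := aa 10 * aa 11 ^ 4) (h1 := aa (2 * j + 2) * aa (2 * j + 3) ^ j)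
      m1 m2 (E_anti (by omega) m7) (by omega) (by omega) (by omega) (by omega) b1 b2
      (by omega) (by omega) (a1.mul_left (a2.pow_left 4)) (a3.mul_right (a4.pow_right j))
      (Ext.good_of_one c3)
    have z1 : X.D (oo 1) ⁅aa 9, aa (2 * j + 1)⁆ = 0 :=
      Ext.D_eq_zero (Ext.C_one_right X (F.c2 _ _ _ (by omega) (by omega) (by omega) (by omega)) _)
    have z2 : X.D (aa 10) (aa (2 * j + 1)) = 0 := by
      refine Ext.D_eq_zero (z n X (n + 1) hn (Or.inr rfl) hT 5 _ (by omega) (by omega) ?_)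
      rw [show n + 1 - 5 = j by omega]
      exact m2
    have z3 : X.D (aa 9) (aa (2 * j + 2)) = 0 := by
      rw [Ext.D_swap, show 2 * j + 2 = 2 * (j + 1) by ring]
      refine Ext.D_eq_zero (z n X (n + 1) hn (Or.inr rfl) hT (j + 1) _ (by omega) (by omega) ?_)
      rw [show n + 1 - (j + 1) = 4 by omega]
      exact m1
    have e1 : X.D (aa 11) (aa (2 * j + 1)) = X.D (aa 3) (aa (2 * n + 1)) := by
      rw [← key 5 (by omega) (by omega), show n + 1 - 5 = j by omega]
    have e2 : X.D (aa 9) (aa (2 * j + 3)) = X.D (aa 3) (aa (2 * n + 1)) := by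
      rw [← key 4 (by omega) (by omega), show 2 * (n + 1 - 4) + 1 = 2 * j + 3 by omega]
    rw [z1, Ext.D_mul_left a1 (a2.pow_left 4), Ext.D_pow_left a2, Ext.D_mul_right a3 (a4.pow_right j),
      Ext.D_pow_right a4, Ext.D_eq_zero c3, z2, z3, e1, e2] at hD
    have h4 : ((4 : ℕ) : ZMod 2) = 0 := by decide
    have hj1 : ((j : ℕ) : ZMod 2) = 1 := by
      have : Odd j := by
        rw [hj] at ho
        rcases ho with ⟨a, ha⟩
        exact ⟨a - 2, by omega⟩
      exact (ZMod.natCast_eq_one_iff_odd).mpr this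
    rw [h4, hj1, zero_smul, one_smul, zero_add, zero_add, add_zero, zero_add] at hD
    exact hD.symm

end Pool.Agent.H72R2.N2
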