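import Mathlib
import Pool.Agent.H72R2.N2.Stm3

set_option autoImplicit false

namespace Pool.Agent.H72R2.N2

open PowerSeries Pool.Agent.Helper168.NottDefs Topology
open scoped commutatorElement

theorem T_O2 (F : Facts) (p : S_P) (d : S_D0) : S_O2 := by
  intro n X m hn hnm hT
  have H := F.hyp (n := n) (by omega)
  obtain ⟨i, rfl⟩ : ∃ i, m = i + 2 := ⟨m - 2, by omega⟩
  have hi : 8 ≤ i := by omega
  -- membership
  have hg : aa (2 * i + 1) ∈ E i := F.mem.1 _ _ (by omega) (by omega)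
  have hh : oo (i + 3) ∈ E (i + 2) := F.mem.2 _ _ (by omega) (by omega)
  have ha : aa (2 * i + 4) ∈ E (i + 2) := F.mem.1 _ _ (by omega) (by omega)
  have hb : aa (2 * i + 7) ∈ E (i + 3) := F.mem.1 _ _ (by omega) (by omega)
  have hc : oo (i + 6) ∈ E (i + 5) := F.mem.2 _ _ (by omega) (by omega)
  have hbp : aa (2 * i + 7) ^ i ∈ E (i + 2) := (E (i + 2)).pow_mem (E_anti (by omega) hb) _
  have hg1 : aa (2 * i + 4) * aa (2 * i + 7) ^ i ∈ E (i + 2) := (E (i + 2)).mul_mem ha hbp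
  have hh1 : oo (i + 6) ^ (i + 3) ∈ E (i + 5) := (E (i + 5)).pow_mem hc _
  -- goodness
  have ga : X.good (aa (2 * i + 4)) (oo (i + 3)) := by
    refine Ext.good_of H (E_anti ?_ (F.c1 (i + 2) (i + 2) (oo (i + 3)) (by omega) (by omega) hh))
    omega
  have gb : X.good (aa (2 * i + 7)) (oo (i + 3)) :=
    Ext.good_lev H (by omega) (by omega) hb hh (by omega)
  have gc : X.good (aa (2 * i + 1)) (oo (i + 6)) :=
    Ext.good_lev H (by omega) (by omega) hg hc (by omega)
  have g3 : X.good (aa (2 * i + 4) * aa (2 * i + 7) ^ i) (oo (i + 6) ^ (i + 3)) :=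
    Ext.good_lev H (by omega) (by omega) hg1 hh1 (by omega)
  have cg := F.d2 i (by omega)
  have ch := F.d3 (i + 3) (by omega)
  have cg' : CongE (i + 4) (oo 2 * aa (2 * i + 1))
      (aa (2 * i + 1) * (aa (2 * i + 4) * aa (2 * i + 7) ^ i) * oo 2) := by
    rw [← mul_assoc (aa (2 * i + 1))]
    exact cg
  have ch' : CongE (i + 6) (oo 2 * oo (i + 3)) (oo (i + 3) * oo (i + 6) ^ (i + 3) * oo 2) := ch
  have hm := Ext.move hT (y := oo 2) hg hh (E_anti (by omega) hg1) (by omega) (by omega) (by omega)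
    (by omega) cg' ch' (by omega) (by omega) (ga.mul_left (gb.pow_left _)) (gc.pow_right _) g3
  have h0 : X.D (aa (2 * i + 4) * aa (2 * i + 7) ^ i) (oo (i + 6) ^ (i + 3)) = 0 :=
    Ext.D_eq_zero (hT (i + 2) (i + 5) _ _ (by omega) (by omega) (by omega) hg1 hh1)
  have hcomm : X.D (oo 2) ⁅aa (2 * i + 1), oo (i + 3)⁆ = X.D (oo 2) (aa (4 * (i + 2) - 2)) := by
    have h4 := F.c4 (2 * i + 1) (i + 3) (n + 1) (by exact ⟨i, rfl⟩) (by omega) (by omega)
      (by omega) (by omega)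
    have e : 2 * i + 1 + 2 * (i + 3) - 1 = 4 * (i + 2) - 2 := by omega
    rw [e] at h4
    unfold Ext.D
    rw [Ext.C_congr_top h4]
  have hp := p n X (i + 2) hn hnm hT
  have e2 : 2 * (i + 2) = 2 * i + 4 := by ring
  rw [e2] at hp
  have hp' : X.D (aa (2 * i + 4)) (oo (i + 3)) = 0 := hp
  rw [← hcomm, hm.2, h0, Ext.D_mul_left ga (gb.pow_left _), hp', Ext.D_pow_left gb,
    Ext.D_pow_right gc, zero_add, add_zero]
  rcases Nat.even_or_odd i with he | ho
  · have h1 : ((i : ℕ) : ZMod 2) = 0 := (ZMod.natCast_eq_zero_iff_even).2 he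
    have h2 := d n X (i + 2) hn hnm hT i (i + 4) (by omega) (by omega) (by omega) he
    rw [h2]
    push_cast
    rw [h1]
    simp only [zero_smul, zero_add]
    have e3 : (3 : ZMod 2) = 1 := by decide
    rw [e3, one_smul]
  · have h1 : ((i : ℕ) : ZMod 2) = 1 := (ZMod.natCast_eq_one_iff_odd).2 ho
    have h2 := d n X (i + 2) hn hnm hT (i + 3) (i + 1) (by omega) (by omega) (by omega)
      (ho.add_odd ⟨1, rfl⟩)
    rw [h2]
    push_cast
    rw [h1]
    have e3 : (1 + 3 : ZMod 2) = 0 := by decide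
    rw [e3, zero_smul, one_smul, add_zero]
    have e4 : 2 * (i + 3) + 1 = 2 * i + 7 := by ring
    rw [e4]

end Pool.Agent.H72R2.N2
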