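import Mathlib
import Pool.Agent.H72R2.N2.Stm3

set_option autoImplicit false

/-! Task T_P. -/

namespace Pool.Agent.H72R2.N2

open PowerSeries Pool.Agent.Helper168.NottDefs Topology
open scoped commutatorElement
open Ext

theorem T_P (F : Facts) (z : S_Z) (ff : S_FF) : S_P := by
  intro n X m hn hnm hT
  subst hnm
  have H : Hyp (2 * m + 1) := F.hyp (by omega)
  have mg : aa (2 * m) ∈ E m := F.mem.1 _ _ (by omega) (by omega)
  have mh : oo m ∈ E (m - 1) := F.mem.2 _ _ (by omega) (by omega)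
  have mg1' : aa (2 * m + 4) ∈ E (m + 2) := F.mem.1 _ _ (by omega) (by omega)
  have mg1 : aa (2 * m + 4) ^ m ∈ E (m + 2) := (E (m + 2)).pow_mem mg1' m
  have mo : oo (m + 1) ∈ E m := F.mem.2 _ _ (by omega) (by omega)
  have ma : aa (2 * m + 1) ∈ E m := F.mem.1 _ _ (by omega) (by omega)
  have mh1 : oo (m + 1) * aa (2 * m) * aa (2 * m + 1) ∈ E m :=
    (E m).mul_mem ((E m).mul_mem mo mg) ma
  have gd : ∀ h : J, h ∈ E m → X.good (aa (2 * m)) h := by
    intro h hh
    have h1 := F.c1 m m h (by omega) (by omega) hh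
    exact good_of H (E_anti (by omega) h1)
  have cg := F.d1 m (by omega)
  have ch : CongE (m + 1) (aa 1 * oo m)
      (oo m * (oo (m + 1) * aa (2 * m) * aa (2 * m + 1)) * aa 1) := by
    have h1 := F.b6 (m - 1) (by omega)
    rw [show m - 1 + 2 = m + 1 by omega, show m - 1 + 1 = m by omega,
      show 2 * (m - 1) + 2 = 2 * m by omega, show 2 * (m - 1) + 3 = 2 * m + 1 by omega] at h1
    simpa only [mul_assoc] using h1
  have key := move_gen (X := X) cg ch (fun w hw =>
      hT (m + 3) (m - 1) w _ (by omega) (by omega) (by omega) hw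
        ((E_normal (m - 1)).conj_mem _ mh _))
    (fun w hw => by
      have h1 : X.C (aa (2 * m)) w = 1 :=
        z (2 * m + 1) X (2 * m + 1) hn (Or.inl rfl) hT m w (by omega) (by omega)
          (by rw [show 2 * m + 1 - m = m + 1 by omega]; exact hw)
      have h2 : X.C (aa (2 * m + 4) ^ m) w = 1 :=
        hT (m + 2) (m + 1) _ w (by omega) (by omega) (by omega) mg1 hw
      rw [C_mul_left (good_of_one h2), h1, h2, mul_one])
    (good_lev H (by omega) (by omega) mg1 mh (by omega))
    (gd _ mh1)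
    (good_lev H (by omega) (by omega) mg1 mh1 (by omega))
  have k0 : X.D (aa 1) ⁅aa (2 * m), oo m⁆ = 0 :=
    D_eq_zero (C_one_right X
      (F.c6 (2 * m) m (2 * m + 1 + 1) (even_two_mul m) (by omega) (by omega) (by omega)
        (by omega)) _)
  have k1 : X.D (aa (2 * m + 4) ^ m) (oo m) = 0 := by
    have h1 : X.C (aa (2 * (m + 2))) (oo m) = 1 :=
      z (2 * m + 1) X (2 * m + 1) hn (Or.inl rfl) hT (m + 2) (oo m) (by omega) (by omega)
        (by rw [show 2 * m + 1 - (m + 2) = m - 1 by omega]; exact mh)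
    rw [show 2 * (m + 2) = 2 * m + 4 by ring] at h1
    rw [D_pow_left (good_of_one h1), D_eq_zero h1, smul_zero]
  have k2 : X.D (aa (2 * m + 4) ^ m) (oo (m + 1) * aa (2 * m) * aa (2 * m + 1)) = 0 :=
    D_eq_zero (hT (m + 2) m _ _ (by omega) (by omega) (by omega) mg1 mh1)
  have k3 : X.D (aa (2 * m)) (aa (2 * m + 1)) = 0 := by
    have h1 := (ff (2 * m + 1) X (2 * m + 1) hn (Or.inl rfl) hT (m - 1) m (by omega) (by omega)
      (by omega)).2
    rw [show 2 * (m - 1) + 3 = 2 * m + 1 by omega] at h1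
    rw [D_swap]
    exact h1
  have k4 : X.D (aa (2 * m)) (oo (m + 1) * aa (2 * m) * aa (2 * m + 1)) =
      X.D (aa (2 * m)) (oo (m + 1)) := by
    rw [D_mul_right ((gd _ mo).mul_right (gd _ mg)) (gd _ ma), D_mul_right (gd _ mo) (gd _ mg),
      D_self, k3, add_zero, add_zero]
  have key2 := key.2
  rw [k0, k1, k2, k4, zero_add, add_zero] at key2
  exact key2.symm

end Pool.Agent.H72R2.N2
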