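import Mathlib
import Pool.Agent.H72R2.N2.Stm3

set_option autoImplicit false

/-! Task T_R6 (helper218). -/

namespace Pool.Agent.H72R2.N2

open PowerSeries Pool.Agent.Helper168.NottDefs Topology
open scoped commutatorElement
open Ext

theorem R6_comm (F : Facts) {s : ℕ} {y g w : J} (hw : w ∈ E (s - 1)) (hs : 1 ≤ s)
    (h : CongE s (y * g) (g * w * y)) : CongE s ⁅y, g⁆ w := by
  refine comm_cong (h.trans ?_)
  have h1 : CongE s (g * w) (w * g) := by
    rw [congE_iff]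
    have h2 : ⁅w, g⁆ ∈ E (s - 1 + 1) := F.commt (s - 1) w g hw
    rw [show s - 1 + 1 = s by omega] at h2
    have h3 := (E s).inv_mem h2
    have e : g * w * (w * g)⁻¹ = ⁅w, g⁆⁻¹ := by rw [commutatorElement_def]; group
    rw [e]; exact h3
  have h2 := h1.mul (CongE.refl s y)
  rwa [mul_assoc w g y] at h2

theorem R6_good (F : Facts) {n : ℕ} {X : Ext n} (hn : 1 ≤ n) {k l : ℕ} (hk : 1 ≤ k) (hl : 1 ≤ l)
    (hkl : k + l = n + 2) : X.good (oo k) (oo l) :=
  good_of (F.hyp hn) (F.c3 k l (n + 1) hk hl (by omega) (by omega))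

theorem R6_step (F : Facts) {n : ℕ} {X : Ext n} (hn : 20 ≤ n) (hT : X.Tr n) {k l : ℕ} (hk : 2 ≤ k)
    (hl : 2 ≤ l) (hkl : k + l = n) : X.D (oo (k + 2)) (oo l) = X.D (oo k) (oo (l + 2)) := by
  have H : Hyp n := F.hyp (by omega)
  have mk' : oo k ∈ E (k - 1) := F.mem.2 _ _ (by omega) (by omega)
  have ml : oo l ∈ E (l - 1) := F.mem.2 _ _ (by omega) (by omega)
  have mk2 : oo (k + 2) ∈ E (k + 1) := F.mem.2 _ _ (by omega) (by omega)
  have ml2 : oo (l + 2) ∈ E (l + 1) := F.mem.2 _ _ (by omega) (by omega)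
  have c3 : X.C (oo (k + 2)) (oo (l + 2)) = 1 :=
    hT (k + 1) (l + 1) _ _ (by omega) (by omega) (by omega) mk2 ml2
  have key := move (X := X) hT mk' ml (E_anti (by omega) mk2) (by omega) (by omega)
    (by omega : 1 ≤ k + 2) (by omega : 1 ≤ l + 2) (F.d6 k hk) (F.d6 l hl) (by omega) (by omega)
    (R6_good F (by omega) (by omega) (by omega) (by omega))
    (R6_good F (by omega) (by omega) (by omega) (by omega)) (good_of_one c3)
  have h0 : X.D (aa 2) ⁅oo k, oo l⁆ = 0 :=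
    D_eq_zero (hT 1 n _ _ (by omega) (by omega) (by omega) (F.mem.1 2 1 (by omega) (by omega))
      (F.c3 k l n (by omega) (by omega) (by omega) (by omega)))
  rw [h0, D_eq_zero c3, add_zero] at key
  have h1 := congrArg (fun v => v + X.D (oo k) (oo (l + 2))) key.2
  simp only [zero_add] at h1
  rw [add_assoc, X.V_add_self, add_zero] at h1
  exact h1.symm

theorem R6_all (F : Facts) {n : ℕ} {X : Ext n} (hn : 20 ≤ n) (hT : X.Tr n) (ho : Odd n) (j : ℕ)
    (hj : 2 * j + 3 ≤ n) : X.D (oo (2 * j + 3)) (oo (n - 1 - 2 * j)) = X.D (oo 3) (oo (n - 1)) := by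
  induction j with
  | zero => simp
  | succ j ih =>
    rw [← ih (by omega)]
    have h1 := R6_step F (X := X) hn hT (k := 2 * j + 3) (l := n - (2 * j + 3)) (by omega)
      (by rcases ho with ⟨m, hm⟩; omega) (by omega)
    rw [show 2 * (j + 1) + 3 = 2 * j + 3 + 2 by ring,
      show n - 1 - 2 * (j + 1) = n - (2 * j + 3) by omega,
      show n - 1 - 2 * j = n - (2 * j + 3) + 2 by omega]
    exact h1

theorem R6_one (F : Facts) {n : ℕ} {X : Ext n} (hn : 20 ≤ n) (hT : X.Tr n) (ho : Odd n) :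
    X.D (oo n) (oo 2) = X.D (oo 1) (oo (n + 1)) := by
  have H : Hyp n := F.hyp (by omega)
  have hn1 : oo n ∈ E (n - 1) := F.mem.2 _ _ (by omega) (by omega)
  have hc : ⁅oo n, oo 1⁆ ∈ E n := by
    have := F.commt (n - 1) (oo n) (oo 1) hn1
    rwa [show n - 1 + 1 = n by omega] at this
  have h1 := D_sq (X := X) (y := oo n) (g := oo 1) (good_top' H hc)
    (Q_mem H (m := n) (by omega) (by omega) hc)
  have h2 : X.Qv ⁅oo n, oo 1⁆ = 0 :=
    Qv_zero H hT (m := n - 1) (by omega) (by omega) (by omega)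
      (by rw [show n - 1 + 1 = n by omega]; exact hc)
  have h3 := h1.2
  rw [h2, add_zero, F.c5.2.2.1] at h3
  rw [h3]
  have hw : oo (n + 1) ^ n ∈ E n := (E n).pow_mem (F.mem.2 _ _ (by omega) (by omega)) n
  have h4 : CongE (n + 1) ⁅oo 1, oo n⁆ (oo (n + 1) ^ n) := by
    refine R6_comm F (by simpa using hw) (by omega) ?_
    have := F.b3 (n - 1) (by omega)
    rwa [show n - 1 + 2 = n + 1 by omega, show n - 1 + 1 = n by omega] at this
  have hc' : ⁅oo 1, oo n⁆ ∈ E n := by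
    rw [← commutatorElement_inv]; exact (E n).inv_mem hc
  have h5 : X.D (oo 1) ⁅oo n, oo 1⁆ = X.D (oo 1) ⁅oo 1, oo n⁆ := by
    rw [← commutatorElement_inv, D_swap, D_swap (g := oo 1)]
    exact (C_inv_left (good_top H hc')).2
  rw [h5]
  have h6 : X.D (oo 1) ⁅oo 1, oo n⁆ = X.D (oo 1) (oo (n + 1) ^ n) := by
    unfold D; rw [C_congr_top h4]
  rw [h6, D_pow_right (good_top' H (F.mem.2 _ _ (by omega) (by omega)))]
  rw [(ZMod.natCast_eq_one_iff_odd).2 ho, one_smul]

theorem R6_sq (F : Facts) {n : ℕ} {X : Ext n} (hn : 20 ≤ n) (hT : X.Tr n) {y : J} {k p e : ℕ}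
    (hy : y ∈ E 1) (hk : 2 ≤ k) (hk2 : n + 2 ≤ 3 * k) (hkp : k + p = n + 2) (he : Odd e)
    (hpn : n + 5 ≤ 2 * p)
    (hyk : ⁅y, oo k⁆ ∈ E (p - 1)) (hc : CongE p (y * oo k) (oo k * oo p ^ e * y)) :
    X.D (oo k) (oo p) = 0 := by
  have H : Hyp n := F.hyp (by omega)
  have mk' : oo k ∈ E (k - 1) := F.mem.2 _ _ (by omega) (by omega)
  have mp : oo p ∈ E (p - 1) := F.mem.2 _ _ (by omega) (by omega)
  have h0 : X.D y (oo k * oo k) = 0 :=
    D_eq_zero (hT 1 n _ _ (by omega) (by omega) (by omega) hy (F.c5.2.1 k n (by omega) hk2))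
  have h1 := D_sq (X := X) (y := y) (g := oo k)
    (good_lev H (by omega : 1 ≤ k - 1) (by omega : 1 ≤ p - 1) mk' hyk (by omega))
    (Q_mem H (m := p - 1) (by omega) (by omega) hyk)
  have h2 : X.Qv ⁅y, oo k⁆ = 0 :=
    Qv_zero H hT (m := p - 2) (by omega) (by omega) (by omega)
      (by rw [show p - 2 + 1 = p - 1 by omega]; exact hyk)
  have h3 := h1.2
  rw [h2, add_zero, h0] at h3
  have h4 : CongE p ⁅y, oo k⁆ (oo p ^ e) :=
    R6_comm F ((E (p - 1)).pow_mem mp e) (by omega) hc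
  have h5 : X.C (oo k) ⁅y, oo k⁆ = X.C (oo k) (oo p ^ e) :=
    C_congrE_right hT h4 mk' (by omega) (by omega) (by omega)
  have h6 : X.D (oo k) ⁅y, oo k⁆ = X.D (oo k) (oo p ^ e) := by unfold D; rw [h5]
  rw [h6, D_pow_right (R6_good F (by omega) (by omega) (by omega) hkp),
    (ZMod.natCast_eq_one_iff_odd).2 he, one_smul] at h3
  exact h3.symm

theorem T_R6 (F : Facts) : S_R6 := by
  intro n X hn ho hT
  rw [← R6_one F hn hT ho]
  obtain ⟨m, hm⟩ := ho
  have hall := R6_all F (X := X) hn hT ⟨m, hm⟩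
  have e1 : X.D (oo n) (oo 2) = X.D (oo 3) (oo (n - 1)) := by
    have := hall (m - 1) (by omega)
    rwa [show 2 * (m - 1) + 3 = n by omega, show n - 1 - 2 * (m - 1) = 2 by omega] at this
  rw [e1]
  rcases Nat.even_or_odd m with he | ho'
  · obtain ⟨i, hi⟩ := he
    have h1 := hall (i - 2) (by omega)
    rw [← h1]
    rw [show 2 * (i - 2) + 3 = m - 1 by omega, show n - 1 - 2 * (i - 2) = m + 4 by omega]
    refine R6_sq F (y := oo 3) (e := m - 1) hn hT (F.mem.2 3 1 (by omega) (by omega)) (by omega) (by omega)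
      (by omega) ⟨i - 1, by omega⟩ (by omega) ?_ ?_
    · exact F.c3 3 (m - 1) _ (by omega) (by omega) (by omega) (by omega)
    · have := F.d7 (m - 1) (by omega)
      rwa [show m - 1 + 5 = m + 4 by omega] at this
  · obtain ⟨i, hi⟩ := ho'
    have h1 := hall (i - 1) (by omega)
    rw [← h1]
    rw [show 2 * (i - 1) + 3 = m by omega, show n - 1 - 2 * (i - 1) = m + 3 by omega]
    refine R6_sq F (y := oo 2) (e := m) hn hT (F.mem.2 2 1 (by omega) (by omega)) (by omega) (by omega)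
      (by omega) ⟨i, by omega⟩ (by omega) ?_ ?_
    · exact F.c3 2 m _ (by omega) (by omega) (by omega) (by omega)
    · exact F.d3 m (by omega)

end Pool.Agent.H72R2.N2
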