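import Mathlib
import Pool.Agent.H72R2.N2.Stm3

set_option autoImplicit false

namespace Pool.Agent.H72R2.N2

open PowerSeries Pool.Agent.Helper168.NottDefs Topology
open scoped commutatorElement

theorem T_RE (F : Facts) : S_RE := by
  intro n X hn hev
  have H : Ext.Hyp n := F.hyp (by omega)
  obtain ⟨m, rfl⟩ := hev
  have hm : 10 ≤ m := by omega
  have hT : X.Tr (m + m + 1) := Ext.tr_succ H
  have h1 : X.C (aa 1) (aa (m + m) * aa (m + m)) = X.C (aa 1) (aa (2 * (m + m))) :=
    Ext.C_congr_top (F.c5.1 (m + m) (m + m + 1) (by omega) (by omega))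
  have h2 : X.D (aa 1) (aa (2 * (m + m))) = X.D (aa 1) (aa (m + m) * aa (m + m)) := by
    unfold Ext.D
    rw [h1]
  have h3 : ⁅aa 1, aa (m + m)⁆ ∈ E (m + 2) := by
    have h4 := F.b4 m (by omega)
    rw [show 2 * m = m + m by ring] at h4
    refine comm_cong (w := 1) ?_
    rw [one_mul]
    exact h4
  have h5 : aa (m + m) ∈ E m := F.mem.1 (m + m) m (by omega) (by omega)
  have h6 : X.C (aa (m + m)) ⁅aa 1, aa (m + m)⁆ = 1 :=
    hT m (m + 2) _ _ (by omega) (by omega) (by omega) h5 h3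
  have h7 : ⁅aa 1, aa (m + m)⁆ ∈ E (m + 1) := E_anti (by omega) h3
  have h8 := Ext.Q_mem (X := X) H (m := m + 1) (by omega) (by omega) h7
  have h9 := Ext.Qv_zero H hT (m := m + 1) (by omega) (by omega) (by omega) h3
  have h10 := (Ext.D_sq (Ext.good_of_one h6) h8).2
  rw [h2, h10, h9, Ext.D_eq_zero h6, add_zero]

end Pool.Agent.H72R2.N2
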