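import Mathlib
import Pool.Agent.H72R2.N2.Stm3

set_option autoImplicit false

namespace Pool.Agent.H72R2.N2

open PowerSeries Pool.Agent.Helper168.NottDefs Topology
open scoped commutatorElement

theorem T_RO (F : Facts) (x : S_XX) (o : S_O2) (s : S_SS) : S_RO := by
  intro n X hn hodd hT
  obtain ⟨m, rfl⟩ := hodd
  have h1 := x (2 * m + 1) X m hn (Or.inl rfl) hT
  have h2 := o (2 * m + 1) X m hn rfl hT
  obtain ⟨-, h3, h4⟩ := s (2 * m + 1) X m hn rfl hT
  have e : 2 * (2 * m + 1) = 4 * m + 2 := by ring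
  rw [e] at h2 h3 ⊢
  rw [h1] at h3 ⊢
  rw [h2, h3, add_smul, one_smul] at h4
  have h5 := add_left_cancel h4
  exact (left_eq_add.1 h5)

end Pool.Agent.H72R2.N2
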