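import Mathlib
import Pool.Agent.H72R2.N2.Stm3

set_option autoImplicit false

/-! The squares: proof of `S_SS`. -/

namespace Pool.Agent.H72R2.N2

open PowerSeries Pool.Agent.Helper168.NottDefs Topology
open scoped commutatorElement

/-- from `y g ≡ g g1 y` to the commutator -/
theorem SS_comm {s : ℕ} {y g g1 : J} (h : CongE s (y * g) (g * g1 * y)) (hd : ⁅g, g1⁆ ∈ E s) :
    CongE s ⁅y, g⁆ g1 := by
  have h1 := (conj_cong h).mul (CongE.refl s g⁻¹)
  have e1 : y * g * y⁻¹ * g⁻¹ = ⁅y, g⁆ := (commutatorElement_def y g).symm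
  have e2 : g * g1 * g⁻¹ = ⁅g, g1⁆ * g1 := by rw [commutatorElement_def]; group
  rw [e1, e2] at h1
  have h2 := (mem_E.1 hd).mul (CongE.refl s g1)
  rw [one_mul] at h2
  exact h1.trans h2

theorem SS_mem {s : ℕ} {g h : J} (hc : CongE s g h) (hh : h ∈ E s) : g ∈ E s :=
  hc.trans hh

namespace Ext

variable {n : ℕ} {X : Ext n}

theorem SS_Qv_pow (H : Hyp n) {L m : ℕ} (hT : X.Tr L) (hm : 1 ≤ m) (hL : L + 1 ≤ 2 * m)
    (hn : n + 1 ≤ 2 * m) {w : J} (hw : w ∈ E m) (k : ℕ) :
    X.Qv (w ^ k) = (k : ZMod 2) • X.Qv w := by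
  induction k with
  | zero =>
    rw [pow_zero, Qv_zero H hT hm hL hn (one_mem _)]
    simp
  | succ k ih =>
    rw [pow_succ, Q_mul H hT hm hL hn ((E m).pow_mem hw k) hw, ih]
    push_cast
    rw [add_smul, one_smul]

/-- The general form of the square relation. -/
theorem SS_gen (H : Hyp n) {m : ℕ} (hT : X.Tr n) (hnm : n = 2 * m + 1)
    {y g g1 h : J} {i : ℕ} (hi : 1 ≤ i) (him : i ≤ m) (hmi : m ≤ 2 * i) (hg : g ∈ E i) (hg1 : g1 ∈ E (m + 1))
    (hc : CongE (n + 1 - i) (y * g) (g * g1 * y)) (hgood : X.good g g1)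
    (hsq : CongE (n + 1) (g * g) h) :
    X.D y h = X.D g g1 + X.Qv g1 := by
  have hd : ⁅g, g1⁆ ∈ E (n + 1 - i) := E_anti (by omega) (H.comm i (m + 1) g g1 hi (by omega) hg hg1)
  have h1 : CongE (n + 1 - i) ⁅y, g⁆ g1 := SS_comm hc hd
  have hmem : ⁅y, g⁆ ∈ E (m + 1) := SS_mem (h1.mono (by omega)) hg1
  have hC : X.C g ⁅y, g⁆ = X.C g g1 :=
    C_congrE_right hT h1 hg (by omega) hi (by omega)
  have hgood' : X.good g ⁅y, g⁆ := by
    unfold good
    rw [hC]
    exact hgood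
  have hq := Q_mem (X := X) H (m := m + 1) (by omega) (by omega) hmem
  have h2 := (D_sq hgood' hq).2
  have h3 : X.D y (g * g) = X.D y h := by
    unfold D
    rw [C_congr_top hsq]
  have h4 : X.D g ⁅y, g⁆ = X.D g g1 := by
    unfold D
    rw [hC]
  have h5 : X.Qv ⁅y, g⁆ = X.Qv g1 :=
    Qv_congr H hT (m := m + 1) (by omega) (by omega) (by omega) hg1 (h1.mono (by omega))
  rw [h3, h4, h5] at h2
  exact h2

end Ext

open Ext in
theorem T_SS (F : Facts) (z : S_Z) (ff : S_FF) : S_SS := by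
  intro n X m hn20 hnm hT
  have H : Ext.Hyp n := F.hyp (by omega)
  have hmn : aa n ∈ E m := F.mem.1 n m (by omega) (by omega)
  have hmn1 : aa (n + 1) ∈ E (m + 1) := F.mem.1 (n + 1) (m + 1) (by omega) (by omega)
  have hmn2 : aa (n + 2) ∈ E (m + 1) := F.mem.1 (n + 2) (m + 1) (by omega) (by omega)
  have hsq : CongE (n + 1) (aa n * aa n) (aa (2 * n)) := F.c5.1 n (n + 1) (by omega) (by omega)
  have hgd2 : X.good (aa n) (aa (n + 2)) :=
    good_lev H (i := m) (j := m + 1) (by omega) (by omega) hmn hmn2 (by omega)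
  -- first part
  have p1 : X.D (aa 1) (aa (2 * n)) = X.D (aa n) (aa (n + 2)) + X.Qv (aa (n + 2)) := by
    refine SS_gen H hT hnm (i := m) (by omega) le_rfl (by omega) hmn hmn2 ?_ hgd2 hsq
    have := F.b5 m (by omega)
    rw [← hnm, show 2 * m + 3 = n + 2 by omega] at this
    exact this.mono (by omega)
  -- second part
  have hz : X.C (aa (n + 1)) (aa n) = 1 := by
    have := z n X n hn20 (Or.inl rfl) hT (m + 1) (aa n) (by omega) (by omega)
      (by rw [show n - (m + 1) = m by omega]; exact hmn)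
    rwa [show 2 * (m + 1) = n + 1 by omega] at this
  have hgd1 : X.good (aa n) (aa (n + 1)) := (good_of_one hz).swap
  have hD1 : X.D (aa n) (aa (n + 1)) = 0 := by rw [D_swap]; exact D_eq_zero hz
  have p2 : X.D (oo 1) (aa (2 * n)) =
      X.Qv (aa (n + 1)) + (m : ZMod 2) • X.D (aa 1) (aa (2 * n)) := by
    have h1 : X.D (oo 1) (aa (2 * n)) = X.D (aa n) (aa (n + 1) * aa (n + 2) ^ m) +
        X.Qv (aa (n + 1) * aa (n + 2) ^ m) := by
      refine SS_gen H hT hnm (i := m) (by omega) le_rfl (by omega) hmn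
        ((E (m + 1)).mul_mem hmn1 ((E (m + 1)).pow_mem hmn2 m)) ?_
        (hgd1.mul_right (hgd2.pow_right m)) hsq
      have := F.b2 m (by omega)
      rw [← hnm, show 2 * m + 2 = n + 1 by omega, show 2 * m + 3 = n + 2 by omega] at this
      rw [← mul_assoc]
      exact this.mono (by omega)
    rw [h1, D_mul_right hgd1 (hgd2.pow_right m), hD1, D_pow_right hgd2,
      Q_mul H hT (m := m + 1) (by omega) (by omega) (by omega) hmn1 ((E (m + 1)).pow_mem hmn2 m),
      SS_Qv_pow H hT (m := m + 1) (by omega) (by omega) (by omega) hmn2, p1, smul_add]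
    abel
  refine ⟨p1, p2, ?_⟩
  -- third part
  obtain ⟨k, hk⟩ : ∃ k, m = k + 1 := ⟨m - 1, by omega⟩
  have hmg : aa (2 * m - 1) ∈ E k := F.mem.1 _ _ (by omega) (by omega)
  have hm5' : aa (2 * m + 5) ∈ E (m + 1 + 1) := F.mem.1 _ _ (by omega) (by omega)
  have hm5 : aa (2 * m + 5) ∈ E (m + 1) := E_anti (by omega) hm5'
  have hsq2 : CongE (n + 1) (aa (2 * m - 1) * aa (2 * m - 1)) (aa (4 * m - 2)) := by
    have := F.c5.1 (2 * m - 1) (n + 1) (by omega) (by omega)
    rwa [show 2 * (2 * m - 1) = 4 * m - 2 by omega] at this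
  have hgd5 : X.good (aa (2 * m - 1)) (aa (2 * m + 5)) :=
    good_lev H (i := k) (j := m + 2) (by omega) (by omega) hmg hm5' (by omega)
  have hff := ff n X n hn20 (Or.inl rfl) hT (m - 2) (m + 1) (by omega) (by omega) (by omega)
  rw [show 2 * (m - 2) + 3 = 2 * m - 1 by omega, show 2 * (m + 1) = n + 1 by omega] at hff
  have h1 : X.D (oo 2) (aa (4 * m - 2)) =
      X.D (aa (2 * m - 1)) (aa (n + 1) * aa (2 * m + 5) ^ k) +
        X.Qv (aa (n + 1) * aa (2 * m + 5) ^ k) := by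
    refine SS_gen H hT hnm (i := k) (by omega) (by omega) (by omega) hmg
      ((E (m + 1)).mul_mem hmn1 ((E (m + 1)).pow_mem hm5 k)) ?_
      (hff.1.mul_right (hgd5.pow_right k)) hsq2
    have := F.d2 k (by omega)
    rw [show 2 * k + 1 = 2 * m - 1 by omega, show 2 * k + 4 = n + 1 by omega,
      show 2 * k + 7 = 2 * m + 5 by omega] at this
    rw [← mul_assoc]
    exact this.mono (by omega)
  have hQ5 : X.Qv (aa (2 * m + 5)) = 0 :=
    Qv_zero H hT (m := m + 1) (by omega) (by omega) (by omega) hm5'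
  have hcast : (m : ZMod 2) + 1 = (k : ZMod 2) := by
    rw [hk]
    push_cast
    have h2 : (1 : ZMod 2) + 1 = 0 := by decide
    rw [add_assoc, h2, add_zero]
  rw [h1, D_mul_right hff.1 (hgd5.pow_right k), hff.2, D_pow_right hgd5,
    Q_mul H hT (m := m + 1) (by omega) (by omega) (by omega) hmn1 ((E (m + 1)).pow_mem hm5 k),
    SS_Qv_pow H hT (m := m + 1) (by omega) (by omega) (by omega) hm5, hQ5, hcast, smul_zero,
    zero_add, add_zero, add_comm]

end Pool.Agent.H72R2.N2
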