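import Mathlib
import Pool.Agent.H72R2.N2.Stm3

set_option autoImplicit false

namespace Pool.Agent.H72R2.N2

open PowerSeries Pool.Agent.Helper168.NottDefs Topology
open scoped commutatorElement
open Ext

theorem T_TR (F : Facts) (ba : S_BA) (bb : S_BB) : S_TR := by
  intro n X hn
  have H : Ext.Hyp n := F.hyp (by omega)
  have hT1 : X.Tr (n + 1) := tr_succ H
  have key : ∀ i, 1 ≤ i → ∀ j, 1 ≤ j → n + 1 ≤ i + j → ∀ g ∈ E i, ∀ h ∈ E j, X.C g h = 1 := by
    intro i hi
    induction i, hi using Nat.le_induction with
    | base =>
      intro j hj hij g hg h hh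
      have hh' : h ∈ E n := E_anti (by omega) hh
      obtain ⟨a, b, c, ha, hb, hc, hcong⟩ := F.dec 1 g le_rfl hg
      rw [C_congrE_left hT1 hcong hh' (by omega) (by omega) (by omega)]
      have g1 : X.good (aa (2 * 1)) h := good_top' H hh'
      have g2 : X.good (aa (2 * 1 + 1)) h := good_top' H hh'
      have g3 : X.good (oo (1 + 1)) h := good_top' H hh'
      obtain ⟨b1, b2⟩ := ba n X hn h hh'
      have b3 := bb n X hn h hh'
      have d3 : X.D (aa (2 * 1 + 1)) h = 0 := D_eq_zero b3
      have d2 : X.D (oo (1 + 1)) h = 0 := D_eq_zero b1
      have d1 : X.D (aa (2 * 1)) h = 0 := by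
        have := D_eq_zero b2
        rw [D_mul_left (X := X) (g := aa 2) (g' := aa 3) (h := h) g1 g2] at this
        have e3 : X.D (aa 3) h = 0 := d3
        rw [e3, add_zero] at this
        exact this
      have gg : X.good (aa (2 * 1) ^ a * aa (2 * 1 + 1) ^ b * oo (1 + 1) ^ c) h :=
        ((g1.pow_left a).mul_left (g2.pow_left b)).mul_left (g3.pow_left c)
      apply gg.C_eq_one
      rw [D_mul_left ((g1.pow_left a).mul_left (g2.pow_left b)) (g3.pow_left c),
        D_mul_left (g1.pow_left a) (g2.pow_left b), D_pow_left g1, D_pow_left g2, D_pow_left g3,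
        d1, d2, d3]
      simp
    | succ i hi ih =>
      intro j hj hij g hg h hh
      let T : Subgroup J :=
        { carrier := {g | X.C g h = 1}
          one_mem' := by
            show X.C 1 h = 1
            exact C_one_left X (one_mem _) h
          mul_mem' := by
            intro a b ha hb
            show X.C (a * b) h = 1
            rw [C_mul_left', show X.C a h = 1 from ha, show X.C b h = 1 from hb]
            group
          inv_mem' := by
            intro a ha
            have h1 : X.C a h = 1 := ha
            show X.C a⁻¹ h = 1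
            have h2 : X.good a h := good_of_one h1
            have := C_inv_left h2
            exact this.1.C_eq_one (by rw [this.2]; exact D_eq_zero h1) }
      have hle : E (i + 1) ≤ T := by
        refine (H.gen i (n + 1) hi).trans (sup_le ?_ ?_)
        · rw [Subgroup.commutator_le]
          intro a ha b _
          show X.C ⁅a, b⁆ h = 1
          have hai : a⁻¹ ∈ E i := (E i).inv_mem ha
          have e1 : X.C (b * a⁻¹ * b⁻¹) h = X.C a⁻¹ h := by
            have h1 := X.C_conj' b a⁻¹ (b⁻¹ * h * b)
            have h2 : b * (b⁻¹ * h * b) * b⁻¹ = h := by group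
            have h3 : b⁻¹ * h * b ∈ E j := by
              have := (E_normal j).conj_mem h hh b⁻¹
              rwa [inv_inv] at this
            rw [h2, C_one_right X (E_anti (by omega) (H.comm i j _ _ hi hj hai h3)), one_mul] at h1
            rw [h1]
            refine C_congr_right (w := ⁅h⁻¹, b⁻¹⁆) (by rw [commutatorElement_def]; group) ?_
            exact ih (j + 1) (by omega) (by omega) _ hai _ (H.commt j _ _ ((E j).inv_mem hh))
          rw [show ⁅a, b⁆ = a * (b * a⁻¹ * b⁻¹) by rw [commutatorElement_def]; group,
            C_mul_left', e1, ← C_mul_left', mul_inv_cancel, C_one_left X (one_mem _)]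
        · intro a ha
          exact C_one_left X ha h
      exact hle hg
  intro i j g h hi hj hij hg hh
  exact key i hi j hj hij g hg h hh

end Pool.Agent.H72R2.N2
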