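import Mathlib
import Pool.Agent.H72R2.N2.Stm3

set_option autoImplicit false

namespace Pool.Agent.H72R2.N2

open PowerSeries Pool.Agent.Helper168.NottDefs Topology
open scoped commutatorElement

open Ext in
theorem T_XX (F : Facts) (_z : S_Z) (dd : S_DD) (ff : S_FF) (_k : S_K) : S_XX := by
  intro n X m hn hL hT
  have hm : 10 ≤ m := by omega
  have hLn : 2 * m + 1 = n ∨ 2 * m + 1 = n + 1 := hL
  have H := F.hyp (n := n) (by omega)
  have Ea : ∀ k s : ℕ, 1 ≤ k → 2 * s ≤ k → aa k ∈ E s := F.mem.1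
  have Eo : ∀ k s : ℕ, 1 ≤ k → s + 1 ≤ k → oo k ∈ E s := F.mem.2
  -- the three elements
  have hg : aa (2 * m - 1) ∈ E (m - 1) := Ea _ _ (by omega) (by omega)
  have hh : oo m ∈ E (m - 1) := Eo _ _ (by omega) (by omega)
  have hg1 : aa (2 * m + 5) ∈ E (m + 2) := Ea _ _ (by omega) (by omega)
  have ho3 : oo (m + 3) ∈ E (m + 2) := Eo _ _ (by omega) (by omega)
  have ha2 : aa (2 * m + 2) ∈ E (m + 1) := Ea _ _ (by omega) (by omega)
  have cg : CongE (m + 3) (aa 3 * aa (2 * m - 1)) (aa (2 * m - 1) * aa (2 * m + 5) * aa 3) := by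
    have h := F.d4 (m - 1) (by omega)
    rw [show 2 * (m - 1) + 1 = 2 * m - 1 by omega, show 2 * (m - 1) + 7 = 2 * m + 5 by omega,
      show m - 1 + 4 = m + 3 by omega] at h
    exact h
  have ch : CongE (m + 3) (aa 3 * oo m)
      (oo m * (oo (m + 3) * aa (2 * m + 2) * aa (2 * m + 5)) * aa 3) := by
    have h := F.d5 m (by omega)
    simpa only [mul_assoc] using h
  -- the pairing of `aa (2m-1)` with `aa (2m+2)`
  have hf := ff n X (2 * m + 1) hn (by omega) hT (m - 2) (m + 1) (by omega) (by omega) (by omega)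
  rw [show 2 * (m - 2) + 3 = 2 * m - 1 by omega, show 2 * (m + 1) = 2 * m + 2 by ring] at hf
  have g1 : X.good (aa (2 * m + 5)) (oo m) := good_lev H (i := m + 2) (j := m - 1) (by omega) (by omega) hg1 hh (by omega)
  have g2a : X.good (aa (2 * m - 1)) (oo (m + 3)) :=
    good_lev H (i := m - 1) (j := m + 2) (by omega) (by omega) hg ho3 (by omega)
  have g2c : X.good (aa (2 * m - 1)) (aa (2 * m + 5)) :=
    good_lev H (i := m - 1) (j := m + 2) (by omega) (by omega) hg hg1 (by omega)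
  have g2 : X.good (aa (2 * m - 1)) (oo (m + 3) * aa (2 * m + 2) * aa (2 * m + 5)) :=
    (g2a.mul_right hf.1).mul_right g2c
  have h1mem : oo (m + 3) * aa (2 * m + 2) * aa (2 * m + 5) ∈ E (m + 1) :=
    (E (m + 1)).mul_mem ((E (m + 1)).mul_mem (E_anti (by omega) ho3) ha2) (E_anti (by omega) hg1)
  have c3 : X.C (aa (2 * m + 5)) (oo (m + 3) * aa (2 * m + 2) * aa (2 * m + 5)) = 1 :=
    hT (m + 2) (m + 1) _ _ (by omega) (by omega) (by omega) hg1 h1mem
  have mv := Ext.move hT (i := m - 1) (j := m - 1) (s := m + 3) (t := m + 3) hg hh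
    (E_anti (by omega) hg1) (by omega) (by omega) (by omega) (by omega) cg ch (by omega) (by omega)
    g1 g2 (good_of_one c3)
  have e1 : X.D (aa (2 * m - 1)) (oo (m + 3) * aa (2 * m + 2) * aa (2 * m + 5)) =
      X.D (aa (2 * m - 1)) (oo (m + 3)) + X.D (aa (2 * m - 1)) (aa (2 * m + 5)) := by
    rw [D_mul_right (g2a.mul_right hf.1) g2c, D_mul_right g2a hf.1, hf.2, add_zero]
  have cc : CongE (n + 1) ⁅aa (2 * m - 1), oo m⁆ (aa (4 * m - 2)) := by
    have h := F.c4 (2 * m - 1) m (3 * m - 2) ⟨m - 1, by omega⟩ (by omega) (by omega) (by omega)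
      (by omega)
    rw [show 2 * m - 1 + 2 * m - 1 = 4 * m - 2 by omega] at h
    exact h.mono (by omega)
  have X2 : X.D (aa 3) (aa (4 * m - 2)) = X.D (aa (2 * m + 5)) (oo m) +
      (X.D (aa (2 * m - 1)) (oo (m + 3)) + X.D (aa (2 * m - 1)) (aa (2 * m + 5))) := by
    have h : X.D (aa 3) (aa (4 * m - 2)) = X.D (aa 3) ⁅aa (2 * m - 1), oo m⁆ := by
      unfold Ext.D
      rw [C_congr_top cc]
    rw [h, mv.2, e1, D_eq_zero c3, add_zero]
  -- squares
  have sqc : CongE (n + 1) (aa (2 * m - 1) * aa (2 * m - 1)) (aa (4 * m - 2)) := by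
    have h := F.c5.1 (2 * m - 1) (n + 1) (by omega) (by omega)
    rw [show 2 * (2 * m - 1) = 4 * m - 2 by omega] at h
    exact h
  have cy : CongE (m + 3) ⁅aa 3, aa (2 * m - 1)⁆ (aa (2 * m + 5)) := by
    refine comm_cong ?_
    refine cg.trans ?_
    have h2 : CongE (m + 3) (aa (2 * m - 1) * aa (2 * m + 5)) (aa (2 * m + 5) * aa (2 * m - 1)) := by
      rw [congE_iff]
      have h3 := F.comm (m - 1) (m + 2) _ _ (by omega) (by omega) hg hg1
      have h4 : aa (2 * m - 1) * aa (2 * m + 5) * (aa (2 * m + 5) * aa (2 * m - 1))⁻¹ =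
          ⁅aa (2 * m - 1), aa (2 * m + 5)⁆ := by
        rw [commutatorElement_def]; group
      rw [h4]
      exact E_anti (by omega) h3
    have h5 := h2.mul (CongE.refl (m + 3) (aa 3))
    refine h5.trans ?_
    -- `aa (2m+5) * (aa (2m-1) * aa 3)` vs `aa (2m+5) * (aa (2m-1) * aa 3)`
    rw [mul_assoc]
    exact CongE.refl _ _
  have hw : ⁅aa 3, aa (2 * m - 1)⁆ ∈ E (m + 2) := by
    have h := cy.mono (show m + 2 ≤ m + 3 by omega)
    exact mem_E.2 (h.trans (mem_E.1 hg1))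
  have eC : X.C (aa (2 * m - 1)) ⁅aa 3, aa (2 * m - 1)⁆ = X.C (aa (2 * m - 1)) (aa (2 * m + 5)) :=
    C_congrE_right hT cy hg (by omega) (by omega) (by omega)
  have gg : X.good (aa (2 * m - 1)) ⁅aa 3, aa (2 * m - 1)⁆ := by
    unfold Ext.good
    rw [eC]
    exact g2c
  have hsq := D_sq gg (Q_mem H (m := m + 1) (by omega) (by omega) (E_anti (by omega) hw))
  have S3 : X.D (aa 3) (aa (4 * m - 2)) = X.D (aa (2 * m - 1)) (aa (2 * m + 5)) := by
    have h : X.D (aa 3) (aa (4 * m - 2)) = X.D (aa 3) (aa (2 * m - 1) * aa (2 * m - 1)) := by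
      unfold Ext.D
      rw [C_congr_top sqc]
    rw [h, hsq.2, Qv_zero H hT (m := m + 1) (by omega) (by omega) (by omega) hw, add_zero]
    unfold Ext.D
    rw [eC]
  -- the three relations
  have r1 := dd n X (2 * m + 1) hn (by omega) hT (m - 1) (m + 1) (by omega) (by omega) (by omega)
  have r2 := dd n X (2 * m + 1) hn (by omega) hT m m (by omega) (by omega) (by omega)
  have r3 := dd n X (2 * m + 1) hn (by omega) hT (m + 1) (m - 1) (by omega) (by omega) (by omega)
  rw [show 2 * (2 * m + 1) = 4 * m + 2 by ring] at r1 r2 r3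
  rw [show 2 * (m - 1) + 3 = 2 * m + 1 by omega, show m + 1 + 1 = m + 2 by ring,
    show 2 * (m - 1) + 1 = 2 * m - 1 by omega, show m + 1 + 2 = m + 3 by ring,
    show 2 * (m + 1) + 3 = 2 * m + 5 by ring] at r1
  rw [show 2 * (m + 1) + 3 = 2 * m + 5 by ring, show m - 1 + 1 = m by omega,
    show 2 * (m + 1) + 1 = 2 * m + 3 by ring, show m - 1 + 2 = m + 1 by omega,
    show 2 * (m - 1) + 3 = 2 * m + 1 by omega, D_swap (g := aa (2 * m + 3)) (h := aa (2 * m + 1))] at r3
  linear_combination (norm := (match_scalars <;> decide)) (1 : ZMod 2) • r1 + (1 : ZMod 2) • r2 +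
    (1 : ZMod 2) • r3 + (1 : ZMod 2) • X2 + (1 : ZMod 2) • S3

end Pool.Agent.H72R2.N2
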