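import Mathlib
import Pool.Agent.H72R2.N2.Stm3

set_option autoImplicit false

/-! Task T_Z: pairs `(aa (2j), E (L-j))` are trivial. -/

namespace Pool.Agent.H72R2.N2

open PowerSeries Pool.Agent.Helper168.NottDefs Topology
open scoped commutatorElement
open Ext

theorem T_Z_mem_a (F : Facts) {k s : ℕ} (hk : 1 ≤ k) (h : 2 * s ≤ k) : aa k ∈ E s :=
  F.mem.1 k s hk h

theorem T_Z_mem_o (F : Facts) {k s : ℕ} (hk : 1 ≤ k) (h : s + 1 ≤ k) : oo k ∈ E s :=
  F.mem.2 k s hk h

/-- the commutator with `aa (2j)` is deep -/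
theorem T_Z_deep (F : Facts) {n L : ℕ} (X : Ext n) (hL : L = n ∨ L = n + 1) {i j : ℕ} {h : J}
    (hi : 1 ≤ i) (hj : 2 ≤ j) (hij : i + j + 1 = L) (hh : h ∈ E i) (y : J) :
    X.D y ⁅aa (2 * j), h⁆ = 0 := by
  have h1 : ⁅aa (2 * j), h⁆ ∈ E (n + 1) := E_anti (by omega) (F.c1 i j h hi hj hh)
  exact D_eq_zero (C_one_right X h1 y)

theorem T_Z_1 (F : Facts) {n L : ℕ} (X : Ext n) (hn : 20 ≤ n) (hL : L = n ∨ L = n + 1)
    (hT : X.Tr L) {i j : ℕ} (hi : 1 ≤ i) (hj : 2 ≤ j) (hij : i + j + 1 = L) :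
    X.D (aa (2 * j)) (aa (2 * i + 3)) = 0 := by
  have H := F.hyp (n := n) (by omega)
  have hg : aa (2 * j) ∈ E j := T_Z_mem_a F (by omega) le_rfl
  have hh : aa (2 * i + 1) ∈ E i := T_Z_mem_a F (by omega) (by omega)
  have hh1 : aa (2 * i + 3) ∈ E (i + 1) := T_Z_mem_a F (by omega) (by omega)
  have cg : CongE (j + 2) (aa 1 * aa (2 * j)) (aa (2 * j) * 1 * aa 1) := by
    rw [mul_one]
    exact F.b4 j hj
  have h1 := move hT hg hh (one_mem _) (by omega) hi (by omega) (by omega) cg (F.b5 i hi)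
    (by omega) (by omega) (good_one_left _)
    (good_lev H (by omega) (by omega) hg hh1 (by omega)) (good_one_left _)
  have h2 := h1.2
  rw [T_Z_deep F X hL hi hj hij hh, D_one_left, D_one_left, zero_add, add_zero] at h2
  exact h2.symm

theorem T_Z_2 (F : Facts) {n L : ℕ} (X : Ext n) (hn : 20 ≤ n) (hL : L = n ∨ L = n + 1)
    (hT : X.Tr L) {i j : ℕ} (hi : 1 ≤ i) (hj : 2 ≤ j) (hij : i + j + 1 = L) :
    X.D (aa (2 * j)) (oo (i + 2)) + X.D (aa (2 * j)) (aa (2 * i + 2)) = 0 := by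
  have H := F.hyp (n := n) (by omega)
  have hg : aa (2 * j) ∈ E j := T_Z_mem_a F (by omega) le_rfl
  have hh : oo (i + 1) ∈ E i := T_Z_mem_o F (by omega) (by omega)
  have k1 : oo (i + 2) ∈ E (i + 1) := T_Z_mem_o F (by omega) (by omega)
  have k2 : aa (2 * i + 2) ∈ E (i + 1) := T_Z_mem_a F (by omega) (by omega)
  have k3 : aa (2 * i + 3) ∈ E (i + 1) := T_Z_mem_a F (by omega) (by omega)
  have cg : CongE (j + 2) (aa 1 * aa (2 * j)) (aa (2 * j) * 1 * aa 1) := by
    rw [mul_one]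
    exact F.b4 j hj
  have ch : CongE (i + 2) (aa 1 * oo (i + 1))
      (oo (i + 1) * (oo (i + 2) * aa (2 * i + 2) * aa (2 * i + 3)) * aa 1) := by
    have := F.b6 i hi
    simpa only [mul_assoc] using this
  have g1 : X.good (aa (2 * j)) (oo (i + 2)) := good_lev H (by omega) (by omega) hg k1 (by omega)
  have g2 : X.good (aa (2 * j)) (aa (2 * i + 2)) := good_lev H (by omega) (by omega) hg k2 (by omega)
  have g3 : X.good (aa (2 * j)) (aa (2 * i + 3)) := good_lev H (by omega) (by omega) hg k3 (by omega)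
  have g12 := g1.mul_right g2
  have h1 := move hT hg hh (one_mem _) (by omega) hi (by omega) (by omega) cg ch
    (by omega) (by omega) (good_one_left _) (g12.mul_right g3) (good_one_left _)
  have h2 := h1.2
  rw [T_Z_deep F X hL hi hj hij hh, D_one_left, D_one_left, zero_add, add_zero,
    D_mul_right g12 g3, D_mul_right g1 g2, T_Z_1 F X hn hL hT hi hj hij, add_zero] at h2
  exact h2.symm

theorem T_Z_3 (F : Facts) {n L : ℕ} (X : Ext n) (hn : 20 ≤ n) (hL : L = n ∨ L = n + 1)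
    (hT : X.Tr L) {i j : ℕ} (hi : 2 ≤ i) (hj : 2 ≤ j) (hij : i + j + 1 = L) :
    X.D (aa (2 * j)) (aa (2 * i + 2)) = 0 := by
  have H := F.hyp (n := n) (by omega)
  have hg : aa (2 * j) ∈ E j := T_Z_mem_a F (by omega) le_rfl
  have hh : aa (2 * i + 1) ∈ E i := T_Z_mem_a F (by omega) (by omega)
  have hg0 : aa (2 * j + 2) ∈ E (j + 1) := T_Z_mem_a F (by omega) (by omega)
  have k2 : aa (2 * i + 2) ∈ E (i + 1) := T_Z_mem_a F (by omega) (by omega)
  have k3 : aa (2 * i + 3) ∈ E (i + 1) := T_Z_mem_a F (by omega) (by omega)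
  have cg : CongE (j + 2) (oo 1 * aa (2 * j)) (aa (2 * j) * aa (2 * j + 2) ^ j * oo 1) := F.b1 j hj
  have ch : CongE (i + 2) (oo 1 * aa (2 * i + 1))
      (aa (2 * i + 1) * (aa (2 * i + 2) * aa (2 * i + 3) ^ i) * oo 1) := by
    have := F.b2 i (by omega)
    simpa only [mul_assoc] using this
  have hg1 : aa (2 * j + 2) ^ j ∈ E (j + 1) := (E (j + 1)).pow_mem hg0 j
  have hg1' : aa (2 * j + 2) ^ j ∈ E j := E_anti (by omega) hg1
  have hh1 : aa (2 * i + 2) * aa (2 * i + 3) ^ i ∈ E (i + 1) :=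
    (E (i + 1)).mul_mem k2 ((E (i + 1)).pow_mem k3 i)
  have g0 : X.good (aa (2 * j + 2)) (aa (2 * i + 1)) :=
    good_lev H (by omega) (by omega) hg0 hh (by omega)
  have g2 : X.good (aa (2 * j)) (aa (2 * i + 2)) := good_lev H (by omega) (by omega) hg k2 (by omega)
  have g3 : X.good (aa (2 * j)) (aa (2 * i + 3)) := good_lev H (by omega) (by omega) hg k3 (by omega)
  have t1 : X.C (aa (2 * j + 2) ^ j) (aa (2 * i + 2) * aa (2 * i + 3) ^ i) = 1 :=
    hT (j + 1) (i + 1) _ _ (by omega) (by omega) (by omega) hg1 hh1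
  have h1 := move hT hg hh hg1' (by omega) (by omega) (by omega) (by omega) cg ch
    (by omega) (by omega) (g0.pow_left j) (g2.mul_right (g3.pow_right i)) (good_of_one t1)
  have e1 : X.D (aa (2 * j + 2)) (aa (2 * i + 1)) = 0 := by
    have h3 := T_Z_1 F X hn hL hT (i := i - 1) (j := j + 1) (by omega) (by omega) (by omega)
    rw [show 2 * (j + 1) = 2 * j + 2 by ring, show 2 * (i - 1) + 3 = 2 * i + 1 by omega] at h3
    exact h3
  have h2 := h1.2
  rw [T_Z_deep F X hL (by omega) hj hij hh, D_pow_left g0, e1, smul_zero, zero_add,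
    D_eq_zero t1, add_zero, D_mul_right g2 (g3.pow_right i), D_pow_right g3,
    T_Z_1 F X hn hL hT (by omega) hj hij, smul_zero, add_zero] at h2
  exact h2.symm

theorem T_Z (F : Facts) : S_Z := by
  intro n X L hn hL hT j h hj hjL hh
  obtain ⟨i, hi⟩ : ∃ i, i + j + 1 = L := ⟨L - 1 - j, by omega⟩
  have hi2 : 2 ≤ i := by omega
  have hLj : L - j = i + 1 := by omega
  rw [hLj] at hh
  have H := F.hyp (n := n) (by omega)
  have hg : aa (2 * j) ∈ E j := T_Z_mem_a F (by omega) le_rfl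
  obtain ⟨a, b, c, -, -, -, hc⟩ := F.dec (i + 1) h (by omega) hh
  rw [show 2 * (i + 1) = 2 * i + 2 by ring] at hc
  have k1 : oo (i + 2) ∈ E (i + 1) := T_Z_mem_o F (by omega) (by omega)
  have k2 : aa (2 * i + 2) ∈ E (i + 1) := T_Z_mem_a F (by omega) (by omega)
  have k3 : aa (2 * i + 3) ∈ E (i + 1) := T_Z_mem_a F (by omega) (by omega)
  have g1 : X.good (aa (2 * j)) (oo (i + 2)) := good_lev H (by omega) (by omega) hg k1 (by omega)
  have g2 : X.good (aa (2 * j)) (aa (2 * i + 2)) := good_lev H (by omega) (by omega) hg k2 (by omega)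
  have g3 : X.good (aa (2 * j)) (aa (2 * i + 3)) := good_lev H (by omega) (by omega) hg k3 (by omega)
  have d2 := T_Z_3 F X hn hL hT hi2 hj hi
  have d3 := T_Z_1 F X hn hL hT (by omega) hj hi
  have d1 := T_Z_2 F X hn hL hT (by omega) hj hi
  rw [d2, add_zero] at d1
  rw [C_congrE_right hT hc hg (by omega) (by omega) (by omega)]
  have G12 := (g2.pow_right a).mul_right (g3.pow_right b)
  refine (G12.mul_right (g1.pow_right c)).C_eq_one ?_
  rw [D_mul_right G12 (g1.pow_right c), D_mul_right (g2.pow_right a) (g3.pow_right b),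
    D_pow_right g2, D_pow_right g3, D_pow_right g1, d1, d2, d3]
  simp

end Pool.Agent.H72R2.N2
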