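import Mathlib
import Pool.Agent.H72R2.N2.Stm3
import Pool.Agent.H72R2.N2.COMM
import Pool.Agent.H72R2.N2.COMMT
import Pool.Agent.H72R2.N2.SQ
import Pool.Agent.H72R2.N2.DEC
import Pool.Agent.H72R2.N2.IND
import Pool.Agent.H72R2.N2.MEM
import Pool.Agent.H72R2.N2.B1
import Pool.Agent.H72R2.N2.B2
import Pool.Agent.H72R2.N2.B3
import Pool.Agent.H72R2.N2.B4
import Pool.Agent.H72R2.N2.B5
import Pool.Agent.H72R2.N2.B6
import Pool.Agent.H72R2.N2.B7
import Pool.Agent.H72R2.N2.C1
import Pool.Agent.H72R2.N2.C2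
import Pool.Agent.H72R2.N2.C3
import Pool.Agent.H72R2.N2.C4
import Pool.Agent.H72R2.N2.C5
import Pool.Agent.H72R2.N2.C6
import Pool.Agent.H72R2.N2.IOTA
import Pool.Agent.H72R2.N2.D1
import Pool.Agent.H72R2.N2.D2
import Pool.Agent.H72R2.N2.D3
import Pool.Agent.H72R2.N2.D4
import Pool.Agent.H72R2.N2.D5
import Pool.Agent.H72R2.N2.D6
import Pool.Agent.H72R2.N2.D7
import Pool.Agent.H72R2.N2.GEN
import Pool.Agent.H72R2.N2.DESC
import Pool.Agent.H72R2.N2.TOP1
import Pool.Agent.H72R2.N2.TOP2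
import Pool.Agent.H72R2.N2.TOP3
import Pool.Agent.H72R2.N2.MAIN
import Pool.Agent.H72R2.N2.T_Z
import Pool.Agent.H72R2.N2.T_K
import Pool.Agent.H72R2.N2.T_DD
import Pool.Agent.H72R2.N2.T_FF
import Pool.Agent.H72R2.N2.T_XX
import Pool.Agent.H72R2.N2.T_KB
import Pool.Agent.H72R2.N2.T_BA
import Pool.Agent.H72R2.N2.T_BM
import Pool.Agent.H72R2.N2.T_BB
import Pool.Agent.H72R2.N2.T_TR
import Pool.Agent.H72R2.N2.T_RE
import Pool.Agent.H72R2.N2.T_P
import Pool.Agent.H72R2.N2.T_D0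
import Pool.Agent.H72R2.N2.T_O2
import Pool.Agent.H72R2.N2.T_SS
import Pool.Agent.H72R2.N2.T_RO
import Pool.Agent.H72R2.N2.T_R6
import Pool.Agent.H72R2.N2.T_IO
import Pool.Agent.H72R2.N2.T_FIN

set_option autoImplicit false

/-! Assembly: the Nottingham group over `F_2` is finitely presented as a pro-2 group. -/

namespace Pool.Agent.H72R2.N2

open Topology

theorem gen : S_GEN := GEN DEC B2 B5 B6 MEM COMMT

theorem facts : Facts where
  comm := COMM
  commt := COMMT
  sq := SQ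
  dec := DEC
  dec0 := DEC0
  ind := IND
  mem := MEM
  b1 := B1
  b2 := B2
  b3 := B3
  b4 := B4
  b5 := B5
  b6 := B6
  b7 := B7
  c1 := C1
  c2 := C2
  c3 := C3
  c4 := C4
  c5 := C5
  c6 := C6
  iota := IOTA
  d1 := D1
  d2 := D2
  d3 := D3
  d4 := D4
  d5 := D5
  d6 := D6
  d7 := D7
  gen := gen

theorem step : S_FIN := by
  have F := facts
  have z := T_Z F
  have k := T_K F
  have dd := T_DD F z
  have ff := T_FF F z
  have xx := T_XX F z dd ff k
  have kb := T_KB F z k xx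
  have ba := T_BA F
  have bm := T_BM F ba
  have bb := T_BB F ba bm kb
  have tr := T_TR F ba bb
  have re := T_RE F
  have p := T_P F z ff
  have d0 := T_D0 F z
  have o2 := T_O2 F p d0
  have ss := T_SS F z ff
  have ro := T_RO F xx o2 ss
  have r6 := T_R6 F
  have io := T_IO F
  exact T_FIN F tr re ro r6 io

theorem finPres : FinPres :=
  MAIN TOP1 TOP2 (TOP3 DEC0 DEC B2 B5 B6 C5 COMMT TOP1 MEM) 20 (DESC COMMT gen 20 (by norm_num) step)

theorem iso_of_surj {F G : Type} [Group F] [TopologicalSpace F] [IsTopologicalGroup F]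
    [CompactSpace F] [Group G] [TopologicalSpace G] [T2Space G] (T : Subgroup F) [T.Normal]
    (φ : F →ₜ* G) (hs : Function.Surjective φ) (hk : (φ : F →* G).ker = T) :
    Nonempty ((F ⧸ T) ≃ₜ* G) := by
  subst hk
  let e : F ⧸ (φ : F →* G).ker ≃* G :=
    QuotientGroup.quotientKerEquivOfSurjective (φ : F →* G) hs
  have hc : Continuous e := by
    apply Continuous.quotient_lift
    exact φ.continuous_toFun
  let h : F ⧸ (φ : F →* G).ker ≃ₜ G := Continuous.homeoOfEquivCompactToT2 (f := e.toEquiv) hc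
  exact ⟨{ e with
    continuous_toFun := hc
    continuous_invFun := h.symm.continuous }⟩

end Pool.Agent.H72R2.N2
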