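import Mathlib
import Pool.Agent.H72R2.N2.Stm

set_option autoImplicit false

namespace Pool.Agent.H72R2.N2

open PowerSeries Pool.Agent.Helper168.NottDefs Topology
open scoped commutatorElement

/-- finitely many open normal subgroups of given index -/
def S_M1 : Prop := ∀ (F : Type) [Group F] [TopologicalSpace F] [IsTopologicalGroup F] (n : ℕ)
  (ι : Fin n → F), Pool.Agent.Helper948.ProP.IsFreeProP 2 ι → ∀ m : ℕ, m ≠ 0 →
  ∃ K : Subgroup F, K.Normal ∧ IsOpen (K : Set F) ∧
    ∀ W : Subgroup F, W.Normal → IsOpen (W : Set F) → W.index = m → K ≤ W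

/-- a normal subgroup not contained in an open normal subgroup meets some larger open normal
subgroup in index exactly two -/
def S_M2 : Prop := ∀ (F : Type) [Group F] [TopologicalSpace F] [IsTopologicalGroup F],
  Pool.Agent.Helper948.ProP.IsProP 2 F → ∀ R U : Subgroup F, R.Normal → U.Normal →
  IsOpen (U : Set F) → ¬ R ≤ U →
  ∃ U1 : Subgroup F, U ≤ U1 ∧ U1.Normal ∧ IsOpen (U1 : Set F) ∧
    ∃ r ∈ R, r ∉ U1 ∧ ∀ r' ∈ R, r' ∈ U1 ∨ r⁻¹ * r' ∈ U1

/-- a closed normal subgroup is the intersection of the open normal subgroups containing it -/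
def S_M3 : Prop := ∀ (F : Type) [Group F] [TopologicalSpace F] [IsTopologicalGroup F],
  Pool.Agent.Helper948.ProP.IsProP 2 F → ∀ R T : Subgroup F, T.Normal →
  (∀ U : Subgroup F, U.Normal → IsOpen (U : Set F) → T ≤ U → R ≤ U) → R ≤ T.topologicalClosure

end Pool.Agent.H72R2.N2
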