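import Mathlib
import Pool.Agent.H72R2.N2.Stm2

set_option autoImplicit false

namespace Pool.Agent.H72R2.N2

open Topology Pool.Agent.Helper948.ProP

/-- the continuous homomorphism to a finite quotient by an open normal subgroup is determined by
the images of the basis -/
theorem M1_uniq {F : Type} [Group F] [TopologicalSpace F] [IsTopologicalGroup F] {n : ℕ}
    (ι : Fin n → F) (hF : IsFreeProP 2 ι) (P : Type) [Group P] [Finite P] (hP : IsPGroup 2 P)
    (φ ψ : F →* P) (hφ : IsOpen (φ.ker : Set F)) (hψ : IsOpen (ψ.ker : Set F))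
    (h : ∀ i, φ (ι i) = ψ (ι i)) : φ = ψ := by
  classical
  let _ : TopologicalSpace P := ⊥
  have : DiscreteTopology P := ⟨rfl⟩
  have hcont : ∀ χ : F →* P, IsOpen (χ.ker : Set F) → Continuous χ := by
    intro χ hχ
    refine continuous_def.2 fun s _ => ?_
    rw [isOpen_iff_mem_nhds]
    intro x hx
    have h1 : (fun y => x * y) '' (χ.ker : Set F) ∈ nhds x := by
      refine (IsOpen.mem_nhds ((Homeomorph.mulLeft x).isOpenMap _ hχ) ?_)
      exact ⟨1, χ.ker.one_mem, by simp⟩
    refine Filter.mem_of_superset h1 ?_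
    rintro _ ⟨y, hy, rfl⟩
    have hy' : χ y = 1 := hy
    change χ (x * y) ∈ s
    rw [map_mul, hy', mul_one]
    exact hx
  have hPP : IsProP 2 P := by
    refine ⟨inferInstance, inferInstance, inferInstance, ?_⟩
    intro U hU
    refine ⟨⊥, inferInstance, isOpen_discrete _, ?_, ?_⟩
    · intro x hx
      have : x = 1 := by simpa using hx
      rw [this]
      exact mem_of_mem_nhds hU
    · obtain ⟨k, hk⟩ := IsPGroup.iff_card.1 hP
      exact ⟨k, by rw [Subgroup.index_bot, hk]⟩
  obtain ⟨χ, _, hu⟩ := hF.lift P hPP (fun i => φ (ι i)) (by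
    intro U _
    exact Set.toFinite _)
  have e1 := hu ⟨φ, hcont φ hφ⟩ (fun i => rfl)
  have e2 := hu ⟨ψ, hcont ψ hψ⟩ (fun i => (h i).symm)
  have e3 : (⟨φ, hcont φ hφ⟩ : F →ₜ* P) = ⟨ψ, hcont ψ hψ⟩ := e1.trans e2.symm
  exact congrArg ContinuousMonoidHom.toMonoidHom e3

theorem M1 : S_M1 := by
  classical
  intro F _ _ _ n ι hF m hm
  have := hF.proP.compact
  let S := {W : Subgroup F // W.Normal ∧ IsOpen (W : Set F) ∧ W.index = m}
  have hfinq : ∀ W : S, Finite (F ⧸ W.1) := fun W =>
    Subgroup.quotient_finite_of_isOpen W.1 W.2.2.1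
  have hne : ∀ W : S, Nonempty ((F ⧸ W.1) ≃ Fin m) := by
    intro W
    have := hfinq W
    refine Finite.card_eq.mp ?_
    rw [Nat.card_fin]
    exact W.2.2.2
  let e : ∀ W : S, (F ⧸ W.1) ≃ Fin m := fun W => (hne W).some
  let code : S → (Fin m → Fin m → Fin m) × (Fin n → Fin m) := fun W =>
    have := W.2.1
    (fun a b => e W ((e W).symm a * (e W).symm b), fun i => e W (ι i : F ⧸ W.1))
  have hPG : ∀ W : S, have := W.2.1; IsPGroup 2 (F ⧸ W.1) := by
    intro W
    have := W.2.1
    obtain ⟨V, hV, hVo, hVW, k, hk⟩ := hF.proP.basis (W.1 : Set F)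
      (W.2.2.1.mem_nhds W.1.one_mem)
    have hd : W.1.index ∣ 2 ^ k := by
      rw [← hk]
      exact Subgroup.index_dvd_of_le hVW
    obtain ⟨j, _, hj⟩ := (Nat.dvd_prime_pow Nat.prime_two).1 hd
    exact IsPGroup.of_card (n := j) (by rw [← hj]; rfl)
  have hinj : Function.Injective code := by
    intro W W' h
    have i1 := W.2.1
    have i2 := W'.2.1
    have := hfinq W
    have hmul : ∀ a b : Fin m, e W ((e W).symm a * (e W).symm b) =
        e W' ((e W').symm a * (e W').symm b) := fun a b => congrFun (congrFun (congrArg Prod.fst h) a) b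
    have hι : ∀ i, e W (ι i : F ⧸ W.1) = e W' (ι i : F ⧸ W'.1) := fun i =>
      congrFun (congrArg Prod.snd h) i
    let θ : (F ⧸ W'.1) ≃* (F ⧸ W.1) :=
      { toEquiv := (e W').trans (e W).symm
        map_mul' := fun a b => by
          simp only [Equiv.toFun_as_coe, Equiv.trans_apply]
          have := hmul (e W' a) (e W' b)
          simp only [Equiv.symm_apply_apply] at this
          rw [← this, Equiv.symm_apply_apply] }
    let ψ : F →* F ⧸ W.1 := θ.toMonoidHom.comp (QuotientGroup.mk' W'.1)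
    have hker1 : (QuotientGroup.mk' W.1).ker = W.1 := QuotientGroup.ker_mk' _
    have hker2 : ψ.ker = W'.1 := by
      ext x
      change θ (QuotientGroup.mk' W'.1 x) = 1 ↔ _
      rw [MulEquiv.map_eq_one_iff]
      exact QuotientGroup.eq_one_iff x
    have hEq : QuotientGroup.mk' W.1 = ψ := by
      refine M1_uniq ι hF (F ⧸ W.1) (hPG W) _ _ (by rw [hker1]; exact W.2.2.1)
        (by rw [hker2]; exact W'.2.2.1) (fun i => ?_)
      change (ι i : F ⧸ W.1) = (e W).symm (e W' (ι i : F ⧸ W'.1))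
      rw [← hι i, Equiv.symm_apply_apply]
    apply Subtype.ext
    rw [← hker1, hEq, hker2]
  have hfin : Finite S := Finite.of_injective code hinj
  refine ⟨⨅ W : S, W.1, ?_, ?_, ?_⟩
  · exact Subgroup.normal_iInf_normal (fun W => W.2.1)
  · rw [Subgroup.coe_iInf]
    exact isOpen_iInter_of_finite (fun W => W.2.2.1)
  · intro W h1 h2 h3
    exact iInf_le (fun W : S => W.1) ⟨W, h1, h2, h3⟩

end Pool.Agent.H72R2.N2
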