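import Mathlib
import Pool.Agent.H72R2.N2.Stm2

set_option autoImplicit false

namespace Pool.Agent.H72R2.N2

open Topology

/-- in a finite `2`-group with a normal subgroup `N ≠ ⊥` contained in every nontrivial normal
subgroup, `N = {1, z}` -/
theorem M2_min {P : Type} [Group P] [Finite P] (hP : IsPGroup 2 P) (N : Subgroup P) [hN : N.Normal]
    (hne : N ≠ ⊥) (hmin : ∀ M : Subgroup P, M.Normal → M ≠ ⊥ → N ≤ M) :
    ∃ z ∈ N, z ≠ 1 ∧ ∀ g ∈ N, g = 1 ∨ g = z := by
  classical
  have : Fact (Nat.Prime 2) := ⟨Nat.prime_two⟩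
  -- a central element of `N` different from 1
  have hcard : 2 ∣ Nat.card N := by
    have : Nontrivial N := (Subgroup.nontrivial_iff_ne_bot N).2 hne
    obtain ⟨n, hn, hc⟩ := (hP.to_subgroup N).nontrivial_iff_card.1 this
    rw [hc]
    exact dvd_pow_self 2 hn.ne'
  have hPc : IsPGroup 2 (ConjAct P) := hP
  obtain ⟨b, hb, hb1⟩ := hPc.exists_fixed_point_of_prime_dvd_card_of_fixed_point (α := N) hcard
    (a := (1 : N)) (by
      intro g
      exact smul_one g)
  have hbc : ∀ g : P, g * b.1 * g⁻¹ = b.1 := by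
    intro g
    have h := hb (ConjAct.toConjAct g)
    have h2 := congrArg Subtype.val h
    rw [ConjAct.Subgroup.val_conj_smul, ConjAct.smul_def] at h2
    simpa using h2
  have hbne : b.1 ≠ 1 := fun h => hb1 (Subtype.ext h.symm)
  -- a power of order 2
  obtain ⟨k, hk⟩ := (hP b.1)
  have hord : ∃ c : ℕ, b.1 ^ c ≠ 1 ∧ (b.1 ^ c) ^ 2 = 1 := by
    classical
    let j := Nat.find (⟨k, hk⟩ : ∃ k, b.1 ^ 2 ^ k = 1)
    have hj : b.1 ^ 2 ^ j = 1 := Nat.find_spec (⟨k, hk⟩ : ∃ k, b.1 ^ 2 ^ k = 1)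
    have hj0 : j ≠ 0 := by
      intro h0
      rw [h0] at hj
      exact hbne (by simpa using hj)
    obtain ⟨i, hi⟩ := Nat.exists_eq_succ_of_ne_zero hj0
    refine ⟨2 ^ i, ?_, ?_⟩
    · exact Nat.find_min (⟨k, hk⟩ : ∃ k, b.1 ^ 2 ^ k = 1) (by omega)
    · rw [← pow_mul, ← pow_succ]
      rw [hi] at hj
      exact hj
  obtain ⟨c, hc1, hc2⟩ := hord
  set z := b.1 ^ c with hz
  have hzN : z ∈ N := N.pow_mem b.2 c
  have hzc : ∀ g : P, g * z * g⁻¹ = z := by
    intro g
    rw [hz]
    calc g * b.1 ^ c * g⁻¹ = (g * b.1 * g⁻¹) ^ c := by rw [conj_pow]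
      _ = b.1 ^ c := by rw [hbc]
  refine ⟨z, hzN, hc1, fun g hg => ?_⟩
  have hM : (Subgroup.zpowers z).Normal := by
    constructor
    rintro x ⟨i, rfl⟩ g
    refine ⟨i, ?_⟩
    simp only
    rw [← conj_zpow, hzc]
  have hgz := hmin (Subgroup.zpowers z) hM (by
    rw [Ne, Subgroup.zpowers_eq_bot]; exact hc1) hg
  obtain ⟨i, rfl⟩ := hgz
  rcases Int.even_or_odd' i with ⟨t, ht | ht⟩
  · left
    simp only
    rw [ht, zpow_mul]
    have : z ^ (2 : ℤ) = 1 := by exact_mod_cast hc2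
    rw [this, one_zpow]
  · right
    simp only
    rw [ht, zpow_add, zpow_mul]
    have : z ^ (2 : ℤ) = 1 := by exact_mod_cast hc2
    rw [this, one_zpow, one_mul, zpow_one]

theorem M2 : S_M2 := by
  classical
  intro F _ _ _ hF R U hR hU hUo hRU
  have := hF.compact
  -- a normal subgroup of minimal index
  have hex : ∃ n : ℕ, ∃ W : Subgroup F, (U ≤ W ∧ W.Normal ∧ ¬ R ≤ W) ∧ W.index = n :=
    ⟨_, U, ⟨le_rfl, hU, hRU⟩, rfl⟩
  obtain ⟨W, ⟨hUW, hW, hRW⟩, hWn⟩ := Nat.find_spec hex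
  have hmin := fun k (hk : k < Nat.find hex) => Nat.find_min hex hk
  have hWo : IsOpen (W : Set F) := Subgroup.isOpen_mono hUW hUo
  have hfin : Finite (F ⧸ W) := Subgroup.quotient_finite_of_isOpen W hWo
  have hidx : W.index ≠ 0 := by
    rw [Subgroup.index]
    exact Nat.card_pos.ne'
  have hmax : ∀ M : Subgroup F, M.Normal → W < M → R ≤ M := by
    intro M hM hWM
    by_contra hRM
    have h1 : W.relIndex M * M.index = W.index := Subgroup.relIndex_mul_index hWM.le
    have h2 : W.relIndex M ≠ 1 := by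
      intro h
      exact hWM.not_ge (Subgroup.relIndex_eq_one.1 h)
    have h3 : W.relIndex M ≠ 0 := by
      intro h
      rw [h, zero_mul] at h1
      exact hidx h1.symm
    have h4 : M.index ≠ 0 := by
      intro h
      rw [h, mul_zero] at h1
      exact hidx h1.symm
    have h5 : M.index < Nat.find hex := by
      rw [← hWn, ← h1]
      have : 2 ≤ W.relIndex M := by omega
      nlinarith [Nat.pos_of_ne_zero h4]
    exact hmin _ h5 ⟨M, ⟨hUW.trans hWM.le, hM, hRM⟩, rfl⟩
  -- `F ⧸ W` is a finite 2-group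
  have hPG : IsPGroup 2 (F ⧸ W) := by
    obtain ⟨V, hV, hVo, hVW, k, hk⟩ := hF.basis (W : Set F) (hWo.mem_nhds W.one_mem)
    have hd : W.index ∣ 2 ^ k := by
      rw [← hk]
      exact Subgroup.index_dvd_of_le hVW
    obtain ⟨j, _, hj⟩ := (Nat.dvd_prime_pow Nat.prime_two).1 hd
    exact IsPGroup.of_card (n := j) (by rw [← hj]; rfl)
  set N : Subgroup (F ⧸ W) := R.map (QuotientGroup.mk' W) with hNdef
  have hNn : N.Normal := hR.map _ (QuotientGroup.mk'_surjective W)
  have hNne : N ≠ ⊥ := by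
    intro h
    apply hRW
    intro x hx
    have : (QuotientGroup.mk' W) x ∈ N := ⟨x, hx, rfl⟩
    rw [h, Subgroup.mem_bot] at this
    exact (QuotientGroup.eq_one_iff x).1 this
  obtain ⟨z, hz, hz1, hzN⟩ := M2_min hPG N hNne (by
    intro M hM hMne
    have hlt : W < M.comap (QuotientGroup.mk' W) := by
      refine lt_of_le_of_ne ?_ ?_
      · intro x hx
        have : (QuotientGroup.mk' W) x = 1 := (QuotientGroup.eq_one_iff x).2 hx
        rw [Subgroup.mem_comap, this]
        exact M.one_mem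
      · intro h
        apply hMne
        rw [eq_bot_iff]
        intro y hy
        obtain ⟨x, rfl⟩ := QuotientGroup.mk'_surjective W y
        have : x ∈ M.comap (QuotientGroup.mk' W) := hy
        rw [← h] at this
        rw [Subgroup.mem_bot]
        exact (QuotientGroup.eq_one_iff x).2 this
    have := hmax _ (hM.comap _) hlt
    rintro _ ⟨x, hx, rfl⟩
    exact this hx)
  obtain ⟨r, hr, hrz⟩ := hz
  refine ⟨W, hUW, hW, hWo, r, hr, ?_, ?_⟩
  · intro h
    apply hz1
    rw [← hrz]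
    exact (QuotientGroup.eq_one_iff r).2 h
  · intro r' hr'
    rcases hzN _ ⟨r', hr', rfl⟩ with h | h
    · left
      exact (QuotientGroup.eq_one_iff r').1 h
    · right
      rw [← hrz] at h
      have : (QuotientGroup.mk' W) (r⁻¹ * r') = 1 := by
        rw [map_mul, map_inv, h, inv_mul_cancel]
      exact (QuotientGroup.eq_one_iff _).1 this

end Pool.Agent.H72R2.N2
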