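import Mathlib
import Pool.Agent.H72R2.N2.Stm2

set_option autoImplicit false

namespace Pool.Agent.H72R2.N2

open PowerSeries Pool.Agent.Helper168.NottDefs Topology
open scoped commutatorElement

theorem M3 : S_M3 := by
  intro F _ _ _ hF R T hT h x hx
  rw [← SetLike.mem_coe, Subgroup.topologicalClosure_coe, mem_closure_iff_nhds]
  intro W hW
  have hcont : Filter.Tendsto (fun y : F => x * y⁻¹) (𝓝 1) (𝓝 x) := by
    have : Continuous (fun y : F => x * y⁻¹) := by fun_prop
    have h2 := this.tendsto 1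
    simpa using h2
  obtain ⟨V, hVn, hVo, hVW, -⟩ := hF.basis _ (hcont hW)
  have h1 : R ≤ T ⊔ V := h (T ⊔ V) (Subgroup.sup_normal T V) (Subgroup.isOpen_mono le_sup_right hVo) le_sup_left
  have h2 : x ∈ ((T ⊔ V : Subgroup F) : Set F) := h1 hx
  rw [Subgroup.mul_normal, Set.mem_mul] at h2
  obtain ⟨t, ht, v, hv, rfl⟩ := h2
  refine ⟨t, ?_, ht⟩
  have := hVW hv
  simpa using this

end Pool.Agent.H72R2.N2
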