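import Mathlib
import Pool.Agent.H72R2.N2.Stm

set_option autoImplicit false

namespace Pool.Agent.H72R2.N2

open PowerSeries Pool.Agent.Helper168.NottDefs Topology

theorem TOP2 : S_TOP2 := by
  refine ⟨inferInstance, inferInstance, inferInstance, ?_⟩
  intro U hU
  obtain ⟨n, hn⟩ := Nott.exists_lev_subset hU
  refine ⟨Nott.lev 2 n, inferInstance, Nott.isOpen_lev n, hn, ?_⟩
  have hp : IsPGroup 2 (J ⧸ Nott.lev 2 n) := Nott.isProP.2.2.2 (Nott.lev 2 n) (Nott.isOpen_lev n)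
  have hfi : Finite (J ⧸ Nott.lev 2 n) := by
    have := Subgroup.quotient_finite_of_isOpen (Nott.lev 2 n) (Nott.isOpen_lev n)
    exact this
  obtain ⟨k, hk⟩ := IsPGroup.iff_card.1 hp
  exact ⟨k, hk⟩

end Pool.Agent.H72R2.N2
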