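import Mathlib
import Pool.Agent.H72R2.N2.Stm3

set_option autoImplicit false

namespace Pool.Agent.H72R2.N2

open PowerSeries Pool.Agent.Helper168.NottDefs Topology
open scoped commutatorElement
open Ext

theorem T_D0 (F : Facts) (z : S_Z) : S_D0 := by
  intro n X m hn hnm hT i j hi hj hij hev
  have H : Ext.Hyp n := F.hyp (by omega)
  have hij' : i + j + 1 = n := by omega
  have hje : Even j := by
    have : Even (i + j) := by rw [hij]; exact even_two_mul m
    exact (Nat.even_add.1 this).1 hev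
  have mg : aa (2 * i + 1) ∈ E i := F.mem.1 _ _ (by omega) (by omega)
  have mh : oo (j + 1) ∈ E j := F.mem.2 _ _ (by omega) (by omega)
  have ma2 : aa (2 * i + 2) ∈ E (i + 1) := F.mem.1 _ _ (by omega) (by omega)
  have ma3 : aa (2 * i + 3) ∈ E (i + 1) := F.mem.1 _ _ (by omega) (by omega)
  have mo2 : oo (j + 2) ∈ E (j + 1) := F.mem.2 _ _ (by omega) (by omega)
  have mg1 : aa (2 * i + 2) * aa (2 * i + 3) ^ i ∈ E (i + 1) :=
    (E (i + 1)).mul_mem ma2 ((E (i + 1)).pow_mem ma3 i)
  have mh1 : oo (j + 2) ^ (j + 1) ∈ E (j + 1) := (E (j + 1)).pow_mem mo2 _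
  have cg := F.b2 i (by omega)
  have ch := F.b3 j (by omega)
  rw [mul_assoc (aa (2 * i + 1)) (aa (2 * i + 2)) _] at cg
  obtain ⟨hgood, hD⟩ := move hT (i := i) (j := j) (s := i + 2) (t := j + 2) mg mh
    (E_anti (by omega) mg1) (by omega) (by omega) (by omega) (by omega) cg ch (by omega) (by omega)
    (good_lev H (by omega) (by omega) mg1 mh (by omega))
    (good_lev H (by omega) (by omega) mg mh1 (by omega))
    (good_lev H (by omega) (by omega) mg1 mh1 (by omega))
  have e0 : X.D (oo 1) ⁅aa (2 * i + 1), oo (j + 1)⁆ = X.D (oo 1) (aa (2 * n)) := by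
    have hc := F.c4 (2 * i + 1) (j + 1) (n + 1) (odd_two_mul_add_one i) (by omega) (by omega)
      (by omega) (by omega)
    rw [show 2 * i + 1 + 2 * (j + 1) - 1 = 2 * n by omega] at hc
    unfold Ext.D
    rw [C_congr_top hc]
  have e1 : X.D (aa (2 * i + 2) * aa (2 * i + 3) ^ i) (oo (j + 1)) = 0 := by
    have ga2 : X.good (aa (2 * i + 2)) (oo (j + 1)) :=
      good_lev H (by omega) (by omega) ma2 mh (by omega)
    have ga3 : X.good (aa (2 * i + 3)) (oo (j + 1)) :=
      good_lev H (by omega) (by omega) ma3 mh (by omega)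
    rw [D_mul_left ga2 (ga3.pow_left i), D_pow_left ga3]
    have hz := z n X n hn (Or.inl rfl) hT (i + 1) (oo (j + 1)) (by omega) (by omega)
      (by rw [show n - (i + 1) = j by omega]; exact mh)
    have h2 : X.D (aa (2 * i + 2)) (oo (j + 1)) = 0 := D_eq_zero hz
    have h3 : (i : ZMod 2) = 0 := (ZMod.natCast_eq_zero_iff_even).2 hev
    rw [h2, h3, zero_smul, add_zero]
  have e2 : X.D (aa (2 * i + 1)) (oo (j + 2) ^ (j + 1)) = X.D (aa (2 * i + 1)) (oo (j + 2)) := by
    have gg : X.good (aa (2 * i + 1)) (oo (j + 2)) :=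
      good_lev H (by omega) (by omega) mg mo2 (by omega)
    rw [D_pow_right gg]
    have h3 : ((j + 1 : ℕ) : ZMod 2) = 1 := by
      have : (j : ZMod 2) = 0 := (ZMod.natCast_eq_zero_iff_even).2 hje
      push_cast
      rw [this, zero_add]
    rw [h3, one_smul]
  have e3 : X.D (aa (2 * i + 2) * aa (2 * i + 3) ^ i) (oo (j + 2) ^ (j + 1)) = 0 :=
    D_eq_zero (hT (i + 1) (j + 1) _ _ (by omega) (by omega) (by omega) mg1 mh1)
  rw [e0, e1, e2, e3, zero_add, add_zero] at hD
  exact hD

end Pool.Agent.H72R2.N2
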